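import Pool.Agent.EinU.GHat

/-!
# The nonlinear estimate

Notation of `GHat.lean`; `D = S - Π S Π = Πh S + S Πh - Πh S Πh`, so `P̂ = S - D + α̂`.
`UU (Cm C) A B = (UU C (blk κ A) (blk κ B)).toBlocks₂₂` (`UU_blk`), `blk κ S₂₂ = Π S Π`.

* `Πh S = Πh (S Πh)ᵀ`, `S Πh = (S Πh) Πhᵀ`, `Πh S Πh = Πh (Πh S Πh)ᵀ` with `Eta (Πh S Πh) (τ c)`: so
  `‖UU C D V‖ ≤ 3 c τ² ‖V‖` for symmetric `V` (`qf_le`, `norm_UU_of_qf`).
* `UU C Ĝ P̂ = UU C T S + AA C S T α̂ + e₂`, `‖e₂‖ ≤ 15 c⁸ (τ + r)²`: `ghat_err` with `V = P̂` (`‖P̂‖ ≤ 3c/2`),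
  `UU C X P̂ = UU C X (S + α̂) - UU C X D`, `‖X‖ ≤ 3c/2`, `‖UU C (T α̂ T) α̂‖ ≤ c² r²`.
* `UU C P̂ P̂ = UU C S S + 2 UU C S α̂ + e₃`, `‖e₃‖ ≤ 15 c² τ² + r²`.
* `P = S₂₂ + α`, `1 - U = (ω pp - AA - e₂)₂₂`; `S pp = pp`, `Π pp = pp`, so `P pp = pp + α pp`; with
  `pp α = α pp`, `pp² = pp` : `P pp P = pp + 2 pp α pp + α pp α`; `AA = pp AA pp` (`hB.z`), `‖AA‖ ≤ 2 c³ r`:
  `P AA P = AA + O(r ‖AA‖)`; `‖P‖ ≤ 3c/2`.  Everything is at most `25 c¹⁰ (τ + r)²`.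
-/

namespace Pool.Agent.EinU

open Matrix Pool.Agent.EStab Pool.Agent.EinS Pool.Agent.SmIso
open scoped Matrix.Norms.L2Operator

set_option linter.unusedSectionVars false

variable {κ ι : Type*} [Fintype κ] [DecidableEq κ] [Fintype ι] [DecidableEq ι]
  {C : κ ⊕ ι → Matrix (κ ⊕ ι) (κ ⊕ ι) ℝ} {S T pp : Matrix (κ ⊕ ι) (κ ⊕ ι) ℝ}
  {c τ ω lam eps : ℝ}

theorem UU_blk (C : κ ⊕ ι → Matrix (κ ⊕ ι) (κ ⊕ ι) ℝ) (A B : Matrix ι ι ℝ) :
    UU (Cm C) A B = (UU C (blk κ A) (blk κ B)).toBlocks₂₂ := by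
  ext x y
  unfold UU Cm blk
  rw [Matrix.toBlocks₂₂, Matrix.of_apply, Matrix.of_apply, Matrix.of_apply]
  generalize C (Sum.inr x) = E
  generalize C (Sum.inr y) = F
  rw [← Matrix.fromBlocks_toBlocks E, ← Matrix.fromBlocks_toBlocks F]
  simp only [Matrix.toBlocks_fromBlocks₂₂, Matrix.fromBlocks_transpose,
    Matrix.fromBlocks_multiply, Matrix.mul_zero, Matrix.zero_mul, add_zero, zero_add]
  simp [Matrix.trace, Fintype.sum_sum_type]

private theorem NL_t22_add (A B : Matrix (κ ⊕ ι) (κ ⊕ ι) ℝ) :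
    (A + B).toBlocks₂₂ = A.toBlocks₂₂ + B.toBlocks₂₂ := rfl

private theorem NL_t22_sub (A B : Matrix (κ ⊕ ι) (κ ⊕ ι) ℝ) :
    (A - B).toBlocks₂₂ = A.toBlocks₂₂ - B.toBlocks₂₂ := rfl

private theorem NL_t22_smul (a : ℝ) (A : Matrix (κ ⊕ ι) (κ ⊕ ι) ℝ) :
    (a • A).toBlocks₂₂ = a • A.toBlocks₂₂ := rfl

private theorem NL_t22_one : (1 : Matrix (κ ⊕ ι) (κ ⊕ ι) ℝ).toBlocks₂₂ = 1 := by
  rw [← Matrix.fromBlocks_one, Matrix.toBlocks_fromBlocks₂₂]

private theorem NL_t22_blk (A : Matrix ι ι ℝ) : (blk κ A).toBlocks₂₂ = A := by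
  rw [blk, Matrix.toBlocks_fromBlocks₂₂]

private theorem NL_blk_add (A B : Matrix ι ι ℝ) : blk κ (A + B) = blk κ A + blk κ B := by
  unfold blk
  rw [Matrix.fromBlocks_add]
  simp

private theorem NL_blk_mul (A B : Matrix ι ι ℝ) : blk κ (A * B) = blk κ A * blk κ B := by
  unfold blk
  rw [Matrix.fromBlocks_multiply]
  simp

private theorem NL_blk_symm {A : Matrix ι ι ℝ} (hA : A.IsSymm) : (blk κ A).IsSymm := by
  unfold Matrix.IsSymm blk
  rw [Matrix.fromBlocks_transpose, hA.eq]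
  simp

private theorem NL_t22_symm {A : Matrix (κ ⊕ ι) (κ ⊕ ι) ℝ} (hA : A.IsSymm) :
    A.toBlocks₂₂.IsSymm := by
  ext i j
  exact congrFun (congrFun hA (Sum.inr i)) (Sum.inr j)

private theorem NL_blk_mul_blk (p : Matrix ι ι ℝ) (A : Matrix (κ ⊕ ι) (κ ⊕ ι) ℝ) :
    (blk κ p * A * blk κ p).toBlocks₂₂ = p * A.toBlocks₂₂ * p := by
  rw [← Matrix.fromBlocks_toBlocks A]
  unfold blk
  simp only [Matrix.toBlocks_fromBlocks₂₂, Matrix.fromBlocks_multiply, Matrix.mul_zero,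
    Matrix.zero_mul, add_zero, zero_add]

private theorem NL_D (S : Matrix (κ ⊕ ι) (κ ⊕ ι) ℝ) :
    S - blk κ S.toBlocks₂₂ = Ph κ ι * S + S * Ph κ ι + (-1 : ℝ) • (Ph κ ι * S * Ph κ ι) := by
  conv_lhs => rw [← Matrix.fromBlocks_toBlocks S]
  conv_rhs => rw [← Matrix.fromBlocks_toBlocks S]
  unfold blk Ph
  simp only [Matrix.toBlocks_fromBlocks₂₂, Matrix.fromBlocks_multiply, Matrix.mul_zero,
    Matrix.zero_mul, add_zero, zero_add, Matrix.one_mul, Matrix.mul_one, Matrix.fromBlocks_add,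
    sub_eq_add_neg, Matrix.fromBlocks_neg, neg_zero, neg_smul, one_smul]
  congr 1
  · abel
  · abel

private theorem NL_Ph_symm : (Ph κ ι : Matrix (κ ⊕ ι) (κ ⊕ ι) ℝ)ᵀ = Ph κ ι := by
  unfold Ph
  rw [Matrix.fromBlocks_transpose]
  simp

private theorem NL_Ph_sq : (Ph κ ι : Matrix (κ ⊕ ι) (κ ⊕ ι) ℝ) * Ph κ ι = Ph κ ι := by
  unfold Ph
  rw [Matrix.fromBlocks_multiply]
  simp

private theorem NL_pp (hB : BaseH C S T pp c τ ω lam eps) : pp = blk κ pp.toBlocks₂₂ := by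
  have h1 := hB.hpp
  have h2 := hB.symp.eq
  rw [← Matrix.fromBlocks_toBlocks pp] at h1 h2
  unfold Ph at h1
  rw [Matrix.fromBlocks_multiply] at h1
  rw [Matrix.fromBlocks_transpose] at h2
  have h0 : (0 : Matrix (κ ⊕ ι) (κ ⊕ ι) ℝ) = fromBlocks 0 0 0 0 := Matrix.fromBlocks_zero.symm
  rw [h0, Matrix.fromBlocks_inj] at h1
  rw [Matrix.fromBlocks_inj] at h2
  obtain ⟨a1, a2, -, -⟩ := h1
  obtain ⟨-, b2, -, -⟩ := h2
  simp only [Matrix.one_mul, Matrix.zero_mul, add_zero] at a1 a2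
  have a3 : pp.toBlocks₂₁ = 0 := by
    have := congrArg Matrix.transpose b2
    rw [Matrix.transpose_transpose, a2, Matrix.transpose_zero] at this
    exact this
  conv_lhs => rw [← Matrix.fromBlocks_toBlocks pp]
  unfold blk
  rw [a1, a2, a3]

private theorem NL_norm_pp (hB : BaseH C S T pp c τ ω lam eps) : ‖pp‖ ≤ 1 := by
  have h1 := Matrix.l2_opNorm_conjTranspose_mul_self pp
  rw [Matrix.conjTranspose_eq_transpose_of_trivial, hB.symp.eq, hB.pp2] at h1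
  by_contra h
  push Not at h
  nlinarith [norm_nonneg pp]

private theorem NL_norm_UU (hB : BaseH C S T pp c τ ω lam eps)
    {A B : Matrix (κ ⊕ ι) (κ ⊕ ι) ℝ} (hA : A.IsSymm) (hBs : B.IsSymm) :
    ‖UU C A B‖ ≤ ‖A‖ * ‖B‖ := by
  refine norm_UU_le (fun v => ?_) hA hBs
  rw [hB.one, Matrix.one_mulVec]

/-- the estimate for `D` -/
private theorem NL_UU_D (hB : BaseH C S T pp c τ ω lam eps)
    {V : Matrix (κ ⊕ ι) (κ ⊕ ι) ℝ} (hV : V.IsSymm) :
    ‖UU C (S - blk κ S.toBlocks₂₂) V‖ ≤ 3 * c * τ ^ 2 * ‖V‖ := by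
  have hc0 : 0 ≤ c := zero_le_one.trans hB.c1
  have hD : (S - blk κ S.toBlocks₂₂).IsSymm :=
    hB.symS.sub (NL_blk_symm (NL_t22_symm hB.symS))
  have hτ := hB.eh.1
  refine norm_UU_of_qf hD hV (by positivity) fun v => ?_
  have e1 : Ph κ ι * S = Ph κ ι * (S * Ph κ ι)ᵀ := by
    rw [Matrix.transpose_mul, NL_Ph_symm, hB.symS.eq, ← Matrix.mul_assoc, NL_Ph_sq]
  have e2 : S * Ph κ ι = (S * Ph κ ι) * (Ph κ ι)ᵀ := by
    rw [NL_Ph_symm, Matrix.mul_assoc, NL_Ph_sq]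
  have e3 : Ph κ ι * S * Ph κ ι = Ph κ ι * (Ph κ ι * (S * Ph κ ι))ᵀ := by
    rw [Matrix.transpose_mul, Matrix.transpose_mul, NL_Ph_symm, hB.symS.eq, ← Matrix.mul_assoc,
      ← Matrix.mul_assoc, NL_Ph_sq]
  have hE3 : Eta C (Ph κ ι * (S * Ph κ ι)) (τ * c) := by
    refine (hB.eh.mul (S * Ph κ ι)).mono (mul_le_mul_of_nonneg_left ?_ hτ)
    refine (norm_mul_le _ _).trans ?_
    calc ‖S‖ * ‖(Ph κ ι : Matrix (κ ⊕ ι) (κ ⊕ ι) ℝ)‖ ≤ c * 1 :=
          mul_le_mul hB.nS norm_Ph_le (norm_nonneg _) hc0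
      _ = c := mul_one c
  have q1 := qf_le hB.eh hB.eS V v
  have q2 := qf_le hB.eS hB.eh V v
  have q3 := qf_le hB.eh hE3 V v
  rw [← e1] at q1
  rw [← e2] at q2
  rw [← e3] at q3
  rw [NL_D, qf_add, qf_add, qf_smul]
  have hvv : 0 ≤ v ⬝ᵥ v := dot_self_nonneg v
  have h1 : |qf C (Ph κ ι * S) V v + qf C (S * Ph κ ι) V v +
      -1 * qf C (Ph κ ι * S * Ph κ ι) V v| ≤
      ‖V‖ * τ * τ * (v ⬝ᵥ v) + ‖V‖ * τ * τ * (v ⬝ᵥ v) + ‖V‖ * τ * (τ * c) * (v ⬝ᵥ v) := by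
    rw [abs_le] at q1 q2 q3 ⊢
    constructor <;> linarith [q1.1, q1.2, q2.1, q2.2, q3.1, q3.2]
  refine h1.trans ?_
  have h2 : 0 ≤ ‖V‖ * τ ^ 2 * (v ⬝ᵥ v) := by positivity
  nlinarith [hB.c1]

theorem nl_bound (hB : BaseH C S T pp c τ ω lam eps) {α : Matrix ι ι ℝ} (hα : α.IsSymm)
    (hp : α * pp.toBlocks₂₂ = pp.toBlocks₂₂ * α) {r : ℝ}
    (hr : r ≤ 1 / (2 * c)) (hαr : ‖α‖ ≤ r) :
    ‖EE (Cm C) lam (S.toBlocks₂₂ + α) (S.toBlocks₂₂ + α)⁻¹ -
        ((ω / 2) • pp + (1 / 4 : ℝ) • UU C S S - lam • S).toBlocks₂₂ -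
        (ellM C S T pp ω lam (blk κ α)).toBlocks₂₂‖ ≤ 50 * c ^ 10 * (τ + r) ^ 2 := by
  have hc1 := hB.c1
  have hc0 : 0 < c := by linarith
  have hτ := hB.eh.1
  have hr0 : 0 ≤ r := (norm_nonneg α).trans hαr
  have hr2 : r ≤ 1 / 2 := by
    refine hr.trans ?_
    rw [div_le_div_iff₀ (by positivity) (by norm_num)]
    linarith
  have hcr : c * r ≤ 1 / 2 := by
    calc c * r ≤ c * (1 / (2 * c)) := mul_le_mul_of_nonneg_left hr hc0.le
      _ = 1 / 2 := by field_simp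
  obtain ⟨-, hGs, -, -⟩ := ghat_inv hB hα (hαr.trans hr)
  have hs : S.toBlocks₂₂.IsSymm := NL_t22_symm hB.symS
  set s := S.toBlocks₂₂ with hsdef
  set p := pp.toBlocks₂₂ with hpdef
  set P := s + α with hP
  have hPs : P.IsSymm := hs.add hα
  have hah : (blk κ α).IsSymm := NL_blk_symm hα
  have hPh : (blk κ P).IsSymm := NL_blk_symm hPs
  have hGh : (blk κ P⁻¹).IsSymm := NL_blk_symm hGs
  have nα : ‖blk κ α‖ ≤ r := (norm_blk_le hα).trans hαr
  have nP : ‖P‖ ≤ 3 / 2 * c := by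
    refine (norm_add_le _ _).trans ?_
    have := (norm_blocks_le hB.symS).trans hB.nS
    linarith
  have nPh : ‖blk κ P‖ ≤ 3 / 2 * c := (norm_blk_le hPs).trans nP
  have hTaT : (T * blk κ α * T).IsSymm := by
    unfold Matrix.IsSymm
    rw [Matrix.transpose_mul, Matrix.transpose_mul, hB.symT.eq, hah.eq, Matrix.mul_assoc]
  have nTaT : ‖T * blk κ α * T‖ ≤ c * r * c := by
    refine (norm_mul_le _ _).trans (mul_le_mul ?_ hB.nT (norm_nonneg _) (by positivity))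
    exact (norm_mul_le _ _).trans (mul_le_mul hB.nT nα (norm_nonneg _) hc0.le)
  have hX : (T - T * blk κ α * T).IsSymm := hB.symT.sub hTaT
  have nX : ‖T - T * blk κ α * T‖ ≤ 3 / 2 * c := by
    refine (norm_sub_le _ _).trans ?_
    have := hB.nT
    nlinarith
  have hSa : (S + blk κ α).IsSymm := hB.symS.add hah
  have nSa : ‖S + blk κ α‖ ≤ 3 / 2 * c := by
    refine (norm_add_le _ _).trans ?_
    have := hB.nS
    linarith
  have hDs : (S - blk κ s).IsSymm := hB.symS.sub (NL_blk_symm hs)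
  -- the decomposition of `UU C Ĝ P̂`
  have hPhat : blk κ P = (S + blk κ α) + (-1 : ℝ) • (S - blk κ s) := by
    rw [hP, NL_blk_add]
    module
  have e2eq : UU C (blk κ P⁻¹) (blk κ P) = UU C T S + AA C S T (blk κ α) +
      (UU C (blk κ P⁻¹ - T + T * blk κ α * T) (blk κ P) -
        UU C (S - blk κ s) (T - T * blk κ α * T) - UU C (T * blk κ α * T) (blk κ α)) := by
    have h1 : blk κ P⁻¹ = (blk κ P⁻¹ - T + T * blk κ α * T) + (T - T * blk κ α * T) := by abel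
    have h2 : UU C (T - T * blk κ α * T) (blk κ P) =
        UU C (T - T * blk κ α * T) (S + blk κ α) - UU C (S - blk κ s) (T - T * blk κ α * T) := by
      rw [UU_comm hB.csym hDs hX]
      conv_lhs => rw [hPhat, UU_add_right, UU_smul_right]
      module
    have h3 : UU C (T - T * blk κ α * T) (S + blk κ α) = UU C T S + AA C S T (blk κ α) -
        UU C (T * blk κ α * T) (blk κ α) := by
      have h4 : T - T * blk κ α * T = T + (-1 : ℝ) • (T * blk κ α * T) := by module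
      rw [h4, UU_add_left, UU_smul_left, UU_add_right, UU_add_right]
      unfold AA
      module
    conv_lhs => rw [h1, UU_add_left, h2, h3]
    abel
  set e2 := UU C (blk κ P⁻¹ - T + T * blk κ α * T) (blk κ P) -
        UU C (S - blk κ s) (T - T * blk κ α * T) - UU C (T * blk κ α * T) (blk κ α) with he2
  have he2s : e2.IsSymm := by
    rw [he2]
    refine ((UU_symm C ?_ hPh).sub (UU_symm C hDs hX)).sub (UU_symm C hTaT hah)
    exact (hGh.sub hB.symT).add hTaT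
  have ne2 : ‖e2‖ ≤ 15 * c ^ 8 * (τ + r) ^ 2 := by
    have b1 := ghat_err hB hα hr hαr hPh
    have b2 := NL_UU_D hB hX
    have b3 := NL_norm_UU hB hTaT hah
    rw [← hsdef] at b2
    have hcp : (1 : ℝ) ≤ c ^ 6 := one_le_pow₀ hc1
    have b1' : ‖UU C (blk κ P⁻¹ - T + T * blk κ α * T) (blk κ P)‖ ≤
        6 * c ^ 7 * (τ + r) ^ 2 * (3 / 2 * c) :=
      b1.trans (mul_le_mul_of_nonneg_left nPh (by positivity))
    have b2' : ‖UU C (S - blk κ s) (T - T * blk κ α * T)‖ ≤ 3 * c * τ ^ 2 * (3 / 2 * c) :=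
      b2.trans (mul_le_mul_of_nonneg_left nX (by positivity))
    have b3' : ‖UU C (T * blk κ α * T) (blk κ α)‖ ≤ c * r * c * r :=
      b3.trans (mul_le_mul nTaT nα (norm_nonneg _) (by positivity))
    have tri : ‖e2‖ ≤ 6 * c ^ 7 * (τ + r) ^ 2 * (3 / 2 * c) + 3 * c * τ ^ 2 * (3 / 2 * c) +
        c * r * c * r := by
      rw [he2]
      refine (norm_sub_le _ _).trans (add_le_add ((norm_sub_le _ _).trans (add_le_add b1' b2')) b3')
    refine tri.trans ?_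
    have t1 : τ ^ 2 ≤ (τ + r) ^ 2 := pow_le_pow_left₀ hτ (by linarith) 2
    have t2 : r ^ 2 ≤ (τ + r) ^ 2 := pow_le_pow_left₀ hr0 (by linarith) 2
    have t3 : c ^ 2 * (τ + r) ^ 2 ≤ c ^ 8 * (τ + r) ^ 2 :=
      mul_le_mul_of_nonneg_right (pow_le_pow_right₀ hc1 (by norm_num)) (by positivity)
    have t4 : c ^ 2 * τ ^ 2 ≤ c ^ 2 * (τ + r) ^ 2 := mul_le_mul_of_nonneg_left t1 (by positivity)
    have t5 : c ^ 2 * r ^ 2 ≤ c ^ 2 * (τ + r) ^ 2 := mul_le_mul_of_nonneg_left t2 (by positivity)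
    have t6 : 0 ≤ c ^ 8 * (τ + r) ^ 2 := by positivity
    nlinarith
  -- the decomposition of `UU C P̂ P̂`
  have e3eq : UU C (blk κ P) (blk κ P) = UU C S S + (2 : ℝ) • UU C S (blk κ α) +
      (UU C (blk κ α) (blk κ α) - UU C (S - blk κ s) (S + blk κ α) -
        UU C (S - blk κ s) (blk κ P)) := by
    have h1 : UU C (blk κ P) (blk κ P) =
        UU C (S + blk κ α) (blk κ P) - UU C (S - blk κ s) (blk κ P) := by
      nth_rewrite 1 [hPhat]
      rw [UU_add_left, UU_smul_left]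
      module
    have h2 : UU C (S + blk κ α) (blk κ P) =
        UU C (S + blk κ α) (S + blk κ α) - UU C (S - blk κ s) (S + blk κ α) := by
      rw [UU_comm hB.csym hDs hSa]
      conv_lhs => rw [hPhat, UU_add_right, UU_smul_right]
      module
    have h3 : UU C (S + blk κ α) (S + blk κ α) = UU C S S + (2 : ℝ) • UU C S (blk κ α) +
        UU C (blk κ α) (blk κ α) := by
      rw [UU_add_left, UU_add_right, UU_add_right, UU_comm hB.csym hah hB.symS]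
      module
    rw [h1, h2, h3]
    abel
  set e3 := UU C (blk κ α) (blk κ α) - UU C (S - blk κ s) (S + blk κ α) -
        UU C (S - blk κ s) (blk κ P) with he3
  have he3s : e3.IsSymm := by
    rw [he3]
    exact ((UU_symm C hah hah).sub (UU_symm C hDs hSa)).sub (UU_symm C hDs hPh)
  have ne3 : ‖e3‖ ≤ 10 * c ^ 2 * (τ + r) ^ 2 := by
    have b1 := NL_norm_UU hB hah hah
    have b2 := NL_UU_D hB hSa
    have b3 := NL_UU_D hB hPh
    rw [← hsdef] at b2 b3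
    have b1' : ‖UU C (blk κ α) (blk κ α)‖ ≤ r * r :=
      b1.trans (mul_le_mul nα nα (norm_nonneg _) hr0)
    have b2' : ‖UU C (S - blk κ s) (S + blk κ α)‖ ≤ 3 * c * τ ^ 2 * (3 / 2 * c) :=
      b2.trans (mul_le_mul_of_nonneg_left nSa (by positivity))
    have b3' : ‖UU C (S - blk κ s) (blk κ P)‖ ≤ 3 * c * τ ^ 2 * (3 / 2 * c) :=
      b3.trans (mul_le_mul_of_nonneg_left nPh (by positivity))
    have tri : ‖e3‖ ≤ r * r + 3 * c * τ ^ 2 * (3 / 2 * c) + 3 * c * τ ^ 2 * (3 / 2 * c) := by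
      rw [he3]
      refine (norm_sub_le _ _).trans (add_le_add ((norm_sub_le _ _).trans (add_le_add b1' b2')) b3')
    refine tri.trans ?_
    have t1 : τ ^ 2 + r ^ 2 ≤ (τ + r) ^ 2 := by nlinarith [mul_nonneg hτ hr0]
    have t2 : (1 : ℝ) ≤ c ^ 2 := one_le_pow₀ hc1
    have t3 : c ^ 2 * (τ ^ 2 + r ^ 2) ≤ c ^ 2 * (τ + r) ^ 2 :=
      mul_le_mul_of_nonneg_left t1 (by positivity)
    have t4 : r ^ 2 ≤ c ^ 2 * r ^ 2 := le_mul_of_one_le_left (by positivity) t2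
    have t5 : 0 ≤ c ^ 2 * τ ^ 2 := by positivity
    have t6 : 0 ≤ c ^ 2 * r ^ 2 := by positivity
    nlinarith
  -- the matrices on the complement
  have hppblk : pp = blk κ p := NL_pp hB
  have hpp2 : p * p = p := by
    have h1 := congrArg Matrix.toBlocks₂₂ hB.pp2
    rw [hppblk, ← NL_blk_mul, NL_t22_blk, NL_t22_blk] at h1
    exact h1
  have hps : p.IsSymm := NL_t22_symm hB.symp
  have hsp : s * p = p := by
    have h1 := congrArg Matrix.toBlocks₂₂ hB.Spp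
    rw [hppblk, NL_t22_blk, ← Matrix.fromBlocks_toBlocks S] at h1
    unfold blk at h1
    simp only [Matrix.fromBlocks_multiply, Matrix.toBlocks_fromBlocks₂₂, Matrix.mul_zero,
      zero_add] at h1
    exact h1
  have hps' : p * s = p := by
    have h1 := congrArg Matrix.transpose hsp
    rw [Matrix.transpose_mul, hps.eq, hs.eq] at h1
    exact h1
  have hcomm : blk κ α * pp = pp * blk κ α := by
    rw [hppblk, ← NL_blk_mul, ← NL_blk_mul, hp]
  set AAa := AA C S T (blk κ α) with hAAa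
  have hAAs : AAa.IsSymm := by
    rw [hAAa]
    unfold AA
    exact (UU_symm C hB.symT hah).sub (UU_symm C hTaT hB.symS)
  have hAAz : AAa = pp * AAa * pp := hB.z _ hah hcomm
  set Z := AAa.toBlocks₂₂ with hZdef
  have hZ : p * Z * p = Z := by
    have h1 := congrArg Matrix.toBlocks₂₂ hAAz
    rw [hppblk, NL_blk_mul_blk] at h1
    exact h1.symm
  have hpZ : p * Z = Z := by
    calc p * Z = p * (p * Z * p) := by rw [hZ]
      _ = (p * p) * Z * p := by simp only [Matrix.mul_assoc]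
      _ = Z := by rw [hpp2, hZ]
  have hZp : Z * p = Z := by
    calc Z * p = (p * Z * p) * p := by rw [hZ]
      _ = p * Z * (p * p) := by simp only [Matrix.mul_assoc]
      _ = Z := by rw [hpp2, hZ]
  have nZ : ‖Z‖ ≤ 2 * c ^ 3 * r := by
    refine (norm_blocks_le hAAs).trans ?_
    rw [hAAa]
    unfold AA
    refine (norm_sub_le _ _).trans ?_
    have b1 := (NL_norm_UU hB hB.symT hah).trans
      (mul_le_mul hB.nT nα (norm_nonneg _) hc0.le)
    have b2 := (NL_norm_UU hB hTaT hB.symS).trans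
      (mul_le_mul nTaT hB.nS (norm_nonneg _) (by positivity))
    have t1 : c * r ≤ c ^ 3 * r := by
      refine mul_le_mul_of_nonneg_right ?_ hr0
      calc c = c ^ 1 := (pow_one c).symm
        _ ≤ c ^ 3 := pow_le_pow_right₀ hc1 (by norm_num)
    nlinarith
  set E2 := e2.toBlocks₂₂ with hE2
  set E3 := e3.toBlocks₂₂ with hE3
  have nE2 : ‖E2‖ ≤ 15 * c ^ 8 * (τ + r) ^ 2 := (norm_blocks_le he2s).trans ne2
  have nE3 : ‖E3‖ ≤ 10 * c ^ 2 * (τ + r) ^ 2 := (norm_blocks_le he3s).trans ne3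
  have hU : UU (Cm C) P⁻¹ P = 1 - ω • p + Z + E2 := by
    rw [UU_blk, e2eq, hB.uts, NL_t22_add, NL_t22_add, NL_t22_sub, NL_t22_one, NL_t22_smul]
  have hV : UU (Cm C) P P = (UU C S S).toBlocks₂₂ + (2 : ℝ) • (UU C S (blk κ α)).toBlocks₂₂ +
      E3 := by
    rw [UU_blk, e3eq, NL_t22_add, NL_t22_add, NL_t22_smul]
  have hell : (ellM C S T pp ω lam (blk κ α)).toBlocks₂₂ =
      ω • (p * α * p) - (1 / 2 : ℝ) • Z + (1 / 2 : ℝ) • (UU C S (blk κ α)).toBlocks₂₂ -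
        lam • α := by
    unfold ellM
    rw [← hAAa, NL_t22_sub, NL_t22_add, NL_t22_sub, NL_t22_smul, NL_t22_smul, NL_t22_smul,
      NL_t22_smul, ← hAAz, NL_t22_blk, hppblk, NL_blk_mul_blk, NL_t22_blk]
  have hbase : ((ω / 2) • pp + (1 / 4 : ℝ) • UU C S S - lam • S).toBlocks₂₂ =
      (ω / 2) • p + (1 / 4 : ℝ) • (UU C S S).toBlocks₂₂ - lam • s := by
    rw [NL_t22_sub, NL_t22_add, NL_t22_smul, NL_t22_smul, NL_t22_smul]
  -- products
  have hPp : P * p = p + α * p := by rw [hP, Matrix.add_mul, hsp]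
  have hpP : p * P = p + p * α := by rw [hP, Matrix.mul_add, hps']
  have hPpP : P * p * P = p + (2 : ℝ) • (p * α * p) + α * p * α := by
    have h1 : p * α * p = p * α := by
      rw [← hp, Matrix.mul_assoc, hpp2]
    rw [hPp, Matrix.add_mul, hpP, Matrix.mul_assoc, hpP, h1, Matrix.mul_add, hp, ← Matrix.mul_assoc,
      hp]
    module
  have hPZP : P * Z * P = Z + (α * Z + Z * α + α * Z * α) := by
    have h1 : P * Z = Z + α * Z := by
      calc P * Z = P * p * Z := by rw [Matrix.mul_assoc, hpZ]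
        _ = (p + α * p) * Z := by rw [hPp]
        _ = Z + α * Z := by rw [Matrix.add_mul, Matrix.mul_assoc, hpZ]
    have h2 : Z * P = Z + Z * α := by
      calc Z * P = Z * (p * P) := by rw [← Matrix.mul_assoc, hZp]
        _ = Z * (p + p * α) := by rw [hpP]
        _ = Z + Z * α := by rw [Matrix.mul_add, ← Matrix.mul_assoc, hZp]
    rw [h1, Matrix.add_mul, h2, Matrix.mul_assoc, h2, Matrix.mul_add, ← Matrix.mul_assoc]
    abel
  have hmain : EE (Cm C) lam P P⁻¹ -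
        ((ω / 2) • pp + (1 / 4 : ℝ) • UU C S S - lam • S).toBlocks₂₂ -
        (ellM C S T pp ω lam (blk κ α)).toBlocks₂₂ =
      (ω / 2) • (α * p * α) - (1 / 2 : ℝ) • (α * Z + Z * α + α * Z * α) -
        (1 / 2 : ℝ) • (P * E2 * P) + (1 / 4 : ℝ) • E3 := by
    unfold EE
    have h1 : ∀ Q : Matrix ι ι ℝ, Q * (1 - ω • p + Z + E2) * Q =
        Q * Q - ω • (Q * p * Q) + Q * Z * Q + Q * E2 * Q := fun Q => by
      rw [Matrix.mul_add, Matrix.mul_add, Matrix.mul_sub, Matrix.mul_one, Matrix.mul_smul,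
        Matrix.add_mul, Matrix.add_mul, Matrix.sub_mul, Matrix.smul_mul]
    rw [hU, hV, hell, hbase, h1, hPpP, hPZP, hP]
    module
  rw [hmain]
  have npp : ‖p‖ ≤ 1 := (norm_blocks_le hB.symp).trans (NL_norm_pp hB)
  have hcp : (1 : ℝ) ≤ c ^ 6 := one_le_pow₀ hc1
  have n1 : ‖(ω / 2) • (α * p * α)‖ ≤ c / 2 * (r * 1 * r) := by
    rw [norm_smul]
    refine mul_le_mul ?_ ?_ (norm_nonneg _) (by positivity)
    · rw [Real.norm_eq_abs, abs_div, abs_of_pos (by norm_num : (0 : ℝ) < 2)]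
      have := hB.om
      linarith
    · refine (norm_mul_le _ _).trans (mul_le_mul ?_ hαr (norm_nonneg _) (by positivity))
      exact (norm_mul_le _ _).trans (mul_le_mul hαr npp (norm_nonneg _) hr0)
  have n2 : ‖(1 / 2 : ℝ) • (α * Z + Z * α + α * Z * α)‖ ≤
      1 / 2 * (r * (2 * c ^ 3 * r) + (2 * c ^ 3 * r) * r + r * (2 * c ^ 3 * r) * r) := by
    rw [norm_smul, Real.norm_of_nonneg (by norm_num)]
    refine mul_le_mul_of_nonneg_left ?_ (by norm_num)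
    refine (norm_add_le _ _).trans (add_le_add ((norm_add_le _ _).trans (add_le_add ?_ ?_)) ?_)
    · exact (norm_mul_le _ _).trans (mul_le_mul hαr nZ (norm_nonneg _) hr0)
    · exact (norm_mul_le _ _).trans (mul_le_mul nZ hαr (norm_nonneg _) (by positivity))
    · refine (norm_mul_le _ _).trans (mul_le_mul ?_ hαr (norm_nonneg _) (by positivity))
      exact (norm_mul_le _ _).trans (mul_le_mul hαr nZ (norm_nonneg _) hr0)
  have n3 : ‖(1 / 2 : ℝ) • (P * E2 * P)‖ ≤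
      1 / 2 * ((3 / 2 * c) * (15 * c ^ 8 * (τ + r) ^ 2) * (3 / 2 * c)) := by
    rw [norm_smul, Real.norm_of_nonneg (by norm_num)]
    refine mul_le_mul_of_nonneg_left ?_ (by norm_num)
    refine (norm_mul_le _ _).trans (mul_le_mul ?_ nP (norm_nonneg _) (by positivity))
    exact (norm_mul_le _ _).trans (mul_le_mul nP nE2 (norm_nonneg _) (by positivity))
  have n4 : ‖(1 / 4 : ℝ) • E3‖ ≤ 1 / 4 * (10 * c ^ 2 * (τ + r) ^ 2) := by
    rw [norm_smul, Real.norm_of_nonneg (by norm_num)]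
    exact mul_le_mul_of_nonneg_left nE3 (by norm_num)
  refine (norm_add_le _ _).trans ?_
  refine (add_le_add ((norm_sub_le _ _).trans (add_le_add ((norm_sub_le _ _).trans
    (add_le_add n1 n2)) n3)) n4).trans ?_
  set Q := (τ + r) ^ 2 with hQ
  have hQ0 : 0 ≤ Q := by positivity
  have t2 : r ^ 2 ≤ Q := pow_le_pow_left₀ hr0 (by linarith) 2
  have u1 : c * r ^ 2 ≤ c ^ 10 * Q := by
    refine mul_le_mul ?_ t2 (by positivity) (by positivity)
    calc c = c ^ 1 := (pow_one c).symm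
      _ ≤ c ^ 10 := pow_le_pow_right₀ hc1 (by norm_num)
  have u2 : c ^ 3 * r ^ 2 ≤ c ^ 10 * Q :=
    mul_le_mul (pow_le_pow_right₀ hc1 (by norm_num)) t2 (by positivity) (by positivity)
  have u3 : c ^ 3 * r ^ 2 * r ≤ c ^ 10 * Q * (1 / 2) :=
    mul_le_mul u2 hr2 hr0 (by positivity)
  have u4 : c ^ 2 * Q ≤ c ^ 10 * Q :=
    mul_le_mul_of_nonneg_right (pow_le_pow_right₀ hc1 (by norm_num)) hQ0
  have u5 : 0 ≤ c ^ 10 * Q := by positivity
  have e1 : c / 2 * (r * 1 * r) = 1 / 2 * (c * r ^ 2) := by ring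
  have e2' : 1 / 2 * (r * (2 * c ^ 3 * r) + (2 * c ^ 3 * r) * r + r * (2 * c ^ 3 * r) * r) =
      2 * (c ^ 3 * r ^ 2) + c ^ 3 * r ^ 2 * r := by ring
  have e3' : 1 / 2 * ((3 / 2 * c) * (15 * c ^ 8 * Q) * (3 / 2 * c)) = 135 / 8 * (c ^ 10 * Q) := by
    ring
  have e4' : 1 / 4 * (10 * c ^ 2 * Q) = 5 / 2 * (c ^ 2 * Q) := by ring
  rw [e1, e2', e3', e4']
  linarith

end Pool.Agent.EinU
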