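import Pool.Agent.EinU.GHat

/-!
# Transfer of the gap to the complement

Notation of `GHat.lean`.  Let `Z = UU C S α̂` (symmetric, commutes with `pp` by `hB.sg` and `UU_inv`, `σ = 1 - 2 pp`,
`σ σᵀ = 1`), `‖Z‖ ≤ c ‖α‖`, `W = (1/(2 lam)) (Z - Π Z Π) = (1/(2 lam)) (Πh Z + Z Πh - Πh Z Πh)`, `β' = α̂ + W`.
`pp W = W pp = 0` (`Πh pp = 0`, `Z pp = pp Z`), so `β' pp = pp β'`; `Π W Π = 0`, so `‖α‖ ≤ ‖β'‖`.
`ellM (α̂ + W) = ellM α̂ - (1/2) pp AA(W) pp + (1/2) UU C S W - lam W` and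
`ellM α̂ - lam W = Π (ellM α̂) Π` (the other terms of `ellM α̂` are not changed by `Π · Π`: `Π pp = pp`).
With `Πh Z = Πh (Z Πh)ᵀ`, `T Πh Z T = (T Πh) (T Z Πh)ᵀ`, ... and `qf_le`:
`‖(1/2) UU C S W‖ ≤ (3/4) c³ τ ‖α‖`, `‖AA(W)‖ ≤ 3 c⁴ τ ‖α‖`.
So `‖α‖ ≤ ‖β'‖ ≤ K (‖(ellM α̂)₂₂‖ + 3 c⁴ τ ‖α‖)`, and `3 K c⁴ τ ≤ 1/2`.
-/

set_option linter.unusedSectionVars false

namespace Pool.Agent.EinU

open Matrix Pool.Agent.EStab Pool.Agent.EinS Pool.Agent.SmIso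
open scoped Matrix.Norms.L2Operator

variable {κ ι : Type*} [Fintype κ] [DecidableEq κ] [Fintype ι] [DecidableEq ι]
  {C : κ ⊕ ι → Matrix (κ ⊕ ι) (κ ⊕ ι) ℝ} {S T pp : Matrix (κ ⊕ ι) (κ ⊕ ι) ℝ}
  {c τ ω lam eps : ℝ}

private theorem Trans_PhT : (Ph κ ι)ᵀ = Ph κ ι := by
  unfold Ph
  rw [Matrix.fromBlocks_transpose]
  simp

private theorem Trans_PhPh : Ph κ ι * Ph κ ι = Ph κ ι := by
  unfold Ph
  rw [Matrix.fromBlocks_multiply]
  simp

private theorem Trans_blk (X : Matrix (κ ⊕ ι) (κ ⊕ ι) ℝ) :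
    (1 - Ph κ ι) * X * (1 - Ph κ ι) = blk κ X.toBlocks₂₂ := by
  have h1 : (1 - Ph κ ι : Matrix (κ ⊕ ι) (κ ⊕ ι) ℝ) = fromBlocks 0 0 0 1 := by
    unfold Ph
    rw [← Matrix.fromBlocks_one, sub_eq_iff_eq_add, Matrix.fromBlocks_add]
    simp
  rw [h1]
  conv_lhs => rw [← Matrix.fromBlocks_toBlocks X]
  rw [Matrix.fromBlocks_multiply, Matrix.fromBlocks_multiply]
  unfold blk
  simp

private theorem Trans_22 (α : Matrix ι ι ℝ) : (blk κ α).toBlocks₂₂ = α := rfl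

private theorem Trans_blk_mul (α β : Matrix ι ι ℝ) : blk κ α * blk κ β = blk κ (α * β) := by
  unfold blk
  rw [Matrix.fromBlocks_multiply]
  simp

private theorem Trans_Ph_blk (α : Matrix ι ι ℝ) : Ph κ ι * blk κ α = 0 := by
  unfold blk Ph
  rw [Matrix.fromBlocks_multiply]
  simp

private theorem Trans_blk_Ph (α : Matrix ι ι ℝ) : blk κ α * Ph κ ι = 0 := by
  unfold blk Ph
  rw [Matrix.fromBlocks_multiply]
  simp

private theorem Trans_blkT {α : Matrix ι ι ℝ} (hα : α.IsSymm) : (blk κ α).IsSymm := by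
  unfold blk Matrix.IsSymm
  rw [Matrix.fromBlocks_transpose, hα.eq]
  simp

/-- the correction term -/
private def Trans_W (Z : Matrix (κ ⊕ ι) (κ ⊕ ι) ℝ) : Matrix (κ ⊕ ι) (κ ⊕ ι) ℝ :=
  Ph κ ι * Z + Z * Ph κ ι - Ph κ ι * Z * Ph κ ι

private theorem Trans_W_eq (Z : Matrix (κ ⊕ ι) (κ ⊕ ι) ℝ) :
    Trans_W Z = Z - (1 - Ph κ ι) * Z * (1 - Ph κ ι) := by
  unfold Trans_W
  noncomm_ring

private theorem Trans_W_symm {Z : Matrix (κ ⊕ ι) (κ ⊕ ι) ℝ} (hZ : Z.IsSymm) :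
    (Trans_W Z).IsSymm := by
  unfold Trans_W Matrix.IsSymm
  rw [Matrix.transpose_sub, Matrix.transpose_add, Matrix.transpose_mul, Matrix.transpose_mul,
    Matrix.transpose_mul, Matrix.transpose_mul, hZ.eq, Trans_PhT, add_comm, Matrix.mul_assoc]

private theorem Trans_W_22 (Z : Matrix (κ ⊕ ι) (κ ⊕ ι) ℝ) : (Trans_W Z).toBlocks₂₂ = 0 := by
  have h1 : (1 - Ph κ ι) * Trans_W Z * (1 - Ph κ ι) = 0 := by
    have h2 : (1 - Ph κ ι) * Ph κ ι = 0 := by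
      rw [Matrix.sub_mul, Matrix.one_mul, Trans_PhPh, sub_self]
    have h3 : Ph κ ι * (1 - Ph κ ι) = 0 := by
      rw [Matrix.mul_sub, Matrix.mul_one, Trans_PhPh, sub_self]
    have h4 : (1 - Ph κ ι) * Trans_W Z * (1 - Ph κ ι) =
        ((1 - Ph κ ι) * Ph κ ι) * Z * (1 - Ph κ ι) + (1 - Ph κ ι) * Z * (Ph κ ι * (1 - Ph κ ι)) -
          ((1 - Ph κ ι) * Ph κ ι) * Z * (Ph κ ι * (1 - Ph κ ι)) := by
      unfold Trans_W
      noncomm_ring
    rw [h4, h2, h3]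
    simp
  rw [Trans_blk] at h1
  have h5 := congrArg Matrix.toBlocks₂₂ h1
  rw [Trans_22] at h5
  rw [h5]
  rfl

private theorem Trans_bd (hB : BaseH C S T pp c τ ω lam eps) {R V Z : Matrix (κ ⊕ ι) (κ ⊕ ι) ℝ}
    (hR : R.IsSymm) {r z : ℝ} (hRn : ‖R‖ ≤ r) (hRe : Eta C (R * Ph κ ι) τ) (hV : V.IsSymm)
    (hVn : ‖V‖ ≤ c) (hZ : Z.IsSymm) (hz : ‖Z‖ ≤ z) :
    ‖UU C (R * Trans_W Z * R) V‖ ≤ 3 * (c * τ * (r * z)) := by
  have hτ : 0 ≤ τ := hB.eh.1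
  have hr : 0 ≤ r := (norm_nonneg _).trans hRn
  have hz0 : 0 ≤ z := (norm_nonneg _).trans hz
  have hc0 : 0 ≤ c := (norm_nonneg _).trans hVn
  have h1 : ‖R * Z‖ ≤ r * z := (norm_mul_le _ _).trans (mul_le_mul hRn hz (norm_nonneg _) hr)
  have h2 : ‖R * Ph κ ι * Z‖ ≤ r * z := by
    refine (norm_mul_le _ _).trans (mul_le_mul ?_ hz (norm_nonneg _) hr)
    refine (norm_mul_le _ _).trans ?_
    calc ‖R‖ * ‖(Ph κ ι : Matrix (κ ⊕ ι) (κ ⊕ ι) ℝ)‖ ≤ r * 1 :=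
          mul_le_mul hRn norm_Ph_le (norm_nonneg _) hr
      _ = r := mul_one r
  have h3 : Eta C (R * Z) (r * z) := (eta_of_norm hB.one _).mono h1
  have h4 : Eta C (R * Ph κ ι * Z) (r * z) := (eta_of_norm hB.one _).mono h2
  have h5 : R * Trans_W Z * R = (R * Ph κ ι) * (R * Z)ᵀ + (R * Z) * (R * Ph κ ι)ᵀ +
      (-1 : ℝ) • ((R * Ph κ ι) * (R * Ph κ ι * Z)ᵀ) := by
    rw [Matrix.transpose_mul, Matrix.transpose_mul, Matrix.transpose_mul, Matrix.transpose_mul,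
      hR.eq, hZ.eq, Trans_PhT]
    unfold Trans_W
    rw [neg_one_smul]
    noncomm_ring
  have hs : (R * Trans_W Z * R).IsSymm := by
    unfold Matrix.IsSymm
    rw [Matrix.transpose_mul, Matrix.transpose_mul, hR.eq, (Trans_W_symm hZ).eq, Matrix.mul_assoc]
  have h6 : ∀ v : κ ⊕ ι → ℝ, ‖V‖ * τ * (r * z) * (v ⬝ᵥ v) ≤ c * τ * (r * z) * (v ⬝ᵥ v) := by
    intro v
    refine mul_le_mul_of_nonneg_right ?_ (dot_self_nonneg v)
    refine mul_le_mul_of_nonneg_right ?_ (mul_nonneg hr hz0)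
    exact mul_le_mul_of_nonneg_right hVn hτ
  refine norm_UU_of_qf hs hV (by positivity) fun v => ?_
  rw [h5, qf_add, qf_add, qf_smul]
  have h7 := qf_le hRe h3 V v
  have h8 := qf_le h3 hRe V v
  have h9 := qf_le hRe h4 V v
  have h10 := h6 v
  have h11 : ‖V‖ * (r * z) * τ * (v ⬝ᵥ v) = ‖V‖ * τ * (r * z) * (v ⬝ᵥ v) := by ring
  rw [h11] at h8
  have h12 := abs_le.1 h7
  have h13 := abs_le.1 h8
  have h14 := abs_le.1 h9
  rw [abs_le]
  constructor <;> linarith [h12.1, h12.2, h13.1, h13.2, h14.1, h14.2]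

private theorem Trans_dist (Q a b e d : Matrix (κ ⊕ ι) (κ ⊕ ι) ℝ) (x y z w : ℝ) :
    Q * (x • a - y • b + z • e - w • d) * Q =
      x • (Q * a * Q) - y • (Q * b * Q) + z • (Q * e * Q) - w • (Q * d * Q) := by
  rw [Matrix.mul_sub, Matrix.mul_add, Matrix.mul_sub, Matrix.sub_mul, Matrix.add_mul,
    Matrix.sub_mul]
  simp only [Matrix.mul_smul, Matrix.smul_mul]

private theorem Trans_comm {Z : Matrix (κ ⊕ ι) (κ ⊕ ι) ℝ}
    (hσ : (1 - (2 : ℝ) • pp) * (1 - (2 : ℝ) • pp) = 1)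
    (h : (1 - (2 : ℝ) • pp) * Z * (1 - (2 : ℝ) • pp) = Z) : Z * pp = pp * Z := by
  have h1 : Z * (1 - (2 : ℝ) • pp) = (1 - (2 : ℝ) • pp) * Z := by
    conv_lhs => rw [← h]
    rw [Matrix.mul_assoc, hσ, Matrix.mul_one]
  rw [Matrix.mul_sub, Matrix.sub_mul, Matrix.mul_one, Matrix.one_mul, sub_right_inj,
    Matrix.mul_smul, Matrix.smul_mul] at h1
  have h2 := congrArg (fun M => (1 / 2 : ℝ) • M) h1
  simp only [smul_smul] at h2
  norm_num at h2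
  exact h2

theorem gap_trans (hB : BaseH C S T pp c τ ω lam eps) {K : ℝ} (hK : 1 ≤ K)
    (hgap : GapU C S T pp ω lam K) (hτ : 6 * K * c ^ 4 * τ ≤ 1) {α : Matrix ι ι ℝ}
    (hα : α.IsSymm) (hp : α * pp.toBlocks₂₂ = pp.toBlocks₂₂ * α) :
    ‖α‖ ≤ 2 * K * ‖(ellM C S T pp ω lam (blk κ α)).toBlocks₂₂‖ := by
  have hc1 := hB.c1
  have hc0 : 0 < c := by linarith
  have hτ0 : 0 ≤ τ := hB.eh.1
  have hl := hB.la
  have hAs : (blk κ α).IsSymm := Trans_blkT hα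
  have hAn : ‖blk κ α‖ ≤ ‖α‖ := norm_blk_le hα
  have hα0 : 0 ≤ ‖α‖ := norm_nonneg _
  have h11 : ∀ v : κ ⊕ ι → ℝ, v ⬝ᵥ (UU C 1 1 *ᵥ v) ≤ v ⬝ᵥ v := by
    intro v
    rw [hB.one, Matrix.one_mulVec]
  have hppS : pp * S = pp := by
    have h := congrArg Matrix.transpose hB.Spp
    rwa [Matrix.transpose_mul, hB.symS.eq, hB.symp.eq] at h
  have hppPh : pp * Ph κ ι = 0 := by
    have h := congrArg Matrix.transpose hB.hpp
    rwa [Matrix.transpose_mul, hB.symp.eq, Trans_PhT, Matrix.transpose_zero] at h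
  have hQp : (1 - Ph κ ι) * pp = pp := by
    rw [Matrix.sub_mul, Matrix.one_mul, hB.hpp, sub_zero]
  have hpQ : pp * (1 - Ph κ ι) = pp := by
    rw [Matrix.mul_sub, Matrix.mul_one, hppPh, sub_zero]
  have hpb : pp = blk κ pp.toBlocks₂₂ := by
    rw [← Trans_blk, hQp, hpQ]
  have hAp : blk κ α * pp = pp * blk κ α := by
    conv_lhs => rw [hpb]
    conv_rhs => rw [hpb]
    rw [Trans_blk_mul, Trans_blk_mul, hp]
  obtain ⟨Z, hZ⟩ : ∃ Z, Z = UU C S (blk κ α) := ⟨_, rfl⟩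
  have hZs : Z.IsSymm := hZ ▸ UU_symm C hB.symS hAs
  have hZn : ‖Z‖ ≤ c * ‖α‖ := by
    rw [hZ]
    exact (norm_UU_le h11 hB.symS hAs).trans (mul_le_mul hB.nS hAn (norm_nonneg _) hc0.le)
  have hσT : (1 - (2 : ℝ) • pp)ᵀ = 1 - (2 : ℝ) • pp := by
    rw [Matrix.transpose_sub, Matrix.transpose_one, Matrix.transpose_smul, hB.symp.eq]
  have hσ : (1 - (2 : ℝ) • pp) * (1 - (2 : ℝ) • pp) = 1 := by
    have h := hB.sg.1
    rwa [hσT] at h
  have hconj : ∀ M : Matrix (κ ⊕ ι) (κ ⊕ ι) ℝ, M * pp = pp * M →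
      (1 - (2 : ℝ) • pp) * M * (1 - (2 : ℝ) • pp)ᵀ = M := by
    intro M hM
    have h1 : (1 - (2 : ℝ) • pp) * M = M * (1 - (2 : ℝ) • pp) := by
      rw [Matrix.mul_sub, Matrix.sub_mul, Matrix.mul_one, Matrix.one_mul, Matrix.mul_smul,
        Matrix.smul_mul, hM]
    rw [hσT, h1, Matrix.mul_assoc, hσ, Matrix.mul_one]
  have hZp : Z * pp = pp * Z := by
    refine Trans_comm hσ ?_
    have h := UU_inv (F := C) (A := S) (C := blk κ α) hB.sg.1 hB.sg.1 hB.sg.2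
      (hconj S (by rw [hB.Spp, hppS])) (hconj _ hAp)
    rw [← hZ, hσT] at h
    exact h
  -- the correction
  obtain ⟨W, hW⟩ : ∃ W, W = (1 / (2 * lam)) • Trans_W Z := ⟨_, rfl⟩
  have hWs : W.IsSymm := by
    unfold Matrix.IsSymm
    rw [hW, Matrix.transpose_smul, (Trans_W_symm hZs).eq]
  have hWp : W * pp = 0 := by
    rw [hW, Matrix.smul_mul]
    have h1 : Trans_W Z * pp = 0 := by
      unfold Trans_W
      rw [Matrix.sub_mul, Matrix.add_mul, Matrix.mul_assoc (Ph κ ι * Z), Matrix.mul_assoc Z,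
        hB.hpp, Matrix.mul_assoc (Ph κ ι), hZp, ← Matrix.mul_assoc (Ph κ ι), hB.hpp]
      simp
    rw [h1, smul_zero]
  have hpW : pp * W = 0 := by
    have h := congrArg Matrix.transpose hWp
    rwa [Matrix.transpose_mul, hB.symp.eq, hWs.eq, Matrix.transpose_zero] at h
  have hb : ‖blk κ α + W‖ ≤ K * ‖ellM C S T pp ω lam (blk κ α + W)‖ := by
    refine hgap _ ?_ ?_
    · unfold Matrix.IsSymm
      rw [Matrix.transpose_add, hAs.eq, hWs.eq]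
    · rw [Matrix.add_mul, Matrix.mul_add, hAp, hWp, hpW]
  have hlow : ‖α‖ ≤ ‖blk κ α + W‖ := by
    have h1 : (blk κ α + W).toBlocks₂₂ = α := by
      have h2 : (blk κ α + W).toBlocks₂₂ = (blk κ α).toBlocks₂₂ + W.toBlocks₂₂ := rfl
      have h3 : W.toBlocks₂₂ = (1 / (2 * lam)) • (Trans_W Z).toBlocks₂₂ := by
        rw [hW]
        rfl
      rw [h2, h3, Trans_W_22, smul_zero, add_zero, Trans_22]
    have h2 : (blk κ α + W).IsSymm := by
      unfold Matrix.IsSymm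
      rw [Matrix.transpose_add, hAs.eq, hWs.eq]
    have h3 := norm_blocks_le h2
    rwa [h1] at h3
  -- the bounds of the error
  have hTe : Eta C (T * Ph κ ι) τ := hB.eT
  have h1e : Eta C (1 * Ph κ ι) τ := by
    rw [Matrix.one_mul]
    exact hB.eh
  have hone : ‖(1 : Matrix (κ ⊕ ι) (κ ⊕ ι) ℝ)‖ ≤ 1 := by
    refine norm_le_of_quad Matrix.isSymm_one zero_le_one fun x => ?_
    rw [Matrix.one_mulVec, abs_of_nonneg (dot_self_nonneg x), one_mul]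
  have hla : 1 / (2 * lam) ≤ c / 2 := by
    have h1 := hB.la'
    have h2 : 1 / (2 * lam) = 1 / lam / 2 := by
      field_simp
    rw [h2]
    linarith
  have hla0 : 0 ≤ 1 / (2 * lam) := by positivity
  have hUW : ∀ V : Matrix (κ ⊕ ι) (κ ⊕ ι) ℝ, V.IsSymm → ‖V‖ ≤ c →
      ‖UU C V W‖ ≤ 3 / 2 * c ^ 3 * τ * ‖α‖ := by
    intro V hV hVn
    have h1 := Trans_bd hB (R := 1) Matrix.isSymm_one hone h1e hV hVn hZs hZn
    rw [Matrix.one_mul, Matrix.mul_one] at h1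
    rw [UU_comm hB.csym hV hWs, hW, UU_smul_left, norm_smul, Real.norm_of_nonneg hla0]
    calc 1 / (2 * lam) * ‖UU C (Trans_W Z) V‖ ≤ c / 2 * (3 * (c * τ * (1 * (c * ‖α‖)))) :=
          mul_le_mul hla h1 (norm_nonneg _) (by positivity)
      _ = 3 / 2 * c ^ 3 * τ * ‖α‖ := by ring
  have hUT : ‖UU C (T * W * T) S‖ ≤ 3 / 2 * c ^ 4 * τ * ‖α‖ := by
    have h1 := Trans_bd hB (R := T) hB.symT hB.nT hTe hB.symS hB.nS hZs hZn
    have h2 : T * W * T = (1 / (2 * lam)) • (T * Trans_W Z * T) := by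
      rw [hW, Matrix.mul_smul, Matrix.smul_mul]
    rw [h2, UU_smul_left, norm_smul, Real.norm_of_nonneg hla0]
    calc 1 / (2 * lam) * ‖UU C (T * Trans_W Z * T) S‖ ≤ c / 2 * (3 * (c * τ * (c * (c * ‖α‖)))) :=
          mul_le_mul hla h1 (norm_nonneg _) (by positivity)
      _ = 3 / 2 * c ^ 4 * τ * ‖α‖ := by ring
  have hAA : ‖pp * AA C S T W * pp‖ ≤ 3 * c ^ 4 * τ * ‖α‖ := by
    rw [← hB.z W hWs (by rw [hWp, hpW])]
    unfold AA
    refine (norm_sub_le _ _).trans ?_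
    have h1 := hUW T hB.symT hB.nT
    have h2 : c ^ 3 * (τ * ‖α‖) ≤ c ^ 4 * (τ * ‖α‖) :=
      mul_le_mul_of_nonneg_right (pow_le_pow_right₀ hc1 (by norm_num)) (by positivity)
    linarith
  -- the splitting
  have hAAadd : AA C S T (blk κ α + W) = AA C S T (blk κ α) + AA C S T W := by
    unfold AA
    rw [UU_add_right, Matrix.mul_add, Matrix.add_mul, UU_add_left]
    abel
  have hQW : lam • W = (1 / 2 : ℝ) • (Z - (1 - Ph κ ι) * Z * (1 - Ph κ ι)) := by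
    rw [hW, smul_smul, Trans_W_eq]
    congr 1
    field_simp
  have hQA : (1 - Ph κ ι) * blk κ α * (1 - Ph κ ι) = blk κ α := by
    rw [Trans_blk, Trans_22]
  have hQpp : ∀ M : Matrix (κ ⊕ ι) (κ ⊕ ι) ℝ,
      (1 - Ph κ ι) * (pp * M * pp) * (1 - Ph κ ι) = pp * M * pp := by
    intro M
    have h1 : (1 - Ph κ ι) * (pp * M * pp) * (1 - Ph κ ι) =
        ((1 - Ph κ ι) * pp) * M * (pp * (1 - Ph κ ι)) := by
      simp only [Matrix.mul_assoc]
    rw [h1, hQp, hpQ]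
  have hmain : ellM C S T pp ω lam (blk κ α + W) =
      (1 - Ph κ ι) * ellM C S T pp ω lam (blk κ α) * (1 - Ph κ ι) -
        (1 / 2 : ℝ) • (pp * AA C S T W * pp) + (1 / 2 : ℝ) • UU C S W := by
    have h1 : (1 - Ph κ ι) * ellM C S T pp ω lam (blk κ α) * (1 - Ph κ ι) =
        ω • (pp * blk κ α * pp) - (1 / 2 : ℝ) • (pp * AA C S T (blk κ α) * pp) +
          (1 / 2 : ℝ) • ((1 - Ph κ ι) * Z * (1 - Ph κ ι)) - lam • blk κ α := by
      unfold ellM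
      rw [← hZ, Trans_dist, hQpp, hQpp, hQA]
    have h2 : pp * (blk κ α + W) * pp = pp * blk κ α * pp := by
      rw [Matrix.mul_add, hpW, add_zero]
    have h3 : pp * (AA C S T (blk κ α) + AA C S T W) * pp =
        pp * AA C S T (blk κ α) * pp + pp * AA C S T W * pp := by
      rw [Matrix.mul_add, Matrix.add_mul]
    rw [h1]
    unfold ellM
    rw [hAAadd, UU_add_right, ← hZ, h2, h3, smul_add lam, hQW]
    simp only [smul_add, smul_sub]
    abel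
  have hes : (ellM C S T pp ω lam (blk κ α)).toBlocks₂₂.IsSymm := by
    have h1 : (ellM C S T pp ω lam (blk κ α)).IsSymm := by
      have h2 : (AA C S T (blk κ α))ᵀ = AA C S T (blk κ α) := by
        unfold AA
        have h3 : (T * blk κ α * T).IsSymm := by
          unfold Matrix.IsSymm
          rw [Matrix.transpose_mul, Matrix.transpose_mul, hB.symT.eq, hAs.eq, Matrix.mul_assoc]
        rw [Matrix.transpose_sub, (UU_symm C hB.symT hAs).eq, (UU_symm C h3 hB.symS).eq]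
      unfold ellM Matrix.IsSymm
      rw [Matrix.transpose_sub, Matrix.transpose_add, Matrix.transpose_sub,
        Matrix.transpose_smul, Matrix.transpose_smul, Matrix.transpose_smul,
        Matrix.transpose_smul, Matrix.transpose_mul, Matrix.transpose_mul,
        Matrix.transpose_mul, Matrix.transpose_mul, hB.symp.eq, h2, hAs.eq,
        (UU_symm C hB.symS hAs).eq, Matrix.mul_assoc, Matrix.mul_assoc pp (AA C S T (blk κ α))]
    unfold Matrix.IsSymm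
    ext i j
    have h4 := congrFun (congrFun h1.eq (Sum.inr i)) (Sum.inr j)
    exact h4
  have hfin : ‖ellM C S T pp ω lam (blk κ α + W)‖ ≤
      ‖(ellM C S T pp ω lam (blk κ α)).toBlocks₂₂‖ + 3 * c ^ 4 * τ * ‖α‖ := by
    rw [hmain, Trans_blk]
    have h1 := norm_blk_le (κ := κ) hes
    have h2 := hUW S hB.symS hB.nS
    have h3 : c ^ 3 * (τ * ‖α‖) ≤ c ^ 4 * (τ * ‖α‖) :=
      mul_le_mul_of_nonneg_right (pow_le_pow_right₀ hc1 (by norm_num)) (by positivity)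
    have h4 : ‖(1 / 2 : ℝ) • (pp * AA C S T W * pp)‖ ≤ 1 / 2 * (3 * c ^ 4 * τ * ‖α‖) := by
      rw [norm_smul, Real.norm_of_nonneg (by norm_num)]
      exact mul_le_mul_of_nonneg_left hAA (by norm_num)
    have h5 : ‖(1 / 2 : ℝ) • UU C S W‖ ≤ 1 / 2 * (3 / 2 * c ^ 3 * τ * ‖α‖) := by
      rw [norm_smul, Real.norm_of_nonneg (by norm_num)]
      exact mul_le_mul_of_nonneg_left h2 (by norm_num)
    have h6 : 0 ≤ c ^ 4 * (τ * ‖α‖) := by positivity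
    refine (norm_add_le _ _).trans ?_
    have h7 := norm_sub_le (blk κ (ellM C S T pp ω lam (blk κ α)).toBlocks₂₂)
      ((1 / 2 : ℝ) • (pp * AA C S T W * pp))
    linarith
  have h1 := hlow.trans (hb.trans (mul_le_mul_of_nonneg_left hfin (by linarith)))
  have h2 : 6 * K * c ^ 4 * τ * ‖α‖ ≤ 1 * ‖α‖ := mul_le_mul_of_nonneg_right hτ hα0
  linarith

end Pool.Agent.EinU
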