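import Pool.Agent.EinU.SoBW
import Pool.Agent.SmIso.Irr

/-!
# Adapted orthonormal bases, transport, the trivial isotropy group

* `exists_adapted`: an orthonormal basis of `W`, extended to an orthonormal basis of `ℝ^N`
  (`stdOrthonormalBasis` of `W` and of `Wᗮ` in `EuclideanSpace`, or `Orthonormal.exists_orthonormalBasis_extension`);
  `Q` has these vectors as rows.
* `conjE`: the automorphism `x ↦ Q x Qᵀ` of `so(N)` for `Q Qᵀ = 1` (`exists_conj` in `SmIso/Irr.lean`).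
* `einstein_transport`: push forward `m`, `π`, `β`, `X` by `φ`; `killingForm` is invariant under isomorphisms
  (`LieAlgebra.killingForm_of_equiv_apply`).
* `einstein_bot`: `m = ⊤`, `π = 1`, `β = Qf`, `X` a frame of `⊤`; `ricci = -(1/2) Q + (1/2) Q + (1/4) Q` by
  `IsFrame.killing` and `IsFrame.parseval`; automorphisms preserve the Killing form.
-/

namespace Pool.Agent.EinU

open Matrix Pool.Agent.EStab Pool.Agent.EinS Pool.Agent.SmIso LieAlgebra.Orthogonal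

private theorem AdB_mulVec {N : ℕ} (b : OrthonormalBasis (Fin N) ℝ (EuclideanSpace ℝ (Fin N)))
    (v : EuclideanSpace ℝ (Fin N)) (i : Fin N) :
    ((of fun i j => (b i).ofLp j : Matrix (Fin N) (Fin N) ℝ) *ᵥ v.ofLp) i = inner ℝ (b i) v := by
  rw [PiLp.inner_apply]
  unfold Matrix.mulVec dotProduct
  refine Finset.sum_congr rfl fun j _ => ?_
  show (b i).ofLp j * v.ofLp j = _
  rw [mul_comm]
  rfl

theorem exists_adapted {N : ℕ} (W : Submodule ℝ (Fin N → ℝ)) :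
    ∃ (Q : Matrix (Fin N) (Fin N) ℝ) (A : Finset (Fin N)), Q * Qᵀ = 1 ∧
      A.card = Module.finrank ℝ W ∧ ∀ v, v ∈ W ↔ ∀ i, i ∉ A → (Q *ᵥ v) i = 0 := by
  classical
  let e : EuclideanSpace ℝ (Fin N) ≃ₗ[ℝ] (Fin N → ℝ) := WithLp.linearEquiv 2 ℝ (Fin N → ℝ)
  let W' : Submodule ℝ (EuclideanSpace ℝ (Fin N)) := W.map (e.symm : (Fin N → ℝ) →ₗ[ℝ] _)
  have hfin : Module.finrank ℝ W' = Module.finrank ℝ W := LinearEquiv.finrank_map_eq e.symm W
  have hmem : ∀ v : EuclideanSpace ℝ (Fin N), v ∈ W' ↔ v.ofLp ∈ W := by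
    intro v
    constructor
    · rintro ⟨w, hw, rfl⟩
      exact hw
    · intro h
      exact ⟨v.ofLp, h, rfl⟩
  obtain ⟨d, hd⟩ : ∃ d, d = Module.finrank ℝ W' := ⟨_, rfl⟩
  have hdN : d ≤ N := by
    rw [hd]
    have := Submodule.finrank_le W'
    rwa [finrank_euclideanSpace, Fintype.card_fin] at this
  let b1 : OrthonormalBasis (Fin (Module.finrank ℝ W')) ℝ W' := stdOrthonormalBasis ℝ W'
  let v : Fin N → EuclideanSpace ℝ (Fin N) := fun i =>
    if h : i.1 < Module.finrank ℝ W' then (b1 ⟨i.1, h⟩ : EuclideanSpace ℝ (Fin N)) else 0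
  let s : Set (Fin N) := {i | i.1 < Module.finrank ℝ W'}
  have hv : Orthonormal ℝ (s.domRestrict v) := by
    rw [orthonormal_iff_ite]
    rintro ⟨i, hi⟩ ⟨j, hj⟩
    have hi' : i.1 < Module.finrank ℝ W' := hi
    have hj' : j.1 < Module.finrank ℝ W' := hj
    show inner ℝ (v i) (v j) = _
    have h1 : v i = (b1 ⟨i.1, hi'⟩ : EuclideanSpace ℝ (Fin N)) := dif_pos hi'
    have h2 : v j = (b1 ⟨j.1, hj'⟩ : EuclideanSpace ℝ (Fin N)) := dif_pos hj'
    rw [h1, h2, ← Submodule.coe_inner, orthonormal_iff_ite.1 b1.orthonormal]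
    have h3 : ((⟨i.1, hi'⟩ : Fin (Module.finrank ℝ W')) = ⟨j.1, hj'⟩) ↔
        ((⟨i, hi⟩ : s) = ⟨j, hj⟩) := by
      rw [Fin.mk.injEq, Subtype.mk.injEq, Fin.ext_iff]
    simp only [h3]
  obtain ⟨b, hb⟩ := hv.exists_orthonormalBasis_extension_of_card_eq (by
    rw [finrank_euclideanSpace])
  have hb1 : ∀ (k : Fin (Module.finrank ℝ W')), ∃ i : Fin N, i.1 = k.1 ∧
      b i = (b1 k : EuclideanSpace ℝ (Fin N)) := by
    intro k
    have hk : k.1 < N := lt_of_lt_of_le k.2 (hd ▸ hdN)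
    refine ⟨⟨k.1, hk⟩, rfl, ?_⟩
    rw [hb ⟨k.1, hk⟩ k.2]
    exact dif_pos k.2
  refine ⟨of fun i j => (b i).ofLp j, Finset.univ.filter fun i => i.1 < d, ?_, ?_, ?_⟩
  · ext i j
    rw [Matrix.mul_apply, Matrix.one_apply]
    have h1 := orthonormal_iff_ite.1 b.orthonormal i j
    rw [← h1, PiLp.inner_apply]
    refine Finset.sum_congr rfl fun k _ => ?_
    rw [of_apply, Matrix.transpose_apply, of_apply, mul_comm]
    rfl
  · rw [← hfin, ← hd]
    have h1 : (Finset.univ.filter fun i : Fin N => i.1 < d) =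
        (Finset.univ : Finset (Fin d)).map (Fin.castLEEmb hdN) := by
      ext i
      rw [Finset.mem_filter, Finset.mem_map]
      constructor
      · rintro ⟨-, hi⟩
        exact ⟨⟨i.1, hi⟩, Finset.mem_univ _, rfl⟩
      · rintro ⟨j, -, rfl⟩
        exact ⟨Finset.mem_univ _, j.2⟩
    rw [h1, Finset.card_map, Finset.card_univ, Fintype.card_fin]
  · intro w
    have hw : w ∈ W ↔ (WithLp.toLp 2 w : EuclideanSpace ℝ (Fin N)) ∈ W' := (hmem _).symm
    rw [hw]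
    obtain ⟨w', hw'⟩ : ∃ w' : EuclideanSpace ℝ (Fin N), w' = WithLp.toLp 2 w := ⟨_, rfl⟩
    have hofw : w = w'.ofLp := by rw [hw']
    rw [← hw', hofw]
    constructor
    · intro h i hi
      rw [AdB_mulVec]
      have h1 := b1.sum_repr' (⟨w', h⟩ : W')
      have h2 : w' = ∑ k, (inner ℝ (b1 k) (⟨w', h⟩ : W') : ℝ) •
          (b1 k : EuclideanSpace ℝ (Fin N)) := by
        have h3 := congrArg (fun x : W' => (x : EuclideanSpace ℝ (Fin N))) h1
        simp only [Submodule.coe_sum, Submodule.coe_smul] at h3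
        exact h3.symm
      rw [h2, inner_sum]
      refine Finset.sum_eq_zero fun k _ => ?_
      rw [inner_smul_right]
      obtain ⟨j, hj, hj2⟩ := hb1 k
      rw [← hj2, orthonormal_iff_ite.1 b.orthonormal, if_neg, mul_zero]
      rintro rfl
      apply hi
      rw [Finset.mem_filter]
      exact ⟨Finset.mem_univ _, by rw [hj, hd]; exact k.2⟩
    · intro h
      have h1 := b.sum_repr' w'
      rw [← h1]
      refine Submodule.sum_mem _ fun i _ => ?_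
      by_cases hi : i.1 < d
      · refine Submodule.smul_mem _ _ ?_
        have hi' : i.1 < Module.finrank ℝ W' := hd ▸ hi
        rw [hb i hi']
        have h2 : v i = (b1 ⟨i.1, hi'⟩ : EuclideanSpace ℝ (Fin N)) := dif_pos hi'
        rw [h2]
        exact (b1 ⟨i.1, hi'⟩).2
      · have h2 := h i (by
          rw [Finset.mem_filter]
          rintro ⟨-, h3⟩
          exact hi h3)
        rw [AdB_mulVec] at h2
        rw [h2, zero_smul]
        exact Submodule.zero_mem _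

private theorem AdB_mem {N : ℕ} {Q : Matrix (Fin N) (Fin N) ℝ} (x : so (Fin N) ℝ) :
    Q * (x : Matrix (Fin N) (Fin N) ℝ) * Qᵀ ∈ so (Fin N) ℝ := by
  have hx := (LieAlgebra.Orthogonal.mem_so (Fin N) ℝ _).1 x.2
  rw [LieAlgebra.Orthogonal.mem_so, Matrix.transpose_mul, Matrix.transpose_mul,
    Matrix.transpose_transpose, hx]
  simp only [Matrix.mul_neg, Matrix.neg_mul, Matrix.mul_assoc]

theorem exists_conjE {N : ℕ} {Q : Matrix (Fin N) (Fin N) ℝ} (hQ : Q * Qᵀ = 1) :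
    ∃ φ : so (Fin N) ℝ ≃ₗ⁅ℝ⁆ so (Fin N) ℝ, ∀ x, (φ x).1 = Q * x.1 * Qᵀ := by
  obtain ⟨δ, -, h⟩ := exists_conj (h := (⊤ : LieSubalgebra ℝ (so (Fin N) ℝ))) hQ
    (fun u _ => ⟨⟨Q * (u : Matrix (Fin N) (Fin N) ℝ) * Qᵀ, AdB_mem u⟩, trivial, rfl⟩)
  exact ⟨δ, h⟩

theorem einstein_transport {L : Type*} [LieRing L] [LieAlgebra ℝ L] {k : Submodule ℝ L}
    {Γ Γ' : Set (L →ₗ[ℝ] L)} (φ : L ≃ₗ⁅ℝ⁆ L)
    (hΓ : ∀ γ' ∈ Γ', ∃ γ ∈ Γ, ∀ x, γ' (φ x) = φ (γ x)) (h : HasEinsteinMetric L k Γ) :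
    HasEinsteinMetric L (k.map (φ : L →ₗ[ℝ] L)) Γ' := by
  obtain ⟨m, π, β, D, X, c, h1, h2, h3, h4, h5, h6, h7, h8, h9, h10, h11⟩ := h
  let e : L ≃ₗ[ℝ] L := φ.toLinearEquiv
  let π' : L →ₗ[ℝ] L := (e : L →ₗ[ℝ] L) ∘ₗ π ∘ₗ (e.symm : L →ₗ[ℝ] L)
  let β' : LinearMap.BilinForm ℝ L := β.compl₁₂ (e.symm : L →ₗ[ℝ] L) (e.symm : L →ₗ[ℝ] L)
  have hπ : ∀ x, π' (φ x) = φ (π x) := by
    intro x
    show φ (π (φ.symm (φ x))) = φ (π x)
    rw [LieEquiv.symm_apply_apply]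
  have hβ : ∀ x y, β' (φ x) (φ y) = β x y := by
    intro x y
    show β (φ.symm (φ x)) (φ.symm (φ y)) = β x y
    rw [LieEquiv.symm_apply_apply, LieEquiv.symm_apply_apply]
  refine ⟨m.map (φ : L →ₗ[ℝ] L), π', β', D, fun i => φ (X i), c, ?_, ?_, ?_, ?_, ?_, ?_, ?_,
    ?_, ?_, h10, ?_⟩
  · exact (Submodule.orderIsoMapComap e).isCompl h1
  · rintro _ ⟨y, hy, rfl⟩
    have := hπ y
    rw [h2 y hy, map_zero] at this
    exact this
  · rintro _ ⟨x, hx, rfl⟩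
    have := hπ x
    rw [h3 x hx] at this
    exact this
  · rintro _ ⟨y, hy, rfl⟩ _ ⟨x, hx, rfl⟩
    refine ⟨⁅y, x⁆, h4 y hy x hx, ?_⟩
    exact LieEquiv.map_lie φ y x
  · rintro γ' hγ' _ ⟨x, hx, rfl⟩
    obtain ⟨γ, hγ, hg⟩ := hΓ γ' hγ'
    exact ⟨γ x, h5 γ hγ x hx, (hg x).symm⟩
  · rintro γ' hγ' _ ⟨x, hx, rfl⟩ _ ⟨y, hy, rfl⟩
    obtain ⟨γ, hγ, hg⟩ := hΓ γ' hγ'
    show β' (γ' (φ x)) (γ' (φ y)) = β' (φ x) (φ y)
    rw [hg, hg, hβ, hβ]
    exact h6 γ hγ x hx y hy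
  · intro x y
    exact h7 _ _
  · rw [← h8, Submodule.map_span, ← Set.range_comp]
    rfl
  · intro i j
    show β' (φ (X i)) (φ (X j)) = _
    rw [hβ]
    exact h9 i j
  · rintro _ ⟨x, hx, rfl⟩
    show ricci π' β' (fun i => φ (X i)) (φ x) = c * β' (φ x) (φ x)
    rw [hβ, ← h11 x hx]
    unfold ricci
    have e1 : ∀ i, β' (π' ⁅φ x, φ (X i)⁆) (π' ⁅φ x, φ (X i)⁆) =
        β (π ⁅x, X i⁆) (π ⁅x, X i⁆) := by
      intro i
      rw [← LieEquiv.map_lie, hπ, hβ]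
    have e2 : ∀ i j, β' (π' ⁅φ (X i), φ (X j)⁆) (φ x) = β (π ⁅X i, X j⁆) x := by
      intro i j
      rw [← LieEquiv.map_lie, hπ, hβ]
    rw [LieAlgebra.killingForm_of_equiv_apply]
    simp only [e1, e2]

theorem einstein_bot {L : Type*} [LieRing L] [LieAlgebra ℝ L] [Module.Finite ℝ L]
    (hg : CompactSemisimple L) {Γ : Set (L →ₗ[ℝ] L)}
    (hΓ : ∀ γ ∈ Γ, ∃ δ : L ≃ₗ⁅ℝ⁆ L, ∀ x, γ x = δ x) : HasEinsteinMetric L ⊥ Γ := by
  obtain ⟨n, X, hX⟩ := exists_frame hg (⊤ : Submodule ℝ L)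
  refine ⟨⊤, LinearMap.id, Qf L, n, X, 1 / 4, isCompl_bot_top, ?_, fun _ _ => rfl,
    fun _ _ _ _ => trivial, fun _ _ _ _ => trivial, ?_, Qf_symm, ?_, hX.orth, by norm_num, ?_⟩
  · intro y hy
    exact (Submodule.mem_bot ℝ).1 hy
  · intro γ hγ x _ y _
    obtain ⟨δ, hδ⟩ := hΓ γ hγ
    rw [hδ, hδ, Qf_apply, Qf_apply, LieAlgebra.killingForm_of_equiv_apply]
  · rw [eq_top_iff]
    intro x _
    rw [hX.exp x trivial]
    exact Submodule.sum_mem _ fun i _ => Submodule.smul_mem _ _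
      (Submodule.subset_span ⟨i, rfl⟩)
  · intro x _
    unfold ricci
    have h1 : ∑ i, Qf L (LinearMap.id (R := ℝ) ⁅x, X i⁆) (LinearMap.id (R := ℝ) ⁅x, X i⁆) =
        Qf L x x := (hX.killing x x).symm
    have h2 : ∑ i, ∑ j, (Qf L (LinearMap.id (R := ℝ) ⁅X i, X j⁆) x) ^ 2 = Qf L x x := by
      rw [hX.killing x x]
      refine Finset.sum_congr rfl fun i _ => ?_
      rw [hX.parseval trivial ⁅x, X i⁆]
      refine Finset.sum_congr rfl fun j _ => ?_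
      show (Qf L ⁅X i, X j⁆ x) ^ 2 = _
      rw [Qf_symm, ← Qf_lie]
      ring
    rw [h1, h2]
    have h3 : killingForm ℝ L x x = -(Qf L x x) := by
      rw [Qf_apply, neg_neg]
    rw [h3]
    ring

end Pool.Agent.EinU
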