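import Pool.Agent.SmIso.Asm
import Pool.Agent.SmIso.SoT

/-!
# Perturbation of a left-invariant Einstein metric under a small isotropy group: definitions

Library: `Pool/Agent/EinS`, `Pool/Agent/SmIso` (see `SmIso/Base.lean`): `UU C A B = (tr (C_x A C_yᵀ B))_{xy}`,
`v ⬝ᵥ (UU C A B *ᵥ v) = trace (B * (lc C v * A * (lc C v)ᵀ))` (`UU_quad`), `norm_UU_le`, `norm_le_of_quad`,
`quad_le_norm`, `UU_comm`, `UU_symm`, `UU_inv`; `RicM C G Gi = (1/2) 1 - (1/2) UU C G Gi + (1/4) G * UU C Gi Gi * G`.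
All norms are `L²` operator norms.

Index type `κ ⊕ ι`: a frame of the isotropy algebra `h` (`κ`) and of its orthogonal complement `m` (`ι`).
The base metric is `T`, `S = T⁻¹`; the metric on `m` is described by `P = G⁻¹ = S₂₂ + α`.
-/

namespace Pool.Agent.EinU

open Matrix Pool.Agent.EStab Pool.Agent.EinS Pool.Agent.SmIso
open scoped Matrix.Norms.L2Operator

section Mat

variable {J : Type*} [Fintype J] [DecidableEq J]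

/-- `t` bounds the Hilbert-Schmidt norm of `lc C v * A` for unit vectors `v`. -/
def Eta (C : J → Matrix J J ℝ) (A : Matrix J J ℝ) (t : ℝ) : Prop :=
  0 ≤ t ∧ ∀ v, trace ((lc C v * A) * (lc C v * A)ᵀ) ≤ t ^ 2 * (v ⬝ᵥ v)

/-- The bilinear form of `UU C A V` at `v`, for arbitrary matrices. -/
noncomputable def qf (C : J → Matrix J J ℝ) (A V : Matrix J J ℝ) (v : J → ℝ) : ℝ :=
  trace (V * (lc C v * A * (lc C v)ᵀ))

/-- The first variation of `UU C G G⁻¹` at `G = T` in the direction `G = - T β T`, `G⁻¹ = β`. -/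
noncomputable def AA (C : J → Matrix J J ℝ) (S T β : Matrix J J ℝ) : Matrix J J ℝ :=
  UU C T β - UU C (T * β * T) S

/-- The model of the linearised Einstein equation. -/
noncomputable def ellM (C : J → Matrix J J ℝ) (S T pp : Matrix J J ℝ) (ω lam : ℝ)
    (β : Matrix J J ℝ) : Matrix J J ℝ :=
  ω • (pp * β * pp) - (1 / 2 : ℝ) • (pp * AA C S T β * pp) + (1 / 2 : ℝ) • UU C S β - lam • β

/-- The Einstein equation in terms of `P = G⁻¹`: `EE = P (RicM G - lam G) P`. -/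
noncomputable def EE (C : J → Matrix J J ℝ) (lam : ℝ) (P G : Matrix J J ℝ) : Matrix J J ℝ :=
  (1 / 2 : ℝ) • (P * P) - (1 / 2 : ℝ) • (P * UU C G P * P) + (1 / 4 : ℝ) • UU C P P - lam • P

variable {κ ι : Type*} [Fintype κ] [DecidableEq κ] [Fintype ι] [DecidableEq ι]

/-- Extension by zero. -/
def blk (κ : Type*) {ι : Type*} (α : Matrix ι ι ℝ) : Matrix (κ ⊕ ι) (κ ⊕ ι) ℝ :=
  fromBlocks 0 0 0 α

/-- The projection to the isotropy algebra. -/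
def Ph (κ ι : Type*) [DecidableEq κ] [DecidableEq ι] : Matrix (κ ⊕ ι) (κ ⊕ ι) ℝ :=
  fromBlocks 1 0 0 0

/-- The structure constants of the complement `m`. -/
def Cm (C : κ ⊕ ι → Matrix (κ ⊕ ι) (κ ⊕ ι) ℝ) (x : ι) : Matrix ι ι ℝ :=
  (C (Sum.inr x)).toBlocks₂₂

/-- The data of the perturbation theorem. -/
structure BaseH (C : κ ⊕ ι → Matrix (κ ⊕ ι) (κ ⊕ ι) ℝ) (S T pp : Matrix (κ ⊕ ι) (κ ⊕ ι) ℝ)
    (c τ ω lam eps : ℝ) : Prop where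
  csym : CSym C
  one : UU C 1 1 = 1
  symS : S.IsSymm
  symT : T.IsSymm
  symp : pp.IsSymm
  ST : S * T = 1
  c1 : 1 ≤ c
  nS : ‖S‖ ≤ c
  nT : ‖T‖ ≤ c
  posS : ∀ v, 1 / c * (v ⬝ᵥ v) ≤ v ⬝ᵥ (S *ᵥ v)
  pp2 : pp * pp = pp
  Spp : S * pp = pp
  hpp : Ph κ ι * pp = 0
  sg : CInv C (1 - (2 : ℝ) • pp)
  eh : Eta C (Ph κ ι) τ
  eS : Eta C (S * Ph κ ι) τ
  eT : Eta C (T * Ph κ ι) τ
  uts : UU C T S = 1 - ω • pp
  om : |ω| ≤ c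
  la : 0 < lam
  la' : 1 / lam ≤ c
  base : ‖(ω / 2) • pp + (1 / 4 : ℝ) • UU C S S - lam • S‖ ≤ eps
  z : ∀ β : Matrix (κ ⊕ ι) (κ ⊕ ι) ℝ, β.IsSymm → β * pp = pp * β →
    AA C S T β = pp * AA C S T β * pp

/-- The gap: `ellM` is bounded below on the symmetric matrices which commute with `pp`. -/
def GapU (C : J → Matrix J J ℝ) (S T pp : Matrix J J ℝ) (ω lam K : ℝ) : Prop :=
  ∀ β : Matrix J J ℝ, β.IsSymm → β * pp = pp * β → ‖β‖ ≤ K * ‖ellM C S T pp ω lam β‖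

end Mat

section Lie

variable {L : Type*} [LieRing L] [LieAlgebra ℝ L]

/-- The form of `Θ(T, U)`. -/
noncomputable def TH2 (T U : L →ₗ[ℝ] L) (x y : L) : ℝ :=
  -LinearMap.trace ℝ L ((LieAlgebra.ad ℝ L x : L →ₗ[ℝ] L) ∘ₗ T ∘ₗ
    (LieAlgebra.ad ℝ L y : L →ₗ[ℝ] L) ∘ₗ U)

/-- The form of the model of the linearised Einstein equation. -/
noncomputable def ellQ (S T Pp : L →ₗ[ℝ] L) (ω lam : ℝ) (β : L →ₗ[ℝ] L) (z : L) : ℝ :=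
  ω * Qf L (β (Pp z)) (Pp z) -
    1 / 2 * (TH2 T β (Pp z) (Pp z) - TH2 (T ∘ₗ β ∘ₗ T) S (Pp z) (Pp z)) +
    1 / 2 * TH2 S β z z - lam * Qf L (β z) z

/-- The data of the perturbation theorem on the Lie algebra. -/
structure LBase (h : LieSubalgebra ℝ L) (S T Pp : L →ₗ[ℝ] L) (c τ ω lam eps : ℝ) : Prop where
  symS : QSym S
  symT : QSym T
  symP : QSym Pp
  ST : ∀ x, S (T x) = x
  TS : ∀ x, T (S x) = x
  c1 : 1 ≤ c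
  t0 : 0 ≤ τ
  e0 : 0 ≤ eps
  loS : ∀ x, 1 / c * Qf L x x ≤ Qf L (S x) x
  hiS : ∀ x, Qf L (S x) x ≤ c * Qf L x x
  loT : ∀ x, 0 ≤ Qf L (T x) x
  hiT : ∀ x, Qf L (T x) x ≤ c * Qf L x x
  pp2 : ∀ x, Pp (Pp x) = Pp x
  Spp : ∀ x, S (Pp x) = Pp x
  hpp : ∀ y ∈ h, Pp y = 0
  sg : ∃ σ : L ≃ₗ⁅ℝ⁆ L, ∀ x, σ x = x - (2 : ℝ) • Pp x
  et : ∀ (n : ℕ) (a : Fin n → L), (∀ i, a i ∈ h) →
    (∀ i j, Qf L (a i) (a j) = if i = j then 1 else 0) → ∀ x,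
      ∑ i, Qf L ⁅a i, x⁆ ⁅a i, x⁆ ≤ τ ^ 2 * Qf L x x ∧
      ∑ i, Qf L ⁅S (a i), x⁆ ⁅S (a i), x⁆ ≤ τ ^ 2 * Qf L x x ∧
      ∑ i, Qf L ⁅T (a i), x⁆ ⁅T (a i), x⁆ ≤ τ ^ 2 * Qf L x x
  uts : ∀ x, TH2 T S x x = Qf L x x - ω * Qf L (Pp x) x
  om : |ω| ≤ c
  la : 0 < lam
  la' : 1 / lam ≤ c
  base : ∀ x, |ω / 2 * Qf L (Pp x) x + 1 / 4 * TH2 S S x x - lam * Qf L (S x) x| ≤
    eps * Qf L x x
  z : ∀ β : L →ₗ[ℝ] L, QSym β → (∀ x, β (Pp x) = Pp (β x)) → ∀ x,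
    TH2 T β x x - TH2 (T ∘ₗ β ∘ₗ T) S x x =
      TH2 T β (Pp x) (Pp x) - TH2 (T ∘ₗ β ∘ₗ T) S (Pp x) (Pp x)

/-- The gap on the Lie algebra. -/
def GapL (S T Pp : L →ₗ[ℝ] L) (ω lam K : ℝ) : Prop :=
  ∀ β : L →ₗ[ℝ] L, QSym β → (∀ x, β (Pp x) = Pp (β x)) → ∀ s : ℝ,
    (∀ z, |ellQ S T Pp ω lam β z| ≤ s * Qf L z z) → ∀ z, |Qf L (β z) z| ≤ K * s * Qf L z z

/-- The matrix of an endomorphism in a frame. -/
noncomputable def mo {J : Type*} (e : J → L) (T : L →ₗ[ℝ] L) : Matrix J J ℝ :=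
  of fun x y => Qf L (T (e y)) (e x)

/-- The automorphisms which preserve `h` and commute with `S`, `T` and `Pp`. -/
def auts (h : LieSubalgebra ℝ L) (S T Pp : L →ₗ[ℝ] L) : Set (L →ₗ[ℝ] L) :=
  {γ | ∃ δ : L ≃ₗ⁅ℝ⁆ L, h.map (δ : L →ₗ⁅ℝ⁆ L) = h ∧ (∀ x, S (δ x) = δ (S x)) ∧
    (∀ x, T (δ x) = δ (T x)) ∧ (∀ x, Pp (δ x) = δ (Pp x)) ∧ ∀ x, γ x = δ x}

end Lie

end Pool.Agent.EinU
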