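import Pool.Agent.EinU.SoBW

/-!
# Smallness of the isotropy algebra

* `eta_so`: `X = BW A u v 1 a_i` with `a_i` block diagonal (`BW A 0 0 1 a_i = 0`), i.e. `X = D a_i` with `D = u` on the rows in
  `A`, `v` on the others.  `Qf ⁅X, x⁆ ⁅X, x⁆ = n |X x - x X|²_F ≤ 2 n (|X x|²_F + |x X|²_F) = 4 n |X x|²_F` (`X, x` skew:
  `(x X)ᵀ = X x`), `|X x|²_F ≤ c² |a_i x|²_F` (rows scaled by `u, v`), and `∑ i, |a_i x|²_F = ∑ (columns x_j of x)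
  ∑ i, |a_i x_j|² ≤ δ |x|²_F`.
* `small_dim`: let `k = finrank h`, `a` an orthonormal family in `h` (extend it to an orthonormal basis of `h`, or note that
  the operator of the family is at most that of a basis: `exists_frame`, Bessel), `M = ∑ i, (a_i)ᵀ a_i` for an orthonormal
  basis (symmetric, positive, commutes with every `x ∈ h`: invariance of `Qf` on `h`), `c` its largest eigenvalue, `E` the
  eigenspace, `e = dim E`; `h E ⊆ E`.  (i) `c e ≤ tr M = k/n` (`Qf a a = n |a|²_F = 1`).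
  (ii) for a unit `v ∈ E`: `c = ∑ i, |a_i v|²`, `a_i v ∈ E`, `a_i v ⟂ v`; for a unit vector `w ⟂ v`,
  `∑ i, (w ⬝ a_i v)² = ∑ i, (Qf a_i Z)²` with `Z = (w vᵀ - v wᵀ)/(2n)`, `≤ Qf Z Z = 1/(2n)` (Bessel); sum over an orthonormal
  basis of `E ∩ v^⊥`: `c ≤ (e-1)/(2n)`.  So `c² ≤ (k/(n e)) (e/(2n)) = k/(2 n²)`.
-/

namespace Pool.Agent.EinU

open Matrix Pool.Agent.EStab Pool.Agent.EinS Pool.Agent.SmIso LieAlgebra.Orthogonal

variable {N : ℕ}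

/-- The Casimir operator of `h` on `ℝ^N` is at most `δ`. -/
def SmallV (h : LieSubalgebra ℝ (so (Fin N) ℝ)) (δ : ℝ) : Prop :=
  ∀ (n : ℕ) (a : Fin n → so (Fin N) ℝ), (∀ i, a i ∈ h) →
    (∀ i j, Qf (so (Fin N) ℝ) (a i) (a j) = if i = j then 1 else 0) →
    ∀ v : Fin N → ℝ, ∑ i, ((a i).1 *ᵥ v) ⬝ᵥ ((a i).1 *ᵥ v) ≤ δ * (v ⬝ᵥ v)

private theorem eta_so_bracket (x y : so (Fin N) ℝ) : (⁅x, y⁆ : so (Fin N) ℝ).1 =
    x.1 * y.1 - y.1 * x.1 := rfl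

private theorem eta_so_X (A : Finset (Fin N)) (u v : ℝ) {a : so (Fin N) ℝ}
    (h : BW A 0 0 1 a = 0) (p q : Fin N) :
    (BW A u v 1 a).1 p q = (if p ∈ A then u else v) * a.1 p q := by
  have h1 : (BW A 0 0 1 a).1 p q = 0 := by rw [h]; rfl
  rw [BW_apply] at h1 ⊢
  unfold bw at h1 ⊢
  by_cases hp : p ∈ A <;> by_cases hq : q ∈ A <;> simp [hp, hq] at h1 ⊢ <;> simp [h1]

private theorem eta_so_swap (X x : so (Fin N) ℝ) (p q : Fin N) :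
    (x.1 * X.1) p q = (X.1 * x.1) q p := by
  rw [Matrix.mul_apply, Matrix.mul_apply]
  refine Finset.sum_congr rfl fun r _ => ?_
  rw [so_skew x p r, so_skew X r q]
  ring

private theorem eta_so_one (hN : 3 ≤ N) (A : Finset (Fin N)) {u v c : ℝ} (hu : |u| ≤ c)
    (hv : |v| ≤ c) {a : so (Fin N) ℝ} (h : BW A 0 0 1 a = 0) (x : so (Fin N) ℝ) :
    Qf (so (Fin N) ℝ) ⁅BW A u v 1 a, x⁆ ⁅BW A u v 1 a, x⁆ ≤
      4 * c ^ 2 * (((N : ℝ) - 2) * ∑ p, ∑ q, ((a.1 * x.1) p q) ^ 2) := by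
  have hN' : (0 : ℝ) ≤ (N : ℝ) - 2 := by
    have : (3 : ℝ) ≤ N := by exact_mod_cast hN
    linarith
  set X := BW A u v 1 a with hX
  rw [Qf_so]
  have hW : ∀ p q, ((X.1 * x.1) p q) ^ 2 ≤ c ^ 2 * ((a.1 * x.1) p q) ^ 2 := by
    intro p q
    have h1 : (X.1 * x.1) p q = (if p ∈ A then u else v) * (a.1 * x.1) p q := by
      rw [Matrix.mul_apply, Matrix.mul_apply, Finset.mul_sum]
      refine Finset.sum_congr rfl fun r _ => ?_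
      rw [hX, eta_so_X A u v h]
      ring
    rw [h1, mul_pow]
    refine mul_le_mul_of_nonneg_right ?_ (sq_nonneg _)
    have h2 : |(if p ∈ A then u else v)| ≤ c := by
      by_cases hp : p ∈ A
      · rw [if_pos hp]; exact hu
      · rw [if_neg hp]; exact hv
    calc (if p ∈ A then u else v) ^ 2 = |(if p ∈ A then u else v)| ^ 2 := (sq_abs _).symm
      _ ≤ c ^ 2 := pow_le_pow_left₀ (abs_nonneg _) h2 2
  have hS : ∑ p, ∑ q, (⁅X, x⁆ : so (Fin N) ℝ).1 p q * (⁅X, x⁆ : so (Fin N) ℝ).1 p q ≤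
      4 * ∑ p, ∑ q, ((X.1 * x.1) p q) ^ 2 := by
    have h3 : ∀ p q, (⁅X, x⁆ : so (Fin N) ℝ).1 p q * (⁅X, x⁆ : so (Fin N) ℝ).1 p q ≤
        2 * ((X.1 * x.1) p q) ^ 2 + 2 * ((X.1 * x.1) q p) ^ 2 := by
      intro p q
      rw [eta_so_bracket, Matrix.sub_apply, eta_so_swap X x p q]
      nlinarith [sq_nonneg ((X.1 * x.1) p q + (X.1 * x.1) q p)]
    calc ∑ p, ∑ q, (⁅X, x⁆ : so (Fin N) ℝ).1 p q * (⁅X, x⁆ : so (Fin N) ℝ).1 p q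
        ≤ ∑ p, ∑ q, (2 * ((X.1 * x.1) p q) ^ 2 + 2 * ((X.1 * x.1) q p) ^ 2) :=
          Finset.sum_le_sum fun p _ => Finset.sum_le_sum fun q _ => h3 p q
      _ = 2 * (∑ p, ∑ q, ((X.1 * x.1) p q) ^ 2) + 2 * ∑ p, ∑ q, ((X.1 * x.1) q p) ^ 2 := by
          simp only [Finset.sum_add_distrib, Finset.mul_sum]
      _ = 4 * ∑ p, ∑ q, ((X.1 * x.1) p q) ^ 2 := by
          rw [Finset.sum_comm (f := fun p q => ((X.1 * x.1) q p) ^ 2)]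
          ring
  have hT : ∑ p, ∑ q, ((X.1 * x.1) p q) ^ 2 ≤ c ^ 2 * ∑ p, ∑ q, ((a.1 * x.1) p q) ^ 2 := by
    simp only [Finset.mul_sum]
    exact Finset.sum_le_sum fun p _ => Finset.sum_le_sum fun q _ => hW p q
  calc ((N : ℝ) - 2) * ∑ p, ∑ q, (⁅X, x⁆ : so (Fin N) ℝ).1 p q * (⁅X, x⁆ : so (Fin N) ℝ).1 p q
      ≤ ((N : ℝ) - 2) * (4 * (c ^ 2 * ∑ p, ∑ q, ((a.1 * x.1) p q) ^ 2)) :=
        mul_le_mul_of_nonneg_left (hS.trans (mul_le_mul_of_nonneg_left hT (by norm_num))) hN'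
    _ = _ := by ring

theorem eta_so (hN : 3 ≤ N) (A : Finset (Fin N)) {h : LieSubalgebra ℝ (so (Fin N) ℝ)} {δ c : ℝ}
    (hδ : 0 ≤ δ) (hh : ∀ x ∈ h, BW A 0 0 1 x = 0) (hs : SmallV h δ) {u v : ℝ} (hu : |u| ≤ c)
    (hv : |v| ≤ c) (n : ℕ) (a : Fin n → so (Fin N) ℝ) (ha : ∀ i, a i ∈ h)
    (hao : ∀ i j, Qf (so (Fin N) ℝ) (a i) (a j) = if i = j then 1 else 0) (x : so (Fin N) ℝ) :
    ∑ i, Qf (so (Fin N) ℝ) ⁅BW A u v 1 (a i), x⁆ ⁅BW A u v 1 (a i), x⁆ ≤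
      4 * c ^ 2 * δ * Qf (so (Fin N) ℝ) x x := by
  have _ := hδ
  have hN' : (0 : ℝ) ≤ (N : ℝ) - 2 := by
    have : (3 : ℝ) ≤ N := by exact_mod_cast hN
    linarith
  have hcol : ∀ q : Fin N, ∑ i, ∑ p, (((a i).1 * x.1) p q) ^ 2 ≤ δ * ∑ p, x.1 p q ^ 2 := by
    intro q
    have h1 := hs n a ha hao (fun p => x.1 p q)
    have h2 : ∀ i, ((a i).1 *ᵥ fun p => x.1 p q) ⬝ᵥ ((a i).1 *ᵥ fun p => x.1 p q) =
        ∑ p, (((a i).1 * x.1) p q) ^ 2 := by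
      intro i
      rw [dotProduct]
      refine Finset.sum_congr rfl fun p _ => ?_
      have h3 : ((a i).1 *ᵥ fun p => x.1 p q) p = ((a i).1 * x.1) p q := by
        rw [Matrix.mulVec, dotProduct, Matrix.mul_apply]
      rw [h3]
      ring
    have h4 : (fun p => x.1 p q) ⬝ᵥ (fun p => x.1 p q) = ∑ p, x.1 p q ^ 2 := by
      rw [dotProduct]
      exact Finset.sum_congr rfl fun p _ => by ring
    rw [h4] at h1
    simpa only [h2] using h1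
  have hsum : ∑ i, ∑ p, ∑ q, (((a i).1 * x.1) p q) ^ 2 ≤ δ * ∑ p, ∑ q, x.1 p q * x.1 p q := by
    calc ∑ i, ∑ p, ∑ q, (((a i).1 * x.1) p q) ^ 2
        = ∑ i, ∑ q, ∑ p, (((a i).1 * x.1) p q) ^ 2 :=
          Finset.sum_congr rfl fun i _ => Finset.sum_comm
      _ = ∑ q, ∑ i, ∑ p, (((a i).1 * x.1) p q) ^ 2 := Finset.sum_comm
      _ ≤ ∑ q, δ * ∑ p, x.1 p q ^ 2 := Finset.sum_le_sum fun q _ => hcol q
      _ = δ * ∑ q, ∑ p, x.1 p q ^ 2 := by rw [Finset.mul_sum]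
      _ = δ * ∑ p, ∑ q, x.1 p q * x.1 p q := by
          rw [Finset.sum_comm]
          simp only [sq]
  calc ∑ i, Qf (so (Fin N) ℝ) ⁅BW A u v 1 (a i), x⁆ ⁅BW A u v 1 (a i), x⁆
      ≤ ∑ i, 4 * c ^ 2 * (((N : ℝ) - 2) * ∑ p, ∑ q, (((a i).1 * x.1) p q) ^ 2) :=
        Finset.sum_le_sum fun i _ => eta_so_one hN A hu hv (hh _ (ha i)) x
    _ = 4 * c ^ 2 * (((N : ℝ) - 2) * ∑ i, ∑ p, ∑ q, (((a i).1 * x.1) p q) ^ 2) := by
        rw [Finset.mul_sum, Finset.mul_sum]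
    _ ≤ 4 * c ^ 2 * (((N : ℝ) - 2) * (δ * ∑ p, ∑ q, x.1 p q * x.1 p q)) :=
        mul_le_mul_of_nonneg_left (mul_le_mul_of_nonneg_left hsum hN') (by positivity)
    _ = 4 * c ^ 2 * δ * Qf (so (Fin N) ℝ) x x := by
        rw [Qf_so]
        ring

end Pool.Agent.EinU
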