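import Pool.Agent.EinU.GapFin
import Pool.Agent.EinU.EtaSo
import Pool.Agent.EinU.FrmU
import Pool.Agent.SmIso.Irr

/-!
# The core theorem: `ℝ^N = V₁ ⊕ V₂` with `dim V₁ / N` near `ν`
-/

namespace Pool.Agent.EinU

open Matrix Pool.Agent.EStab Pool.Agent.EinS Pool.Agent.SmIso LieAlgebra.Orthogonal

/-- Conjugation by the block diagonal orthogonal matrices which preserve `h`. -/
def coreAuts {N : ℕ} (A : Finset (Fin N)) (h : LieSubalgebra ℝ (so (Fin N) ℝ)) :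
    Set (so (Fin N) ℝ →ₗ[ℝ] so (Fin N) ℝ) :=
  {γ | ∃ Q : Matrix (Fin N) (Fin N) ℝ, Q * Qᵀ = 1 ∧ (∀ a b, ¬(a ∈ A ↔ b ∈ A) → Q a b = 0) ∧
    (∀ u ∈ h, ∃ u' ∈ h, Q * u.1 * Qᵀ = u'.1) ∧ ∀ x, (γ x).1 = Q * x.1 * Qᵀ}

theorem einstein_mono {L : Type*} [LieRing L] [LieAlgebra ℝ L] {k : Submodule ℝ L}
    {Γ Γ' : Set (L →ₗ[ℝ] L)} (h : HasEinsteinMetric L k Γ) (hΓ : Γ' ⊆ Γ) :
    HasEinsteinMetric L k Γ' := by
  obtain ⟨m, π, β, D, X, c, h1, h2, h3, h4, h5, h6, h7, h8, h9, h10, h11⟩ := h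
  exact ⟨m, π, β, D, X, c, h1, h2, h3, h4, fun γ hγ => h5 γ (hΓ hγ), fun γ hγ => h6 γ (hΓ hγ),
    h7, h8, h9, h10, h11⟩

theorem so_core {ν : ℝ} (h0 : 0 < ν) (h1 : ν < 1) : ∃ δ : ℝ, 0 < δ ∧
    ∀ (N : ℕ) (A : Finset (Fin N)), 3 ≤ N → 1 / δ ≤ N → |(A.card : ℝ) / N - ν| ≤ δ →
    ∀ h : LieSubalgebra ℝ (so (Fin N) ℝ), (∀ x ∈ h, BW A 0 0 1 x = 0) → SmallV h δ →
      HasEinsteinMetric (so (Fin N) ℝ) h.toSubmodule (coreAuts A h) := by
  have h0' : 0 < 1 - ν := by linarith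
  have h1' : 1 - ν < 1 := by linarith
  obtain ⟨K, hK, δ₁, hδ₁, hgap⟩ := gap_so h0 h1
  have hx1 := xN_pos h0 h1
  have hx2 := xN_pos h0' h1'
  obtain ⟨hl, hl'⟩ := lamN_pos h0 h1
  obtain ⟨δ₂, hδ₂, hom⟩ := om_lim h0 h1 1 one_pos
  set x1 := xN ν with hx1d
  set x2 := xN (1 - ν) with hx2d
  set lam := lamN ν with hlam
  -- the constant `c`
  obtain ⟨c, hc⟩ : ∃ c : ℝ, c = 1 + x1 + 1 / x1 + x2 + 1 / x2 + 1 / lam + lam +
      (1 + sN ν - lam) + 1 := ⟨_, rfl⟩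
  have p1 : 0 < 1 / x1 := by positivity
  have p2 : 0 < 1 / x2 := by positivity
  have p3 : 0 < 1 / lam := by positivity
  have hc1 : 1 ≤ c := by rw [hc]; linarith
  have hc0 : 0 < c := by linarith
  have hK0 : 0 < K := by linarith
  have hD : (0 : ℝ) < 500 * K * c ^ 10 := by positivity
  have hD' : (0 : ℝ) < 5000 * K ^ 2 * c ^ 10 := by positivity
  obtain ⟨τ, hτ⟩ : ∃ τ : ℝ, τ = 1 / (500 * K * c ^ 10) := ⟨_, rfl⟩
  have hτ0 : 0 < τ := by rw [hτ]; positivity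
  obtain ⟨δ₃, hδ₃, hbase⟩ := base_err h0 h1 (1 / (5000 * K ^ 2 * c ^ 10)) (by positivity)
  have hδ₄ : 0 < τ ^ 2 / (4 * c ^ 2) := by positivity
  refine ⟨min (min δ₁ δ₂) (min δ₃ (τ ^ 2 / (4 * c ^ 2))), lt_min (lt_min hδ₁ hδ₂)
    (lt_min hδ₃ hδ₄), ?_⟩
  intro N A hN hNδ hA h hh hs
  set δ := min (min δ₁ δ₂) (min δ₃ (τ ^ 2 / (4 * c ^ 2))) with hδ
  have hδ0 : 0 < δ := lt_min (lt_min hδ₁ hδ₂) (lt_min hδ₃ hδ₄)
  have d1 : δ ≤ δ₁ := (min_le_left _ _).trans (min_le_left _ _)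
  have d2 : δ ≤ δ₂ := (min_le_left _ _).trans (min_le_right _ _)
  have d3 : δ ≤ δ₃ := (min_le_right _ _).trans (min_le_left _ _)
  have d4 : δ ≤ τ ^ 2 / (4 * c ^ 2) := (min_le_right _ _).trans (min_le_right _ _)
  have hNd : ∀ d, δ ≤ d → 1 / d ≤ N := fun d hd =>
    (one_div_le_one_div_of_le hδ0 hd).trans hNδ
  have hg := hgap N A hN (hNd _ d1) (hA.trans d1)
  have ho := hom N A (hNd _ d2) (hA.trans d2)
  have hb := hbase N A hN (hNd _ d3) (hA.trans d3)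
  set ω := omN A x1 x2 (1 / x1) (1 / x2) with hω
  have hg0 : CompactSemisimple (so (Fin N) ℝ) := so_compact hN
  have hωc : |ω| ≤ c := by
    rw [abs_le] at ho ⊢
    constructor
    · rw [hc]; linarith [ho.1, ho.2]
    · rw [hc]; linarith [ho.1, ho.2]
  have hlow : ∀ u, 0 < u → 1 / u ≤ c → 1 / c ≤ u := by
    intro u hu huc
    rw [div_le_iff₀ hc0]
    rw [div_le_iff₀ hu] at huc
    linarith
  have hx1c : 1 / c ≤ 1 / x1 := by
    apply one_div_le_one_div_of_le hx1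
    rw [hc]; linarith
  have hx2c : 1 / c ≤ 1 / x2 := by
    apply one_div_le_one_div_of_le hx2
    rw [hc]; linarith
  have h1c : 1 / c ≤ 1 := by
    rw [div_le_one hc0]; exact hc1
  have eta : ∀ u v : ℝ, |u| ≤ c → |v| ≤ c → ∀ (n : ℕ) (a : Fin n → so (Fin N) ℝ), (∀ i, a i ∈ h) →
      (∀ i j, Qf (so (Fin N) ℝ) (a i) (a j) = if i = j then 1 else 0) → ∀ x,
      ∑ i, Qf (so (Fin N) ℝ) ⁅BW A u v 1 (a i), x⁆ ⁅BW A u v 1 (a i), x⁆ ≤
        τ ^ 2 * Qf (so (Fin N) ℝ) x x := by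
    intro u v hu hv n a ha hao x
    refine (eta_so hN A hδ0.le hh hs hu hv n a ha hao x).trans ?_
    apply mul_le_mul_of_nonneg_right _ (Qf_nonneg hg0 x)
    calc 4 * c ^ 2 * δ ≤ 4 * c ^ 2 * (τ ^ 2 / (4 * c ^ 2)) :=
          mul_le_mul_of_nonneg_left d4 (by positivity)
      _ = τ ^ 2 := by field_simp
  have hB : LBase h (BW A (1 / x1) (1 / x2) 1) (BW A x1 x2 1) (BW A 0 0 1) c τ ω lam
      (1 / (5000 * K ^ 2 * c ^ 10)) := by
    refine
      { symS := BW_sym A _ _ _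
        symT := BW_sym A _ _ _
        symP := BW_sym A _ _ _
        ST := fun x => ?_
        TS := fun x => ?_
        c1 := hc1
        t0 := hτ0.le
        e0 := by positivity
        loS := fun x => Qf_BW_ge A hN hx1c hx2c h1c x
        hiS := fun x => Qf_BW_le A hN (by rw [hc]; linarith) (by rw [hc]; linarith) hc1 x
        loT := fun x => ?_
        hiT := fun x => Qf_BW_le A hN (by rw [hc]; linarith) (by rw [hc]; linarith) hc1 x
        pp2 := fun x => ?_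
        Spp := fun x => ?_
        hpp := hh
        sg := exists_refl A
        et := fun n a ha hao x => ⟨?_, ?_, ?_⟩
        uts := fun x => ?_
        om := hωc
        la := hl
        la' := by rw [hc]; linarith
        base := fun x => ?_
        z := fun β hβ hcp x => ?_ }
    · rw [BW_BW, one_div_mul_cancel hx1.ne', one_div_mul_cancel hx2.ne', one_mul, BW_one]
    · rw [BW_BW, mul_one_div_cancel hx1.ne', mul_one_div_cancel hx2.ne', one_mul, BW_one]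
    · have := Qf_BW_ge A hN (u := x1) (v := x2) (t := 1) (c := 0) hx1.le hx2.le zero_le_one x
      rw [zero_mul] at this
      exact this
    · rw [BW_BW]
      norm_num
    · rw [BW_BW]
      norm_num
    · have e1 : ∀ i, BW A 1 1 1 (a i) = a i := fun i => BW_one A (a i)
      have := eta 1 1 (by rw [abs_one]; exact hc1) (by rw [abs_one]; exact hc1) n a ha hao x
      simpa only [e1] using this
    · exact eta _ _ (by rw [abs_of_pos p1, hc]; linarith) (by rw [abs_of_pos p2, hc]; linarith)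
        n a ha hao x
    · exact eta _ _ (by rw [abs_of_pos hx1, hc]; linarith) (by rw [abs_of_pos hx2, hc]; linarith)
        n a ha hao x
    · exact uts_so hN A (mul_one_div_cancel hx1.ne') (mul_one_div_cancel hx2.ne') x
    · exact hb x
    · exact z_so hN A (mul_one_div_cancel hx1.ne') (mul_one_div_cancel hx2.ne') hβ hcp x
  have hE := perturb_einstein hg0 hB hK hg (by rw [hτ, mul_one_div_cancel hD.ne'])
    (by rw [mul_one_div_cancel hD'.ne'])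
  refine einstein_mono hE ?_
  rintro γ ⟨Q, hQ, hd, hQh, hγ⟩
  obtain ⟨φ, hφ, hφ'⟩ := exists_conj hQ hQh
  have hcm : ∀ u v t : ℝ, ∀ x, BW A u v t (φ x) = φ (BW A u v t x) := by
    intro u v t x
    apply Subtype.ext
    rw [BW_conj A hd u v t (hφ' x)]
    exact (hφ' _).symm
  refine ⟨φ, hφ, hcm _ _ _, hcm _ _ _, hcm _ _ _, fun x => ?_⟩
  apply Subtype.ext
  rw [hγ x]
  exact (hφ' x).symm

end Pool.Agent.EinU
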