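import Pool.Agent.EinU.SoBB

/-!
# Constants and the base metric

`σ = sN ν`, `sN (1 - ν) = sN ν`, `x₁ = xN ν`, `x₂ = xN (1 - ν)`, `y_i = 1/x_i`, `n = N - 2`, `m₁ = card A`.
* `om_lim`: `lamN ν - omN A .. → lamN ν - 1 + (1/2)(ν₁(x₁+y₁) + ν₂(x₂+y₂)) = 1 + σ - lamN ν`
  (`ν_i y_i = 1 + σ`, `ν₁x₁ + ν₂x₂ = (1-2σ²)/(1+σ) = 2 - 4 lamN ν`).
* `base_err`: by `TH2_BW_BW` with `u = u' = y₁`, `v = v' = y₂`, and `Qf (BW A u v t z) z = u Q₁₁ + v Q₂₂ + t Q_p`,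
  `Q z z = Q₁₁ + Q₂₂ + Q_p`: the coefficient of `Q₁₁` is `(1/4)(1 + ((m₁-2)/n)(y₁²-1)) - lam y₁ →
  (1/4)(ν₁ y₁² + ν₂) - lam y₁ = 0` (`lam x₁ = ν₁/4 + ν₂x₁²/4`), same for `Q₂₂`, and of `Q_p`:
  `ω/2 + (1/2)(κ₁y₁ + κ₂y₂) - lam`, `κ_i = (m_i-1)/(2n) → ν_i/2`, limit `1/2 - (ν₁x₁+ν₂x₂)/4 - lam = 0`.
All errors are at most `C(ν) (|m₁/N - ν| + 1/N)`.
-/

namespace Pool.Agent.EinU

open Matrix Pool.Agent.EStab Pool.Agent.EinS Pool.Agent.SmIso LieAlgebra.Orthogonal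

private theorem Cst_s0 (ν : ℝ) : 0 ≤ sN ν := Real.sqrt_nonneg _

private theorem Cst_s2 {ν : ℝ} (h0 : 0 < ν) (h1 : ν < 1) : sN ν ^ 2 = ν * (1 - ν) := by
  unfold sN
  exact Real.sq_sqrt (mul_nonneg h0.le (by linarith))

private theorem Cst_s1 (ν : ℝ) : sN (1 - ν) = sN ν := by
  unfold sN
  congr 1
  ring

theorem xN_pos {ν : ℝ} (h0 : 0 < ν) (_h1 : ν < 1) : 0 < xN ν := by
  unfold xN
  have := Cst_s0 ν
  positivity

theorem lamN_pos {ν : ℝ} (h0 : 0 < ν) (h1 : ν < 1) : 0 < lamN ν ∧ 0 < 1 + sN ν - lamN ν := by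
  have hs := Cst_s0 ν
  have _ := h0
  have _ := h1
  constructor
  · unfold lamN
    positivity
  · have e : 1 + sN ν - lamN ν = (3 + 6 * sN ν + 2 * sN ν ^ 2) / (4 * (1 + sN ν)) := by
      unfold lamN
      have : (1 + sN ν) ≠ 0 := by positivity
      field_simp
      ring
    rw [e]
    positivity

/-- the ratio of the dimensions -/
private theorem Cst_kap {n m ν δ : ℝ} (hδ : 0 < δ) (hδ' : δ ≤ 1 / 6) (hn : 1 / δ ≤ n) (hm0 : 0 ≤ m)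
    (hm : m ≤ n) (h : |m / n - ν| ≤ δ) :
    |(m - 1) / (n - 2) - ν| ≤ 3 * δ ∧ |(m - 2) / (n - 2) - ν| ≤ 5 * δ ∧
      |(n - m - 2) / (n - 2) - (1 - ν)| ≤ 5 * δ ∧ 6 ≤ n := by
  have hn6 : 6 ≤ n := by
    refine le_trans ?_ hn
    rw [le_div_iff₀ hδ]
    linarith
  have hn0 : 0 < n := by linarith
  have hn2 : 0 < n - 2 := by linarith
  have h1n : 1 / n ≤ δ := by
    rw [div_le_iff₀ hn0]
    rw [div_le_iff₀ hδ] at hn
    linarith [mul_comm n δ]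
  have h2n : 1 / (n - 2) ≤ 2 * (1 / n) := by
    rw [div_le_iff₀ hn2]
    have : 2 * (1 / n) * (n - 2) = 2 - 4 / n := by
      field_simp
      ring
    rw [this]
    have : 4 / n ≤ 1 := by
      rw [div_le_iff₀ hn0]
      linarith
    linarith
  have e1 : |(m - 1) / (n - 2) - m / n| ≤ 1 / (n - 2) := by
    have : (m - 1) / (n - 2) - m / n = (2 * m - n) / n * (1 / (n - 2)) := by
      field_simp
      ring
    rw [this, abs_mul, abs_of_pos (one_div_pos.2 hn2)]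
    refine mul_le_of_le_one_left (one_div_pos.2 hn2).le ?_
    rw [abs_div, abs_of_pos hn0, div_le_iff₀ hn0, abs_le]
    constructor <;> linarith
  have k1 : |(m - 1) / (n - 2) - ν| ≤ 3 * δ := by
    have := abs_sub_le ((m - 1) / (n - 2)) (m / n) ν
    linarith
  have e3 : 0 < 1 / (n - 2) := one_div_pos.2 hn2
  have k2 : |(m - 2) / (n - 2) - ν| ≤ 5 * δ := by
    have e2 : (m - 2) / (n - 2) - ν = ((m - 1) / (n - 2) - ν) - 1 / (n - 2) := by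
      field_simp
      ring
    rw [e2]
    rw [abs_le] at k1 ⊢
    constructor <;> linarith [k1.1, k1.2]
  have k3 : |(n - m - 2) / (n - 2) - (1 - ν)| ≤ 5 * δ := by
    have e2 : (n - m - 2) / (n - 2) - (1 - ν) = - ((m - 1) / (n - 2) - ν) - 1 / (n - 2) := by
      field_simp
      ring
    rw [e2]
    rw [abs_le] at k1 ⊢
    constructor <;> linarith [k1.1, k1.2]
  exact ⟨k1, k2, k3, hn6⟩

private theorem Cst_y1 {ν : ℝ} (h0 : 0 < ν) : 1 / xN ν = (1 + sN ν) / ν := by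
  unfold xN
  have := Cst_s0 ν
  have h : 1 + sN ν ≠ 0 := by positivity
  field_simp

private theorem Cst_om {ν n m : ℝ} (h0 : 0 < ν) (h1 : ν < 1) (hn : 0 < n - 2) :
    lamN ν - (1 - (m - 1) / (2 * (n - 2)) * (xN ν + 1 / xN ν) -
      (n - m - 1) / (2 * (n - 2)) * (xN (1 - ν) + 1 / xN (1 - ν))) - (1 + sN ν - lamN ν) =
      ((m - 1) / (n - 2) - ν) / 2 *
        ((xN ν + 1 / xN ν) - (xN (1 - ν) + 1 / xN (1 - ν))) := by
  have e1 : (n - m - 1) / (2 * (n - 2)) = 1 / 2 - (m - 1) / (n - 2) / 2 := by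
    field_simp
    ring
  have e2 : (m - 1) / (2 * (n - 2)) = (m - 1) / (n - 2) / 2 := by
    field_simp
  rw [e1, e2, Cst_y1 h0, Cst_y1 (by linarith : (0 : ℝ) < 1 - ν), Cst_s1]
  have hx1 : xN ν = ν / (1 + sN ν) := rfl
  have hx2 : xN (1 - ν) = (1 - ν) / (1 + sN ν) := by
    unfold xN
    rw [Cst_s1]
  rw [hx1, hx2]
  unfold lamN
  generalize hk : (m - 1) / (n - 2) = k
  have hs := Cst_s0 ν
  have hs2 := Cst_s2 h0 h1
  have hν1 : (1 - ν) ≠ 0 := by linarith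
  have hsn : 1 + sN ν ≠ 0 := by positivity
  generalize sN ν = s at *
  field_simp
  ring_nf
  have h3 : s ^ 3 = s * (ν * (1 - ν)) := by rw [← hs2]; ring
  have h4 : s ^ 4 = (ν * (1 - ν)) ^ 2 := by rw [← hs2]; ring
  try rw [h4]
  try rw [h3]
  try rw [hs2]
  ring

theorem om_lim {ν : ℝ} (h0 : 0 < ν) (h1 : ν < 1) (e : ℝ) (he : 0 < e) : ∃ δ : ℝ, 0 < δ ∧
    ∀ (N : ℕ) (A : Finset (Fin N)), 1 / δ ≤ N → |(A.card : ℝ) / N - ν| ≤ δ →
    |lamN ν - omN A (xN ν) (xN (1 - ν)) (1 / xN ν) (1 / xN (1 - ν)) -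
      (1 + sN ν - lamN ν)| ≤ e := by
  set K : ℝ := |(xN ν + 1 / xN ν) - (xN (1 - ν) + 1 / xN (1 - ν))| with hK
  have hK0 : 0 ≤ K := abs_nonneg _
  refine ⟨min (1 / 6) (e / (2 * (K + 1))), by positivity, fun N A hN hA => ?_⟩
  set δ := min (1 / 6) (e / (2 * (K + 1))) with hδ
  have hδ0 : 0 < δ := by positivity
  have hm : (A.card : ℝ) ≤ N := by
    have := Finset.card_le_univ A
    rw [Fintype.card_fin] at this
    exact_mod_cast this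
  obtain ⟨k1, k2, k3, k4⟩ := Cst_kap hδ0 (min_le_left _ _) hN (Nat.cast_nonneg _) hm hA
  unfold omN
  rw [Cst_om h0 h1 (by linarith), abs_mul, ← hK, abs_div, abs_of_pos (by norm_num : (0 : ℝ) < 2)]
  have h2 : δ ≤ e / (2 * (K + 1)) := min_le_right _ _
  have h3 : δ * (2 * (K + 1)) ≤ e := by
    rwa [le_div_iff₀ (by positivity)] at h2
  have h4 : |((A.card : ℝ) - 1) / (N - 2) - ν| / 2 * K ≤ 3 * δ / 2 * K := by
    gcongr
  nlinarith [mul_nonneg hδ0.le hK0]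

private theorem Cst_Q {N : ℕ} (A : Finset (Fin N)) (u v t : ℝ) (z : so (Fin N) ℝ) :
    Qf (so (Fin N) ℝ) (BW A u v t z) z = u * Qf (so (Fin N) ℝ) (BW A 1 0 0 z) z +
      v * Qf (so (Fin N) ℝ) (BW A 0 1 0 z) z + t * Qf (so (Fin N) ℝ) (BW A 0 0 1 z) z := by
  have h : BW A u v t z = u • BW A 1 0 0 z + v • BW A 0 1 0 z + t • BW A 0 0 1 z := by
    rw [BW_smul, BW_smul, BW_smul, BW_add, BW_add]
    simp
  have key : ∀ (a b : so (Fin N) ℝ), Qf (so (Fin N) ℝ) (a + b) z =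
      Qf (so (Fin N) ℝ) a z + Qf (so (Fin N) ℝ) b z := by
    intro a b
    simp
  have key2 : ∀ (c : ℝ) (a : so (Fin N) ℝ), Qf (so (Fin N) ℝ) (c • a) z =
      c * Qf (so (Fin N) ℝ) a z := by
    intro c a
    simp
  rw [h, key, key, key2, key2, key2]

private theorem Cst_c1 {ν : ℝ} (h0 : 0 < ν) (h1 : ν < 1) (μ : ℝ) :
    1 / 4 * (1 + μ * (1 / xN ν * (1 / xN ν) - 1)) - lamN ν * (1 / xN ν) =
      1 / 4 * ((μ - ν) * (1 / xN ν * (1 / xN ν) - 1)) := by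
  rw [Cst_y1 h0]
  unfold lamN
  have hs := Cst_s0 ν
  have hs2 := Cst_s2 h0 h1
  have hsn : 1 + sN ν ≠ 0 := by positivity
  generalize sN ν = s at *
  field_simp
  ring_nf
  try rw [hs2]
  ring

theorem base_err {ν : ℝ} (h0 : 0 < ν) (h1 : ν < 1) (e : ℝ) (he : 0 < e) : ∃ δ : ℝ, 0 < δ ∧
    ∀ (N : ℕ) (A : Finset (Fin N)), 3 ≤ N → 1 / δ ≤ N → |(A.card : ℝ) / N - ν| ≤ δ →
    ∀ z : so (Fin N) ℝ,
    |omN A (xN ν) (xN (1 - ν)) (1 / xN ν) (1 / xN (1 - ν)) / 2 *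
        Qf (so (Fin N) ℝ) (BW A 0 0 1 z) z +
      1 / 4 * TH2 (BW A (1 / xN ν) (1 / xN (1 - ν)) 1) (BW A (1 / xN ν) (1 / xN (1 - ν)) 1) z z -
      lamN ν * Qf (so (Fin N) ℝ) (BW A (1 / xN ν) (1 / xN (1 - ν)) 1 z) z| ≤
    e * Qf (so (Fin N) ℝ) z z := by
  set K : ℝ := |1 / xN ν * (1 / xN ν) - 1| + |1 / xN (1 - ν) * (1 / xN (1 - ν)) - 1| +
    |xN ν - xN (1 - ν)| with hK
  have hK0 : 0 ≤ K := by positivity
  refine ⟨min (1 / 6) (e / (2 * (K + 1))), by positivity, fun N A hN3 hN hA z => ?_⟩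
  set δ := min (1 / 6) (e / (2 * (K + 1))) with hδ
  have hδ0 : 0 < δ := by positivity
  have hm : (A.card : ℝ) ≤ N := by
    have := Finset.card_le_univ A
    rw [Fintype.card_fin] at this
    exact_mod_cast this
  obtain ⟨k1, k2, k3, k4⟩ := Cst_kap hδ0 (min_le_left _ _) hN (Nat.cast_nonneg _) hm hA
  have h2 : δ ≤ e / (2 * (K + 1)) := min_le_right _ _
  have h3 : δ * (2 * (K + 1)) ≤ e := by
    rwa [le_div_iff₀ (by positivity)] at h2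
  have hn2 : (0 : ℝ) < N - 2 := by linarith
  have h1' : (0 : ℝ) < 1 - ν := by linarith
  -- the three coefficients
  set c1 : ℝ := 1 / 4 * ((((A.card : ℝ) - 2) / (N - 2) - ν) *
    (1 / xN ν * (1 / xN ν) - 1)) with hc1
  set c2 : ℝ := 1 / 4 * ((((N : ℝ) - A.card - 2) / (N - 2) - (1 - ν)) *
    (1 / xN (1 - ν) * (1 / xN (1 - ν)) - 1)) with hc2
  set c3 : ℝ := - (1 / 4) * ((((A.card : ℝ) - 1) / (N - 2) - ν) * (xN ν - xN (1 - ν))) with hc3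
  have E : omN A (xN ν) (xN (1 - ν)) (1 / xN ν) (1 / xN (1 - ν)) / 2 *
        Qf (so (Fin N) ℝ) (BW A 0 0 1 z) z +
      1 / 4 * TH2 (BW A (1 / xN ν) (1 / xN (1 - ν)) 1) (BW A (1 / xN ν) (1 / xN (1 - ν)) 1) z z -
      lamN ν * Qf (so (Fin N) ℝ) (BW A (1 / xN ν) (1 / xN (1 - ν)) 1 z) z =
      Qf (so (Fin N) ℝ) (BW A c1 c2 c3 z) z := by
    rw [TH2_BW_BW hN3, Cst_Q A c1 c2 c3, Cst_Q A (1 / xN ν) (1 / xN (1 - ν)) 1]
    have a1 := Cst_c1 h0 h1 (((A.card : ℝ) - 2) / (N - 2))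
    have a2 := Cst_c1 (ν := 1 - ν) h1' (by linarith) (((N : ℝ) - A.card - 2) / (N - 2))
    have hl : lamN (1 - ν) = lamN ν := by
      unfold lamN
      rw [Cst_s1]
    rw [hl] at a2
    have a3 := Cst_om (n := (N : ℝ)) (m := (A.card : ℝ)) h0 h1 hn2
    have y1 := Cst_y1 h0
    have y2 := Cst_y1 h1'
    rw [Cst_s1] at y2
    have e1 : ((N : ℝ) - A.card - 1) / (2 * ((N : ℝ) - 2)) =
        1 / 2 - ((A.card : ℝ) - 1) / (N - 2) / 2 := by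
      field_simp
      ring
    have e2 : ((A.card : ℝ) - 1) / (2 * ((N : ℝ) - 2)) = ((A.card : ℝ) - 1) / (N - 2) / 2 := by
      field_simp
    rw [← hc1] at a1
    rw [← hc2] at a2
    unfold omN
    rw [e1, e2]
    rw [e1, e2] at a3
    generalize hk : ((A.card : ℝ) - 1) / (N - 2) = k at *
    have b1 : ν * (1 / xN ν) = 1 + sN ν := by
      rw [y1]
      field_simp
    have b2 : (1 - ν) * (1 / xN (1 - ν)) = 1 + sN ν := by
      rw [y2]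
      field_simp
    generalize 1 / xN ν = p1 at *
    generalize 1 / xN (1 - ν) = p2 at *
    rw [hc3]
    generalize xN ν = x1 at *
    generalize xN (1 - ν) = x2 at *
    have a4 : (1 - k / 2 * (x1 + p1) - (1 / 2 - k / 2) * (x2 + p2)) / 2 +
        1 / 4 * (k / 2 * (p1 + p1) + (1 / 2 - k / 2) * (p2 + p2)) - lamN ν * 1 =
        - (1 / 4) * ((k - ν) * (x1 - x2)) := by
      linear_combination (-1 / 2) * a3 + (1 / 4) * b1 + (1 / 4) * b2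
    linear_combination (Qf (so (Fin N) ℝ) (BW A 1 0 0 z) z) * a1 +
      (Qf (so (Fin N) ℝ) (BW A 0 1 0 z) z) * a2 + (Qf (so (Fin N) ℝ) (BW A 0 0 1 z) z) * a4
  rw [E]
  have g : ∀ (a b : ℝ), |a| ≤ 5 * δ → |b| ≤ K → |1 / 4 * (a * b)| ≤ e := by
    intro a b ha hb
    rw [abs_mul, abs_mul, abs_of_pos (by norm_num : (0 : ℝ) < 1 / 4)]
    have : |a| * |b| ≤ 5 * δ * K := mul_le_mul ha hb (abs_nonneg _) (by positivity)
    nlinarith [mul_nonneg hδ0.le hK0]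
  have p1 : 0 ≤ |1 / xN ν * (1 / xN ν) - 1| := abs_nonneg _
  have p2 : 0 ≤ |1 / xN (1 - ν) * (1 / xN (1 - ν)) - 1| := abs_nonneg _
  have p3 : 0 ≤ |xN ν - xN (1 - ν)| := abs_nonneg _
  have g1 : |c1| ≤ e := g _ _ k2 (by linarith)
  have g2 : |c2| ≤ e := g _ _ k3 (by linarith)
  have g3 : |c3| ≤ e := by
    rw [hc3, neg_mul, abs_neg]
    exact g _ _ (le_trans k1 (by linarith)) (by linarith)
  rw [abs_le] at g1 g2 g3 ⊢
  constructor
  · have := Qf_BW_ge A hN3 g1.1 g2.1 g3.1 z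
    linarith
  · exact Qf_BW_le A hN3 g1.2 g2.2 g3.2 z

end Pool.Agent.EinU
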