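import Pool.Agent.EinU.Base

/-!
# The orthogonal algebras with a splitting `ℝ^N = V₁ ⊕ V₂`

`A : Finset (Fin N)` is the set of the coordinates of `V₁`.  Tensors: `tn T a b c d = (T (Fm a b)) c d`
(`SmIso/SoT.lean`), `n = N - 2`, `Qf x y = n * ∑ a, ∑ b, x a b * y a b` (`Qf_so`).
-/

namespace Pool.Agent.EinU

open Matrix Pool.Agent.EStab Pool.Agent.EinS Pool.Agent.SmIso LieAlgebra.Orthogonal

variable {N : ℕ}

/-- Block weights: `u` on `V₁ × V₁`, `v` on `V₂ × V₂`, `t` on the mixed pairs. -/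
def bw (A : Finset (Fin N)) (u v t : ℝ) (a b : Fin N) : ℝ :=
  if a ∈ A then (if b ∈ A then u else t) else (if b ∈ A then t else v)

theorem bw_symm (A : Finset (Fin N)) (u v t : ℝ) (a b : Fin N) : bw A u v t a b = bw A u v t b a := by
  unfold bw
  by_cases ha : a ∈ A <;> by_cases hb : b ∈ A <;> simp [ha, hb]

theorem so_skew (x : so (Fin N) ℝ) (i j : Fin N) : x.1 i j = - x.1 j i := by
  have h := (mem_so (Fin N) ℝ x.1).1 x.2
  have h2 := congrFun (congrFun h j) i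
  rw [Matrix.transpose_apply, Matrix.neg_apply] at h2
  exact h2

/-- Multiplication of the three blocks `so(V₁)`, `so(V₂)`, `p` by the scalars `u`, `v`, `t`. -/
noncomputable def BW (A : Finset (Fin N)) (u v t : ℝ) : so (Fin N) ℝ →ₗ[ℝ] so (Fin N) ℝ where
  toFun x := ⟨of fun a b => bw A u v t a b * x.1 a b, by
    rw [mem_so]
    ext a b
    rw [Matrix.transpose_apply, Matrix.neg_apply, of_apply, of_apply, bw_symm, so_skew x b a]
    ring⟩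
  map_add' x y := by
    apply Subtype.ext
    ext a b
    exact mul_add _ _ _
  map_smul' c x := by
    apply Subtype.ext
    ext a b
    exact mul_left_comm _ _ _

theorem BW_apply (A : Finset (Fin N)) (u v t : ℝ) (x : so (Fin N) ℝ) (a b : Fin N) :
    (BW A u v t x).1 a b = bw A u v t a b * x.1 a b := rfl

/-- `s` bounds the quadratic form of `T`. -/
def NB (T : so (Fin N) ℝ →ₗ[ℝ] so (Fin N) ℝ) (s : ℝ) : Prop :=
  ∀ z, |Qf (so (Fin N) ℝ) (T z) z| ≤ s * Qf (so (Fin N) ℝ) z z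

/-- `s` bounds the quadratic form of the matrix `u`. -/
def MB (u : Matrix (Fin N) (Fin N) ℝ) (s : ℝ) : Prop :=
  ∀ v : Fin N → ℝ, |v ⬝ᵥ (u *ᵥ v)| ≤ s * (v ⬝ᵥ v)

open Classical in
/-- The endomorphism with a given tensor. -/
noncomputable def opT (t : Fin N → Fin N → Fin N → Fin N → ℝ) :
    so (Fin N) ℝ →ₗ[ℝ] so (Fin N) ℝ :=
  if h : TSym t then (exists_op h).choose else 0

/-- The contraction of `T`, normalised. -/
noncomputable def rho (T : so (Fin N) ℝ →ₗ[ℝ] so (Fin N) ℝ) : Matrix (Fin N) (Fin N) ℝ :=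
  of fun a c => 1 / (2 * ((N : ℝ) - 2)) * ∑ j, tn T a j c j

/-- `Θ T = Rop (rho T) + Yo T`. -/
noncomputable def Yo (T : so (Fin N) ℝ →ₗ[ℝ] so (Fin N) ℝ) : so (Fin N) ℝ →ₗ[ℝ] so (Fin N) ℝ :=
  opT fun a b c d => 1 / ((N : ℝ) - 2) * (tn T a c d b - tn T a d c b)

/-- `x ↦ u x + x u` for symmetric `u`. -/
noncomputable def Rop (u : Matrix (Fin N) (Fin N) ℝ) : so (Fin N) ℝ →ₗ[ℝ] so (Fin N) ℝ :=
  opT fun a b c d => u c a * (if b = d then 1 else 0) - u c b * (if a = d then 1 else 0) +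
    u b d * (if a = c then 1 else 0) - u a d * (if b = c then 1 else 0)

/-- Restriction of a matrix to a block. -/
def res (A : Finset (Fin N)) (u : Matrix (Fin N) (Fin N) ℝ) : Matrix (Fin N) (Fin N) ℝ :=
  of fun a b => if a ∈ A ∧ b ∈ A then u a b else 0

/-- The trace over a block. -/
def trA (A : Finset (Fin N)) (u : Matrix (Fin N) (Fin N) ℝ) : ℝ := ∑ a ∈ A, u a a

/-- The block `so(V₁)`. -/
noncomputable def T11 (A : Finset (Fin N)) (β : so (Fin N) ℝ →ₗ[ℝ] so (Fin N) ℝ) :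
    so (Fin N) ℝ →ₗ[ℝ] so (Fin N) ℝ := BW A 1 0 0 ∘ₗ β ∘ₗ BW A 1 0 0

/-- The block `so(V₂)`. -/
noncomputable def T22 (A : Finset (Fin N)) (β : so (Fin N) ℝ →ₗ[ℝ] so (Fin N) ℝ) :
    so (Fin N) ℝ →ₗ[ℝ] so (Fin N) ℝ := BW A 0 1 0 ∘ₗ β ∘ₗ BW A 0 1 0

/-- The off-diagonal block between `so(V₁)` and `so(V₂)`. -/
noncomputable def T12 (A : Finset (Fin N)) (β : so (Fin N) ℝ →ₗ[ℝ] so (Fin N) ℝ) :
    so (Fin N) ℝ →ₗ[ℝ] so (Fin N) ℝ :=
  BW A 1 0 0 ∘ₗ β ∘ₗ BW A 0 1 0 + BW A 0 1 0 ∘ₗ β ∘ₗ BW A 1 0 0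

/-- The block `p`. -/
noncomputable def Tp (A : Finset (Fin N)) (β : so (Fin N) ℝ →ₗ[ℝ] so (Fin N) ℝ) :
    so (Fin N) ℝ →ₗ[ℝ] so (Fin N) ℝ := BW A 0 0 1 ∘ₗ β ∘ₗ BW A 0 0 1

/-- The operator of the form `TH2 (BW A u v 1) β`. -/
noncomputable def THo (A : Finset (Fin N)) (u v : ℝ) (β : so (Fin N) ℝ →ₗ[ℝ] so (Fin N) ℝ) :
    so (Fin N) ℝ →ₗ[ℝ] so (Fin N) ℝ :=
  T11 A (u • (Rop (rho (T11 A β)) + Yo (T11 A β)) + Rop (rho (Tp A β))) +
  T22 A (v • (Rop (rho (T22 A β)) + Yo (T22 A β)) + Rop (rho (Tp A β))) +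
  T12 A (Yo (Tp A β)) +
  Tp A (Rop (rho (T11 A β)) + Rop (rho (T22 A β)) + Yo (T12 A β) +
    u • Rop (res Aᶜ (rho (Tp A β))) + v • Rop (res A (rho (Tp A β))) +
    ((u + v) / 2) • Yo (Tp A β))

/-- The operator of the form `ellQ`, with `y i = 1 / x i`, `mu = lam - ω`. -/
noncomputable def ellO (A : Finset (Fin N)) (x1 x2 y1 y2 lam mu : ℝ)
    (β : so (Fin N) ℝ →ₗ[ℝ] so (Fin N) ℝ) : so (Fin N) ℝ →ₗ[ℝ] so (Fin N) ℝ :=
  T11 A (-lam • β + (y1 / 2) • (Rop (rho (T11 A β)) + Yo (T11 A β)) +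
    (1 / 2 : ℝ) • Rop (rho (Tp A β))) +
  T22 A (-lam • β + (y2 / 2) • (Rop (rho (T22 A β)) + Yo (T22 A β)) +
    (1 / 2 : ℝ) • Rop (rho (Tp A β))) +
  T12 A (-lam • β + (1 / 2 : ℝ) • Yo (Tp A β)) +
  Tp A (-mu • β + (x1 ^ 2 / 2) • Rop (rho (T11 A β)) + (x2 ^ 2 / 2) • Rop (rho (T22 A β)) +
    (x1 * x2 / 2) • Yo (T12 A β) - (x1 / 2 - y1) • Rop (res Aᶜ (rho (Tp A β))) -
    (x2 / 2 - y2) • Rop (res A (rho (Tp A β))) -
    ((x1 / 2 - y1 + (x2 / 2 - y2)) / 2) • Yo (Tp A β))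

/-- `β` commutes with the projection to `p`. -/
def CP (A : Finset (Fin N)) (β : so (Fin N) ℝ →ₗ[ℝ] so (Fin N) ℝ) : Prop :=
  ∀ x, β (BW A 0 0 1 x) = BW A 0 0 1 (β x)

/-! ### The constants, `ν = dim V₁ / N` -/

/-- `s = √(ν (1 - ν))`. -/
noncomputable def sN (ν : ℝ) : ℝ := Real.sqrt (ν * (1 - ν))

/-- The scale on `so(V₁)`; on `so(V₂)` it is `xN (1 - ν)`. -/
noncomputable def xN (ν : ℝ) : ℝ := ν / (1 + sN ν)

/-- The Einstein constant. -/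
noncomputable def lamN (ν : ℝ) : ℝ := (1 + 2 * sN ν + 2 * sN ν ^ 2) / (4 * (1 + sN ν))

/-- The constant `ω`. -/
noncomputable def omN (A : Finset (Fin N)) (x1 x2 y1 y2 : ℝ) : ℝ :=
  1 - ((A.card : ℝ) - 1) / (2 * ((N : ℝ) - 2)) * (x1 + y1) -
    ((N : ℝ) - A.card - 1) / (2 * ((N : ℝ) - 2)) * (x2 + y2)

end Pool.Agent.EinU
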