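import Pool.Agent.EinU.Base

/-!
# The Hilbert-Schmidt seminorm

`trace (A * Aᵀ) = ∑ i, ∑ j, A i j ^ 2` (Frobenius norm squared).  For `M = lc C v`:

* `eta_of_norm`: `M A Aᵀ Mᵀ ≤ ‖A‖² M Mᵀ` (rows: `(Aᵀ m) ⬝ (Aᵀ m) ≤ ‖Aᵀ‖² (m ⬝ m)`, `norm_mulVec_sq`), and
  `trace (M * Mᵀ) = v ⬝ᵥ (UU C 1 1 *ᵥ v)` (`UU_quad`).
* `Eta.mul`: the rows of `M A B` are `Bᵀ (rows of M A)`.
* `Eta.add`: Minkowski: `tr (X + Y)(X + Y)ᵀ = tr X Xᵀ + 2 tr X Yᵀ + tr Y Yᵀ`, `(tr X Yᵀ)² ≤ tr X Xᵀ tr Y Yᵀ`.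
* `qf_le`: `qf C (X * Yᵀ) V v = tr (V (M X) (M Y)ᵀ)`, Cauchy-Schwarz, and `tr (V Z) (V Z)ᵀ ≤ ‖V‖² tr Z Zᵀ` (columns).
* `norm_UU_of_qf`: `UU_quad`, `norm_le_of_quad`, `UU_symm`.
-/

namespace Pool.Agent.EinU

open Matrix Pool.Agent.EStab Pool.Agent.EinS Pool.Agent.SmIso
open scoped Matrix.Norms.L2Operator

variable {J : Type*} [Fintype J] [DecidableEq J] {C : J → Matrix J J ℝ}

private theorem Eta_tr (A B : Matrix J J ℝ) :
    trace (A * Bᵀ) = ∑ p : J × J, A p.1 p.2 * B p.1 p.2 := by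
  rw [Fintype.sum_prod_type]
  simp [Matrix.trace, Matrix.mul_apply]

private theorem Eta_tr_row (A : Matrix J J ℝ) : trace (A * Aᵀ) = ∑ i, (A i) ⬝ᵥ (A i) := by
  simp [Matrix.trace, Matrix.mul_apply, dotProduct]

private theorem Eta_tr_nonneg (A : Matrix J J ℝ) : 0 ≤ trace (A * Aᵀ) := by
  rw [Eta_tr]
  exact Finset.sum_nonneg fun p _ => mul_self_nonneg _

private theorem Eta_norm_transpose (A : Matrix J J ℝ) : ‖Aᵀ‖ = ‖A‖ := by
  rw [← Matrix.conjTranspose_eq_transpose_of_trivial, Matrix.l2_opNorm_conjTranspose]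

private theorem Eta_tr_mul_right (M B : Matrix J J ℝ) :
    trace ((M * B) * (M * B)ᵀ) ≤ ‖B‖ ^ 2 * trace (M * Mᵀ) := by
  rw [Eta_tr_row, Eta_tr_row, Finset.mul_sum]
  refine Finset.sum_le_sum fun i _ => ?_
  have h1 : (M * B) i = Bᵀ *ᵥ (M i) := by
    ext j
    rw [Matrix.mulVec_transpose]
    rfl
  rw [h1, ← Eta_norm_transpose B]
  exact norm_mulVec_sq Bᵀ (M i)

private theorem Eta_tr_mul_left (V Z : Matrix J J ℝ) :
    trace ((V * Z) * (V * Z)ᵀ) ≤ ‖V‖ ^ 2 * trace (Z * Zᵀ) := by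
  have h := Eta_tr_mul_right Zᵀ Vᵀ
  rw [← Matrix.transpose_mul, Matrix.transpose_transpose, Matrix.transpose_transpose,
    Eta_norm_transpose] at h
  rwa [Matrix.trace_mul_comm (V * Z), Matrix.trace_mul_comm Z]

private theorem Eta_cs (A B : Matrix J J ℝ) :
    trace (A * Bᵀ) ^ 2 ≤ trace (A * Aᵀ) * trace (B * Bᵀ) := by
  rw [Eta_tr, Eta_tr, Eta_tr]
  have h := Finset.sum_mul_sq_le_sq_mul_sq (Finset.univ : Finset (J × J))
    (fun p => A p.1 p.2) (fun p => B p.1 p.2)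
  simpa [sq] using h

theorem eta_of_norm (hone : UU C 1 1 = 1) (A : Matrix J J ℝ) : Eta C A ‖A‖ := by
  refine ⟨norm_nonneg _, fun v => ?_⟩
  have h1 : trace (lc C v * (lc C v)ᵀ) = v ⬝ᵥ v := by
    have h2 := UU_quad C (1 : Matrix J J ℝ) 1 v
    rw [hone, Matrix.one_mulVec, Matrix.one_mul, Matrix.mul_one] at h2
    exact h2.symm
  rw [← h1]
  exact Eta_tr_mul_right _ _

theorem Eta.mono {A : Matrix J J ℝ} {s t : ℝ} (h : Eta C A s) (hst : s ≤ t) : Eta C A t := by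
  refine ⟨h.1.trans hst, fun v => (h.2 v).trans ?_⟩
  exact mul_le_mul_of_nonneg_right (pow_le_pow_left₀ h.1 hst 2) (dot_self_nonneg v)

theorem Eta.mul {A : Matrix J J ℝ} {s : ℝ} (h : Eta C A s) (B : Matrix J J ℝ) :
    Eta C (A * B) (s * ‖B‖) := by
  refine ⟨mul_nonneg h.1 (norm_nonneg _), fun v => ?_⟩
  rw [← Matrix.mul_assoc]
  refine (Eta_tr_mul_right _ _).trans ?_
  calc ‖B‖ ^ 2 * trace ((lc C v * A) * (lc C v * A)ᵀ)
      ≤ ‖B‖ ^ 2 * (s ^ 2 * (v ⬝ᵥ v)) := mul_le_mul_of_nonneg_left (h.2 v) (sq_nonneg _)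
    _ = (s * ‖B‖) ^ 2 * (v ⬝ᵥ v) := by ring

theorem Eta.add {A B : Matrix J J ℝ} {s t : ℝ} (h : Eta C A s) (h' : Eta C B t) :
    Eta C (A + B) (s + t) := by
  refine ⟨add_nonneg h.1 h'.1, fun v => ?_⟩
  rw [Matrix.mul_add]
  generalize hX : lc C v * A = X
  generalize hY : lc C v * B = Y
  have ha := h.2 v
  have hc := h'.2 v
  rw [hX] at ha
  rw [hY] at hc
  have hq := dot_self_nonneg v
  have hb := Eta_cs X Y
  have hsum : trace ((X + Y) * (X + Y)ᵀ) =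
      trace (X * Xᵀ) + 2 * trace (X * Yᵀ) + trace (Y * Yᵀ) := by
    rw [Matrix.transpose_add, Matrix.mul_add, Matrix.add_mul, Matrix.add_mul, Matrix.trace_add,
      Matrix.trace_add, Matrix.trace_add]
    have : trace (Y * Xᵀ) = trace (X * Yᵀ) := by
      rw [← Matrix.trace_transpose, Matrix.transpose_mul, Matrix.transpose_transpose]
    rw [this]
    ring
  have h0 : 0 ≤ s * t * (v ⬝ᵥ v) := mul_nonneg (mul_nonneg h.1 h'.1) hq
  have h1 : trace (X * Yᵀ) ^ 2 ≤ (s * t * (v ⬝ᵥ v)) ^ 2 := by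
    refine hb.trans ?_
    calc trace (X * Xᵀ) * trace (Y * Yᵀ) ≤ (s ^ 2 * (v ⬝ᵥ v)) * (t ^ 2 * (v ⬝ᵥ v)) :=
          mul_le_mul ha hc (Eta_tr_nonneg Y) (mul_nonneg (sq_nonneg _) hq)
      _ = (s * t * (v ⬝ᵥ v)) ^ 2 := by ring
  have h2 : trace (X * Yᵀ) ≤ s * t * (v ⬝ᵥ v) := (abs_le_of_sq_le_sq' h1 h0).2
  rw [hsum]
  nlinarith [h2, ha, hc]

theorem Eta.neg {A : Matrix J J ℝ} {s : ℝ} (h : Eta C A s) : Eta C (-A) s := by
  refine ⟨h.1, fun v => ?_⟩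
  rw [Matrix.mul_neg, Matrix.transpose_neg, neg_mul_neg]
  exact h.2 v

theorem qf_le {X Y : Matrix J J ℝ} {s t : ℝ} (hX : Eta C X s) (hY : Eta C Y t)
    (V : Matrix J J ℝ) (v : J → ℝ) : |qf C (X * Yᵀ) V v| ≤ ‖V‖ * s * t * (v ⬝ᵥ v) := by
  have hq := dot_self_nonneg v
  have h1 : qf C (X * Yᵀ) V v = trace ((V * (lc C v * X)) * (lc C v * Y)ᵀ) := by
    unfold qf
    rw [Matrix.transpose_mul]
    simp only [Matrix.mul_assoc]
  have h0 : 0 ≤ ‖V‖ * s * t * (v ⬝ᵥ v) :=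
    mul_nonneg (mul_nonneg (mul_nonneg (norm_nonneg _) hX.1) hY.1) hq
  rw [h1]
  apply abs_le_of_sq_le_sq _ h0
  refine (Eta_cs _ _).trans ?_
  have h2 : trace ((V * (lc C v * X)) * (V * (lc C v * X))ᵀ) ≤ ‖V‖ ^ 2 * (s ^ 2 * (v ⬝ᵥ v)) :=
    (Eta_tr_mul_left _ _).trans (mul_le_mul_of_nonneg_left (hX.2 v) (sq_nonneg _))
  calc _ ≤ (‖V‖ ^ 2 * (s ^ 2 * (v ⬝ᵥ v))) * (t ^ 2 * (v ⬝ᵥ v)) :=
        mul_le_mul h2 (hY.2 v) (Eta_tr_nonneg _)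
          (mul_nonneg (sq_nonneg _) (mul_nonneg (sq_nonneg _) hq))
    _ = (‖V‖ * s * t * (v ⬝ᵥ v)) ^ 2 := by ring

theorem qf_add (A B V : Matrix J J ℝ) (v : J → ℝ) :
    qf C (A + B) V v = qf C A V v + qf C B V v := by
  unfold qf
  rw [Matrix.mul_add, Matrix.add_mul, Matrix.mul_add, Matrix.trace_add]

theorem qf_smul (a : ℝ) (A V : Matrix J J ℝ) (v : J → ℝ) :
    qf C (a • A) V v = a * qf C A V v := by
  unfold qf
  rw [Matrix.mul_smul, Matrix.smul_mul, Matrix.mul_smul, Matrix.trace_smul, smul_eq_mul]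

theorem norm_UU_of_qf {A V : Matrix J J ℝ} (hA : A.IsSymm) (hV : V.IsSymm) {s : ℝ} (hs : 0 ≤ s)
    (h : ∀ v, |qf C A V v| ≤ s * (v ⬝ᵥ v)) : ‖UU C A V‖ ≤ s := by
  refine norm_le_of_quad (UU_symm C hA hV) hs fun v => ?_
  rw [UU_quad]
  exact h v

theorem UU_add_left (A B V : Matrix J J ℝ) : UU C (A + B) V = UU C A V + UU C B V := by
  ext x y
  simp only [UU, Matrix.of_apply, Matrix.add_apply]
  rw [Matrix.mul_add, Matrix.add_mul, Matrix.add_mul, Matrix.trace_add]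

theorem UU_add_right (A B V : Matrix J J ℝ) : UU C V (A + B) = UU C V A + UU C V B := by
  ext x y
  simp only [UU, Matrix.of_apply, Matrix.add_apply]
  rw [Matrix.mul_add, Matrix.trace_add]

theorem UU_smul_left (a : ℝ) (A V : Matrix J J ℝ) : UU C (a • A) V = a • UU C A V := by
  ext x y
  simp only [UU, Matrix.of_apply, Matrix.smul_apply]
  rw [Matrix.mul_smul, Matrix.smul_mul, Matrix.smul_mul, Matrix.trace_smul]

theorem UU_smul_right (a : ℝ) (A V : Matrix J J ℝ) : UU C V (a • A) = a • UU C V A := by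
  ext x y
  simp only [UU, Matrix.of_apply, Matrix.smul_apply]
  rw [Matrix.mul_smul, Matrix.trace_smul]

end Pool.Agent.EinU
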