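import Pool.Agent.EinU.EtaSo

/-!
# The Casimir operator on `ℝ^N` is bounded by the dimensions of the constituents

* (Bessel) for `v, w ∈ ℝ^N` and an orthonormal family `a` in `so(N)`: `w ⬝ (a_i v) = Qf a_i Z` with
  `Z = (1/(2n)) (w vᵀ - v wᵀ)`, `n = N - 2` (`Qf_so`), `Qf Z Z = (1/(2n)) (|w|²|v|² - (w ⬝ v)²)`; so
  `∑ i, (w ⬝ a_i v)² ≤ |w|²|v|²/(2n)`.  (`bessel_fam` in `EinS`, or directly: `0 ≤ Qf (Z - ∑ ..) (Z - ∑ ..)`.)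
* If `v ∈ W_j`, then all `a_i v ∈ W_j`, and with an orthonormal basis `w_l` of `W_j` (`dim W_j ≤ d`):
  `∑ i, |a_i v|² = ∑ l, ∑ i, (w_l ⬝ a_i v)² ≤ d |v|²/(2n)`.
* For `v = ∑ j, v_j` with `v_j ∈ W_j` (pairwise orthogonal): `|a_i v|² = ∑ j, |a_i v_j|²`, `|v|² = ∑ j, |v_j|²`.
-/

namespace Pool.Agent.EinU

open Matrix Pool.Agent.EStab Pool.Agent.EinS Pool.Agent.SmIso LieAlgebra.Orthogonal

/-- `w vᵀ - v wᵀ`. -/
private def SmallCon_Z {N : ℕ} (w v : Fin N → ℝ) : so (Fin N) ℝ :=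
  ⟨of fun a b => w a * v b - v a * w b, by
    rw [mem_so]
    ext a b
    rw [Matrix.transpose_apply, Matrix.neg_apply, of_apply, of_apply]
    ring⟩

private theorem SmallCon_Z_eq {N : ℕ} (x : so (Fin N) ℝ) (w v : Fin N → ℝ) :
    Qf (so (Fin N) ℝ) x (SmallCon_Z w v) = 2 * ((N : ℝ) - 2) * (w ⬝ᵥ (x.1 *ᵥ v)) := by
  rw [Qf_so]
  have h1 : ∑ a, ∑ b, x.1 a b * (SmallCon_Z w v).1 a b =
      ∑ a, ∑ b, w a * (x.1 a b * v b) - ∑ a, ∑ b, x.1 a b * (v a * w b) := by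
    rw [← Finset.sum_sub_distrib]
    refine Finset.sum_congr rfl fun a _ => ?_
    rw [← Finset.sum_sub_distrib]
    refine Finset.sum_congr rfl fun b _ => ?_
    show x.1 a b * (w a * v b - v a * w b) = _
    ring
  have h2 : ∑ a, ∑ b, x.1 a b * (v a * w b) = - ∑ a, ∑ b, w a * (x.1 a b * v b) := by
    rw [Finset.sum_comm, ← Finset.sum_neg_distrib]
    refine Finset.sum_congr rfl fun b _ => ?_
    rw [← Finset.sum_neg_distrib]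
    refine Finset.sum_congr rfl fun a _ => ?_
    rw [so_skew x a b]
    ring
  have h3 : w ⬝ᵥ (x.1 *ᵥ v) = ∑ a, ∑ b, w a * (x.1 a b * v b) := by
    unfold dotProduct Matrix.mulVec dotProduct
    refine Finset.sum_congr rfl fun a _ => ?_
    rw [Finset.mul_sum]
  rw [h1, h2, h3]
  ring

private theorem SmallCon_ZZ {N : ℕ} (w v : Fin N → ℝ) :
    Qf (so (Fin N) ℝ) (SmallCon_Z w v) (SmallCon_Z w v) =
      2 * ((N : ℝ) - 2) * ((w ⬝ᵥ w) * (v ⬝ᵥ v) - (w ⬝ᵥ v) ^ 2) := by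
  rw [SmallCon_Z_eq]
  congr 1
  have h1 : (SmallCon_Z w v).1 *ᵥ v = (v ⬝ᵥ v) • w - (w ⬝ᵥ v) • v := by
    ext a
    show ∑ b, (w a * v b - v a * w b) * v b = (v ⬝ᵥ v) * w a - (w ⬝ᵥ v) * v a
    unfold dotProduct
    rw [Finset.sum_mul, Finset.sum_mul, ← Finset.sum_sub_distrib]
    exact Finset.sum_congr rfl fun b _ => by ring
  rw [h1, dotProduct_sub, dotProduct_smul, dotProduct_smul, smul_eq_mul, smul_eq_mul]
  ring

private theorem SmallCon_bessel {N : ℕ} (hN : 3 ≤ N) {m : ℕ} {a : Fin m → so (Fin N) ℝ}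
    (ho : ∀ i j, Qf (so (Fin N) ℝ) (a i) (a j) = if i = j then 1 else 0) (w v : Fin N → ℝ) :
    ∑ i, (w ⬝ᵥ ((a i).1 *ᵥ v)) ^ 2 ≤ (w ⬝ᵥ w) * (v ⬝ᵥ v) / (2 * ((N : ℝ) - 2)) := by
  have hN3 : (3 : ℝ) ≤ N := by exact_mod_cast hN
  have hn : (0 : ℝ) < (N : ℝ) - 2 := by linarith
  have hg : CompactSemisimple (so (Fin N) ℝ) := so_compact hN
  have h1 := bessel_fam hg ho (SmallCon_Z w v)
  have h2 : ∀ j, Qf (so (Fin N) ℝ) (SmallCon_Z w v) (a j) ^ 2 =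
      (2 * ((N : ℝ) - 2)) ^ 2 * (w ⬝ᵥ ((a j).1 *ᵥ v)) ^ 2 := by
    intro j
    rw [Qf_symm, SmallCon_Z_eq, mul_pow]
  simp only [h2] at h1
  rw [← Finset.mul_sum, SmallCon_ZZ] at h1
  have h3 := sq_nonneg (w ⬝ᵥ v)
  rw [le_div_iff₀ (by positivity)]
  have h4 : (2 * ((N : ℝ) - 2)) * ((2 * ((N : ℝ) - 2)) *
      ∑ j, (w ⬝ᵥ ((a j).1 *ᵥ v)) ^ 2) ≤ (2 * ((N : ℝ) - 2)) * ((w ⬝ᵥ w) * (v ⬝ᵥ v)) := by
    nlinarith
  have h5 := le_of_mul_le_mul_left h4 (by positivity)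
  linarith

private theorem SmallCon_basis {N : ℕ} (W : Submodule ℝ (Fin N → ℝ)) :
    ∃ w : Fin (Module.finrank ℝ W) → Fin N → ℝ, (∀ l, w l ⬝ᵥ w l = 1) ∧
      ∀ u ∈ W, u ⬝ᵥ u = ∑ l, (w l ⬝ᵥ u) ^ 2 := by
  have hin : ∀ x y : EuclideanSpace ℝ (Fin N), inner ℝ x y = x.ofLp ⬝ᵥ y.ofLp := by
    intro x y
    rw [EuclideanSpace.inner_eq_star_dotProduct, star_trivial, dotProduct_comm]
  let φ : EuclideanSpace ℝ (Fin N) ≃ₗ[ℝ] (Fin N → ℝ) := WithLp.linearEquiv 2 ℝ (Fin N → ℝ)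
  let S : Submodule ℝ (EuclideanSpace ℝ (Fin N)) := W.map φ.symm.toLinearMap
  have hS : Module.finrank ℝ S = Module.finrank ℝ W := LinearEquiv.finrank_map_eq φ.symm W
  let b : OrthonormalBasis (Fin (Module.finrank ℝ S)) ℝ S := stdOrthonormalBasis ℝ S
  refine ⟨fun l => (b (finCongr hS.symm l) : EuclideanSpace ℝ (Fin N)).ofLp, fun l => ?_,
    fun u hu => ?_⟩
  · have h1 := b.norm_eq_one (finCongr hS.symm l)
    have h2 : inner ℝ (b (finCongr hS.symm l)) (b (finCongr hS.symm l)) = (1 : ℝ) := by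
      rw [real_inner_self_eq_norm_sq, h1, one_pow]
    rw [Submodule.coe_inner, hin] at h2
    exact h2
  · have hu' : WithLp.toLp 2 u ∈ S := ⟨u, hu, rfl⟩
    have h1 := b.sum_inner_mul_inner ⟨WithLp.toLp 2 u, hu'⟩ ⟨WithLp.toLp 2 u, hu'⟩
    simp only [Submodule.coe_inner, hin] at h1
    rw [← h1, ← Equiv.sum_comp (finCongr hS.symm)]
    refine Finset.sum_congr rfl fun i _ => ?_
    rw [dotProduct_comm u, sq]

private theorem SmallCon_dec {N k : ℕ} (W : Fin k → Submodule ℝ (Fin N → ℝ)) {v : Fin N → ℝ}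
    (hv : v ∈ ⨆ j, W j) : ∃ f : Fin k → Fin N → ℝ, (∀ j, f j ∈ W j) ∧ ∑ j, f j = v := by
  refine Submodule.iSup_induction W
    (motive := fun v => ∃ f : Fin k → Fin N → ℝ, (∀ j, f j ∈ W j) ∧ ∑ j, f j = v) hv ?_ ?_ ?_
  · intro i x hx
    refine ⟨fun j => if j = i then x else 0, fun j => ?_, ?_⟩
    · show (if j = i then x else 0) ∈ W j
      by_cases h : j = i
      · rw [if_pos h, h]; exact hx
      · rw [if_neg h]; exact (W j).zero_mem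
    · rw [Finset.sum_ite_eq', if_pos (Finset.mem_univ i)]
  · exact ⟨fun _ => 0, fun j => (W j).zero_mem, by simp⟩
  · rintro x y ⟨f, hf, rfl⟩ ⟨g, hg, rfl⟩
    exact ⟨fun j => f j + g j, fun j => (W j).add_mem (hf j) (hg j), Finset.sum_add_distrib⟩

private theorem SmallCon_orth {N k : ℕ} (W : Fin k → Submodule ℝ (Fin N → ℝ))
    (hort : ∀ i j, i ≠ j → ∀ v ∈ W i, ∀ w ∈ W j, v ⬝ᵥ w = 0) {f : Fin k → Fin N → ℝ}
    (hf : ∀ j, f j ∈ W j) : (∑ j, f j) ⬝ᵥ (∑ j, f j) = ∑ j, f j ⬝ᵥ f j := by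
  rw [sum_dotProduct]
  refine Finset.sum_congr rfl fun i _ => ?_
  rw [dotProduct_sum]
  refine Finset.sum_eq_single i (fun j _ hj => hort i j (Ne.symm hj) _ (hf i) _ (hf j)) ?_
  intro h
  exact absurd (Finset.mem_univ i) h

theorem small_of_blocks {N : ℕ} (hN : 3 ≤ N) (h : LieSubalgebra ℝ (so (Fin N) ℝ)) {k : ℕ}
    (W : Fin k → Submodule ℝ (Fin N → ℝ)) {d : ℝ} (hd : ∀ j, (Module.finrank ℝ (W j) : ℝ) ≤ d)
    (hort : ∀ i j, i ≠ j → ∀ v ∈ W i, ∀ w ∈ W j, v ⬝ᵥ w = 0) (htop : ⨆ j, W j = ⊤)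
    (hinv : ∀ x ∈ h, ∀ j, ∀ v ∈ W j, x.1 *ᵥ v ∈ W j) :
    SmallV h (d / (2 * ((N : ℝ) - 2))) := by
  have hN3 : (3 : ℝ) ≤ N := by exact_mod_cast hN
  have hn : (0 : ℝ) < (N : ℝ) - 2 := by linarith
  intro m a ha ho v
  obtain ⟨f, hf, hfv⟩ := SmallCon_dec W (v := v) (by rw [htop]; trivial)
  have h1 : ∀ i, ((a i).1 *ᵥ v) ⬝ᵥ ((a i).1 *ᵥ v) =
      ∑ j, ((a i).1 *ᵥ f j) ⬝ᵥ ((a i).1 *ᵥ f j) := by
    intro i
    rw [← hfv, Matrix.mulVec_sum]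
    exact SmallCon_orth W hort (f := fun j => (a i).1 *ᵥ f j)
      fun j => hinv (a i) (ha i) j _ (hf j)
  have h2 : v ⬝ᵥ v = ∑ j, f j ⬝ᵥ f j := by
    rw [← hfv]
    exact SmallCon_orth W hort hf
  have h3 : ∀ j, ∑ i, ((a i).1 *ᵥ f j) ⬝ᵥ ((a i).1 *ᵥ f j) ≤
      d / (2 * ((N : ℝ) - 2)) * (f j ⬝ᵥ f j) := by
    intro j
    obtain ⟨w, hw1, hw2⟩ := SmallCon_basis (W j)
    have hff : 0 ≤ f j ⬝ᵥ f j := Finset.sum_nonneg fun k _ => mul_self_nonneg _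
    calc ∑ i, ((a i).1 *ᵥ f j) ⬝ᵥ ((a i).1 *ᵥ f j)
        = ∑ i, ∑ l, (w l ⬝ᵥ ((a i).1 *ᵥ f j)) ^ 2 :=
          Finset.sum_congr rfl fun i _ => hw2 _ (hinv (a i) (ha i) j _ (hf j))
      _ = ∑ l, ∑ i, (w l ⬝ᵥ ((a i).1 *ᵥ f j)) ^ 2 := Finset.sum_comm
      _ ≤ ∑ _l : Fin (Module.finrank ℝ (W j)), 1 * (f j ⬝ᵥ f j) / (2 * ((N : ℝ) - 2)) :=
          Finset.sum_le_sum fun l _ => by
            have := SmallCon_bessel hN ho (w l) (f j)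
            rwa [hw1 l] at this
      _ = (Module.finrank ℝ (W j) : ℝ) * ((f j ⬝ᵥ f j) / (2 * ((N : ℝ) - 2))) := by
          rw [Finset.sum_const, Finset.card_univ, Fintype.card_fin, nsmul_eq_mul, one_mul]
      _ ≤ d * ((f j ⬝ᵥ f j) / (2 * ((N : ℝ) - 2))) :=
          mul_le_mul_of_nonneg_right (hd j) (by positivity)
      _ = _ := by ring
  calc ∑ i, ((a i).1 *ᵥ v) ⬝ᵥ ((a i).1 *ᵥ v)
      = ∑ j, ∑ i, ((a i).1 *ᵥ f j) ⬝ᵥ ((a i).1 *ᵥ f j) := by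
        rw [Finset.sum_comm]
        exact Finset.sum_congr rfl fun i _ => h1 i
    _ ≤ ∑ j, d / (2 * ((N : ℝ) - 2)) * (f j ⬝ᵥ f j) := Finset.sum_le_sum fun j _ => h3 j
    _ = _ := by rw [← Finset.mul_sum, h2]

end Pool.Agent.EinU
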