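import Pool.Agent.EinU.EtaSo

/-!
# The Casimir operator on `ℝ^N` is bounded by the dimension

See the header of `EtaSo.lean`, item `small_dim`.
-/

namespace Pool.Agent.EinU

open Matrix Pool.Agent.EStab Pool.Agent.EinS Pool.Agent.SmIso LieAlgebra.Orthogonal

variable {N : ℕ}

private theorem SmallDim_skewT (x : so (Fin N) ℝ) : (x.1)ᵀ = -x.1 :=
  (mem_so (Fin N) ℝ x.1).1 x.2

/-- The spectral theorem in terms of dot products. -/
private theorem SmallDim_spec {M : Matrix (Fin N) (Fin N) ℝ} (hM : M.IsSymm) :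
    ∃ (u : Fin N → Fin N → ℝ) (l : Fin N → ℝ), (∀ i, M *ᵥ u i = l i • u i) ∧
      (∀ i, u i ⬝ᵥ u i = 1) ∧
      (∀ x y : Fin N → ℝ, x ⬝ᵥ y = ∑ i, (u i ⬝ᵥ x) * (u i ⬝ᵥ y)) ∧ M.trace = ∑ i, l i := by
  have hH : M.IsHermitian := by
    unfold Matrix.IsHermitian
    rw [Matrix.conjTranspose_eq_transpose_of_trivial]
    exact hM
  have hin : ∀ x y : EuclideanSpace ℝ (Fin N), inner ℝ x y = x.ofLp ⬝ᵥ y.ofLp := by
    intro x y
    rw [EuclideanSpace.inner_eq_star_dotProduct, star_trivial, dotProduct_comm]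
  refine ⟨fun i => (hH.eigenvectorBasis i).ofLp, hH.eigenvalues, fun i =>
    hH.mulVec_eigenvectorBasis i, fun i => ?_, fun x y => ?_, ?_⟩
  · have h1 := hH.eigenvectorBasis.norm_eq_one i
    have h2 : inner ℝ (hH.eigenvectorBasis i) (hH.eigenvectorBasis i) = (1 : ℝ) := by
      rw [real_inner_self_eq_norm_sq, h1, one_pow]
    rw [hin] at h2
    exact h2
  · have h1 := hH.eigenvectorBasis.sum_inner_mul_inner (WithLp.toLp 2 x) (WithLp.toLp 2 y)
    simp only [hin] at h1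
    rw [← h1]
    refine Finset.sum_congr rfl fun i _ => ?_
    rw [dotProduct_comm x]
  · have h1 := hH.trace_eq_sum_eigenvalues
    simpa using h1

/-- `w vᵀ - v wᵀ`. -/
private def SmallDim_Z (w v : Fin N → ℝ) : so (Fin N) ℝ :=
  ⟨of fun a b => w a * v b - v a * w b, by
    rw [mem_so]
    ext a b
    rw [Matrix.transpose_apply, Matrix.neg_apply, of_apply, of_apply]
    ring⟩

private theorem SmallDim_Z_eq (x : so (Fin N) ℝ) (w v : Fin N → ℝ) :
    Qf (so (Fin N) ℝ) x (SmallDim_Z w v) = 2 * ((N : ℝ) - 2) * (w ⬝ᵥ (x.1 *ᵥ v)) := by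
  rw [Qf_so]
  have h1 : ∑ a, ∑ b, x.1 a b * (SmallDim_Z w v).1 a b =
      ∑ a, ∑ b, w a * (x.1 a b * v b) - ∑ a, ∑ b, x.1 a b * (v a * w b) := by
    rw [← Finset.sum_sub_distrib]
    refine Finset.sum_congr rfl fun a _ => ?_
    rw [← Finset.sum_sub_distrib]
    refine Finset.sum_congr rfl fun b _ => ?_
    show x.1 a b * (w a * v b - v a * w b) = _
    ring
  have h2 : ∑ a, ∑ b, x.1 a b * (v a * w b) = - ∑ a, ∑ b, w a * (x.1 a b * v b) := by
    rw [Finset.sum_comm, ← Finset.sum_neg_distrib]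
    refine Finset.sum_congr rfl fun b _ => ?_
    rw [← Finset.sum_neg_distrib]
    refine Finset.sum_congr rfl fun a _ => ?_
    rw [so_skew x a b]
    ring
  have h3 : w ⬝ᵥ (x.1 *ᵥ v) = ∑ a, ∑ b, w a * (x.1 a b * v b) := by
    unfold dotProduct Matrix.mulVec dotProduct
    refine Finset.sum_congr rfl fun a _ => ?_
    rw [Finset.mul_sum]
  rw [h1, h2, h3]
  ring

private theorem SmallDim_ZZ (w v : Fin N → ℝ) :
    Qf (so (Fin N) ℝ) (SmallDim_Z w v) (SmallDim_Z w v) =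
      2 * ((N : ℝ) - 2) * ((w ⬝ᵥ w) * (v ⬝ᵥ v) - (w ⬝ᵥ v) ^ 2) := by
  rw [SmallDim_Z_eq]
  congr 1
  have h1 : (SmallDim_Z w v).1 *ᵥ v = (v ⬝ᵥ v) • w - (w ⬝ᵥ v) • v := by
    ext a
    show ∑ b, (w a * v b - v a * w b) * v b = (v ⬝ᵥ v) * w a - (w ⬝ᵥ v) * v a
    unfold dotProduct
    rw [Finset.sum_mul, Finset.sum_mul, ← Finset.sum_sub_distrib]
    exact Finset.sum_congr rfl fun b _ => by ring
  rw [h1, dotProduct_sub, dotProduct_smul, dotProduct_smul, smul_eq_mul, smul_eq_mul]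
  ring

private theorem SmallDim_finrank {L : Type*} [LieRing L] [LieAlgebra ℝ L] (W : Submodule ℝ L)
    {n : ℕ} {e : Fin n → L} (he : IsFrame W e) : Module.finrank ℝ W = n := by
  have hli : LinearIndependent ℝ e := by
    rw [Fintype.linearIndependent_iff]
    intro c hc i
    have h1 := he.coord c i
    rw [hc, map_zero, LinearMap.zero_apply] at h1
    exact h1.symm
  have hspan : Submodule.span ℝ (Set.range e) = W := by
    apply le_antisymm
    · rw [Submodule.span_le]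
      rintro _ ⟨i, rfl⟩
      exact he.mem i
    · intro x hx
      rw [he.exp x hx]
      exact Submodule.sum_mem _ fun i _ => Submodule.smul_mem _ _
        (Submodule.subset_span ⟨i, rfl⟩)
  have h2 := finrank_span_eq_card hli
  rw [hspan, Fintype.card_fin] at h2
  exact h2

private theorem SmallDim_bessel {L : Type*} [LieRing L] [LieAlgebra ℝ L]
    (hg : CompactSemisimple L) {W : Submodule ℝ L}
    {n m : ℕ} {e : Fin n → L} (he : IsFrame W e) {a : Fin m → L} (ha : ∀ j, a j ∈ W)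
    (ho : ∀ i j, Qf L (a i) (a j) = if i = j then 1 else 0) (u : L) :
    ∑ j, Qf L (a j) u ^ 2 ≤ ∑ i, Qf L (e i) u ^ 2 := by
  obtain ⟨v, hv⟩ : ∃ v, v = ∑ i, Qf L u (e i) • e i := ⟨_, rfl⟩
  have hvW : v ∈ W := by
    rw [hv]
    exact Submodule.sum_mem _ fun i _ => W.smul_mem _ (he.mem i)
  have h2 : ∀ i, Qf L v (e i) = Qf L u (e i) := by
    intro i
    rw [hv]
    exact he.coord (fun i => Qf L u (e i)) i
  have h3 : ∀ j, Qf L (a j) u = Qf L v (a j) := by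
    intro j
    rw [he.parseval (ha j) u, Qf_symm v (a j), he.parseval (ha j) v]
    refine Finset.sum_congr rfl fun i _ => ?_
    rw [h2]
  have h4 : Qf L v v = ∑ i, Qf L (e i) u ^ 2 := by
    rw [he.parseval hvW v]
    refine Finset.sum_congr rfl fun i _ => ?_
    rw [h2, Qf_symm (e i) u, sq]
  simp only [h3]
  rw [← h4]
  exact bessel_fam hg ho v

/-- The Casimir matrix commutes with the subalgebra. -/
private theorem SmallDim_comm {h : LieSubalgebra ℝ (so (Fin N) ℝ)} {r : ℕ}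
    {e : Fin r → so (Fin N) ℝ} (he : IsFrame h.toSubmodule e) {x : so (Fin N) ℝ} (hx : x ∈ h) :
    x.1 * (∑ i, -((e i).1 * (e i).1)) = (∑ i, -((e i).1 * (e i).1)) * x.1 := by
  have hc : ∀ i, (⁅x, e i⁆ : so (Fin N) ℝ) = ∑ j, Qf (so (Fin N) ℝ) ⁅x, e i⁆ (e j) • e j :=
    fun i => he.exp _ (h.lie_mem hx (he.mem i))
  have hcm : ∀ i, (x.1 * (e i).1 - (e i).1 * x.1 : Matrix (Fin N) (Fin N) ℝ) =
      ∑ j, Qf (so (Fin N) ℝ) ⁅x, e i⁆ (e j) • (e j).1 := by
    intro i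
    have h1 : (⁅x, e i⁆ : so (Fin N) ℝ).1 = x.1 * (e i).1 - (e i).1 * x.1 := rfl
    rw [← h1]
    conv_lhs => rw [hc i]
    let φ : so (Fin N) ℝ →ₗ[ℝ] Matrix (Fin N) (Fin N) ℝ :=
      { toFun := fun x => x.1
        map_add' := fun _ _ => rfl
        map_smul' := fun _ _ => rfl }
    show φ (∑ j, Qf (so (Fin N) ℝ) ⁅x, e i⁆ (e j) • e j) = _
    rw [map_sum]
    refine Finset.sum_congr rfl fun j _ => ?_
    rw [map_smul]
    rfl
  have hanti : ∀ i j, Qf (so (Fin N) ℝ) ⁅x, e i⁆ (e j) = -Qf (so (Fin N) ℝ) ⁅x, e j⁆ (e i) := by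
    intro i j
    rw [Qf_lie', Qf_symm]
  have hS : ∑ i, ((x.1 * (e i).1 - (e i).1 * x.1) * (e i).1 +
      (e i).1 * (x.1 * (e i).1 - (e i).1 * x.1) : Matrix (Fin N) (Fin N) ℝ) = 0 := by
    have e1 : ∑ i, ((x.1 * (e i).1 - (e i).1 * x.1) * (e i).1 +
        (e i).1 * (x.1 * (e i).1 - (e i).1 * x.1) : Matrix (Fin N) (Fin N) ℝ) =
        ∑ i, ∑ j, Qf (so (Fin N) ℝ) ⁅x, e i⁆ (e j) •
          ((e j).1 * (e i).1 + (e i).1 * (e j).1) := by
      refine Finset.sum_congr rfl fun i _ => ?_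
      rw [hcm i, Finset.sum_mul, Finset.mul_sum, ← Finset.sum_add_distrib]
      refine Finset.sum_congr rfl fun j _ => ?_
      rw [Matrix.smul_mul, Matrix.mul_smul, smul_add]
    rw [e1]
    have e2 : ∑ i, ∑ j, Qf (so (Fin N) ℝ) ⁅x, e i⁆ (e j) •
          ((e j).1 * (e i).1 + (e i).1 * (e j).1) =
        - ∑ i, ∑ j, Qf (so (Fin N) ℝ) ⁅x, e i⁆ (e j) •
          ((e j).1 * (e i).1 + (e i).1 * (e j).1) := by
      conv_lhs => rw [Finset.sum_comm]
      rw [← Finset.sum_neg_distrib]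
      refine Finset.sum_congr rfl fun i _ => ?_
      rw [← Finset.sum_neg_distrib]
      refine Finset.sum_congr rfl fun j _ => ?_
      rw [hanti j i, neg_smul, add_comm ((e i).1 * (e j).1)]
    generalize (∑ i, ∑ j, Qf (so (Fin N) ℝ) ⁅x, e i⁆ (e j) •
          ((e j).1 * (e i).1 + (e i).1 * (e j).1)) = X at e2 ⊢
    ext a b
    have h3 := congrFun (congrFun e2 a) b
    rw [Matrix.neg_apply] at h3
    rw [Matrix.zero_apply]
    linarith
  have h2 : x.1 * (∑ i, -((e i).1 * (e i).1)) - (∑ i, -((e i).1 * (e i).1)) * x.1 =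
      - ∑ i, ((x.1 * (e i).1 - (e i).1 * x.1) * (e i).1 +
      (e i).1 * (x.1 * (e i).1 - (e i).1 * x.1) : Matrix (Fin N) (Fin N) ℝ) := by
    rw [Finset.mul_sum, Finset.sum_mul, ← Finset.sum_sub_distrib, ← Finset.sum_neg_distrib]
    refine Finset.sum_congr rfl fun i _ => ?_
    noncomm_ring
  rw [hS, neg_zero] at h2
  exact sub_eq_zero.1 h2

theorem small_dim (hN : 3 ≤ N) (h : LieSubalgebra ℝ (so (Fin N) ℝ)) :
    SmallV h (Real.sqrt ((Module.finrank ℝ h : ℝ) / 2) / ((N : ℝ) - 2)) := by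
  classical
  have hN3 : (3 : ℝ) ≤ N := by exact_mod_cast hN
  have hn : (0 : ℝ) < (N : ℝ) - 2 := by linarith
  have hg : CompactSemisimple (so (Fin N) ℝ) := so_compact hN
  obtain ⟨r, e, he⟩ := exists_frame hg h.toSubmodule
  have hr : Module.finrank ℝ h = r := SmallDim_finrank h.toSubmodule he
  obtain ⟨M, hM⟩ : ∃ M : Matrix (Fin N) (Fin N) ℝ, M = ∑ i, -((e i).1 * (e i).1) := ⟨_, rfl⟩
  have hMs : M.IsSymm := by
    unfold Matrix.IsSymm
    rw [hM, Matrix.transpose_sum]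
    refine Finset.sum_congr rfl fun i _ => ?_
    rw [Matrix.transpose_neg, Matrix.transpose_mul, SmallDim_skewT, neg_mul_neg]
  have hself : ∀ (x : so (Fin N) ℝ) (w v : Fin N → ℝ), w ⬝ᵥ (x.1 *ᵥ v) = -((x.1 *ᵥ w) ⬝ᵥ v) := by
    intro x w v
    rw [Matrix.dotProduct_mulVec, ← Matrix.mulVec_transpose, SmallDim_skewT, Matrix.neg_mulVec,
      neg_dotProduct]
  have hMself : ∀ w v : Fin N → ℝ, w ⬝ᵥ (M *ᵥ v) = (M *ᵥ w) ⬝ᵥ v := by
    intro w v
    rw [Matrix.dotProduct_mulVec, ← Matrix.mulVec_transpose, hMs.eq]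
  have hMq : ∀ v : Fin N → ℝ, v ⬝ᵥ (M *ᵥ v) = ∑ i, ((e i).1 *ᵥ v) ⬝ᵥ ((e i).1 *ᵥ v) := by
    intro v
    rw [hM, Matrix.sum_mulVec, dotProduct_sum]
    refine Finset.sum_congr rfl fun i _ => ?_
    rw [Matrix.neg_mulVec, dotProduct_neg, ← Matrix.mulVec_mulVec, hself, neg_neg]
  have htr : M.trace = (r : ℝ) / ((N : ℝ) - 2) := by
    rw [hM, Matrix.trace_sum]
    have h2 : ∀ i, (-((e i).1 * (e i).1)).trace = 1 / ((N : ℝ) - 2) := by
      intro i
      have h3 := he.orth i i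
      rw [if_pos rfl, Qf_so] at h3
      have h4 : (-((e i).1 * (e i).1)).trace = ∑ a, ∑ b, (e i).1 a b * (e i).1 a b := by
        unfold Matrix.trace
        refine Finset.sum_congr rfl fun a _ => ?_
        rw [Matrix.diag_apply, Matrix.neg_apply, Matrix.mul_apply, ← Finset.sum_neg_distrib]
        refine Finset.sum_congr rfl fun b _ => ?_
        rw [so_skew (e i) b a]
        ring
      rw [eq_div_iff hn.ne', h4, mul_comm]
      exact h3
    simp only [h2]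
    rw [Finset.sum_const, Finset.card_univ, Fintype.card_fin, nsmul_eq_mul]
    ring
  obtain ⟨u, l, hul, huu, hpar, hltr⟩ := SmallDim_spec hMs
  haveI : Nonempty (Fin N) := ⟨⟨0, by omega⟩⟩
  obtain ⟨i0, hi0⟩ := Finite.exists_max l
  set c : ℝ := l i0 with hc
  -- nonnegativity of the eigenvalues
  have hl0 : ∀ i, 0 ≤ l i := by
    intro i
    have h1 : u i ⬝ᵥ (M *ᵥ u i) = l i := by
      rw [hul, dotProduct_smul, huu, smul_eq_mul, mul_one]
    rw [← h1, hMq]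
    exact Finset.sum_nonneg fun j _ => Finset.sum_nonneg fun k _ => mul_self_nonneg _
  set S : Finset (Fin N) := Finset.univ.filter fun i => l i = c with hS
  have hi : c * (S.card : ℝ) ≤ (r : ℝ) / ((N : ℝ) - 2) := by
    rw [← htr, hltr]
    calc c * (S.card : ℝ) = ∑ i ∈ S, l i := by
          rw [Finset.sum_congr rfl (fun i hi => (Finset.mem_filter.1 hi).2), Finset.sum_const,
            nsmul_eq_mul]
          ring
      _ ≤ ∑ i, l i := Finset.sum_le_sum_of_subset_of_nonneg (Finset.subset_univ _)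
          fun i _ _ => hl0 i
  -- Bessel for the coefficients
  have hco : ∀ i, ∑ j, (u i ⬝ᵥ ((e j).1 *ᵥ u i0)) ^ 2 ≤ 1 / (2 * ((N : ℝ) - 2)) := by
    intro i
    have h1 := bessel_fam hg he.orth (SmallDim_Z (u i) (u i0))
    have h2 : ∀ j, Qf (so (Fin N) ℝ) (SmallDim_Z (u i) (u i0)) (e j) ^ 2 =
        (2 * ((N : ℝ) - 2)) ^ 2 * (u i ⬝ᵥ ((e j).1 *ᵥ u i0)) ^ 2 := by
      intro j
      rw [Qf_symm, SmallDim_Z_eq, mul_pow]
    simp only [h2] at h1
    rw [← Finset.mul_sum, SmallDim_ZZ, huu, huu] at h1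
    have h3 := sq_nonneg (u i ⬝ᵥ u i0)
    rw [le_div_iff₀ (by positivity)]
    have h4 : (2 * ((N : ℝ) - 2)) * ((2 * ((N : ℝ) - 2)) *
        ∑ j, (u i ⬝ᵥ ((e j).1 *ᵥ u i0)) ^ 2) ≤ (2 * ((N : ℝ) - 2)) * 1 := by
      nlinarith
    have h5 := le_of_mul_le_mul_left h4 (by positivity)
    linarith
  have hzero : ∀ i, i ∉ S → ∀ j, u i ⬝ᵥ ((e j).1 *ᵥ u i0) = 0 := by
    intro i hiS j
    have hne : l i ≠ c := fun h0 => hiS (Finset.mem_filter.2 ⟨Finset.mem_univ _, h0⟩)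
    have h1 : M *ᵥ ((e j).1 *ᵥ u i0) = c • ((e j).1 *ᵥ u i0) := by
      have h2 := SmallDim_comm he (x := e j) (he.mem j)
      rw [← hM] at h2
      rw [Matrix.mulVec_mulVec, ← h2, ← Matrix.mulVec_mulVec, hul, Matrix.mulVec_smul]
    have h3 := hMself (u i) ((e j).1 *ᵥ u i0)
    rw [h1, hul, dotProduct_smul, smul_dotProduct, smul_eq_mul, smul_eq_mul] at h3
    have h4 : (c - l i) * (u i ⬝ᵥ ((e j).1 *ᵥ u i0)) = 0 := by
      rw [sub_mul, h3, sub_self]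
    rcases mul_eq_zero.1 h4 with h5 | h5
    · exact absurd (sub_eq_zero.1 h5).symm hne
    · exact h5
  have hii : c ≤ (S.card : ℝ) * (1 / (2 * ((N : ℝ) - 2))) := by
    have h1 : u i0 ⬝ᵥ (M *ᵥ u i0) = c := by
      rw [hul, dotProduct_smul, huu, smul_eq_mul, mul_one]
    calc c = ∑ j, ∑ i, (u i ⬝ᵥ ((e j).1 *ᵥ u i0)) ^ 2 := by
          rw [← h1, hMq]
          refine Finset.sum_congr rfl fun j _ => ?_
          rw [hpar]
          exact Finset.sum_congr rfl fun i _ => (sq _).symm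
      _ = ∑ i, ∑ j, (u i ⬝ᵥ ((e j).1 *ᵥ u i0)) ^ 2 := Finset.sum_comm
      _ = ∑ i ∈ S, ∑ j, (u i ⬝ᵥ ((e j).1 *ᵥ u i0)) ^ 2 := by
          symm
          refine Finset.sum_subset (Finset.subset_univ _) fun i _ hiS => ?_
          exact Finset.sum_eq_zero fun j _ => by rw [hzero i hiS j, zero_pow two_ne_zero]
      _ ≤ ∑ _i ∈ S, 1 / (2 * ((N : ℝ) - 2)) := Finset.sum_le_sum fun i _ => hco i
      _ = (S.card : ℝ) * (1 / (2 * ((N : ℝ) - 2))) := by
          rw [Finset.sum_const, nsmul_eq_mul]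
  have hcδ : c ≤ Real.sqrt ((Module.finrank ℝ h : ℝ) / 2) / ((N : ℝ) - 2) := by
    rw [le_div_iff₀ hn, hr]
    refine Real.le_sqrt_of_sq_le ?_
    have hc0 : 0 ≤ c := hl0 i0
    rw [le_div_iff₀ hn] at hi
    have h1 : c * (2 * ((N : ℝ) - 2)) ≤ S.card := by
      have h2 : (S.card : ℝ) * (1 / (2 * ((N : ℝ) - 2))) = S.card / (2 * ((N : ℝ) - 2)) := by
        ring
      rw [h2] at hii
      exact (le_div_iff₀ (by positivity)).1 hii
    have h3 : (c * ((N : ℝ) - 2)) * (c * (2 * ((N : ℝ) - 2))) ≤ (c * ((N : ℝ) - 2)) * S.card :=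
      mul_le_mul_of_nonneg_left h1 (by positivity)
    nlinarith
  -- conclusion
  intro m a ha ho v
  have hvv : 0 ≤ v ⬝ᵥ v := Finset.sum_nonneg fun k _ => mul_self_nonneg _
  have hA : ∀ x : so (Fin N) ℝ, (x.1 *ᵥ v) ⬝ᵥ (x.1 *ᵥ v) =
      ∑ k, (Qf (so (Fin N) ℝ) x (SmallDim_Z (Pi.single k 1) v) / (2 * ((N : ℝ) - 2))) ^ 2 := by
    intro x
    unfold dotProduct
    refine Finset.sum_congr rfl fun k _ => ?_
    rw [SmallDim_Z_eq, single_one_dotProduct, mul_div_cancel_left₀ _ (by positivity), sq]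
  have hB : ∑ i, ((a i).1 *ᵥ v) ⬝ᵥ ((a i).1 *ᵥ v) ≤ ∑ i, ((e i).1 *ᵥ v) ⬝ᵥ ((e i).1 *ᵥ v) := by
    simp only [hA]
    rw [Finset.sum_comm]
    conv_rhs => rw [Finset.sum_comm]
    refine Finset.sum_le_sum fun k _ => ?_
    simp only [div_pow]
    rw [← Finset.sum_div, ← Finset.sum_div]
    exact div_le_div_of_nonneg_right (SmallDim_bessel hg he ha ho _) (by positivity)
  have hC : v ⬝ᵥ (M *ᵥ v) ≤ c * (v ⬝ᵥ v) := by
    rw [hpar v (M *ᵥ v), hpar v v, Finset.mul_sum]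
    refine Finset.sum_le_sum fun i _ => ?_
    rw [hMself, hul, smul_dotProduct, smul_eq_mul]
    have h1 := mul_self_nonneg (u i ⬝ᵥ v)
    have h2 := hi0 i
    nlinarith
  calc ∑ i, ((a i).1 *ᵥ v) ⬝ᵥ ((a i).1 *ᵥ v) ≤ ∑ i, ((e i).1 *ᵥ v) ⬝ᵥ ((e i).1 *ᵥ v) := hB
    _ = v ⬝ᵥ (M *ᵥ v) := (hMq v).symm
    _ ≤ c * (v ⬝ᵥ v) := hC
    _ ≤ _ := mul_le_mul_of_nonneg_right hcδ hvv

end Pool.Agent.EinU
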