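import Pool.Agent.EinU.Core
import Pool.Agent.EinU.SmallDim
import Pool.Agent.EinU.SmallCon
import Pool.Agent.EinU.AdB

/-!
# Einstein metrics on `SO(N)/H` for all subgroups `H` which split `ℝ^N`
-/

namespace Pool.Agent.EinU

open Matrix Pool.Agent.EStab Pool.Agent.EinS Pool.Agent.SmIso LieAlgebra.Orthogonal

/-- Conjugation by the orthogonal matrices which preserve `h` and `W`. -/
def normAuts {N : ℕ} (h : LieSubalgebra ℝ (so (Fin N) ℝ)) (W : Submodule ℝ (Fin N → ℝ)) :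
    Set (so (Fin N) ℝ →ₗ[ℝ] so (Fin N) ℝ) :=
  {γ | ∃ Q : Matrix (Fin N) (Fin N) ℝ, Q * Qᵀ = 1 ∧ (∀ v ∈ W, Q *ᵥ v ∈ W) ∧
    (∀ u ∈ h, ∃ u' ∈ h, Q * u.1 * Qᵀ = u'.1) ∧ ∀ x, (γ x).1 = Q * x.1 * Qᵀ}

theorem SmallV.mono {N : ℕ} {h : LieSubalgebra ℝ (so (Fin N) ℝ)} {δ δ' : ℝ}
    (hs : SmallV h δ) (hd : δ ≤ δ') : SmallV h δ' := by
  intro n a ha hao v
  refine (hs n a ha hao v).trans (mul_le_mul_of_nonneg_right hd ?_)
  exact Finset.sum_nonneg fun i _ => mul_self_nonneg _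

/-- Uniformity in the ratio. -/
theorem so_theta {θ : ℝ} (hθ : 0 < θ) : ∃ δ : ℝ, 0 < δ ∧
    ∀ (N : ℕ) (A : Finset (Fin N)), 3 ≤ N → 1 / δ ≤ N → θ * N ≤ A.card →
    (A.card : ℝ) ≤ (1 - θ) * N →
    ∀ h : LieSubalgebra ℝ (so (Fin N) ℝ), (∀ x ∈ h, BW A 0 0 1 x = 0) → SmallV h δ →
      HasEinsteinMetric (so (Fin N) ℝ) h.toSubmodule (coreAuts A h) := by
  classical
  have hcore : ∀ ν : ℝ, ∃ δ : ℝ, 0 < δ ∧ (0 < ν → ν < 1 →
    ∀ (N : ℕ) (A : Finset (Fin N)), 3 ≤ N → 1 / δ ≤ N → |(A.card : ℝ) / N - ν| ≤ δ →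
    ∀ h : LieSubalgebra ℝ (so (Fin N) ℝ), (∀ x ∈ h, BW A 0 0 1 x = 0) → SmallV h δ →
      HasEinsteinMetric (so (Fin N) ℝ) h.toSubmodule (coreAuts A h)) := by
    intro ν
    by_cases h : 0 < ν ∧ ν < 1
    · obtain ⟨δ, hδ, hd⟩ := so_core h.1 h.2
      exact ⟨δ, hδ, fun _ _ => hd⟩
    · exact ⟨1, one_pos, fun h0 h1 => absurd ⟨h0, h1⟩ h⟩
  choose d hd0 hd using hcore
  obtain ⟨t, ht, hcov⟩ := (isCompact_Icc (a := θ) (b := 1 - θ)).elim_nhds_subcover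
    (fun ν => Metric.ball ν (d ν)) fun ν _ => Metric.ball_mem_nhds ν (hd0 ν)
  obtain ⟨δ, hδ, hmin⟩ : ∃ δ : ℝ, 0 < δ ∧ ∀ ν ∈ t, δ ≤ d ν := by
    by_cases hne : t.Nonempty
    · refine ⟨t.inf' hne d, ?_, fun ν hν => Finset.inf'_le d hν⟩
      rw [Finset.lt_inf'_iff]
      exact fun ν _ => hd0 ν
    · rw [Finset.not_nonempty_iff_eq_empty] at hne
      exact ⟨1, one_pos, fun ν hν => by rw [hne] at hν; exact absurd hν (Finset.notMem_empty _)⟩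
  refine ⟨δ, hδ, ?_⟩
  intro N A hN hNδ hA1 hA2 h hh hs
  have hN0 : (0 : ℝ) < N := by
    have : 0 < N := by omega
    exact_mod_cast this
  have hmem : (A.card : ℝ) / N ∈ Set.Icc θ (1 - θ) := by
    constructor
    · rwa [le_div_iff₀ hN0]
    · rwa [div_le_iff₀ hN0]
  obtain ⟨ν, hνt, hν⟩ := Set.mem_iUnion₂.1 (hcov hmem)
  have hνI := ht ν hνt
  have h0 : 0 < ν := lt_of_lt_of_le hθ hνI.1
  have h1 : ν < 1 := by linarith [hνI.2]
  rw [Metric.mem_ball, Real.dist_eq] at hν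
  exact hd ν h0 h1 N A hN ((one_div_le_one_div_of_le hδ (hmin ν hνt)).trans hNδ) hν.le h hh
    (hs.mono (hmin ν hνt))

private theorem Fin_qf {N : ℕ} (φ : so (Fin N) ℝ ≃ₗ⁅ℝ⁆ so (Fin N) ℝ) (x y : so (Fin N) ℝ) :
    Qf (so (Fin N) ℝ) (φ x) (φ y) = Qf (so (Fin N) ℝ) x y := by
  rw [Qf_apply, Qf_apply, LieAlgebra.killingForm_of_equiv_apply]

private theorem Fin_dot {N : ℕ} {Q : Matrix (Fin N) (Fin N) ℝ} (hQ : Q * Qᵀ = 1)
    (v w : Fin N → ℝ) : (Q *ᵥ v) ⬝ᵥ (Q *ᵥ w) = v ⬝ᵥ w := by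
  have hQ' : Qᵀ * Q = 1 := mul_eq_one_comm.1 hQ
  rw [Matrix.dotProduct_mulVec, Matrix.vecMul_mulVec, hQ', Matrix.vecMul_one]

/-- Conjugation. -/
private theorem Fin_small {N : ℕ} {Q : Matrix (Fin N) (Fin N) ℝ} (hQ : Q * Qᵀ = 1)
    {φ : so (Fin N) ℝ ≃ₗ⁅ℝ⁆ so (Fin N) ℝ} (hφ : ∀ x, (φ x).1 = Q * x.1 * Qᵀ)
    {h : LieSubalgebra ℝ (so (Fin N) ℝ)} {δ : ℝ} (hs : SmallV h δ) :
    SmallV (h.map (φ : so (Fin N) ℝ →ₗ⁅ℝ⁆ so (Fin N) ℝ)) δ := by
  have hQ' : Qᵀ * Q = 1 := mul_eq_one_comm.1 hQ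
  intro n a ha hao v
  choose b hb hba using fun i => (LieSubalgebra.mem_map _ _ _).1 (ha i)
  have hba' : ∀ i, φ (b i) = a i := hba
  have h1 : ∀ i, (a i).1 *ᵥ v = Q *ᵥ ((b i).1 *ᵥ (Qᵀ *ᵥ v)) := by
    intro i
    rw [← hba', hφ, Matrix.mulVec_mulVec, Matrix.mulVec_mulVec, Matrix.mul_assoc]
  have h2 : (Qᵀ *ᵥ v) ⬝ᵥ (Qᵀ *ᵥ v) = v ⬝ᵥ v :=
    Fin_dot (Q := Qᵀ) (by rw [Matrix.transpose_transpose]; exact hQ') v v
  have h3 := hs n b hb (fun i j => by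
    rw [← hao i j, ← hba' i, ← hba' j, Fin_qf]) (Qᵀ *ᵥ v)
  rw [h2] at h3
  simpa only [h1, Fin_dot hQ] using h3

/-- From the block form to an invariant subspace. -/
private theorem Fin_block {N : ℕ} (hN : 3 ≤ N) {h : LieSubalgebra ℝ (so (Fin N) ℝ)}
    {W : Submodule ℝ (Fin N → ℝ)} (hW : ∀ x ∈ h, ∀ v ∈ W, x.1 *ᵥ v ∈ W) {δ : ℝ}
    (hs : SmallV h δ)
    (hE : ∀ A : Finset (Fin N), A.card = Module.finrank ℝ W →
      ∀ h : LieSubalgebra ℝ (so (Fin N) ℝ), (∀ x ∈ h, BW A 0 0 1 x = 0) → SmallV h δ →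
      HasEinsteinMetric (so (Fin N) ℝ) h.toSubmodule (coreAuts A h)) :
    HasEinsteinMetric (so (Fin N) ℝ) h.toSubmodule (normAuts h W) := by
  obtain ⟨Q, A, hQ, hA, hWA⟩ := exists_adapted W
  have hQ' : Qᵀ * Q = 1 := mul_eq_one_comm.1 hQ
  obtain ⟨φ, hφ⟩ := exists_conjE hQ
  set h' := h.map (φ : so (Fin N) ℝ →ₗ⁅ℝ⁆ so (Fin N) ℝ) with hh'
  -- a matrix which preserves `W` is block triangular after conjugation
  have htri : ∀ R : Matrix (Fin N) (Fin N) ℝ, (∀ v ∈ W, R *ᵥ v ∈ W) → ∀ a, a ∉ A → ∀ b ∈ A,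
      (Q * R * Qᵀ) a b = 0 := by
    intro R hR a ha b hb
    have h1 : (Qᵀ *ᵥ Pi.single b 1) ∈ W := by
      rw [hWA]
      intro i hi
      rw [Matrix.mulVec_mulVec, hQ, Matrix.one_mulVec]
      exact Pi.single_eq_of_ne (fun e => hi (by rw [e]; exact hb)) 1
    have h2 := (hWA _).1 (hR _ h1) a ha
    rw [Matrix.mulVec_mulVec, Matrix.mulVec_mulVec, Matrix.mulVec_single_one] at h2
    exact h2
  have hblk : ∀ x ∈ h', BW A 0 0 1 x = 0 := by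
    intro x hx
    obtain ⟨y, hy, hyx⟩ := (LieSubalgebra.mem_map _ _ _).1 hx
    have hyx' : φ y = x := hyx
    have h1 : ∀ a, a ∉ A → ∀ b ∈ A, x.1 a b = 0 := by
      intro a ha b hb
      rw [← hyx', hφ]
      exact htri _ (hW y hy) a ha b hb
    apply Subtype.ext
    ext a b
    rw [BW_apply]
    change _ = (0 : ℝ)
    unfold bw
    by_cases ha : a ∈ A <;> by_cases hb : b ∈ A
    · simp [ha, hb]
    · rw [so_skew x a b, h1 b hb a ha]
      simp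
    · rw [h1 a ha b hb]
      simp
    · simp [ha, hb]
  have hE' := hE A hA h' hblk (Fin_small hQ hφ hs)
  have hback : (h'.toSubmodule).map (φ.symm : so (Fin N) ℝ →ₗ[ℝ] so (Fin N) ℝ) =
      h.toSubmodule := by
    ext x
    constructor
    · rintro ⟨y, hy, rfl⟩
      obtain ⟨z, hz, hzy⟩ := (LieSubalgebra.mem_map _ _ _).1 hy
      have hzy' : φ z = y := hzy
      change φ.symm y ∈ h
      rw [← hzy', φ.symm_apply_apply]
      exact hz
    · intro hx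
      refine ⟨φ x, (LieSubalgebra.mem_map _ _ _).2 ⟨x, hx, rfl⟩, ?_⟩
      exact φ.symm_apply_apply x
  rw [← hback]
  refine einstein_transport φ.symm ?_ hE'
  rintro γ' ⟨R, hR, hRW, hRh, hγ'⟩
  have hR' : Rᵀ * R = 1 := mul_eq_one_comm.1 hR
  -- `Rᵀ` preserves `W`
  have hRW' : ∀ v ∈ W, Rᵀ *ᵥ v ∈ W := by
    have hinj : Function.Injective (Matrix.mulVecLin R) := by
      intro v w hvw
      have h1 : R *ᵥ v = R *ᵥ w := hvw
      have h2 := congrArg (fun u => Rᵀ *ᵥ u) h1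
      simpa only [Matrix.mulVec_mulVec, hR', Matrix.one_mulVec] using h2
    have hle : W.map (Matrix.mulVecLin R) ≤ W := by
      rintro _ ⟨v, hv, rfl⟩
      exact hRW v hv
    have heq : W.map (Matrix.mulVecLin R) = W := by
      apply Submodule.eq_of_le_of_finrank_eq hle
      exact (Submodule.equivMapOfInjective _ hinj W).finrank_eq.symm
    intro v hv
    rw [← heq] at hv
    obtain ⟨w, hw, rfl⟩ := hv
    rw [Matrix.mulVecLin_apply, Matrix.mulVec_mulVec, hR', Matrix.one_mulVec]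
    exact hw
  have hM : (Q * R * Qᵀ) * (Q * R * Qᵀ)ᵀ = 1 := by
    rw [Matrix.transpose_mul, Matrix.transpose_mul, Matrix.transpose_transpose]
    calc Q * R * Qᵀ * (Q * (Rᵀ * Qᵀ)) = Q * (R * (Qᵀ * Q) * Rᵀ) * Qᵀ := by
          simp only [Matrix.mul_assoc]
      _ = 1 := by rw [hQ', Matrix.mul_one, hR, Matrix.mul_one, hQ]
  obtain ⟨ψ, hψ⟩ := exists_conjE hM
  refine ⟨(ψ : so (Fin N) ℝ →ₗ[ℝ] so (Fin N) ℝ), ⟨Q * R * Qᵀ, hM, ?_, ?_, fun x => hψ x⟩, ?_⟩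
  · intro a b hab
    by_cases ha : a ∈ A
    · have hb : b ∉ A := fun hb => hab ⟨fun _ => hb, fun _ => ha⟩
      have h1 := htri Rᵀ hRW' b hb a ha
      have h2 : (Q * R * Qᵀ)ᵀ = Q * Rᵀ * Qᵀ := by
        rw [Matrix.transpose_mul, Matrix.transpose_mul, Matrix.transpose_transpose,
          Matrix.mul_assoc]
      rw [← h2, Matrix.transpose_apply] at h1
      exact h1
    · have hb : b ∈ A := by
        by_contra hb
        exact hab ⟨fun h => absurd h ha, fun h => absurd h hb⟩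
      exact htri R hRW a ha b hb
  · intro u hu
    obtain ⟨y, hy, hyu⟩ := (LieSubalgebra.mem_map _ _ _).1 hu
    have hyu' : φ y = u := hyu
    obtain ⟨y', hy', hyy⟩ := hRh y hy
    refine ⟨φ y', (LieSubalgebra.mem_map _ _ _).2 ⟨y', hy', rfl⟩, ?_⟩
    rw [← hyu', hφ, hφ, ← hyy, Matrix.transpose_mul, Matrix.transpose_mul,
      Matrix.transpose_transpose]
    calc Q * R * Qᵀ * (Q * y.1 * Qᵀ) * (Q * (Rᵀ * Qᵀ))
        = Q * (R * ((Qᵀ * Q) * y.1 * (Qᵀ * Q)) * Rᵀ) * Qᵀ := by simp only [Matrix.mul_assoc]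
      _ = Q * (R * y.1 * Rᵀ) * Qᵀ := by rw [hQ', Matrix.one_mul, Matrix.mul_one]
  · intro x
    obtain ⟨y, rfl⟩ : ∃ y, φ y = x := ⟨φ.symm x, φ.apply_symm_apply x⟩
    rw [φ.symm_apply_apply]
    apply φ.injective
    change φ (γ' y) = φ (φ.symm (ψ (φ y)))
    rw [φ.apply_symm_apply]
    apply Subtype.ext
    rw [hφ, hγ', hψ, hφ, Matrix.transpose_mul, Matrix.transpose_mul,
      Matrix.transpose_transpose]
    calc Q * (R * y.1 * Rᵀ) * Qᵀ = Q * (R * ((1 : Matrix (Fin N) (Fin N) ℝ) * y.1 * 1) * Rᵀ) * Qᵀ := by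
          rw [Matrix.one_mul, Matrix.mul_one]
      _ = Q * (R * ((Qᵀ * Q) * y.1 * (Qᵀ * Q)) * Rᵀ) * Qᵀ := by rw [hQ']
      _ = Q * R * Qᵀ * (Q * y.1 * Qᵀ) * (Q * (Rᵀ * Qᵀ)) := by simp only [Matrix.mul_assoc]

/-- The version with the Casimir operator on `ℝ^N`. -/
theorem einstein_split_small {θ : ℝ} (hθ : 0 < θ) : ∃ δ : ℝ, 0 < δ ∧ ∀ N : ℕ, 3 ≤ N → 1 / δ ≤ N →
    ∀ (h : LieSubalgebra ℝ (so (Fin N) ℝ)) (W : Submodule ℝ (Fin N → ℝ)),
      (∀ x ∈ h, ∀ v ∈ W, x.1 *ᵥ v ∈ W) → θ * N ≤ Module.finrank ℝ W →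
      (Module.finrank ℝ W : ℝ) ≤ (1 - θ) * N → SmallV h δ →
      HasEinsteinMetric (so (Fin N) ℝ) h.toSubmodule (normAuts h W) := by
  obtain ⟨δ, hδ, hE⟩ := so_theta hθ
  refine ⟨δ, hδ, ?_⟩
  intro N hN hNδ h W hW hW1 hW2 hs
  refine Fin_block hN hW hs fun A hA h' hh' hs' => hE N A hN hNδ ?_ ?_ h' hh' hs'
  · rw [hA]; exact hW1
  · rw [hA]; exact hW2

/-- Einstein metrics for subgroups which split `ℝ^N` in the ratio `θ`. -/
theorem einstein_split {θ : ℝ} (hθ : 0 < θ) : ∃ ε : ℝ, 0 < ε ∧ ∀ N : ℕ, 3 ≤ N →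
    ∀ (h : LieSubalgebra ℝ (so (Fin N) ℝ)) (W : Submodule ℝ (Fin N → ℝ)),
      (∀ x ∈ h, ∀ v ∈ W, x.1 *ᵥ v ∈ W) → θ * N ≤ Module.finrank ℝ W →
      (Module.finrank ℝ W : ℝ) ≤ (1 - θ) * N → (Module.finrank ℝ h : ℝ) ≤ ε * N ^ 2 →
      HasEinsteinMetric (so (Fin N) ℝ) h.toSubmodule (normAuts h W) := by
  obtain ⟨δ, hδ, hE⟩ := einstein_split_small hθ
  refine ⟨δ ^ 2 / 9, by positivity, ?_⟩
  intro N hN h W hW hW1 hW2 hdim
  have hN3 : (3 : ℝ) ≤ N := by exact_mod_cast hN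
  by_cases hNδ : 1 / δ ≤ N
  · refine hE N hN hNδ h W hW hW1 hW2 ((small_dim hN h).mono ?_)
    have hn : (0 : ℝ) < (N : ℝ) - 2 := by linarith
    rw [div_le_iff₀ hn]
    have h1 : Real.sqrt ((Module.finrank ℝ h : ℝ) / 2) ≤ Real.sqrt ((δ * N / 3) ^ 2) := by
      apply Real.sqrt_le_sqrt
      nlinarith [sq_nonneg (δ * N)]
    rw [Real.sqrt_sq (by positivity)] at h1
    nlinarith [h1]
  · push Not at hNδ
    rw [lt_div_iff₀ hδ] at hNδ
    have h1 : (Module.finrank ℝ h : ℝ) < 1 := by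
      have h2 : 0 < δ * N := by positivity
      have h3 : (N : ℝ) * δ * (N * δ) < 1 := by nlinarith
      nlinarith
    have h2 : Module.finrank ℝ h = 0 := by
      have : Module.finrank ℝ h < 1 := by exact_mod_cast h1
      omega
    have h3 : h.toSubmodule = ⊥ := Submodule.finrank_eq_zero.1 h2
    rw [h3]
    refine einstein_bot (so_compact hN) ?_
    rintro γ ⟨Q, hQ, _, _, hγ⟩
    obtain ⟨φ, hφ⟩ := exists_conjE hQ
    exact ⟨φ, fun x => Subtype.ext (by rw [hγ, hφ])⟩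

/-- Conjugation by the orthogonal matrices which preserve `h` and all `W j`. -/
def blockAuts {N : ℕ} (h : LieSubalgebra ℝ (so (Fin N) ℝ)) {k : ℕ}
    (W : Fin k → Submodule ℝ (Fin N → ℝ)) : Set (so (Fin N) ℝ →ₗ[ℝ] so (Fin N) ℝ) :=
  {γ | ∃ Q : Matrix (Fin N) (Fin N) ℝ, Q * Qᵀ = 1 ∧ (∀ j, ∀ v ∈ W j, Q *ᵥ v ∈ W j) ∧
    (∀ u ∈ h, ∃ u' ∈ h, Q * u.1 * Qᵀ = u'.1) ∧ ∀ x, (γ x).1 = Q * x.1 * Qᵀ}

private theorem Fin_part {N k : ℕ} (W : Fin k → Submodule ℝ (Fin N → ℝ)) (htop : ⨆ j, W j = ⊤)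
    {d : ℝ} (hd : ∀ j, (Module.finrank ℝ (W j) : ℝ) ≤ d) (hdN : d ≤ N / 3) (hN : 0 < N) :
    ∃ m : ℕ, (N : ℝ) / 3 ≤ Module.finrank ℝ (⨆ (j : Fin k) (_ : j.1 < m), W j :
        Submodule ℝ (Fin N → ℝ)) ∧
      (Module.finrank ℝ (⨆ (j : Fin k) (_ : j.1 < m), W j : Submodule ℝ (Fin N → ℝ)) : ℝ) ≤
        2 * N / 3 := by
  classical
  have hN0 : (0 : ℝ) < N := by exact_mod_cast hN
  set D : ℕ → ℝ := fun m => (Module.finrank ℝ (⨆ (j : Fin k) (_ : j.1 < m), W j :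
        Submodule ℝ (Fin N → ℝ)) : ℝ) with hD
  have h0 : D 0 = 0 := by
    have : (⨆ (j : Fin k) (_ : j.1 < 0), W j : Submodule ℝ (Fin N → ℝ)) = ⊥ := by
      simp
    change (Module.finrank ℝ (⨆ (j : Fin k) (_ : j.1 < 0), W j : Submodule ℝ (Fin N → ℝ)) : ℝ) = 0
    rw [this, finrank_bot, Nat.cast_zero]
  have hk : (N : ℝ) / 3 ≤ D k := by
    have : (⨆ (j : Fin k) (_ : j.1 < k), W j : Submodule ℝ (Fin N → ℝ)) = ⊤ := by
      rw [← htop]
      exact iSup_congr fun j => iSup_pos j.2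
    change _ ≤ (Module.finrank ℝ (⨆ (j : Fin k) (_ : j.1 < k), W j :
      Submodule ℝ (Fin N → ℝ)) : ℝ)
    rw [this, finrank_top, Module.finrank_fin_fun]
    linarith
  have hstep : ∀ m, D (m + 1) ≤ D m + d := by
    intro m
    by_cases hm : m < k
    · have h1 : (⨆ (j : Fin k) (_ : j.1 < m + 1), W j : Submodule ℝ (Fin N → ℝ)) ≤
          (⨆ (j : Fin k) (_ : j.1 < m), W j) ⊔ W ⟨m, hm⟩ := by
        refine iSup₂_le fun j hj => ?_
        rcases Nat.lt_succ_iff_lt_or_eq.1 hj with h | h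
        · exact le_sup_of_le_left (le_iSup₂_of_le j h le_rfl)
        · refine le_sup_of_le_right ?_
          have : j = ⟨m, hm⟩ := Fin.ext h
          rw [this]
      have h2 := Submodule.finrank_mono h1
      have h3 := Submodule.finrank_add_le_finrank_add_finrank
        (⨆ (j : Fin k) (_ : j.1 < m), W j : Submodule ℝ (Fin N → ℝ)) (W ⟨m, hm⟩)
      have h4 := hd ⟨m, hm⟩
      have h5 : ((Module.finrank ℝ (⨆ (j : Fin k) (_ : j.1 < m + 1), W j :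
          Submodule ℝ (Fin N → ℝ)) : ℕ) : ℝ) ≤ ((Module.finrank ℝ (⨆ (j : Fin k) (_ : j.1 < m), W j :
          Submodule ℝ (Fin N → ℝ)) + Module.finrank ℝ (W ⟨m, hm⟩) : ℕ) : ℝ) := by
        exact_mod_cast h2.trans h3
      push_cast at h5
      simp only [hD]
      linarith
    · have h1 : (⨆ (j : Fin k) (_ : j.1 < m + 1), W j : Submodule ℝ (Fin N → ℝ)) =
          ⨆ (j : Fin k) (_ : j.1 < m), W j := by
        refine iSup_congr fun j => ?_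
        have h2 : j.1 < m := lt_of_lt_of_le j.2 (not_lt.1 hm)
        rw [iSup_pos h2, iSup_pos (Nat.lt_succ_of_lt h2)]
      have hDD : D (m + 1) = D m := by
        change (Module.finrank ℝ (⨆ (j : Fin k) (_ : j.1 < m + 1), W j :
          Submodule ℝ (Fin N → ℝ)) : ℝ) = _
        rw [h1]
      have hd0 : 0 ≤ d ∨ k = 0 := by
        rcases Nat.eq_zero_or_pos k with h | h
        · exact Or.inr h
        · exact Or.inl ((Nat.cast_nonneg _).trans (hd ⟨0, h⟩))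
      rcases hd0 with hd0 | hd0
      · linarith
      · exfalso
        subst hd0
        have : D 0 = 0 := h0
        rw [this] at hk
        linarith
  obtain ⟨m, hm1, hm2⟩ : ∃ m, (N : ℝ) / 3 ≤ D m ∧ ∀ m' < m, D m' < (N : ℝ) / 3 := by
    have hex : ∃ m, (N : ℝ) / 3 ≤ D m := ⟨k, hk⟩
    refine ⟨Nat.find hex, Nat.find_spec hex, fun m' hm' => ?_⟩
    exact not_le.1 (Nat.find_min hex hm')
  refine ⟨m, hm1, ?_⟩
  change D m ≤ _
  rcases Nat.eq_zero_or_pos m with h | h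
  · rw [h, h0]
    positivity
  · obtain ⟨m', rfl⟩ : ∃ m', m = m' + 1 := ⟨m - 1, by omega⟩
    have h1 := hstep m'
    have h2 := hm2 m' (Nat.lt_succ_self m')
    linarith

/-- All constituents small. -/
theorem einstein_small_blocks : ∃ ε : ℝ, 0 < ε ∧ ∀ N : ℕ, 3 ≤ N →
    ∀ (h : LieSubalgebra ℝ (so (Fin N) ℝ)) (k : ℕ) (W : Fin k → Submodule ℝ (Fin N → ℝ)),
      (∀ j, (Module.finrank ℝ (W j) : ℝ) ≤ ε * N) →
      (∀ i j, i ≠ j → ∀ v ∈ W i, ∀ w ∈ W j, v ⬝ᵥ w = 0) → ⨆ j, W j = ⊤ →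
      (∀ x ∈ h, ∀ j, ∀ v ∈ W j, x.1 *ᵥ v ∈ W j) →
      HasEinsteinMetric (so (Fin N) ℝ) h.toSubmodule (blockAuts h W) := by
  obtain ⟨δ, hδ, hE⟩ := einstein_split_small (θ := 1 / 3) (by norm_num)
  refine ⟨min (1 / 3) (2 / 3 * δ), lt_min (by norm_num) (by positivity), ?_⟩
  intro N hN h k W hd hort htop hinv
  set ε := min (1 / 3) (2 / 3 * δ) with hε
  have hε1 : ε ≤ 1 / 3 := min_le_left _ _
  have hε2 : ε ≤ 2 / 3 * δ := min_le_right _ _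
  have hε0 : 0 < ε := lt_min (by norm_num) (by positivity)
  have hN3 : (3 : ℝ) ≤ N := by exact_mod_cast hN
  by_cases hNδ : 1 / δ ≤ N
  · obtain ⟨m, hm1, hm2⟩ := Fin_part W htop hd (by nlinarith) (by omega)
    have hsmall := small_of_blocks hN h W hd hort htop hinv
    refine einstein_mono (hE N hN hNδ h (⨆ (j : Fin k) (_ : j.1 < m), W j) ?_ (by linarith)
      (by linarith) (hsmall.mono ?_)) ?_
    · intro x hx v hv
      have h1 : (⨆ (j : Fin k) (_ : j.1 < m), W j : Submodule ℝ (Fin N → ℝ)) ≤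
          (⨆ (j : Fin k) (_ : j.1 < m), W j : Submodule ℝ (Fin N → ℝ)).comap
            (Matrix.mulVecLin x.1) := by
        refine iSup₂_le fun j hj => ?_
        intro w hw
        rw [Submodule.mem_comap, Matrix.mulVecLin_apply]
        exact (le_iSup₂_of_le (f := fun (j : Fin k) (_ : j.1 < m) => W j) j hj le_rfl)
          (hinv x hx j w hw)
      exact h1 hv
    · have hn : (0 : ℝ) < 2 * ((N : ℝ) - 2) := by linarith
      rw [div_le_iff₀ hn]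
      nlinarith
    · rintro γ ⟨Q, hQ, hQW, hQh, hγ⟩
      refine ⟨Q, hQ, fun v hv => ?_, hQh, hγ⟩
      have h1 : (⨆ (j : Fin k) (_ : j.1 < m), W j : Submodule ℝ (Fin N → ℝ)) ≤
          (⨆ (j : Fin k) (_ : j.1 < m), W j : Submodule ℝ (Fin N → ℝ)).comap
            (Matrix.mulVecLin Q) := by
        refine iSup₂_le fun j hj => ?_
        intro w hw
        rw [Submodule.mem_comap, Matrix.mulVecLin_apply]
        exact (le_iSup₂_of_le (f := fun (j : Fin k) (_ : j.1 < m) => W j) j hj le_rfl)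
          (hQW j w hw)
      exact h1 hv
  · exfalso
    push Not at hNδ
    rw [lt_div_iff₀ hδ] at hNδ
    have h1 : ∀ j, W j = ⊥ := by
      intro j
      have h2 : (Module.finrank ℝ (W j) : ℝ) < 1 := by
        refine lt_of_le_of_lt (hd j) ?_
        nlinarith
      have h3 : Module.finrank ℝ (W j) = 0 := by
        have : Module.finrank ℝ (W j) < 1 := by exact_mod_cast h2
        omega
      exact Submodule.finrank_eq_zero.1 h3
    have h2 : (⊤ : Submodule ℝ (Fin N → ℝ)) = ⊥ := by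
      rw [← htop]
      simp only [h1, iSup_bot]
    have h3 : Module.finrank ℝ (⊤ : Submodule ℝ (Fin N → ℝ)) = 0 := by
      rw [h2, finrank_bot]
    rw [finrank_top, Module.finrank_fin_fun] at h3
    omega

end Pool.Agent.EinU
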