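import Pool.Agent.EinU.SoRho

/-!
# The contracted equations are uniquely solvable, uniformly in `N`

`ν₁ = ν`, `ν₂ = 1 - ν`, `σ = sN ν = √(ν₁ ν₂)`, `x_i = ν_i/(1+σ)`, `y_i = 1/x_i` (so `y_i ν_i = 1 + σ`),
`4 lam = (1+2σ+2σ²)/(1+σ) = 2 - ν₁ x₁ - ν₂ x₂`, `D = (1+2σ)/(4(1+σ)) = (1+σ)/2 - lam`, `q_i = x_i/2 - y_i`, `n = N - 2`,
`m₁ = card A`, `m₂ = N - m₁`.  Let `R` be the largest of the `L²` operator norms of `r1, r2, a` (restricted to a block),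
`e` the largest of `|m_i/n - ν_i|`, `1/n`, `|mu - (1+σ-lam)|`; `e → 0` as `δ → 0`.  `τ_i = trA r_i / m_i`, `α_i = trA a / m_i`
(over the block `i`), all `≤ R`.  For a unit vector `v` supported in `A` write `r(v) = v ⬝ r1 v`, `a(v) = v ⬝ a v`.
The equations give, with `|err| ≤ C(ν) e R` :

(1) `G1(v) = (-lam + (1+σ)/4) r(v) + ((1+σ)/4) τ₁ + (ν₁/4)(a(v) + α₁) + err`
(2) `H(v) = -(1+σ-lam) a(v) + (ν₂/4)(x₁² r(v) + x₂² τ₂) - (q₁ ν₂/2) α₂ - (q₂ ν₂/2) a(v) + err`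
(3) `ν₁ α₁ = ν₂ α₂ + err`, and the same with the indices 1, 2 exchanged.

Traces (average of (1), (2) over an orthonormal basis: `trA G1/m₁`, ...):
`D τ₁ + (ν₁/2) α₁ = g₁ + err`, `D τ₂ + (ν₂/2) α₂ = g₂ + err`,
`2 σ D α₁ + (ν₂/4)(x₁² τ₁ + x₂² τ₂) = h + err`  (`-(1+σ-lam) - (q₁ν₁+q₂ν₂)/2 = 2 lam - 1/2 = 2 σ D`, and `ν₂ q₁ α₂ = ν₁ q₁ α₁`),
`|g_i|, |h| ≤ s`.  Eliminate `τ_i`: `(2σD - (σ²/(8D))(x₁²+x₂²)) α₁ = ..`, and
`D (2σD - ..) = (σ/(8(1+σ)²)) ((1+2σ)² - σ(1-2σ²)) > 0`.  So `|τ_i|, |α_i| ≤ C (s + e R)`.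
Then for `v`: the system (1), (2) in `r(v), a(v)`:
`-(σ²/(4(1+σ))) r(v) + (ν₁/4) a(v) = ..`,  `(ν₂x₁²/4) r(v) - ((1+2σ+ν₂²)/(4(1+σ))) a(v) = ..`
(`-(1+σ-lam) - q₂ν₂/2 = -(1+2σ+ν₂²)/(4(1+σ))`), determinant
`σ²(1+2σ+ν₂²)/(16(1+σ)²) - ν₁ν₂x₁²/16 = ν₁ν₂(ν₂+σ)/(8(1+σ)²) > 0`.
So `R ≤ C (s + e R)`, and `R ≤ 2 C s` if `C e ≤ 1/2`.  (All numerically checked.)
To avoid the norm: `R` = the least constant such that `MB r1 R`, `MB r2 R`, `MB a R` (closed set), or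
`R = max ‖·‖` with `norm_le_of_quad`, `quad_le_norm`.
-/

namespace Pool.Agent.EinU

open Matrix Pool.Agent.EStab Pool.Agent.EinS Pool.Agent.SmIso LieAlgebra.Orthogonal

private theorem GapR_mulb {a b A B : ℝ} (ha : |a| ≤ A) (hb : |b| ≤ B) : |a * b| ≤ A * B := by
  rw [abs_mul]
  exact mul_le_mul ha hb (abs_nonneg _) ((abs_nonneg _).trans ha)

private theorem GapR_quad {N : ℕ} {A : Finset (Fin N)} {u p q : Matrix (Fin N) (Fin N) ℝ}
    {c d t : ℝ} {v : Fin N → ℝ} (hv : ∀ i, i ∉ A → v i = 0)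
    (h : ∀ i ∈ A, ∀ j ∈ A, u i j = c * p i j + d * q i j + t * (if i = j then 1 else 0)) :
    v ⬝ᵥ (u *ᵥ v) = c * (v ⬝ᵥ (p *ᵥ v)) + d * (v ⬝ᵥ (q *ᵥ v)) + t * (v ⬝ᵥ v) := by
  simp only [dotProduct, mulVec]
  rw [Finset.mul_sum, Finset.mul_sum, Finset.mul_sum, ← Finset.sum_add_distrib,
    ← Finset.sum_add_distrib]
  refine Finset.sum_congr rfl fun i _ => ?_
  by_cases hi : i ∈ A
  · have h2 : ∑ j, u i j * v j = c * ∑ j, p i j * v j + d * ∑ j, q i j * v j + t * v i := by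
      have h1 : ∀ j, u i j * v j = c * (p i j * v j) + d * (q i j * v j) +
          t * (if i = j then v j else 0) := by
        intro j
        by_cases hj : j ∈ A
        · rw [h i hi j hj]
          split_ifs <;> ring
        · rw [hv j hj]
          split_ifs <;> simp
      rw [Finset.sum_congr rfl fun j _ => h1 j, Finset.sum_add_distrib, Finset.sum_add_distrib,
        ← Finset.mul_sum, ← Finset.mul_sum, ← Finset.mul_sum]
      simp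
    rw [h2]
    ring
  · rw [hv i hi]
    simp

private theorem GapR_tr {N : ℕ} {A : Finset (Fin N)} {u p q : Matrix (Fin N) (Fin N) ℝ}
    {c d t : ℝ}
    (h : ∀ i ∈ A, ∀ j ∈ A, u i j = c * p i j + d * q i j + t * (if i = j then 1 else 0)) :
    trA A u = c * trA A p + d * trA A q + t * A.card := by
  unfold trA
  rw [Finset.sum_congr rfl fun i hi => h i hi i hi]
  simp only [if_true, mul_one]
  rw [Finset.sum_add_distrib, Finset.sum_add_distrib, ← Finset.mul_sum, ← Finset.mul_sum,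
    Finset.sum_const, nsmul_eq_mul]
  ring

private theorem GapR_trb {N : ℕ} (A : Finset (Fin N)) {u : Matrix (Fin N) (Fin N) ℝ} {S : ℝ}
    (h : MB u S) : |trA A u| ≤ S * A.card := by
  unfold trA
  refine (Finset.abs_sum_le_sum_abs _ _).trans ?_
  have h1 : ∀ i ∈ A, |u i i| ≤ S := by
    intro i _
    have := h (Pi.single i 1)
    simpa using this
  refine (Finset.sum_le_sum h1).trans ?_
  rw [Finset.sum_const, nsmul_eq_mul, mul_comm]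

private theorem GapR_compl {N : ℕ} (A : Finset (Fin N)) : ((Aᶜ).card : ℝ) = (N : ℝ) - A.card := by
  have h := Finset.card_compl_add_card A
  rw [Fintype.card_fin] at h
  have h2 : ((Aᶜ).card : ℝ) + A.card = N := by exact_mod_cast h
  linarith

private theorem GapR_swap {N : ℕ} {A : Finset (Fin N)} {x1 x2 y1 y2 lam mu s : ℝ}
    {r1 r2 a G1 G2 H : Matrix (Fin N) (Fin N) ℝ}
    (h : RSys A x1 x2 y1 y2 lam mu s r1 r2 a G1 G2 H) :
    RSys Aᶜ x2 x1 y2 y1 lam mu s r2 r1 a G2 G1 H where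
  sr1 := h.sr2
  sr2 := h.sr1
  sa := h.sa
  sG1 := h.sG2
  sG2 := h.sG1
  sH := h.sH
  r1A := by
    intro i j hij
    apply h.r2A
    simpa using hij
  r2A := by
    intro i j hij
    apply h.r1A
    simpa using hij
  aA := by
    intro i j hij
    apply h.aA
    simp only [Finset.mem_compl] at hij
    tauto
  tr := by
    rw [compl_compl]
    exact h.tr.symm
  e1 := by
    intro i hi j hj
    rw [h.e2 i (by simpa using hi) j (by simpa using hj), GapR_compl]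
  e2 := by
    intro i hi j hj
    rw [h.e1 i (by simpa using hi) j (by simpa using hj), GapR_compl, compl_compl]
    ring
  e3 := by
    intro i hi j hj
    rw [h.e4 i (by simpa using hi) j (by simpa using hj), GapR_compl, compl_compl]
    ring
  e4 := by
    intro i hi j hj
    rw [h.e3 i (by simpa using hi) j (by simpa using hj), GapR_compl]
    ring
  bG1 := h.bG2
  bG2 := h.bG1
  bH := h.bH

private theorem GapR_MBr {N : ℕ} {A : Finset (Fin N)} {u : Matrix (Fin N) (Fin N) ℝ} {S : ℝ}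
    (hS : 0 ≤ S) (hu : ∀ i j, ¬(i ∈ A ∧ j ∈ A) → u i j = 0)
    (h : ∀ v : Fin N → ℝ, (∀ i, i ∉ A → v i = 0) → |v ⬝ᵥ (u *ᵥ v)| ≤ S * (v ⬝ᵥ v)) : MB u S := by
  intro v
  set w : Fin N → ℝ := fun i => if i ∈ A then v i else 0 with hw
  have h1 : v ⬝ᵥ (u *ᵥ v) = w ⬝ᵥ (u *ᵥ w) := by
    simp only [dotProduct, mulVec]
    refine Finset.sum_congr rfl fun i _ => ?_
    by_cases hi : i ∈ A
    · have h2 : w i = v i := by simp [hw, hi]
      rw [h2]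
      congr 1
      refine Finset.sum_congr rfl fun j _ => ?_
      by_cases hj : j ∈ A
      · simp [hw, hj]
      · rw [hu i j (fun hh => hj hh.2)]
        simp
    · have h2 : ∑ j, u i j * v j = 0 := by
        refine Finset.sum_eq_zero fun j _ => ?_
        rw [hu i j (fun hh => hi hh.1)]
        simp
      have h3 : w i = 0 := by simp [hw, hi]
      rw [h2, h3]
      simp
  have h4 : w ⬝ᵥ w ≤ v ⬝ᵥ v := by
    simp only [dotProduct]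
    refine Finset.sum_le_sum fun i _ => ?_
    by_cases hi : i ∈ A
    · simp [hw, hi]
    · simp only [hw, hi, if_false, mul_zero]
      exact mul_self_nonneg _
  rw [h1]
  refine (h w (fun i hi => by simp [hw, hi])).trans ?_
  exact mul_le_mul_of_nonneg_left h4 hS

private theorem GapR_MBa {N : ℕ} {A : Finset (Fin N)} {u : Matrix (Fin N) (Fin N) ℝ} {S : ℝ}
    (hu : ∀ i j, ¬(i ∈ A ↔ j ∈ A) → u i j = 0)
    (h : ∀ v : Fin N → ℝ, (∀ i, i ∉ A → v i = 0) → |v ⬝ᵥ (u *ᵥ v)| ≤ S * (v ⬝ᵥ v))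
    (h' : ∀ v : Fin N → ℝ, (∀ i, i ∉ Aᶜ → v i = 0) → |v ⬝ᵥ (u *ᵥ v)| ≤ S * (v ⬝ᵥ v)) :
    MB u S := by
  intro v
  set w : Fin N → ℝ := fun i => if i ∈ A then v i else 0 with hw
  set z : Fin N → ℝ := fun i => if i ∈ A then 0 else v i with hz
  have h1 : v ⬝ᵥ (u *ᵥ v) = w ⬝ᵥ (u *ᵥ w) + z ⬝ᵥ (u *ᵥ z) := by
    simp only [dotProduct, mulVec]
    rw [← Finset.sum_add_distrib]
    refine Finset.sum_congr rfl fun i _ => ?_
    by_cases hi : i ∈ A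
    · have h2 : w i = v i := by simp [hw, hi]
      have h3 : z i = 0 := by simp [hz, hi]
      rw [h2, h3, zero_mul, add_zero]
      congr 1
      refine Finset.sum_congr rfl fun j _ => ?_
      by_cases hj : j ∈ A
      · simp [hw, hj]
      · rw [hu i j (fun hh => hj (hh.1 hi))]
        simp
    · have h2 : w i = 0 := by simp [hw, hi]
      have h3 : z i = v i := by simp [hz, hi]
      rw [h2, h3, zero_mul, zero_add]
      congr 1
      refine Finset.sum_congr rfl fun j _ => ?_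
      by_cases hj : j ∈ A
      · rw [hu i j (fun hh => hi (hh.2 hj))]
        simp
      · simp [hz, hj]
  have h4 : v ⬝ᵥ v = w ⬝ᵥ w + z ⬝ᵥ z := by
    simp only [dotProduct]
    rw [← Finset.sum_add_distrib]
    refine Finset.sum_congr rfl fun i _ => ?_
    by_cases hi : i ∈ A
    · simp [hw, hz, hi]
    · simp [hw, hz, hi]
  rw [h1, h4]
  have h5 := h w (fun i hi => by simp [hw, hi])
  have h6 := h' z (fun i hi => by
    have : i ∈ A := by simpa using hi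
    simp [hz, this])
  calc |w ⬝ᵥ (u *ᵥ w) + z ⬝ᵥ (u *ᵥ z)| ≤ |w ⬝ᵥ (u *ᵥ w)| + |z ⬝ᵥ (u *ᵥ z)| := abs_add_le _ _
    _ ≤ S * (w ⬝ᵥ w) + S * (z ⬝ᵥ z) := add_le_add h5 h6
    _ = S * (w ⬝ᵥ w + z ⬝ᵥ z) := by ring

/-- The traces. -/
private theorem GapR_T {ν σ x1 x2 D F W T1 T2 α : ℝ} (h0 : 0 < ν) (h1 : ν < 1)
    (hx1 : |x1| ≤ 1) (hx2 : |x2| ≤ 1) (hD : 0 < D) (hD1 : D ≤ 1 / 2)
    (hF : F = 2 * σ * D ^ 2 - 1 / 8 * (ν * (1 - ν)) * (x1 ^ 2 + x2 ^ 2)) (hF0 : 0 < F)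
    (e1 : |D * T1 + ν / 2 * α| ≤ W) (e2 : |D * T2 + (1 - ν) / 2 * α| ≤ W)
    (e3 : |2 * σ * D * α + 1 / 4 * ((1 - ν) * x1 ^ 2 * T1 + ν * x2 ^ 2 * T2)| ≤ W) :
    |α| ≤ (W + W / F) / D ∧ |T1| ≤ (W + W / F) / D ∧ |T2| ≤ (W + W / F) / D := by
  have hW : 0 ≤ W := (abs_nonneg _).trans e1
  have hx1s : x1 ^ 2 ≤ 1 := by
    rw [← sq_abs]
    exact pow_le_one₀ (abs_nonneg _) hx1
  have hx2s : x2 ^ 2 ≤ 1 := by
    rw [← sq_abs]
    exact pow_le_one₀ (abs_nonneg _) hx2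
  have k1 : F * α = D * (2 * σ * D * α + 1 / 4 * ((1 - ν) * x1 ^ 2 * T1 + ν * x2 ^ 2 * T2)) -
      1 / 4 * ((1 - ν) * x1 ^ 2) * (D * T1 + ν / 2 * α) -
      1 / 4 * (ν * x2 ^ 2) * (D * T2 + (1 - ν) / 2 * α) := by
    rw [hF]
    ring
  have b1 : |D * (2 * σ * D * α + 1 / 4 * ((1 - ν) * x1 ^ 2 * T1 + ν * x2 ^ 2 * T2))| ≤
      1 / 2 * W := GapR_mulb (by rw [abs_of_pos hD]; exact hD1) e3
  have b2 : |1 / 4 * ((1 - ν) * x1 ^ 2) * (D * T1 + ν / 2 * α)| ≤ 1 / 4 * W := by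
    refine GapR_mulb ?_ e1
    rw [abs_of_nonneg (by
      have := sq_nonneg x1
      have h2 : 0 ≤ 1 - ν := by linarith
      positivity)]
    have : (1 - ν) * x1 ^ 2 ≤ 1 * 1 :=
      mul_le_mul (by linarith) hx1s (sq_nonneg _) (by norm_num)
    linarith
  have b3 : |1 / 4 * (ν * x2 ^ 2) * (D * T2 + (1 - ν) / 2 * α)| ≤ 1 / 4 * W := by
    refine GapR_mulb ?_ e2
    rw [abs_of_nonneg (by positivity)]
    have : ν * x2 ^ 2 ≤ 1 * 1 :=
      mul_le_mul (by linarith) hx2s (sq_nonneg _) (by norm_num)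
    linarith
  have k2 : |F * α| ≤ W := by
    rw [k1]
    rw [abs_le] at b1 b2 b3 ⊢
    constructor <;> linarith [b1.1, b1.2, b2.1, b2.2, b3.1, b3.2]
  have k3 : |α| ≤ W / F := by
    rw [le_div_iff₀ hF0]
    rw [abs_mul, abs_of_pos hF0] at k2
    linarith
  have k4 : 0 ≤ W / F := by positivity
  refine ⟨?_, ?_, ?_⟩
  · rw [le_div_iff₀ hD]
    have : |α| * D ≤ W / F * 1 := mul_le_mul k3 (by linarith) hD.le k4
    linarith
  · rw [le_div_iff₀ hD]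
    have h5 : |T1| * D = |D * T1| := by
      rw [abs_mul, abs_of_pos hD]
      ring
    have h6 : |ν / 2 * α| ≤ 1 / 2 * (W / F) := GapR_mulb (by
      rw [abs_of_pos (by linarith)]
      linarith) k3
    have h7 : D * T1 = (D * T1 + ν / 2 * α) - ν / 2 * α := by ring
    rw [h5, h7]
    rw [abs_le] at e1 h6 ⊢
    constructor <;> linarith [e1.1, e1.2, h6.1, h6.2]
  · rw [le_div_iff₀ hD]
    have h5 : |T2| * D = |D * T2| := by
      rw [abs_mul, abs_of_pos hD]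
      ring
    have h6 : |(1 - ν) / 2 * α| ≤ 1 / 2 * (W / F) := GapR_mulb (by
      rw [abs_of_pos (by linarith)]
      linarith) k3
    have h7 : D * T2 = (D * T2 + (1 - ν) / 2 * α) - (1 - ν) / 2 * α := by ring
    rw [h5, h7]
    rw [abs_le] at e2 h6 ⊢
    constructor <;> linarith [e2.1, e2.2, h6.1, h6.2]

/-- The 2x2 system. -/
private theorem GapR_two {c11 c12 c21 c22 Δ r v B : ℝ} (h11 : |c11| ≤ 1) (h12 : |c12| ≤ 1)
    (h21 : |c21| ≤ 1) (h22 : |c22| ≤ 1) (hΔ : Δ = c11 * c22 - c12 * c21) (hΔ0 : 0 < Δ)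
    (e1 : |c11 * r + c12 * v| ≤ B) (e2 : |c21 * r + c22 * v| ≤ B) :
    |r| ≤ 2 * B / Δ ∧ |v| ≤ 2 * B / Δ := by
  have k1 : Δ * r = c22 * (c11 * r + c12 * v) - c12 * (c21 * r + c22 * v) := by
    rw [hΔ]
    ring
  have k2 : Δ * v = c11 * (c21 * r + c22 * v) - c21 * (c11 * r + c12 * v) := by
    rw [hΔ]
    ring
  have m1 := GapR_mulb h22 e1
  have m2 := GapR_mulb h12 e2
  have m3 := GapR_mulb h11 e2
  have m4 := GapR_mulb h21 e1
  constructor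
  · rw [le_div_iff₀ hΔ0]
    have h5 : |r| * Δ = |Δ * r| := by
      rw [abs_mul, abs_of_pos hΔ0]
      ring
    rw [h5, k1]
    rw [abs_le] at m1 m2 ⊢
    constructor <;> linarith [m1.1, m1.2, m2.1, m2.2]
  · rw [le_div_iff₀ hΔ0]
    have h5 : |v| * Δ = |Δ * v| := by
      rw [abs_mul, abs_of_pos hΔ0]
      ring
    rw [h5, k2]
    rw [abs_le] at m3 m4 ⊢
    constructor <;> linarith [m3.1, m3.2, m4.1, m4.2]

private structure GapR_C (ν σ x1 x2 y1 y2 lam D F Δ Y : ℝ) : Prop where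
  n0 : 0 < ν
  n1 : ν < 1
  bx1 : |x1| ≤ 1
  bx2 : |x2| ≤ 1
  by1 : 0 ≤ y1
  by2 : 0 ≤ y2
  y1ν : y1 * ν = 1 + σ
  y2ν : y2 * (1 - ν) = 1 + σ
  dD : D = -lam + (1 + σ) / 2
  D0 : 0 < D
  D1 : D ≤ 1 / 2
  dF : F = 2 * σ * D ^ 2 - 1 / 8 * (ν * (1 - ν)) * (x1 ^ 2 + x2 ^ 2)
  F0 : 0 < F
  dY : Y = y1 + y2 + 1
  q1 : |x1 / 2 - y1| ≤ Y
  q2 : |x2 / 2 - y2| ≤ Y
  q3 : |(x1 / 2 - y1 + (x2 / 2 - y2)) / 2| ≤ Y
  c1 : -(1 + σ - lam) - (x1 / 2 - y1) / 2 * ν - (x2 / 2 - y2) / 2 * (1 - ν) = 2 * σ * D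
  c11 : |-lam + (1 + σ) / 4| ≤ 1
  c22 : |-(1 + σ - lam) - (x2 / 2 - y2) / 2 * (1 - ν)| ≤ 1
  dΔ : Δ = (-lam + (1 + σ) / 4) * (-(1 + σ - lam) - (x2 / 2 - y2) / 2 * (1 - ν)) -
    ν / 4 * ((1 - ν) * x1 ^ 2 / 4)
  Δ0 : 0 < Δ

private theorem GapR_core {ν σ x1 x2 y1 y2 lam D F Δ Y : ℝ}
    (c : GapR_C ν σ x1 x2 y1 y2 lam D F Δ Y)
    {e R s w ρ1 ρ2 κ mu T1 T2 α g1 g2 h G Hv r av : ℝ}
    (he : 0 ≤ e) (hR : 0 ≤ R) (hs : 0 ≤ s) (hw : 0 ≤ w)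
    (hρ1 : |ρ1 - ν| ≤ e) (hρ2 : |ρ2 - (1 - ν)| ≤ e) (hκ : |κ| ≤ e)
    (hmu : |mu - (1 + σ - lam)| ≤ e)
    (hT1 : |T1| ≤ 2 * R) (hT2 : |T2| ≤ 2 * R) (hα : |α| ≤ 2 * R)
    (bg1 : |g1| ≤ 2 * s) (bg2 : |g2| ≤ 2 * s) (bh : |h| ≤ 2 * s)
    (bG : |G| ≤ s * w) (bH : |Hv| ≤ s * w) (br : |r| ≤ R * w) (ba : |av| ≤ R * w)
    (hg1 : g1 = (-lam + y1 / 4 * (ρ1 - 4 * κ)) * T1 + 1 / 4 * (ρ1 - 2 * κ) * α +
      (y1 / 4 * T1 + 1 / 4 * α) * ρ1)
    (hg2 : g2 = (-lam + y2 / 4 * (ρ2 - 4 * κ)) * T2 + 1 / 4 * (ρ2 - 2 * κ) * α +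
      (y2 / 4 * T2 + 1 / 4 * α) * ρ2)
    (hh : h = 1 / 4 * ρ2 * x1 ^ 2 * T1 + (-mu - (x2 / 2 - y2) / 2 * ρ2 +
      (x1 / 2 - y1 + (x2 / 2 - y2)) / 2 * κ) * α + (1 / 4 * x2 ^ 2 * T2 -
      (x1 / 2 - y1) / 2 * α) * ρ1)
    (hG : G = (-lam + y1 / 4 * (ρ1 - 4 * κ)) * r + 1 / 4 * (ρ1 - 2 * κ) * av +
      (y1 / 4 * T1 + 1 / 4 * α) * w)
    (hH : Hv = 1 / 4 * ρ2 * x1 ^ 2 * r + (-mu - (x2 / 2 - y2) / 2 * ρ2 +
      (x1 / 2 - y1 + (x2 / 2 - y2)) / 2 * κ) * av + (1 / 4 * x2 ^ 2 * T2 -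
      (x1 / 2 - y1) / 2 * α) * w) :
    |r| ≤ 2 * (6 * Y + 2 * Y * ((7 * Y + 7 * Y / F) / D)) / Δ * (s + e * R) * w ∧
    |av| ≤ 2 * (6 * Y + 2 * Y * ((7 * Y + 7 * Y / F) / D)) / Δ * (s + e * R) * w := by
  have hY1 : 1 ≤ Y := by
    rw [c.dY]
    linarith [c.by1, c.by2]
  have hYy1 : y1 ≤ Y := by
    rw [c.dY]
    linarith [c.by1, c.by2]
  have hYy2 : y2 ≤ Y := by
    rw [c.dY]
    linarith [c.by1, c.by2]
  have heR : 0 ≤ e * R := mul_nonneg he hR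
  have hx1s : |x1 ^ 2| ≤ 1 := by
    rw [abs_pow]
    exact pow_le_one₀ (abs_nonneg _) c.bx1
  have hx2s : |x2 ^ 2| ≤ 1 := by
    rw [abs_pow]
    exact pow_le_one₀ (abs_nonneg _) c.bx2
  have hy1 : |y1| ≤ Y := by
    rw [abs_of_nonneg c.by1]
    exact hYy1
  have hy2 : |y2| ≤ Y := by
    rw [abs_of_nonneg c.by2]
    exact hYy2
  have hYe : e * R ≤ Y * (e * R) := by nlinarith
  have hYs : s ≤ Y * s := by nlinarith
  -- the traces
  have t1 : |D * T1 + ν / 2 * α| ≤ 7 * Y * (s + e * R) := by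
    have k : D * T1 + ν / 2 * α = g1 - 1 / 2 * (y1 * ((ρ1 - ν) * T1)) + y1 * (κ * T1) -
        1 / 2 * ((ρ1 - ν) * α) + 1 / 2 * (κ * α) := by
      rw [hg1, c.dD]
      linear_combination (-1 / 2 * T1) * c.y1ν
    have m1 := GapR_mulb hy1 (GapR_mulb hρ1 hT1)
    have m2 := GapR_mulb hy1 (GapR_mulb hκ hT1)
    have m3 := GapR_mulb hρ1 hα
    have m4 := GapR_mulb hκ hα
    rw [k]
    rw [abs_le] at bg1 m1 m2 m3 m4 ⊢
    constructor <;> linarith [bg1.1, bg1.2, m1.1, m1.2, m2.1, m2.2, m3.1, m3.2, m4.1, m4.2]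
  have t2 : |D * T2 + (1 - ν) / 2 * α| ≤ 7 * Y * (s + e * R) := by
    have k : D * T2 + (1 - ν) / 2 * α = g2 - 1 / 2 * (y2 * ((ρ2 - (1 - ν)) * T2)) +
        y2 * (κ * T2) - 1 / 2 * ((ρ2 - (1 - ν)) * α) + 1 / 2 * (κ * α) := by
      rw [hg2, c.dD]
      linear_combination (-1 / 2 * T2) * c.y2ν
    have m1 := GapR_mulb hy2 (GapR_mulb hρ2 hT2)
    have m2 := GapR_mulb hy2 (GapR_mulb hκ hT2)
    have m3 := GapR_mulb hρ2 hα
    have m4 := GapR_mulb hκ hα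
    rw [k]
    rw [abs_le] at bg2 m1 m2 m3 m4 ⊢
    constructor <;> linarith [bg2.1, bg2.2, m1.1, m1.2, m2.1, m2.2, m3.1, m3.2, m4.1, m4.2]
  have t3 : |2 * σ * D * α + 1 / 4 * ((1 - ν) * x1 ^ 2 * T1 + ν * x2 ^ 2 * T2)| ≤
      7 * Y * (s + e * R) := by
    have k : 2 * σ * D * α + 1 / 4 * ((1 - ν) * x1 ^ 2 * T1 + ν * x2 ^ 2 * T2) =
        h + (mu - (1 + σ - lam)) * α - 1 / 4 * (x1 ^ 2 * ((ρ2 - (1 - ν)) * T1)) -
        1 / 4 * (x2 ^ 2 * ((ρ1 - ν) * T2)) + 1 / 2 * ((x1 / 2 - y1) * ((ρ1 - ν) * α)) +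
        1 / 2 * ((x2 / 2 - y2) * ((ρ2 - (1 - ν)) * α)) -
        (x1 / 2 - y1 + (x2 / 2 - y2)) / 2 * (κ * α) := by
      rw [hh, ← c.c1]
      ring
    have m1 := GapR_mulb hmu hα
    have m2 := GapR_mulb hx1s (GapR_mulb hρ2 hT1)
    have m3 := GapR_mulb hx2s (GapR_mulb hρ1 hT2)
    have m4 := GapR_mulb c.q1 (GapR_mulb hρ1 hα)
    have m5 := GapR_mulb c.q2 (GapR_mulb hρ2 hα)
    have m6 := GapR_mulb c.q3 (GapR_mulb hκ hα)
    rw [k]
    rw [abs_le] at bh m1 m2 m3 m4 m5 m6 ⊢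
    constructor <;> linarith [bh.1, bh.2, m1.1, m1.2, m2.1, m2.2, m3.1, m3.2, m4.1, m4.2,
      m5.1, m5.2, m6.1, m6.2]
  obtain ⟨z1, z2, z3⟩ := GapR_T c.n0 c.n1 c.bx1 c.bx2 c.D0 c.D1 c.dF c.F0 t1 t2 t3
  set K1 := (7 * Y + 7 * Y / F) / D with hK1
  have hK1e : (7 * Y * (s + e * R) + 7 * Y * (s + e * R) / F) / D = K1 * (s + e * R) := by
    rw [hK1]
    ring
  rw [hK1e] at z1 z2 z3
  have hK10 : 0 ≤ K1 := by
    have := c.F0
    have := c.D0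
    rw [hK1]
    positivity
  have hP : 0 ≤ s + e * R := by positivity
  have hKP : 0 ≤ K1 * (s + e * R) := mul_nonneg hK10 hP
  have hYK : K1 * (s + e * R) ≤ Y * (K1 * (s + e * R)) := by nlinarith
  have hYKw : K1 * (s + e * R) * w ≤ Y * (K1 * (s + e * R)) * w :=
    mul_le_mul_of_nonneg_right hYK hw
  have hYew : e * R * w ≤ Y * (e * R) * w := mul_le_mul_of_nonneg_right hYe hw
  have hYsw : s * w ≤ Y * s * w := mul_le_mul_of_nonneg_right hYs hw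
  have hsw : 0 ≤ s * w := mul_nonneg hs hw
  have heRw : 0 ≤ e * R * w := mul_nonneg heR hw
  have hKPw : 0 ≤ K1 * (s + e * R) * w := mul_nonneg hKP hw
  have habsw : |w| ≤ w := (abs_of_nonneg hw).le
  have u1 : |(-lam + (1 + σ) / 4) * r + ν / 4 * av| ≤
      (6 * Y + 2 * Y * K1) * (s + e * R) * w := by
    have k : (-lam + (1 + σ) / 4) * r + ν / 4 * av = G - 1 / 4 * (y1 * (T1 * w)) -
        1 / 4 * (α * w) - 1 / 4 * (y1 * ((ρ1 - ν) * r)) + y1 * (κ * r) -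
        1 / 4 * ((ρ1 - ν) * av) + 1 / 2 * (κ * av) := by
      rw [hG]
      linear_combination (-1 / 4 * r) * c.y1ν
    have m1 := GapR_mulb hy1 (GapR_mulb z2 habsw)
    have m2 := GapR_mulb z1 habsw
    have m3 := GapR_mulb hy1 (GapR_mulb hρ1 br)
    have m4 := GapR_mulb hy1 (GapR_mulb hκ br)
    have m5 := GapR_mulb hρ1 ba
    have m6 := GapR_mulb hκ ba
    rw [k]
    rw [abs_le] at bG m1 m2 m3 m4 m5 m6 ⊢
    constructor <;> linarith [bG.1, bG.2, m1.1, m1.2, m2.1, m2.2, m3.1, m3.2, m4.1, m4.2,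
      m5.1, m5.2, m6.1, m6.2]
  have u2 : |(1 - ν) * x1 ^ 2 / 4 * r +
      (-(1 + σ - lam) - (x2 / 2 - y2) / 2 * (1 - ν)) * av| ≤
      (6 * Y + 2 * Y * K1) * (s + e * R) * w := by
    have k : (1 - ν) * x1 ^ 2 / 4 * r +
        (-(1 + σ - lam) - (x2 / 2 - y2) / 2 * (1 - ν)) * av = Hv -
        1 / 4 * (x2 ^ 2 * (T2 * w)) + 1 / 2 * ((x1 / 2 - y1) * (α * w)) -
        1 / 4 * (x1 ^ 2 * ((ρ2 - (1 - ν)) * r)) + (mu - (1 + σ - lam)) * av +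
        1 / 2 * ((x2 / 2 - y2) * ((ρ2 - (1 - ν)) * av)) -
        (x1 / 2 - y1 + (x2 / 2 - y2)) / 2 * (κ * av) := by
      rw [hH]
      ring
    have m1 := GapR_mulb hx2s (GapR_mulb z3 habsw)
    have m2 := GapR_mulb c.q1 (GapR_mulb z1 habsw)
    have m3 := GapR_mulb hx1s (GapR_mulb hρ2 br)
    have m4 := GapR_mulb hmu ba
    have m5 := GapR_mulb c.q2 (GapR_mulb hρ2 ba)
    have m6 := GapR_mulb c.q3 (GapR_mulb hκ ba)
    rw [k]
    rw [abs_le] at bH m1 m2 m3 m4 m5 m6 ⊢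
    constructor <;> linarith [bH.1, bH.2, m1.1, m1.2, m2.1, m2.2, m3.1, m3.2, m4.1, m4.2,
      m5.1, m5.2, m6.1, m6.2]
  have hc12 : |ν / 4| ≤ 1 := by
    rw [abs_le]
    constructor <;> linarith [c.n0, c.n1]
  have hc21 : |(1 - ν) * x1 ^ 2 / 4| ≤ 1 := by
    have h1 : |(1 - ν) * x1 ^ 2| ≤ 1 * 1 := GapR_mulb (by
      rw [abs_le]
      constructor <;> linarith [c.n0, c.n1]) hx1s
    rw [abs_le] at h1 ⊢
    constructor <;> linarith [h1.1, h1.2]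
  have key := GapR_two c.c11 hc12 hc21 c.c22 c.dΔ c.Δ0 u1 u2
  have hfin : 2 * ((6 * Y + 2 * Y * K1) * (s + e * R) * w) / Δ =
      2 * (6 * Y + 2 * Y * K1) / Δ * (s + e * R) * w := by ring
  rw [hfin] at key
  exact key

private theorem GapR_sN_symm (ν : ℝ) : sN (1 - ν) = sN ν := by
  unfold sN
  congr 1
  ring

private theorem GapR_lamN_symm (ν : ℝ) : lamN (1 - ν) = lamN ν := by
  unfold lamN
  rw [GapR_sN_symm]

private theorem GapR_consts {ν : ℝ} (h0 : 0 < ν) (h1 : ν < 1) : ∃ D F Δ Y : ℝ,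
    GapR_C ν (sN ν) (xN ν) (xN (1 - ν)) (1 / xN ν) (1 / xN (1 - ν)) (lamN ν) D F Δ Y := by
  have hν : 0 < 1 - ν := by linarith
  have hσ0 : 0 < sN ν := Real.sqrt_pos.mpr (mul_pos h0 hν)
  have hσ2 : sN ν ^ 2 = ν * (1 - ν) := Real.sq_sqrt (mul_pos h0 hν).le
  have hx1 : xN ν = ν / (1 + sN ν) := rfl
  have hx2 : xN (1 - ν) = (1 - ν) / (1 + sN ν) := by
    unfold xN
    rw [GapR_sN_symm]
  have hl : lamN ν = (1 + 2 * sN ν + 2 * sN ν ^ 2) / (4 * (1 + sN ν)) := rfl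
  rw [hx1, hx2, hl]
  generalize sN ν = σ at hσ0 hσ2
  have hσ1 : 0 < 1 + σ := by linarith
  have hne : (1 + σ) ≠ 0 := hσ1.ne'
  have hν0 : ν ≠ 0 := h0.ne'
  have hν1 : (1 - ν) ≠ 0 := hν.ne'
  have hσh : σ ≤ 1 / 2 := by
    by_contra hc
    push Not at hc
    nlinarith [sq_nonneg (2 * ν - 1)]
  have ax1 : 0 < ν / (1 + σ) := by positivity
  have ax1' : ν / (1 + σ) ≤ 1 := by
    rw [div_le_one hσ1]
    linarith
  have ax2 : 0 < (1 - ν) / (1 + σ) := by positivity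
  have ax2' : (1 - ν) / (1 + σ) ≤ 1 := by
    rw [div_le_one hσ1]
    linarith
  have ay1 : 1 / (ν / (1 + σ)) = (1 + σ) / ν := by field_simp
  have ay2 : 1 / ((1 - ν) / (1 + σ)) = (1 + σ) / (1 - ν) := by field_simp
  have ay1' : 0 < (1 + σ) / ν := by positivity
  have ay2' : 0 < (1 + σ) / (1 - ν) := by positivity
  rw [ay1, ay2]
  have c11 : -((1 + 2 * σ + 2 * σ ^ 2) / (4 * (1 + σ))) + (1 + σ) / 4 =
      -(σ ^ 2 / (4 * (1 + σ))) := by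
    field_simp
    ring
  have kq1 : (ν / (1 + σ) / 2 - (1 + σ) / ν) / 2 * ν = ν ^ 2 / (4 * (1 + σ)) - (1 + σ) / 2 := by
    field_simp
    ring
  have kq2 : ((1 - ν) / (1 + σ) / 2 - (1 + σ) / (1 - ν)) / 2 * (1 - ν) =
      (1 - ν) ^ 2 / (4 * (1 + σ)) - (1 + σ) / 2 := by
    field_simp
    ring
  have c22 : -(1 + σ - (1 + 2 * σ + 2 * σ ^ 2) / (4 * (1 + σ))) -
      ((1 - ν) / (1 + σ) / 2 - (1 + σ) / (1 - ν)) / 2 * (1 - ν) =
      -((1 + 2 * σ + (1 - ν) ^ 2) / (4 * (1 + σ))) := by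
    rw [kq2]
    field_simp
    ring
  refine ⟨(1 + 2 * σ) / (4 * (1 + σ)), _, _, _, h0, h1, ?_, ?_, ay1'.le, ay2'.le, ?_, ?_, ?_, ?_,
    ?_, rfl, ?_, rfl, ?_, ?_, ?_, ?_, ?_, ?_, rfl, ?_⟩
  · rw [abs_of_pos ax1]
    exact ax1'
  · rw [abs_of_pos ax2]
    exact ax2'
  · field_simp
  · field_simp
  · field_simp
    ring
  · positivity
  · rw [div_le_iff₀ (by positivity)]
    linarith
  · have k : 2 * σ * ((1 + 2 * σ) / (4 * (1 + σ))) ^ 2 - 1 / 8 * (ν * (1 - ν)) *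
        ((ν / (1 + σ)) ^ 2 + ((1 - ν) / (1 + σ)) ^ 2) =
        σ / (8 * (1 + σ) ^ 2) * ((1 + 2 * σ) ^ 2 - σ * (1 - 2 * σ ^ 2)) := by
      rw [← hσ2]
      have k2 : (ν / (1 + σ)) ^ 2 + ((1 - ν) / (1 + σ)) ^ 2 = (1 - 2 * σ ^ 2) / (1 + σ) ^ 2 := by
        rw [div_pow, div_pow, ← add_div, hσ2]
        congr 1
        ring
      rw [k2]
      field_simp
      ring
    rw [k]
    have k3 : 0 < (1 + 2 * σ) ^ 2 - σ * (1 - 2 * σ ^ 2) := by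
      have : 0 < σ ^ 3 := by positivity
      nlinarith
    positivity
  · rw [abs_le]
    constructor <;> linarith
  · rw [abs_le]
    constructor <;> linarith
  · rw [abs_le]
    constructor <;> linarith
  · rw [kq1, kq2]
    have k : (1 + 2 * σ + 2 * σ ^ 2) / (4 * (1 + σ)) - ν ^ 2 / (4 * (1 + σ)) -
        (1 - ν) ^ 2 / (4 * (1 + σ)) = 2 * σ * ((1 + 2 * σ) / (4 * (1 + σ))) := by
      rw [← sub_div, ← sub_div, mul_div_assoc']
      congr 1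
      linear_combination (-2) * hσ2
    linear_combination k
  · rw [c11, abs_neg, abs_of_nonneg (by positivity), div_le_one (by positivity)]
    nlinarith
  · rw [c22, abs_neg, abs_of_nonneg (by positivity), div_le_one (by positivity)]
    nlinarith
  · rw [c11, c22]
    have k : -(σ ^ 2 / (4 * (1 + σ))) * -((1 + 2 * σ + (1 - ν) ^ 2) / (4 * (1 + σ))) -
        ν / 4 * ((1 - ν) * (ν / (1 + σ)) ^ 2 / 4) =
        σ ^ 2 * (σ + (1 - ν)) / (8 * (1 + σ) ^ 2) := by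
      have k2 : ν / 4 * ((1 - ν) * (ν / (1 + σ)) ^ 2 / 4) =
          σ ^ 2 * ν ^ 2 / (16 * (1 + σ) ^ 2) := by
        rw [hσ2]
        field_simp
        ring
      rw [k2]
      field_simp
      ring
    rw [k]
    positivity

private theorem GapR_half {ν : ℝ} (h0 : 0 < ν) (h1 : ν < 1) : ∃ K : ℝ, 0 ≤ K ∧
    ∀ (N : ℕ) (A : Finset (Fin N)) (mu s e R : ℝ)
      (r1 r2 a G1 G2 H : Matrix (Fin N) (Fin N) ℝ), 3 ≤ N → 0 ≤ e → e ≤ 1 →
      |(A.card : ℝ) / ((N : ℝ) - 2) - ν| ≤ e →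
      |((N : ℝ) - A.card) / ((N : ℝ) - 2) - (1 - ν)| ≤ e → 1 / ((N : ℝ) - 2) ≤ e →
      |mu - (1 + sN ν - lamN ν)| ≤ e → 0 ≤ s → 0 ≤ R → MB r1 R → MB r2 R → MB a R →
      RSys A (xN ν) (xN (1 - ν)) (1 / xN ν) (1 / xN (1 - ν)) (lamN ν) mu s r1 r2 a G1 G2 H →
      ∀ v : Fin N → ℝ, (∀ i, i ∉ A → v i = 0) →
        |v ⬝ᵥ (r1 *ᵥ v)| ≤ K * (s + e * R) * (v ⬝ᵥ v) ∧
        |v ⬝ᵥ (a *ᵥ v)| ≤ K * (s + e * R) * (v ⬝ᵥ v) := by
  obtain ⟨D, F, Δ, Y, c⟩ := GapR_consts h0 h1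
  have hY0 : 0 ≤ Y := by
    rw [c.dY]
    linarith [c.by1, c.by2]
  have hD0 := c.D0
  have hF0 := c.F0
  have hΔ0 := c.Δ0
  refine ⟨2 * (6 * Y + 2 * Y * ((7 * Y + 7 * Y / F) / D)) / Δ, by positivity, ?_⟩
  intro N A mu s e R r1 r2 a G1 G2 H hN he he1 hρ1 hρ2 hκ hmu hs hR b1 b2 ba h v hv
  have hN3 : (3 : ℝ) ≤ N := by exact_mod_cast hN
  have hn : 0 < (N : ℝ) - 2 := by linarith
  have hn0 : (N : ℝ) - 2 ≠ 0 := hn.ne'
  generalize hx1 : xN ν = x1 at c h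
  generalize hx2 : xN (1 - ν) = x2 at c h
  generalize hy1 : 1 / x1 = y1 at c h
  generalize hy2 : 1 / x2 = y2 at c h
  generalize hl : lamN ν = lam at c h hmu
  generalize hσ : sN ν = σ at c hmu
  have hm1 : (0 : ℝ) ≤ A.card := Nat.cast_nonneg _
  have hm2 : (0 : ℝ) ≤ (N : ℝ) - A.card := by
    rw [← GapR_compl]
    exact Nat.cast_nonneg _
  have hρ1' : (A.card : ℝ) / ((N : ℝ) - 2) ≤ 2 := by
    rw [abs_le] at hρ1
    linarith [hρ1.2]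
  have hρ2' : ((N : ℝ) - A.card) / ((N : ℝ) - 2) ≤ 2 := by
    rw [abs_le] at hρ2
    linarith [hρ2.2]
  have tb : ∀ {u : Matrix (Fin N) (Fin N) ℝ} {S : ℝ}, 0 ≤ S → MB u S →
      |trA A u / ((N : ℝ) - 2)| ≤ 2 * S := by
    intro u S hS hu
    rw [abs_div, abs_of_pos hn, div_le_iff₀ hn]
    refine (GapR_trb A hu).trans ?_
    rw [div_le_iff₀ hn] at hρ1'
    nlinarith
  have tb' : ∀ {u : Matrix (Fin N) (Fin N) ℝ} {S : ℝ}, 0 ≤ S → MB u S →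
      |trA Aᶜ u / ((N : ℝ) - 2)| ≤ 2 * S := by
    intro u S hS hu
    rw [abs_div, abs_of_pos hn, div_le_iff₀ hn]
    refine (GapR_trb Aᶜ hu).trans ?_
    rw [GapR_compl]
    rw [div_le_iff₀ hn] at hρ2'
    nlinarith
  have hw : 0 ≤ v ⬝ᵥ v := by
    simp only [dotProduct]
    exact Finset.sum_nonneg fun i _ => mul_self_nonneg _
  have E1 : ∀ i ∈ A, ∀ j ∈ A, G1 i j =
      (-lam + y1 / 4 * ((A.card : ℝ) / ((N : ℝ) - 2) - 4 * (1 / ((N : ℝ) - 2)))) * r1 i j +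
      (1 / 4 * ((A.card : ℝ) / ((N : ℝ) - 2) - 2 * (1 / ((N : ℝ) - 2)))) * a i j +
      (y1 / 4 * (trA A r1 / ((N : ℝ) - 2)) + 1 / 4 * (trA A a / ((N : ℝ) - 2))) *
        (if i = j then 1 else 0) := by
    intro i hi j hj
    rw [h.e1 i hi j hj]
    field_simp
    ring
  have E2 : ∀ i ∈ Aᶜ, ∀ j ∈ Aᶜ, G2 i j =
      (-lam + y2 / 4 * (((N : ℝ) - A.card) / ((N : ℝ) - 2) - 4 * (1 / ((N : ℝ) - 2)))) *
        r2 i j +
      (1 / 4 * (((N : ℝ) - A.card) / ((N : ℝ) - 2) - 2 * (1 / ((N : ℝ) - 2)))) * a i j +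
      (y2 / 4 * (trA Aᶜ r2 / ((N : ℝ) - 2)) + 1 / 4 * (trA A a / ((N : ℝ) - 2))) *
        (if i = j then 1 else 0) := by
    intro i hi j hj
    rw [h.e2 i (by simpa using hi) j (by simpa using hj), h.tr]
    field_simp
    ring
  have E3 : ∀ i ∈ A, ∀ j ∈ A, H i j =
      (1 / 4 * (((N : ℝ) - A.card) / ((N : ℝ) - 2)) * x1 ^ 2) * r1 i j +
      (-mu - (x2 / 2 - y2) / 2 * (((N : ℝ) - A.card) / ((N : ℝ) - 2)) +
        (x1 / 2 - y1 + (x2 / 2 - y2)) / 2 * (1 / ((N : ℝ) - 2))) * a i j +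
      (1 / 4 * x2 ^ 2 * (trA Aᶜ r2 / ((N : ℝ) - 2)) -
        (x1 / 2 - y1) / 2 * (trA A a / ((N : ℝ) - 2))) * (if i = j then 1 else 0) := by
    intro i hi j hj
    rw [h.e3 i hi j hj, h.tr]
    field_simp
    ring
  have F1 := GapR_tr E1
  have F2 := GapR_tr E2
  have F3 := GapR_tr E3
  have Q1 := GapR_quad hv E1
  have Q3 := GapR_quad hv E3
  rw [GapR_compl, ← h.tr] at F2
  refine GapR_core c (ρ1 := (A.card : ℝ) / ((N : ℝ) - 2))
    (ρ2 := ((N : ℝ) - A.card) / ((N : ℝ) - 2)) (κ := 1 / ((N : ℝ) - 2)) (mu := mu)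
    (T1 := trA A r1 / ((N : ℝ) - 2)) (T2 := trA Aᶜ r2 / ((N : ℝ) - 2))
    (α := trA A a / ((N : ℝ) - 2)) (g1 := trA A G1 / ((N : ℝ) - 2))
    (g2 := trA Aᶜ G2 / ((N : ℝ) - 2)) (h := trA A H / ((N : ℝ) - 2)) he hR hs hw hρ1 hρ2
    (by
      rw [abs_of_pos (by positivity)]
      exact hκ) hmu (tb hR b1) (tb' hR b2) (tb hR ba) (tb hs h.bG1) (tb' hs h.bG2)
    (tb hs h.bH) (h.bG1 v) (h.bH v) (b1 v) (ba v) ?_ ?_ ?_ Q1 Q3
  · rw [F1]
    field_simp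
  · rw [F2]
    field_simp
  · rw [F3]
    field_simp

private theorem GapR_exists {N : ℕ} (u : Matrix (Fin N) (Fin N) ℝ) : ∃ R : ℝ, 0 ≤ R ∧ MB u R := by
  refine ⟨∑ i, ∑ j, |u i j|, Finset.sum_nonneg fun i _ => Finset.sum_nonneg fun j _ =>
    abs_nonneg _, ?_⟩
  intro v
  have hvi : ∀ i, v i ^ 2 ≤ v ⬝ᵥ v := by
    intro i
    simp only [dotProduct]
    have := Finset.single_le_sum (f := fun k => v k * v k) (fun k _ => mul_self_nonneg (v k))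
      (Finset.mem_univ i)
    simpa [sq] using this
  have hvij : ∀ i j, |v i * (u i j * v j)| ≤ |u i j| * (v ⬝ᵥ v) := by
    intro i j
    have h1 : |v i * (u i j * v j)| = |u i j| * |v i * v j| := by
      rw [← abs_mul]
      congr 1
      ring
    rw [h1]
    refine mul_le_mul_of_nonneg_left ?_ (abs_nonneg _)
    have h2 := hvi i
    have h3 := hvi j
    rw [abs_le]
    constructor <;> nlinarith [sq_nonneg (v i - v j), sq_nonneg (v i + v j)]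
  have h4 : v ⬝ᵥ (u *ᵥ v) = ∑ i, ∑ j, v i * (u i j * v j) := by
    simp only [dotProduct, mulVec, Finset.mul_sum]
  rw [h4, Finset.sum_mul]
  refine (Finset.abs_sum_le_sum_abs _ _).trans (Finset.sum_le_sum fun i _ => ?_)
  rw [Finset.sum_mul]
  exact (Finset.abs_sum_le_sum_abs _ _).trans (Finset.sum_le_sum fun j _ => hvij i j)

private theorem GapR_mono {N : ℕ} {u : Matrix (Fin N) (Fin N) ℝ} {R R' : ℝ} (h : MB u R)
    (hR : R ≤ R') : MB u R' := by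
  intro v
  have hw : 0 ≤ v ⬝ᵥ v := by
    simp only [dotProduct]
    exact Finset.sum_nonneg fun i _ => mul_self_nonneg _
  exact (h v).trans (mul_le_mul_of_nonneg_right hR hw)

private theorem GapR_lim {N : ℕ} {u : Matrix (Fin N) (Fin N) ℝ} {S R : ℝ}
    (h : ∀ k : ℕ, MB u (S + R / 2 ^ k)) : MB u S := by
  intro v
  have h1 : Filter.Tendsto (fun k : ℕ => (S + R / 2 ^ k) * (v ⬝ᵥ v)) Filter.atTop
      (nhds ((S + 0) * (v ⬝ᵥ v))) := by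
    refine Filter.Tendsto.mul_const _ (Filter.Tendsto.const_add _ ?_)
    have h2 : Filter.Tendsto (fun k : ℕ => R * (1 / 2 : ℝ) ^ k) Filter.atTop (nhds (R * 0)) :=
      (tendsto_pow_atTop_nhds_zero_of_lt_one (by norm_num) (by norm_num)).const_mul R
    rw [mul_zero] at h2
    refine h2.congr fun k => ?_
    rw [one_div, inv_pow, div_eq_mul_inv]
  rw [add_zero] at h1
  exact ge_of_tendsto' h1 fun k => h k v

theorem gapR {ν : ℝ} (h0 : 0 < ν) (h1 : ν < 1) : ∃ C : ℝ, 1 ≤ C ∧ ∃ δ : ℝ, 0 < δ ∧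
    ∀ (N : ℕ) (A : Finset (Fin N)) (mu s : ℝ) (r1 r2 a G1 G2 H : Matrix (Fin N) (Fin N) ℝ),
    1 / δ ≤ N → |(A.card : ℝ) / N - ν| ≤ δ → |mu - (1 + sN ν - lamN ν)| ≤ δ → 0 ≤ s →
    RSys A (xN ν) (xN (1 - ν)) (1 / xN ν) (1 / xN (1 - ν)) (lamN ν) mu s r1 r2 a G1 G2 H →
    MB r1 (C * s) ∧ MB r2 (C * s) ∧ MB a (C * s) := by
  obtain ⟨K1, hK1, half1⟩ := GapR_half h0 h1
  obtain ⟨K2, hK2, half2⟩ := GapR_half (ν := 1 - ν) (by linarith) (by linarith)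
  obtain ⟨K, hKK⟩ : ∃ K : ℝ, K = max K1 K2 + 1 := ⟨_, rfl⟩
  have hKa : K1 ≤ K := by
    rw [hKK]
    linarith [le_max_left K1 K2]
  have hKb : K2 ≤ K := by
    rw [hKK]
    linarith [le_max_right K1 K2]
  have hK1' : 1 ≤ K := by
    rw [hKK]
    linarith [le_max_left K1 K2]
  have hK0 : 0 < K := by linarith
  refine ⟨2 * K, by linarith, 1 / (10 * K), by positivity, ?_⟩
  intro N A mu s r1 r2 a G1 G2 H hN hA hmu hs h
  rw [one_div_one_div] at hN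
  have hN10 : (10 : ℝ) ≤ N := by nlinarith
  have hN3 : 3 ≤ N := by
    have : (3 : ℝ) ≤ N := by linarith
    exact_mod_cast this
  have hNpos : (0 : ℝ) < N := by linarith
  have hn : 0 < (N : ℝ) - 2 := by linarith
  have hδ : 1 / (N : ℝ) ≤ 1 / (10 * K) := one_div_le_one_div_of_le (by positivity) hN
  obtain ⟨e, hee⟩ : ∃ e : ℝ, e = 1 / (2 * K) := ⟨_, rfl⟩
  have hde : 1 / (10 * K) = e / 5 := by
    rw [hee]
    field_simp
    norm_num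
  have hKe : K * e = 1 / 2 := by
    rw [hee]
    field_simp
  have he0 : 0 < e := by
    rw [hee]
    positivity
  have he1 : e ≤ 1 := by nlinarith
  rw [hde] at hA hmu hδ
  have hκ : 1 / ((N : ℝ) - 2) ≤ 2 * (e / 5) := by
    refine le_trans ?_ (mul_le_mul_of_nonneg_left hδ (by norm_num : (0 : ℝ) ≤ 2))
    rw [mul_one_div, div_le_div_iff₀ hn hNpos]
    linarith
  have hm1 : (0 : ℝ) ≤ A.card := Nat.cast_nonneg _
  have hm2 : (0 : ℝ) ≤ (N : ℝ) - A.card := by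
    rw [← GapR_compl]
    exact Nat.cast_nonneg _
  have conv : ∀ m t : ℝ, 0 ≤ m → m ≤ N → |m / N - t| ≤ e / 5 →
      |m / ((N : ℝ) - 2) - t| ≤ e := by
    intro m t hm hmN hmt
    have k : m / ((N : ℝ) - 2) - t = (m / N - t) + (m / N) * (2 * (1 / ((N : ℝ) - 2))) := by
      field_simp
      ring
    have k2 : 0 ≤ m / N := by positivity
    have k3 : m / N ≤ 1 := by
      rw [div_le_one hNpos]
      exact hmN
    have k4 : 0 ≤ 1 / ((N : ℝ) - 2) := by positivity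
    have k5 : (m / N) * (2 * (1 / ((N : ℝ) - 2))) ≤ 1 * (2 * (2 * (e / 5))) :=
      mul_le_mul k3 (by linarith) (by positivity) (by norm_num)
    have k6 : 0 ≤ (m / N) * (2 * (1 / ((N : ℝ) - 2))) := by positivity
    rw [k]
    rw [abs_le] at hmt ⊢
    constructor <;> linarith [hmt.1, hmt.2]
  have hA2 : |((N : ℝ) - A.card) / N - (1 - ν)| ≤ e / 5 := by
    have k : ((N : ℝ) - A.card) / N - (1 - ν) = -((A.card : ℝ) / N - ν) := by
      field_simp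
      ring
    rw [k, abs_neg]
    exact hA
  have hρ1 := conv _ _ hm1 (by linarith) hA
  have hρ2 := conv _ _ hm2 (by linarith) hA2
  have hκ' : 1 / ((N : ℝ) - 2) ≤ e := by linarith
  have hmu' : |mu - (1 + sN ν - lamN ν)| ≤ e := by linarith
  have h' := GapR_swap h
  have hνν : 1 - (1 - ν) = ν := by ring
  have step : ∀ R : ℝ, 0 ≤ R → MB r1 R ∧ MB r2 R ∧ MB a R →
      MB r1 (K * (s + e * R)) ∧ MB r2 (K * (s + e * R)) ∧ MB a (K * (s + e * R)) := by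
    intro R hR hb
    obtain ⟨b1, b2, ba⟩ := hb
    have hP : 0 ≤ s + e * R := by positivity
    have hS : 0 ≤ K * (s + e * R) := by positivity
    have v1 := half1 N A mu s e R r1 r2 a G1 G2 H hN3 he0.le he1 hρ1 hρ2 hκ' hmu' hs hR b1 b2
      ba h
    have v2 := half2 N Aᶜ mu s e R r2 r1 a G2 G1 H hN3 he0.le he1
      (by
        rw [GapR_compl]
        exact hρ2)
      (by
        rw [GapR_compl, hνν, sub_sub_cancel]
        exact hρ1) hκ'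
      (by
        rw [GapR_sN_symm, GapR_lamN_symm]
        exact hmu') hs hR b2 b1 ba
      (by
        rw [hνν, GapR_lamN_symm]
        exact h')
    have up : ∀ {K' t w : ℝ}, K' ≤ K → 0 ≤ w → |t| ≤ K' * (s + e * R) * w →
        |t| ≤ K * (s + e * R) * w := by
      intro K' t w hK' hw ht
      exact ht.trans (mul_le_mul_of_nonneg_right (mul_le_mul_of_nonneg_right hK' hP) hw)
    have hw : ∀ v : Fin N → ℝ, 0 ≤ v ⬝ᵥ v := by
      intro v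
      simp only [dotProduct]
      exact Finset.sum_nonneg fun i _ => mul_self_nonneg _
    refine ⟨GapR_MBr hS h.r1A fun v hv => up hKa (hw v) (v1 v hv).1,
      GapR_MBr hS h'.r1A fun v hv => up hKb (hw v) (v2 v hv).1,
      GapR_MBa h.aA (fun v hv => up hKa (hw v) (v1 v hv).2)
        (fun v hv => up hKb (hw v) (v2 v hv).2)⟩
  obtain ⟨R1, hR1, c1⟩ := GapR_exists r1
  obtain ⟨R2, hR2, c2⟩ := GapR_exists r2
  obtain ⟨R3, hR3, c3⟩ := GapR_exists a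
  have it : ∀ k : ℕ, MB r1 (2 * K * s + (R1 + R2 + R3) / 2 ^ k) ∧
      MB r2 (2 * K * s + (R1 + R2 + R3) / 2 ^ k) ∧
      MB a (2 * K * s + (R1 + R2 + R3) / 2 ^ k) := by
    intro k
    have hKs : 0 ≤ K * s := by positivity
    induction k with
    | zero =>
      rw [pow_zero, div_one]
      exact ⟨GapR_mono c1 (by linarith), GapR_mono c2 (by linarith), GapR_mono c3 (by linarith)⟩
    | succ k ih =>
      have h3 := step _ (by positivity) ih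
      have h4 : K * (s + e * (2 * K * s + (R1 + R2 + R3) / 2 ^ k)) =
          2 * K * s + (R1 + R2 + R3) / 2 ^ (k + 1) := by
        have h5 : K * (s + e * (2 * K * s + (R1 + R2 + R3) / 2 ^ k)) =
            K * s + (K * e) * (2 * K * s + (R1 + R2 + R3) / 2 ^ k) := by ring
        rw [h5, hKe, pow_succ]
        field_simp
        ring
      rw [h4] at h3
      exact h3
  exact ⟨GapR_lim fun k => (it k).1, GapR_lim fun k => (it k).2.1, GapR_lim fun k => (it k).2.2⟩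

end Pool.Agent.EinU
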