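import Pool.Agent.EinU.SoRep1

/-!
# The form `ellQ` and its operator

`T = BW A x1 x2 1`, `S = BW A y1 y2 1`, `Pp = BW A 0 0 1`, `x1 y1 = x2 y2 = 1`.  `TβT := T ∘ β ∘ T` is symmetric and satisfies
`CP`, and `T11 (TβT) = x1² T11 β`, `T22 (TβT) = x2² T22 β`, `T12 (TβT) = x1 x2 T12 β`, `Tp (TβT) = Tp β`.  `rho`, `Yo`, `Rop`
are linear on symmetric endomorphisms (`tn_Yo`, `tn_Rop`, `tn_inj`).
* `z_so`: by `TH2_rep` (and `TH2_comm`) the difference has no `T11`, `T22`, `T12` components.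
* `ellQ_rep`: `TH2 T β` and `TH2 (TβT) S` at `Pp z` only see the `Tp` components; the coefficients on `p` are:
  `Rop (rho (T11 β))`: `-(1/2)(1 - x1²) + 1/2 = x1²/2`; `Yo (T12 β)`: `-(1/2)(1 - x1 x2) + 1/2`;
  `Rop (res Aᶜ ..)`: `-(1/2)(x1 - y1) + (1/2) y1 = -(x1/2 - y1)`; `Yo (Tp β)`: `-((x1 - y1) + (x2 - y2))/4 + (y1 + y2)/4`;
  `ω` term and `-lam` term: `-(lam - ω) = -mu`.
-/

namespace Pool.Agent.EinU

open Matrix Pool.Agent.EStab Pool.Agent.EinS Pool.Agent.SmIso LieAlgebra.Orthogonal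

variable {N : ℕ}

private theorem SoRep_q (A : Finset (Fin N)) (u v t u' v' t' : ℝ)
    (X : so (Fin N) ℝ →ₗ[ℝ] so (Fin N) ℝ) (z : so (Fin N) ℝ) :
    Qf (so (Fin N) ℝ) ((BW A u v t ∘ₗ X ∘ₗ BW A u' v' t') z) z =
      Qf (so (Fin N) ℝ) (X (BW A u' v' t' z)) (BW A u v t z) := by
  rw [LinearMap.comp_apply, LinearMap.comp_apply]
  exact BW_sym A u v t _ _

private theorem SoRep_q11 (A : Finset (Fin N)) (X : so (Fin N) ℝ →ₗ[ℝ] so (Fin N) ℝ)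
    (z : so (Fin N) ℝ) : Qf (so (Fin N) ℝ) (T11 A X z) z =
      Qf (so (Fin N) ℝ) (X (BW A 1 0 0 z)) (BW A 1 0 0 z) := SoRep_q A _ _ _ _ _ _ X z

private theorem SoRep_q22 (A : Finset (Fin N)) (X : so (Fin N) ℝ →ₗ[ℝ] so (Fin N) ℝ)
    (z : so (Fin N) ℝ) : Qf (so (Fin N) ℝ) (T22 A X z) z =
      Qf (so (Fin N) ℝ) (X (BW A 0 1 0 z)) (BW A 0 1 0 z) := SoRep_q A _ _ _ _ _ _ X z

private theorem SoRep_qp (A : Finset (Fin N)) (X : so (Fin N) ℝ →ₗ[ℝ] so (Fin N) ℝ)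
    (z : so (Fin N) ℝ) : Qf (so (Fin N) ℝ) (Tp A X z) z =
      Qf (so (Fin N) ℝ) (X (BW A 0 0 1 z)) (BW A 0 0 1 z) := SoRep_q A _ _ _ _ _ _ X z

private theorem SoRep_q12 (A : Finset (Fin N)) (X : so (Fin N) ℝ →ₗ[ℝ] so (Fin N) ℝ)
    (z : so (Fin N) ℝ) : Qf (so (Fin N) ℝ) (T12 A X z) z =
      Qf (so (Fin N) ℝ) (X (BW A 0 1 0 z)) (BW A 1 0 0 z) +
      Qf (so (Fin N) ℝ) (X (BW A 1 0 0 z)) (BW A 0 1 0 z) := by
  unfold T12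
  rw [LinearMap.add_apply, map_add, LinearMap.add_apply, SoRep_q, SoRep_q]

private theorem SoRep_T_P1 (A : Finset (Fin N)) (x1 x2 : ℝ) (z : so (Fin N) ℝ) :
    BW A x1 x2 1 (BW A 1 0 0 z) = x1 • BW A 1 0 0 z := by
  rw [BW_BW, BW_smul]; simp

private theorem SoRep_P1_T (A : Finset (Fin N)) (x1 x2 : ℝ) (z : so (Fin N) ℝ) :
    BW A 1 0 0 (BW A x1 x2 1 z) = x1 • BW A 1 0 0 z := by
  rw [BW_BW, BW_smul]; simp

private theorem SoRep_T_P2 (A : Finset (Fin N)) (x1 x2 : ℝ) (z : so (Fin N) ℝ) :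
    BW A x1 x2 1 (BW A 0 1 0 z) = x2 • BW A 0 1 0 z := by
  rw [BW_BW, BW_smul]; simp

private theorem SoRep_P2_T (A : Finset (Fin N)) (x1 x2 : ℝ) (z : so (Fin N) ℝ) :
    BW A 0 1 0 (BW A x1 x2 1 z) = x2 • BW A 0 1 0 z := by
  rw [BW_BW, BW_smul]; simp

private theorem SoRep_T_Pp (A : Finset (Fin N)) (x1 x2 : ℝ) (z : so (Fin N) ℝ) :
    BW A x1 x2 1 (BW A 0 0 1 z) = BW A 0 0 1 z := by
  rw [BW_BW]; simp

private theorem SoRep_Pp_T (A : Finset (Fin N)) (x1 x2 : ℝ) (z : so (Fin N) ℝ) :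
    BW A 0 0 1 (BW A x1 x2 1 z) = BW A 0 0 1 z := by
  rw [BW_BW]; simp

private theorem SoRep_P1_Pp (A : Finset (Fin N)) (z : so (Fin N) ℝ) :
    BW A 1 0 0 (BW A 0 0 1 z) = 0 := by
  rw [BW_BW]; simp [BW_zero]

private theorem SoRep_P2_Pp (A : Finset (Fin N)) (z : so (Fin N) ℝ) :
    BW A 0 1 0 (BW A 0 0 1 z) = 0 := by
  rw [BW_BW]; simp [BW_zero]

private theorem SoRep_Pp_Pp (A : Finset (Fin N)) (z : so (Fin N) ℝ) :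
    BW A 0 0 1 (BW A 0 0 1 z) = BW A 0 0 1 z := by
  rw [BW_BW]; simp

private theorem SoRep_sum (A : Finset (Fin N)) (z : so (Fin N) ℝ) :
    BW A 1 0 0 z + BW A 0 1 0 z + BW A 0 0 1 z = z := by
  rw [BW_add, BW_add]; simp [BW_one]

private theorem SoRep_QSym_comp (A : Finset (Fin N)) (u v t : ℝ)
    {X : so (Fin N) ℝ →ₗ[ℝ] so (Fin N) ℝ} (hX : QSym X) :
    QSym (BW A u v t ∘ₗ X ∘ₗ BW A u v t) := by
  intro x y
  simp only [LinearMap.comp_apply]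
  rw [BW_sym A u v t, hX, BW_sym A u v t]

private theorem SoRep_QSym_add {X Y : so (Fin N) ℝ →ₗ[ℝ] so (Fin N) ℝ} (hX : QSym X)
    (hY : QSym Y) : QSym (X + Y) := by
  intro x y
  simp only [LinearMap.add_apply, map_add]
  rw [hX, hY]

private theorem SoRep_QSym_smul (c : ℝ) {X : so (Fin N) ℝ →ₗ[ℝ] so (Fin N) ℝ} (hX : QSym X) :
    QSym (c • X) := by
  intro x y
  simp only [LinearMap.smul_apply, map_smul]
  rw [hX]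

private theorem SoRep_QSym_neg_smul (c : ℝ) {X : so (Fin N) ℝ →ₗ[ℝ] so (Fin N) ℝ} (hX : QSym X) :
    QSym (-c • X) := SoRep_QSym_smul (-c) hX

private theorem SoRep_QSym_sub {X Y : so (Fin N) ℝ →ₗ[ℝ] so (Fin N) ℝ} (hX : QSym X)
    (hY : QSym Y) : QSym (X - Y) := by
  intro x y
  simp only [LinearMap.sub_apply, map_sub]
  rw [hX, hY]

private theorem SoRep_QSym_T12 (A : Finset (Fin N))
    {X : so (Fin N) ℝ →ₗ[ℝ] so (Fin N) ℝ} (hX : QSym X) : QSym (T12 A X) := by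
  intro x y
  unfold T12
  simp only [LinearMap.add_apply, LinearMap.comp_apply, map_add]
  rw [BW_sym A 1 0 0, hX, BW_sym A 0 1 0, BW_sym A 0 1 0 (X (BW A 1 0 0 x)), hX, BW_sym A 1 0 0]
  ring

private theorem SoRep_Rop_sym (u : Matrix (Fin N) (Fin N) ℝ) : QSym (Rop u) := opT_sym _

private theorem SoRep_Yo_sym (T : so (Fin N) ℝ →ₗ[ℝ] so (Fin N) ℝ) : QSym (Yo T) := opT_sym _

private theorem SoRep_tn_smul (c : ℝ) (T : so (Fin N) ℝ →ₗ[ℝ] so (Fin N) ℝ) (a b c' d : Fin N) :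
    tn (c • T) a b c' d = c * tn T a b c' d := rfl

private theorem SoRep_Rop_smul (c : ℝ) {u : Matrix (Fin N) (Fin N) ℝ} (hu : u.IsSymm) :
    Rop (c • u) = c • Rop u := by
  have hcu : (c • u).IsSymm := by
    unfold Matrix.IsSymm at *
    rw [Matrix.transpose_smul, hu]
  apply tn_inj
  intro a b c' d
  rw [SoRep_tn_smul, tn_Rop hu, tn_Rop hcu]
  simp only [Matrix.smul_apply, smul_eq_mul]
  ring

private theorem SoRep_Yo_smul (hN : 3 ≤ N) (c : ℝ) {β : so (Fin N) ℝ →ₗ[ℝ] so (Fin N) ℝ}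
    (hβ : QSym β) : Yo (c • β) = c • Yo β := by
  apply tn_inj
  intro a b c' d
  rw [SoRep_tn_smul, tn_Yo hN hβ, tn_Yo hN (SoRep_QSym_smul c hβ)]
  simp only [SoRep_tn_smul]
  ring

private theorem SoRep_rho_smul (c : ℝ) (T : so (Fin N) ℝ →ₗ[ℝ] so (Fin N) ℝ) :
    rho (c • T) = c • rho T := by
  ext a b
  unfold rho
  simp only [Matrix.of_apply, Matrix.smul_apply, smul_eq_mul, SoRep_tn_smul, ← Finset.mul_sum]
  ring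

private theorem SoRep_T11 (A : Finset (Fin N)) (x1 x2 : ℝ)
    (β : so (Fin N) ℝ →ₗ[ℝ] so (Fin N) ℝ) :
    T11 A (BW A x1 x2 1 ∘ₗ β ∘ₗ BW A x1 x2 1) = x1 ^ 2 • T11 A β := by
  apply LinearMap.ext
  intro z
  unfold T11
  simp only [LinearMap.comp_apply, LinearMap.smul_apply]
  rw [SoRep_T_P1, SoRep_P1_T, map_smul, map_smul, smul_smul, sq]

private theorem SoRep_T22 (A : Finset (Fin N)) (x1 x2 : ℝ)
    (β : so (Fin N) ℝ →ₗ[ℝ] so (Fin N) ℝ) :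
    T22 A (BW A x1 x2 1 ∘ₗ β ∘ₗ BW A x1 x2 1) = x2 ^ 2 • T22 A β := by
  apply LinearMap.ext
  intro z
  unfold T22
  simp only [LinearMap.comp_apply, LinearMap.smul_apply]
  rw [SoRep_T_P2, SoRep_P2_T, map_smul, map_smul, smul_smul, sq]

private theorem SoRep_Tp (A : Finset (Fin N)) (x1 x2 : ℝ)
    (β : so (Fin N) ℝ →ₗ[ℝ] so (Fin N) ℝ) :
    Tp A (BW A x1 x2 1 ∘ₗ β ∘ₗ BW A x1 x2 1) = Tp A β := by
  apply LinearMap.ext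
  intro z
  unfold Tp
  simp only [LinearMap.comp_apply]
  rw [SoRep_T_Pp, SoRep_Pp_T]

private theorem SoRep_T12 (A : Finset (Fin N)) (x1 x2 : ℝ)
    (β : so (Fin N) ℝ →ₗ[ℝ] so (Fin N) ℝ) :
    T12 A (BW A x1 x2 1 ∘ₗ β ∘ₗ BW A x1 x2 1) = (x1 * x2) • T12 A β := by
  apply LinearMap.ext
  intro z
  unfold T12
  simp only [LinearMap.add_apply, LinearMap.comp_apply, LinearMap.smul_apply]
  rw [SoRep_T_P1, SoRep_P1_T, SoRep_T_P2, SoRep_P2_T, map_smul, map_smul, map_smul, map_smul,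
    smul_smul, smul_smul, smul_add, mul_comm x2 x1]

private theorem SoRep_CP (A : Finset (Fin N)) (x1 x2 : ℝ)
    {β : so (Fin N) ℝ →ₗ[ℝ] so (Fin N) ℝ} (hc : CP A β) :
    CP A (BW A x1 x2 1 ∘ₗ β ∘ₗ BW A x1 x2 1) := by
  intro x
  simp only [LinearMap.comp_apply]
  rw [SoRep_T_Pp, hc x, SoRep_T_Pp, SoRep_Pp_T]
  rw [← hc, ← hc, SoRep_Pp_T]

/-- the form of `THo` -/
private theorem SoRep_THo (A : Finset (Fin N)) (u v : ℝ)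
    (β : so (Fin N) ℝ →ₗ[ℝ] so (Fin N) ℝ) (z : so (Fin N) ℝ) :
    Qf (so (Fin N) ℝ) (THo A u v β z) z =
      u * (Qf (so (Fin N) ℝ) (Rop (rho (T11 A β)) (BW A 1 0 0 z)) (BW A 1 0 0 z) +
        Qf (so (Fin N) ℝ) (Yo (T11 A β) (BW A 1 0 0 z)) (BW A 1 0 0 z)) +
      Qf (so (Fin N) ℝ) (Rop (rho (Tp A β)) (BW A 1 0 0 z)) (BW A 1 0 0 z) +
      v * (Qf (so (Fin N) ℝ) (Rop (rho (T22 A β)) (BW A 0 1 0 z)) (BW A 0 1 0 z) +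
        Qf (so (Fin N) ℝ) (Yo (T22 A β) (BW A 0 1 0 z)) (BW A 0 1 0 z)) +
      Qf (so (Fin N) ℝ) (Rop (rho (Tp A β)) (BW A 0 1 0 z)) (BW A 0 1 0 z) +
      (Qf (so (Fin N) ℝ) (Yo (Tp A β) (BW A 0 1 0 z)) (BW A 1 0 0 z) +
        Qf (so (Fin N) ℝ) (Yo (Tp A β) (BW A 1 0 0 z)) (BW A 0 1 0 z)) +
      (Qf (so (Fin N) ℝ) (Rop (rho (T11 A β)) (BW A 0 0 1 z)) (BW A 0 0 1 z) +
        Qf (so (Fin N) ℝ) (Rop (rho (T22 A β)) (BW A 0 0 1 z)) (BW A 0 0 1 z) +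
        Qf (so (Fin N) ℝ) (Yo (T12 A β) (BW A 0 0 1 z)) (BW A 0 0 1 z) +
        u * Qf (so (Fin N) ℝ) (Rop (res Aᶜ (rho (Tp A β))) (BW A 0 0 1 z)) (BW A 0 0 1 z) +
        v * Qf (so (Fin N) ℝ) (Rop (res A (rho (Tp A β))) (BW A 0 0 1 z)) (BW A 0 0 1 z) +
        ((u + v) / 2) * Qf (so (Fin N) ℝ) (Yo (Tp A β) (BW A 0 0 1 z)) (BW A 0 0 1 z)) := by
  unfold THo
  generalize Rop (rho (T11 A β)) = R11
  generalize Rop (rho (T22 A β)) = R22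
  generalize Rop (rho (Tp A β)) = Rpp
  generalize Yo (T11 A β) = Y11
  generalize Yo (T22 A β) = Y22
  generalize Yo (T12 A β) = Y12
  generalize Yo (Tp A β) = Ypp
  generalize Rop (res Aᶜ (rho (Tp A β))) = Rc
  generalize Rop (res A (rho (Tp A β))) = Rr
  simp only [LinearMap.add_apply, map_add, SoRep_q11, SoRep_q22, SoRep_q12, SoRep_qp,
    LinearMap.smul_apply, map_smul, smul_eq_mul]
  ring

/-- the form of `THo` for `T β T` -/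
private theorem SoRep_THo' (hN : 3 ≤ N) (A : Finset (Fin N)) {x1 x2 y1 y2 : ℝ} (h1 : x1 * y1 = 1)
    (h2 : x2 * y2 = 1) {β : so (Fin N) ℝ →ₗ[ℝ] so (Fin N) ℝ} (hβ : QSym β)
    (z : so (Fin N) ℝ) :
    Qf (so (Fin N) ℝ) (THo A y1 y2 (BW A x1 x2 1 ∘ₗ β ∘ₗ BW A x1 x2 1) z) z =
      x1 * (Qf (so (Fin N) ℝ) (Rop (rho (T11 A β)) (BW A 1 0 0 z)) (BW A 1 0 0 z) +
        Qf (so (Fin N) ℝ) (Yo (T11 A β) (BW A 1 0 0 z)) (BW A 1 0 0 z)) +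
      Qf (so (Fin N) ℝ) (Rop (rho (Tp A β)) (BW A 1 0 0 z)) (BW A 1 0 0 z) +
      x2 * (Qf (so (Fin N) ℝ) (Rop (rho (T22 A β)) (BW A 0 1 0 z)) (BW A 0 1 0 z) +
        Qf (so (Fin N) ℝ) (Yo (T22 A β) (BW A 0 1 0 z)) (BW A 0 1 0 z)) +
      Qf (so (Fin N) ℝ) (Rop (rho (Tp A β)) (BW A 0 1 0 z)) (BW A 0 1 0 z) +
      (Qf (so (Fin N) ℝ) (Yo (Tp A β) (BW A 0 1 0 z)) (BW A 1 0 0 z) +
        Qf (so (Fin N) ℝ) (Yo (Tp A β) (BW A 1 0 0 z)) (BW A 0 1 0 z)) +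
      (x1 ^ 2 * Qf (so (Fin N) ℝ) (Rop (rho (T11 A β)) (BW A 0 0 1 z)) (BW A 0 0 1 z) +
        x2 ^ 2 * Qf (so (Fin N) ℝ) (Rop (rho (T22 A β)) (BW A 0 0 1 z)) (BW A 0 0 1 z) +
        x1 * x2 * Qf (so (Fin N) ℝ) (Yo (T12 A β) (BW A 0 0 1 z)) (BW A 0 0 1 z) +
        y1 * Qf (so (Fin N) ℝ) (Rop (res Aᶜ (rho (Tp A β))) (BW A 0 0 1 z)) (BW A 0 0 1 z) +
        y2 * Qf (so (Fin N) ℝ) (Rop (res A (rho (Tp A β))) (BW A 0 0 1 z)) (BW A 0 0 1 z) +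
        ((y1 + y2) / 2) * Qf (so (Fin N) ℝ) (Yo (Tp A β) (BW A 0 0 1 z)) (BW A 0 0 1 z)) := by
  rw [SoRep_THo]
  have hs11 : QSym (T11 A β) := SoRep_QSym_comp A _ _ _ hβ
  have hs22 : QSym (T22 A β) := SoRep_QSym_comp A _ _ _ hβ
  have hs12 : QSym (T12 A β) := SoRep_QSym_T12 A hβ
  rw [SoRep_T11, SoRep_T22, SoRep_T12, SoRep_Tp, SoRep_rho_smul, SoRep_rho_smul,
    SoRep_Rop_smul _ (rho_symm hN hs11), SoRep_Rop_smul _ (rho_symm hN hs22),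
    SoRep_Yo_smul hN _ hs11, SoRep_Yo_smul hN _ hs22, SoRep_Yo_smul hN _ hs12]
  simp only [LinearMap.smul_apply, map_smul, smul_eq_mul]
  have e1 : y1 * x1 ^ 2 = x1 := by
    calc y1 * x1 ^ 2 = x1 * y1 * x1 := by ring
      _ = x1 := by rw [h1, one_mul]
  have e2 : y2 * x2 ^ 2 = x2 := by
    calc y2 * x2 ^ 2 = x2 * y2 * x2 := by ring
      _ = x2 := by rw [h2, one_mul]
  generalize Qf (so (Fin N) ℝ) (Rop (rho (T11 A β)) (BW A 1 0 0 z)) (BW A 1 0 0 z) = a1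
  generalize Qf (so (Fin N) ℝ) (Yo (T11 A β) (BW A 1 0 0 z)) (BW A 1 0 0 z) = a2
  generalize Qf (so (Fin N) ℝ) (Rop (rho (T22 A β)) (BW A 0 1 0 z)) (BW A 0 1 0 z) = a3
  generalize Qf (so (Fin N) ℝ) (Yo (T22 A β) (BW A 0 1 0 z)) (BW A 0 1 0 z) = a4
  linear_combination (a1 + a2) * e1 + (a3 + a4) * e2

private theorem SoRep_Qf_zero (x : so (Fin N) ℝ) : Qf (so (Fin N) ℝ) x 0 = 0 := by
  rw [map_zero]

/-- the difference of the two forms -/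
private theorem SoRep_diff (hN : 3 ≤ N) (A : Finset (Fin N)) {x1 x2 y1 y2 : ℝ} (h1 : x1 * y1 = 1)
    (h2 : x2 * y2 = 1) {β : so (Fin N) ℝ →ₗ[ℝ] so (Fin N) ℝ} (hβ : QSym β) (hc : CP A β)
    (z : so (Fin N) ℝ) :
    TH2 (BW A x1 x2 1) β z z -
        TH2 (BW A x1 x2 1 ∘ₗ β ∘ₗ BW A x1 x2 1) (BW A y1 y2 1) z z =
      (1 - x1 ^ 2) * Qf (so (Fin N) ℝ) (Rop (rho (T11 A β)) (BW A 0 0 1 z)) (BW A 0 0 1 z) +
      (1 - x2 ^ 2) * Qf (so (Fin N) ℝ) (Rop (rho (T22 A β)) (BW A 0 0 1 z)) (BW A 0 0 1 z) +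
      (1 - x1 * x2) * Qf (so (Fin N) ℝ) (Yo (T12 A β) (BW A 0 0 1 z)) (BW A 0 0 1 z) +
      (x1 - y1) * Qf (so (Fin N) ℝ) (Rop (res Aᶜ (rho (Tp A β))) (BW A 0 0 1 z)) (BW A 0 0 1 z) +
      (x2 - y2) * Qf (so (Fin N) ℝ) (Rop (res A (rho (Tp A β))) (BW A 0 0 1 z)) (BW A 0 0 1 z) +
      ((x1 + x2) / 2 - (y1 + y2) / 2) *
        Qf (so (Fin N) ℝ) (Yo (Tp A β) (BW A 0 0 1 z)) (BW A 0 0 1 z) := by
  have hγ : QSym (BW A x1 x2 1 ∘ₗ β ∘ₗ BW A x1 x2 1) := SoRep_QSym_comp A _ _ _ hβ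
  rw [TH2_comm hN hγ (BW_sym A y1 y2 1) z, TH2_rep hN A x1 x2 hβ hc,
    TH2_rep hN A y1 y2 hγ (SoRep_CP A x1 x2 hc), SoRep_THo' hN A h1 h2 hβ, SoRep_THo]
  ring

theorem z_so (hN : 3 ≤ N) (A : Finset (Fin N)) {x1 x2 y1 y2 : ℝ} (h1 : x1 * y1 = 1)
    (h2 : x2 * y2 = 1) {β : so (Fin N) ℝ →ₗ[ℝ] so (Fin N) ℝ} (hβ : QSym β) (hc : CP A β)
    (z : so (Fin N) ℝ) :
    TH2 (BW A x1 x2 1) β z z -
        TH2 (BW A x1 x2 1 ∘ₗ β ∘ₗ BW A x1 x2 1) (BW A y1 y2 1) z z =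
      TH2 (BW A x1 x2 1) β (BW A 0 0 1 z) (BW A 0 0 1 z) -
        TH2 (BW A x1 x2 1 ∘ₗ β ∘ₗ BW A x1 x2 1) (BW A y1 y2 1) (BW A 0 0 1 z)
          (BW A 0 0 1 z) := by
  rw [SoRep_diff hN A h1 h2 hβ hc, SoRep_diff hN A h1 h2 hβ hc, SoRep_Pp_Pp]

private theorem SoRep_β (A : Finset (Fin N)) {β : so (Fin N) ℝ →ₗ[ℝ] so (Fin N) ℝ}
    (hβ : QSym β) (hc : CP A β) (z : so (Fin N) ℝ) : Qf (so (Fin N) ℝ) (β z) z =
      Qf (so (Fin N) ℝ) (β (BW A 1 0 0 z)) (BW A 1 0 0 z) +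
      Qf (so (Fin N) ℝ) (β (BW A 0 1 0 z)) (BW A 0 1 0 z) +
      (Qf (so (Fin N) ℝ) (β (BW A 0 1 0 z)) (BW A 1 0 0 z) +
      Qf (so (Fin N) ℝ) (β (BW A 1 0 0 z)) (BW A 0 1 0 z)) +
      Qf (so (Fin N) ℝ) (β (BW A 0 0 1 z)) (BW A 0 0 1 z) := by
  have hp1 : ∀ w, Qf (so (Fin N) ℝ) (β (BW A 0 0 1 w)) (BW A 1 0 0 w) = 0 := by
    intro w
    rw [hc w, BW_sym A 0 0 1, BW_BW]
    simp [BW_zero]
  have hp2 : ∀ w, Qf (so (Fin N) ℝ) (β (BW A 0 0 1 w)) (BW A 0 1 0 w) = 0 := by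
    intro w
    rw [hc w, BW_sym A 0 0 1, BW_BW]
    simp [BW_zero]
  have hp3 : ∀ w, Qf (so (Fin N) ℝ) (β (BW A 1 0 0 w)) (BW A 0 0 1 w) = 0 := by
    intro w
    rw [hβ, Qf_symm, hp1]
  have hp4 : ∀ w, Qf (so (Fin N) ℝ) (β (BW A 0 1 0 w)) (BW A 0 0 1 w) = 0 := by
    intro w
    rw [hβ, Qf_symm, hp2]
  conv_lhs => rw [← SoRep_sum A z]
  simp only [map_add, LinearMap.add_apply]
  rw [hp1, hp2, hp3, hp4]
  ring

theorem ellQ_rep (hN : 3 ≤ N) (A : Finset (Fin N)) {x1 x2 y1 y2 : ℝ} (h1 : x1 * y1 = 1)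
    (h2 : x2 * y2 = 1) (ω lam : ℝ) {β : so (Fin N) ℝ →ₗ[ℝ] so (Fin N) ℝ} (hβ : QSym β)
    (hc : CP A β) (z : so (Fin N) ℝ) :
    ellQ (BW A y1 y2 1) (BW A x1 x2 1) (BW A 0 0 1) ω lam β z =
      Qf (so (Fin N) ℝ) (ellO A x1 x2 y1 y2 lam (lam - ω) β z) z := by
  unfold ellQ
  rw [SoRep_diff hN A h1 h2 hβ hc, SoRep_Pp_Pp, TH2_rep hN A y1 y2 hβ hc, SoRep_THo,
    SoRep_β A hβ hc z]
  unfold ellO
  generalize Rop (rho (T11 A β)) = R11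
  generalize Rop (rho (T22 A β)) = R22
  generalize Rop (rho (Tp A β)) = Rpp
  generalize Yo (T11 A β) = Y11
  generalize Yo (T22 A β) = Y22
  generalize Yo (T12 A β) = Y12
  generalize Yo (Tp A β) = Ypp
  generalize Rop (res Aᶜ (rho (Tp A β))) = Rc
  generalize Rop (res A (rho (Tp A β))) = Rr
  simp only [LinearMap.add_apply, LinearMap.sub_apply, map_add, map_sub, SoRep_q11, SoRep_q22,
    SoRep_q12, SoRep_qp, LinearMap.smul_apply, map_smul, smul_eq_mul]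
  ring

theorem ellO_sym (hN : 3 ≤ N) (A : Finset (Fin N)) (x1 x2 y1 y2 lam mu : ℝ)
    {β : so (Fin N) ℝ →ₗ[ℝ] so (Fin N) ℝ} (hβ : QSym β) :
    QSym (ellO A x1 x2 y1 y2 lam mu β) := by
  have hR : ∀ u : Matrix (Fin N) (Fin N) ℝ, QSym (Rop u) := SoRep_Rop_sym
  have hY : ∀ T : so (Fin N) ℝ →ₗ[ℝ] so (Fin N) ℝ, QSym (Yo T) := SoRep_Yo_sym
  unfold ellO
  refine SoRep_QSym_add (SoRep_QSym_add (SoRep_QSym_add ?_ ?_) ?_) ?_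
  · apply SoRep_QSym_comp
    exact SoRep_QSym_add (SoRep_QSym_add (SoRep_QSym_smul _ hβ)
      (SoRep_QSym_smul _ (SoRep_QSym_add (hR _) (hY _)))) (SoRep_QSym_smul _ (hR _))
  · apply SoRep_QSym_comp
    exact SoRep_QSym_add (SoRep_QSym_add (SoRep_QSym_smul _ hβ)
      (SoRep_QSym_smul _ (SoRep_QSym_add (hR _) (hY _)))) (SoRep_QSym_smul _ (hR _))
  · apply SoRep_QSym_T12
    exact SoRep_QSym_add (SoRep_QSym_smul _ hβ) (SoRep_QSym_smul _ (hY _))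
  · apply SoRep_QSym_comp
    exact SoRep_QSym_sub (SoRep_QSym_sub (SoRep_QSym_sub (SoRep_QSym_add (SoRep_QSym_add
      (SoRep_QSym_add (SoRep_QSym_smul _ hβ) (SoRep_QSym_smul _ (hR _)))
      (SoRep_QSym_smul _ (hR _))) (SoRep_QSym_smul _ (hY _))) (SoRep_QSym_smul _ (hR _)))
      (SoRep_QSym_smul _ (hR _))) (SoRep_QSym_smul _ (hY _))

end Pool.Agent.EinU
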