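import Pool.Agent.EinU.GapY
import Pool.Agent.EinU.GapR
import Pool.Agent.EinU.SoRep
import Pool.Agent.EinU.Cst

/-!
# The gap on `so(N)`
-/

namespace Pool.Agent.EinU

open Matrix Pool.Agent.EStab Pool.Agent.EinS Pool.Agent.SmIso LieAlgebra.Orthogonal

private theorem GapFin_res {N : ℕ} {u : Matrix (Fin N) (Fin N) ℝ} {s : ℝ} (hs : 0 ≤ s)
    (A : Finset (Fin N)) (h : MB u s) : MB (res A u) s := by
  intro v
  set w : Fin N → ℝ := fun i => if i ∈ A then v i else 0 with hw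
  have h1 : v ⬝ᵥ (res A u *ᵥ v) = w ⬝ᵥ (u *ᵥ w) := by
    unfold dotProduct Matrix.mulVec dotProduct
    refine Finset.sum_congr rfl fun i _ => ?_
    rw [Finset.mul_sum, Finset.mul_sum]
    refine Finset.sum_congr rfl fun j _ => ?_
    by_cases hi : i ∈ A <;> by_cases hj : j ∈ A <;> simp [res, hw, hi, hj]
  have h2 : w ⬝ᵥ w ≤ v ⬝ᵥ v := by
    unfold dotProduct
    refine Finset.sum_le_sum fun i _ => ?_
    by_cases hi : i ∈ A
    · simp [hw, hi]
    · simp only [hw, hi, if_false, mul_zero]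
      exact mul_self_nonneg _
  rw [h1]
  exact (h w).trans (mul_le_mul_of_nonneg_left h2 hs)

theorem gap_so {ν : ℝ} (h0 : 0 < ν) (h1 : ν < 1) : ∃ K : ℝ, 1 ≤ K ∧ ∃ δ : ℝ, 0 < δ ∧
    ∀ (N : ℕ) (A : Finset (Fin N)), 3 ≤ N → 1 / δ ≤ N → |(A.card : ℝ) / N - ν| ≤ δ →
    GapL (BW A (1 / xN ν) (1 / xN (1 - ν)) 1) (BW A (xN ν) (xN (1 - ν)) 1) (BW A 0 0 1)
      (omN A (xN ν) (xN (1 - ν)) (1 / xN ν) (1 / xN (1 - ν))) (lamN ν) K := by
  have h0' : 0 < 1 - ν := by linarith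
  have h1' : 1 - ν < 1 := by linarith
  have hx1 := xN_pos h0 h1
  have hx2 := xN_pos h0' h1'
  obtain ⟨hl, hl'⟩ := lamN_pos h0 h1
  set x1 := xN ν with hx1d
  set x2 := xN (1 - ν) with hx2d
  set lam := lamN ν with hlam
  set μ := 1 + sN ν - lam with hμ
  have p1 : 0 < 1 / x1 := by positivity
  have p2 : 0 < 1 / x2 := by positivity
  have p3 : 0 < 1 / lam := by positivity
  have p4 : 0 < 2 / μ := by positivity
  obtain ⟨c, hc⟩ : ∃ c : ℝ, c = 1 + x1 + 1 / x1 + x2 + 1 / x2 + 1 / lam + 2 / μ := ⟨_, rfl⟩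
  have hc1 : 1 ≤ c := by rw [hc]; linarith
  obtain ⟨C₁, hC₁, hY⟩ := gapY hc1
  obtain ⟨C₂, hC₂, δ₁, hδ₁, hR⟩ := gapR h0 h1
  obtain ⟨δ₂, hδ₂, hom⟩ := om_lim h0 h1 (min δ₁ (μ / 2)) (lt_min hδ₁ (by linarith))
  refine ⟨2 * C₁ * (1 + C₂), by nlinarith, min (min δ₁ δ₂) (1 / (2 * C₁)),
    lt_min (lt_min hδ₁ hδ₂) (by positivity), ?_⟩
  intro N A hN hNδ hA
  set δ := min (min δ₁ δ₂) (1 / (2 * C₁)) with hδ
  have hδ0 : 0 < δ := lt_min (lt_min hδ₁ hδ₂) (by positivity)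
  have d1 : δ ≤ δ₁ := (min_le_left _ _).trans (min_le_left _ _)
  have d2 : δ ≤ δ₂ := (min_le_left _ _).trans (min_le_right _ _)
  have d3 : δ ≤ 1 / (2 * C₁) := min_le_right _ _
  have hNd : ∀ d, δ ≤ d → 1 / d ≤ N := fun d hd =>
    (one_div_le_one_div_of_le hδ0 hd).trans hNδ
  have hNC : 2 * C₁ ≤ N := by
    have := hNd _ d3
    rwa [one_div_one_div] at this
  have ho := hom N A (hNd _ d2) (hA.trans d2)
  set ω := omN A x1 x2 (1 / x1) (1 / x2) with hω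
  have hmu1 : |lam - ω - μ| ≤ δ₁ := ho.trans (min_le_left _ _)
  have hmu2 : |lam - ω - μ| ≤ μ / 2 := ho.trans (min_le_right _ _)
  have hmu : μ / 2 ≤ lam - ω := by
    rw [abs_le] at hmu2
    linarith [hmu2.1]
  have hmu0 : 0 < lam - ω := by linarith
  intro β hβ hcp s hs z
  have hs0 : 0 ≤ s ∨ ∀ z, Qf (so (Fin N) ℝ) z z = 0 := by
    by_cases h : 0 ≤ s
    · exact Or.inl h
    · right
      intro z
      have h2 := (abs_nonneg _).trans (hs z)
      have h3 := Qf_nonneg (so_compact hN) z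
      push Not at h
      nlinarith
  rcases hs0 with hs0 | hs0
  swap
  · have hz : z = 0 := Qf_eq_zero (so_compact hN) (hs0 z)
    rw [hz, map_zero, map_zero, abs_zero, mul_zero]
  have hNB : NB (ellO A x1 x2 (1 / x1) (1 / x2) lam (lam - ω) β) s := by
    intro z
    rw [← ellQ_rep hN A (mul_one_div_cancel hx1.ne') (mul_one_div_cancel hx2.ne') ω lam hβ hcp z]
    exact hs z
  have hsys := rsys_ellO hN A x1 x2 (1 / x1) (1 / x2) lam (lam - ω) hβ hcp hs0 hNB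
  obtain ⟨m1, m2, m3⟩ := hR N A (lam - ω) s _ _ _ _ _ _ (hNd _ d1) (hA.trans d1) hmu1 hs0 hsys
  obtain ⟨b, hb0, hb, hbm⟩ := NB_exists_min hN hβ
  have hCs : 0 ≤ C₂ * s := by positivity
  have hc' : c ≥ 1 := hc1
  have h4 := hY N A x1 x2 (1 / x1) (1 / x2) lam (lam - ω) (by linarith)
    (by rw [abs_of_pos hx1, hc]; linarith) (by rw [abs_of_pos hx2, hc]; linarith)
    (by rw [abs_of_pos p1, hc]; linarith) (by rw [abs_of_pos p2, hc]; linarith) hl
    (by rw [hc]; linarith) hmu0 (by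
      have h5 : 1 / (lam - ω) ≤ 2 / μ := by
        rw [div_le_div_iff₀ hmu0 hl']
        linarith
      rw [hc]; linarith) β hβ hcp (C₂ * s) s b hCs hs0 hb0 m1 m2 m3
    (GapFin_res hCs A m3) (GapFin_res hCs Aᶜ m3) hb hNB
  have hN0 : (0 : ℝ) < N := by linarith
  have h5 := hbm _ (by positivity) h4
  have h6 : C₁ / N * b ≤ b / 2 := by
    have : C₁ / N ≤ 1 / 2 := by
      rw [div_le_iff₀ hN0]
      linarith
    calc C₁ / N * b ≤ 1 / 2 * b := mul_le_mul_of_nonneg_right this hb0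
      _ = b / 2 := by ring
  have h7 : b ≤ 2 * C₁ * (1 + C₂) * s := by nlinarith
  exact (hb z).trans (mul_le_mul_of_nonneg_right h7 (Qf_nonneg (so_compact hN) z))

end Pool.Agent.EinU
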