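import Pool.Agent.EinU.SoNB

/-!
# Bounds of quadratic forms, 2

* `NB_Yo`: `Yo T = Θ T - Rop (rho T)` as forms (`TH_eq`), and `|TH T z z| ≤ s Qf z z` (`SoGap_TH_le` in
  `SmIso/SoGap.lean`: `TH_frame` with a frame of `⊤`, `∑ i, Qf ⁅z, e i⁆ ⁅z, e i⁆ = Qf z z` by `IsFrame.killing`).
* `NB_exists_min`: the set of the `b ≥ 0` with `NB T b` is closed, bounded below and not empty (`quad_le_norm` for the
  matrix of `T` in a frame of `⊤`, `exists_frame`); take the infimum.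
-/

namespace Pool.Agent.EinU

open Matrix Pool.Agent.EStab Pool.Agent.EinS Pool.Agent.SmIso LieAlgebra.Orthogonal

variable {N : ℕ}

private theorem SoNB2_TH_le (hN : 3 ≤ N) {T : so (Fin N) ℝ →ₗ[ℝ] so (Fin N) ℝ} {s : ℝ}
    (h : NB T s) (x : so (Fin N) ℝ) : |TH T x x| ≤ s * Qf (so (Fin N) ℝ) x x := by
  obtain ⟨n, e, he⟩ := exists_frame (so_compact hN) (⊤ : Submodule ℝ (so (Fin N) ℝ))
  rw [TH_frame he, he.killing x x, Finset.mul_sum]
  refine (Finset.abs_sum_le_sum_abs _ _).trans (Finset.sum_le_sum fun i _ => ?_)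
  exact h _

theorem NB_Yo (hN : 3 ≤ N) {T : so (Fin N) ℝ →ₗ[ℝ] so (Fin N) ℝ} (hT : QSym T) {s : ℝ}
    (hs : 0 ≤ s) (h : NB T s) : NB (Yo T) (3 * s) := by
  intro z
  have h1 := SoNB2_TH_le hN h z
  have h2 := NB_Rop hN (rho_symm hN hT) (MB_rho hN hT hs h) z
  rw [TH_eq hN hT z, LinearMap.add_apply, map_add, LinearMap.add_apply] at h1
  have e1 := abs_le.1 h1
  have e2 := abs_le.1 h2
  rw [abs_le]
  constructor
  · linarith [e1.1, e2.2]
  · linarith [e1.2, e2.1]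

private theorem SoNB2_bdd (hN : 3 ≤ N) (T : so (Fin N) ℝ →ₗ[ℝ] so (Fin N) ℝ) :
    ∃ b : ℝ, 0 ≤ b ∧ NB T b := by
  obtain ⟨n, e, he⟩ := exists_frame (so_compact hN) (⊤ : Submodule ℝ (so (Fin N) ℝ))
  refine ⟨∑ i, ∑ j, |Qf (so (Fin N) ℝ) (T (e i)) (e j)|,
    Finset.sum_nonneg fun i _ => Finset.sum_nonneg fun j _ => abs_nonneg _, fun z => ?_⟩
  set c : Fin n → ℝ := fun i => Qf (so (Fin N) ℝ) z (e i) with hc
  have hz : z = ∑ i, c i • e i := he.exp z Submodule.mem_top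
  have hzz : Qf (so (Fin N) ℝ) z z = ∑ i, c i ^ 2 := by
    rw [he.parseval Submodule.mem_top z]
    exact Finset.sum_congr rfl fun i _ => (sq _).symm
  have hTz : T z = ∑ i, c i • T (e i) := by
    conv_lhs => rw [hz]
    rw [map_sum]
    exact Finset.sum_congr rfl fun i _ => map_smul _ _ _
  have h1 : Qf (so (Fin N) ℝ) (T z) z =
      ∑ i, ∑ j, c i * (c j * Qf (so (Fin N) ℝ) (T (e i)) (e j)) := by
    rw [hTz, Qf_sum (fun i => T (e i)) c z]
    refine Finset.sum_congr rfl fun i _ => ?_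
    have h2 : Qf (so (Fin N) ℝ) (T (e i)) z = ∑ j, c j * Qf (so (Fin N) ℝ) (T (e i)) (e j) := by
      conv_lhs => rw [hz]
      exact Qf_sum' e c (T (e i))
    rw [h2, Finset.mul_sum]
  have hci : ∀ i, c i ^ 2 ≤ ∑ k, c k ^ 2 := fun i =>
    Finset.single_le_sum (f := fun k => c k ^ 2) (fun k _ => sq_nonneg _) (Finset.mem_univ i)
  rw [h1, Finset.sum_mul]
  refine (Finset.abs_sum_le_sum_abs _ _).trans (Finset.sum_le_sum fun i _ => ?_)
  rw [Finset.sum_mul]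
  refine (Finset.abs_sum_le_sum_abs _ _).trans (Finset.sum_le_sum fun j _ => ?_)
  rw [abs_mul, abs_mul, ← mul_assoc, mul_comm]
  refine mul_le_mul_of_nonneg_left ?_ (abs_nonneg _)
  rw [hzz]
  have h3 := hci i
  have h4 := hci j
  have h5 := sq_nonneg (|c i| - |c j|)
  have h6 : |c i| ^ 2 = c i ^ 2 := sq_abs _
  have h7 : |c j| ^ 2 = c j ^ 2 := sq_abs _
  nlinarith

theorem NB_exists_min (hN : 3 ≤ N) {T : so (Fin N) ℝ →ₗ[ℝ] so (Fin N) ℝ} (hT : QSym T) :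
    ∃ b : ℝ, 0 ≤ b ∧ NB T b ∧ ∀ b' : ℝ, 0 ≤ b' → NB T b' → b ≤ b' := by
  have _ := hT
  set B : Set ℝ := {b | 0 ≤ b ∧ NB T b} with hB
  have hne : B.Nonempty := SoNB2_bdd hN T
  have hbd : BddBelow B := ⟨0, fun b hb => hb.1⟩
  refine ⟨sInf B, le_csInf hne fun b hb => hb.1, fun z => ?_, fun b' h1 h2 =>
    csInf_le hbd ⟨h1, h2⟩⟩
  rcases (Qf_nonneg (so_compact hN) z).eq_or_lt with h0 | h0
  · obtain ⟨b, hb⟩ := hne
    have h3 := hb.2 z
    rw [← h0, mul_zero] at h3 ⊢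
    exact h3
  · rw [← div_le_iff₀ h0]
    refine le_csInf hne fun b hb => ?_
    rw [div_le_iff₀ h0]
    exact hb.2 z

end Pool.Agent.EinU
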