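import Pool.Agent.EinU.SoY
import Pool.Agent.EinU.SoNB2

/-!
# The gap modulo contractions

`n = N - 2`, `F = ellO ..`, `‖·‖` = the constants in `NB`.  `q₁ = x1/2 - y1`, `q₂ = x2/2 - y2`, `|q_i| ≤ 2 c`.
`R`-terms: `‖Rop u‖ ≤ 2 ‖u‖` (`NB_Rop`), `‖Yo T‖ ≤ 3 ‖T‖` (`NB_Yo`), blocks do not increase `NB`.

1. `T11 F = -lam T11 β + (y1/2) Yo (T11 β) + R₁₁`, `‖R₁₁‖ ≤ 2 c R` (`T11 (Yo (T11 β)) = Yo (T11 β)`, `T11 (T11 ..)`).  Apply
   `Yo` (`Yo_add`, `Yo_smul`, `Yo_Yo`): `(lam - y1/(2n)) Yo (T11 β) = (y1/n²) T11 β + Yo (R₁₁ - T11 F)`; for `n ≥ c²` the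
   coefficient is at least `1/(2c)`.  So `‖Yo (T11 β)‖ ≤ 2 c (3 (2 c R + s) + c b/n²)`, and then `T11 β` from the first line.
2. Same for `T22`.
3. `U = Yo (Tp β) = u₁₂ + u_p` (`Yo_Tp`), `V = Yo (T12 β)` (`Yo_T12`).
   `T12 F = -lam T12 β + (1/2) u₁₂`;  `Tp F = -mu Tp β + R_p + (x1 x2/2) V - ((q₁+q₂)/2) u_p`.
   Apply `T12 (Yo ·)` to the second (`Yo_12p`, `Yo_1212`): `mu u₁₂ = T12 Yo (R_p - Tp F) + (x1 x2/2)(2/n²) T12 β -
   ((q₁+q₂)/2)(1/n) u₁₂`: bound of `u₁₂` for `n ≥ 4 c²`.  Apply `Yo` to the first: `lam V = (1/2) Yo u₁₂ - Yo (T12 F)`: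
   bound of `V`.  Apply `Tp (Yo ·)` to the second (`gamma`, `Yo_pp12`):
   `mu u_p = Tp Yo (R_p - Tp F) + (x1 x2/2)(1/n) V - ((q₁+q₂)/2)(1/n²) Tp β`: bound of `u_p`.  Then `T12 β`, `Tp β`.
4. `β = T11 β + T22 β + T12 β + Tp β` (`blocks_sum`).

All bounds have the form `C (s + R) + (C/n) b` (`b/n² ≤ b/n`), `C` a polynomial in `c`; e.g. `C = 10^4 c^8` and `N ≥ C`.
(The statement has `N` instead of `n` in the denominator: `1/n ≤ 3/N`.)
-/

namespace Pool.Agent.EinU

open Matrix Pool.Agent.EStab Pool.Agent.EinS Pool.Agent.SmIso LieAlgebra.Orthogonal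

/-- endomorphisms of `so(N)` -/
private abbrev GapY_E (N : ℕ) := so (Fin N) ℝ →ₗ[ℝ] so (Fin N) ℝ

section

variable {N : ℕ}

private theorem GapY_qadd {X Y : GapY_E N} (hX : QSym X) (hY : QSym Y) : QSym (X + Y) := by
  intro x y
  rw [LinearMap.add_apply, LinearMap.add_apply, map_add, LinearMap.add_apply, map_add, hX, hY]

private theorem GapY_qsmul {X : GapY_E N} (hX : QSym X) (k : ℝ) : QSym (k • X) := by
  intro x y
  rw [LinearMap.smul_apply, LinearMap.smul_apply, map_smul, LinearMap.smul_apply, map_smul, hX]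

private theorem GapY_p11 (A : Finset (Fin N)) (X : GapY_E N) : T11 A (T11 A X) = T11 A X := by
  ext x
  simp [T11, BW_BW]

private theorem GapY_add11 (A : Finset (Fin N)) (X Y : GapY_E N) :
    T11 A (X + Y) = T11 A X + T11 A Y := by
  unfold T11
  rw [LinearMap.add_comp, LinearMap.comp_add]

private theorem GapY_smul11 (A : Finset (Fin N)) (k : ℝ) (X : GapY_E N) :
    T11 A (k • X) = k • T11 A X := by
  unfold T11
  rw [LinearMap.smul_comp, LinearMap.comp_smul]

private theorem GapY_add22 (A : Finset (Fin N)) (X Y : GapY_E N) :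
    T22 A (X + Y) = T22 A X + T22 A Y := by
  unfold T22
  rw [LinearMap.add_comp, LinearMap.comp_add]

private theorem GapY_smul22 (A : Finset (Fin N)) (k : ℝ) (X : GapY_E N) :
    T22 A (k • X) = k • T22 A X := by
  unfold T22
  rw [LinearMap.smul_comp, LinearMap.comp_smul]

private theorem GapY_addp (A : Finset (Fin N)) (X Y : GapY_E N) :
    Tp A (X + Y) = Tp A X + Tp A Y := by
  unfold Tp
  rw [LinearMap.add_comp, LinearMap.comp_add]

private theorem GapY_smulp (A : Finset (Fin N)) (k : ℝ) (X : GapY_E N) :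
    Tp A (k • X) = k • Tp A X := by
  unfold Tp
  rw [LinearMap.smul_comp, LinearMap.comp_smul]

private theorem GapY_add12 (A : Finset (Fin N)) (X Y : GapY_E N) :
    T12 A (X + Y) = T12 A X + T12 A Y := by
  unfold T12
  rw [LinearMap.add_comp, LinearMap.comp_add, LinearMap.add_comp, LinearMap.comp_add]
  abel

private theorem GapY_smul12 (A : Finset (Fin N)) (k : ℝ) (X : GapY_E N) :
    T12 A (k • X) = k • T12 A X := by
  unfold T12
  rw [LinearMap.smul_comp, LinearMap.comp_smul, LinearMap.smul_comp, LinearMap.comp_smul, smul_add]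

private theorem GapY_B0 (A : Finset (Fin N)) (x : so (Fin N) ℝ) : BW A 0 0 0 x = 0 := BW_zero A x

private theorem GapY_c11 (A : Finset (Fin N)) (X1 X2 X3 X4 : GapY_E N) :
    T11 A (T11 A X1 + T22 A X2 + T12 A X3 + Tp A X4) = T11 A X1 := by
  apply LinearMap.ext
  intro x
  simp only [T11, T22, T12, Tp, LinearMap.comp_apply, LinearMap.add_apply, map_add, BW_BW,
    mul_zero, mul_one, GapY_B0, map_zero, add_zero, zero_add]

private theorem GapY_c22 (A : Finset (Fin N)) (X1 X2 X3 X4 : GapY_E N) :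
    T22 A (T11 A X1 + T22 A X2 + T12 A X3 + Tp A X4) = T22 A X2 := by
  apply LinearMap.ext
  intro x
  simp only [T11, T22, T12, Tp, LinearMap.comp_apply, LinearMap.add_apply, map_add, BW_BW,
    mul_zero, mul_one, GapY_B0, map_zero, add_zero, zero_add]

private theorem GapY_c12 (A : Finset (Fin N)) (X1 X2 X3 X4 : GapY_E N) :
    T12 A (T11 A X1 + T22 A X2 + T12 A X3 + Tp A X4) = T12 A X3 := by
  apply LinearMap.ext
  intro x
  simp only [T11, T22, T12, Tp, LinearMap.comp_apply, LinearMap.add_apply, map_add, BW_BW,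
    mul_zero, mul_one, GapY_B0, map_zero, add_zero, zero_add]

private theorem GapY_cp (A : Finset (Fin N)) (X1 X2 X3 X4 : GapY_E N) :
    Tp A (T11 A X1 + T22 A X2 + T12 A X3 + Tp A X4) = Tp A X4 := by
  apply LinearMap.ext
  intro x
  simp only [T11, T22, T12, Tp, LinearMap.comp_apply, LinearMap.add_apply, BW_BW,
    mul_zero, mul_one, GapY_B0, map_zero, add_zero, zero_add]

private theorem GapY_two (x : ℝ) : 2 / x ^ 2 = 2 * (1 / x) ^ 2 := by
  rw [div_pow, one_pow, mul_one_div]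

private theorem GapY_one (x : ℝ) : 1 / x ^ 2 = (1 / x) ^ 2 := by
  rw [div_pow, one_pow]

/-- division by a coefficient bounded below -/
private theorem GapY_div (hN : 3 ≤ N) {X : GapY_E N} {k m t : ℝ} (hm : 0 < m) (ht : 0 ≤ t)
    (hk : 1 / m ≤ k) (h : NB (k • X) t) : NB X (m * t) := by
  have hk0 : 0 < k := lt_of_lt_of_le (by positivity) hk
  have h1 := h.smul k⁻¹
  rw [smul_smul, inv_mul_cancel₀ hk0.ne', one_smul, abs_of_pos (inv_pos.2 hk0)] at h1
  refine h1.mono hN (mul_le_mul_of_nonneg_right ?_ ht)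
  rw [inv_le_comm₀ hk0 hm, ← one_div]
  exact hk

private theorem GapY_smul_le (hN : 3 ≤ N) {X : GapY_E N} {k m t s : ℝ} (ht : 0 ≤ t)
    (hk : |k| ≤ m) (h : NB X t) (hs : m * t ≤ s) : NB (k • X) s :=
  (h.smul k).mono hN ((mul_le_mul_of_nonneg_right hk ht).trans hs)

private theorem GapY_block (hN : 3 ≤ N) {a G Q : GapY_E N} {lam y n1 c e b : ℝ} (hc : 1 ≤ c)
    (hn0 : 0 < n1) (hn1 : n1 = 1 / ((N : ℝ) - 2)) (hnc : c ^ 2 * n1 ≤ 1) (hnn : n1 ≤ 1)
    (ha : QSym a) (hQ : QSym Q) (hlam : 0 < lam) (hlam' : 1 / lam ≤ c) (hy : |y| ≤ c)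
    (he : 0 ≤ e) (hb0 : 0 ≤ b)
    (h1 : G = (-lam) • a + (y / 2) • Yo a + Q) (hG : NB G e) (hQb : NB Q (2 * c * e))
    (hab : NB a b) (hbe : b * n1 ≤ e) : NB a (13 * c ^ 4 * e) := by
  have hc0 : 0 < c := by linarith
  have hus : QSym (Yo a) := Yo_sym a
  have hGs : QSym G := by
    rw [h1]
    exact GapY_qadd (GapY_qadd (GapY_qsmul ha _) (GapY_qsmul hus _)) hQ
  have h2 : Yo G = (-lam) • Yo a + (y / 2) • (n1 • Yo a + (2 * n1 ^ 2) • a) + Yo Q := by
    rw [h1, Yo_add hN (GapY_qadd (GapY_qsmul ha _) (GapY_qsmul hus _)) hQ,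
      Yo_add hN (GapY_qsmul ha _) (GapY_qsmul hus _), Yo_smul hN _ ha, Yo_smul hN _ hus,
      Yo_Yo hN ha, hn1, GapY_two]
  have h3 : (lam - y / 2 * n1) • Yo a = (y * n1 ^ 2) • a + Yo Q + (-1 : ℝ) • Yo G := by
    rw [h2]
    module
  have h4 : NB ((y * n1 ^ 2) • a) (c * e) := by
    refine GapY_smul_le hN (m := c * n1) hb0 ?_ hab ?_
    · rw [abs_mul, abs_of_nonneg (by positivity : (0 : ℝ) ≤ n1 ^ 2)]
      refine mul_le_mul hy ?_ (by positivity) hc0.le
      rw [pow_two]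
      exact mul_le_of_le_one_left hn0.le hnn
    · calc c * n1 * b = c * (b * n1) := by ring
        _ ≤ c * e := mul_le_mul_of_nonneg_left hbe hc0.le
  have h5 : NB (Yo Q) (3 * (2 * c * e)) := NB_Yo hN hQ (by positivity) hQb
  have h6 : NB ((-1 : ℝ) • Yo G) (3 * e) :=
    GapY_smul_le hN (m := 1) (by positivity) (by norm_num) (NB_Yo hN hGs he hG) (by linarith)
  have h7 := (h4.add h5).add h6
  rw [← h3] at h7
  have hli : 1 / c ≤ lam := by
    rw [div_le_iff₀ hc0]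
    rw [div_le_iff₀ hlam] at hlam'
    linarith
  have hk : 1 / (2 * c) ≤ lam - y / 2 * n1 := by
    have h8 : y / 2 * n1 ≤ 1 / (2 * c) := by
      have h9 : y / 2 * n1 ≤ c / 2 * n1 :=
        mul_le_mul_of_nonneg_right (by linarith [(abs_le.1 hy).2]) hn0.le
      refine h9.trans ?_
      rw [le_div_iff₀ (by positivity)]
      calc c / 2 * n1 * (2 * c) = c ^ 2 * n1 := by ring
        _ ≤ 1 := hnc
    have h10 : 1 / c = 1 / (2 * c) + 1 / (2 * c) := by
      field_simp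
      norm_num
    linarith
  have hce : e ≤ c * e := by
    have := mul_le_mul_of_nonneg_right hc he
    linarith
  have h8 : NB (Yo a) (20 * c ^ 2 * e) := by
    refine (GapY_div hN (by positivity) (by positivity) hk h7).mono hN ?_
    calc 2 * c * (c * e + 3 * (2 * c * e) + 3 * e) ≤ 2 * c * (c * e + 3 * (2 * c * e) + 3 * (c * e)) := by
          refine mul_le_mul_of_nonneg_left ?_ (by positivity)
          linarith
      _ = 20 * c ^ 2 * e := by ring
  have h9 : lam • a = (y / 2) • Yo a + Q + (-1 : ℝ) • G := by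
    rw [h1]
    module
  have h10 : NB ((y / 2) • Yo a) (10 * c ^ 3 * e) := by
    refine GapY_smul_le hN (m := c / 2) (by positivity) ?_ h8 ?_
    · rw [abs_div, abs_of_pos (by norm_num : (0 : ℝ) < 2)]
      linarith
    · apply le_of_eq
      ring
  have h11 : NB ((-1 : ℝ) • G) e := GapY_smul_le hN (m := 1) he (by norm_num) hG (by linarith)
  have h12 := (h10.add hQb).add h11
  rw [← h9] at h12
  refine (GapY_div hN hc0 (by positivity) hli h12).mono hN ?_
  have h13 : c * e ≤ c ^ 3 * e := by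
    refine mul_le_mul_of_nonneg_right ?_ he
    calc c = c ^ 1 := (pow_one c).symm
      _ ≤ c ^ 3 := pow_le_pow_right₀ hc (by norm_num)
  calc c * (10 * c ^ 3 * e + 2 * c * e + e) ≤ c * (13 * c ^ 3 * e) := by
        refine mul_le_mul_of_nonneg_left ?_ hc0.le
        linarith
    _ = 13 * c ^ 4 * e := by ring

end

theorem gapY {c : ℝ} (hc : 1 ≤ c) : ∃ C : ℝ, 1 ≤ C ∧ ∀ (N : ℕ) (A : Finset (Fin N))
    (x1 x2 y1 y2 lam mu : ℝ), C ≤ N → |x1| ≤ c → |x2| ≤ c → |y1| ≤ c → |y2| ≤ c → 0 < lam →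
    1 / lam ≤ c → 0 < mu → 1 / mu ≤ c → ∀ β : so (Fin N) ℝ →ₗ[ℝ] so (Fin N) ℝ, QSym β → CP A β →
    ∀ R s b : ℝ, 0 ≤ R → 0 ≤ s → 0 ≤ b → MB (rho (T11 A β)) R → MB (rho (T22 A β)) R →
    MB (rho (Tp A β)) R → MB (res A (rho (Tp A β))) R → MB (res Aᶜ (rho (Tp A β))) R → NB β b →
    NB (ellO A x1 x2 y1 y2 lam mu β) s → NB β (C * (s + R) + C / N * b) := by
  have hc0 : 0 < c := by linarith
  have hcp : ∀ k l : ℕ, k ≤ l → c ^ k ≤ c ^ l := fun k l h => pow_le_pow_right₀ hc h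
  have hC1 : 1 ≤ c ^ 7 := one_le_pow₀ hc
  refine ⟨500 * c ^ 7, by linarith, ?_⟩
  intro N A x1 x2 y1 y2 lam mu hCN hx1 hx2 hy1 hy2 hlam hlam' hmu hmu' β hβ hcp' R s b hR hs hb
    h11 h22 hpp hpA hpAc hbβ hF
  have hN500 : (500 : ℝ) ≤ N := by linarith
  have hN : 3 ≤ N := by
    have : (3 : ℝ) ≤ N := by linarith
    exact_mod_cast this
  obtain ⟨n1, hn1⟩ : ∃ n1, n1 = 1 / ((N : ℝ) - 2) := ⟨_, rfl⟩
  have hn0 : 0 < n1 := by
    rw [hn1]
    exact div_pos one_pos (by linarith)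
  have hnN : n1 ≤ 3 / N := by
    rw [hn1, div_le_div_iff₀ (by linarith) (by linarith)]
    linarith
  have hnn : n1 ≤ 1 := by
    rw [hn1, div_le_one (by linarith)]
    linarith
  have h3c : 3 * c ^ 2 * n1 ≤ 1 := by
    have h1 := hcp 2 7 (by norm_num)
    have h2 : 3 * c ^ 2 * n1 ≤ 3 * c ^ 2 * (3 / N) :=
      mul_le_mul_of_nonneg_left hnN (by positivity)
    refine h2.trans ?_
    rw [← mul_div_assoc, div_le_one (by linarith)]
    linarith
  obtain ⟨e, he⟩ : ∃ e, e = s + R + b * n1 := ⟨_, rfl⟩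
  have hbn : 0 ≤ b * n1 := by positivity
  have he0 : 0 ≤ e := by
    rw [he]
    positivity
  have hse : s ≤ e := by rw [he]; linarith
  have hRe : R ≤ e := by rw [he]; linarith
  have hbe : b * n1 ≤ e := by rw [he]; linarith
  have hce : ∀ k l : ℕ, k ≤ l → c ^ k * e ≤ c ^ l * e := fun k l h =>
    mul_le_mul_of_nonneg_right (hcp k l h) he0
  obtain ⟨s11, s22, s12, sp⟩ := blocks_sym A hβ
  obtain ⟨F, hFe⟩ : ∃ F, F = ellO A x1 x2 y1 y2 lam mu β := ⟨_, rfl⟩
  rw [← hFe] at hF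
  have hFe' : NB F e := hF.mono hN hse
  -- symmetry of the contractions
  have r11 : QSym (Rop (rho (T11 A β))) := opT_sym _
  have r22 : QSym (Rop (rho (T22 A β))) := opT_sym _
  have rp : QSym (Rop (rho (Tp A β))) := opT_sym _
  have rpA : QSym (Rop (res A (rho (Tp A β)))) := opT_sym _
  have rpB : QSym (Rop (res Aᶜ (rho (Tp A β)))) := opT_sym _
  have n11 : NB (Rop (rho (T11 A β))) (2 * R) := NB_Rop hN (rho_symm hN s11) h11
  have n22 : NB (Rop (rho (T22 A β))) (2 * R) := NB_Rop hN (rho_symm hN s22) h22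
  have np : NB (Rop (rho (Tp A β))) (2 * R) := NB_Rop hN (rho_symm hN sp) hpp
  have npA : NB (Rop (res A (rho (Tp A β)))) (2 * R) :=
    NB_Rop hN (res_symm A (rho_symm hN sp)) hpA
  have npB : NB (Rop (res Aᶜ (rho (Tp A β)))) (2 * R) :=
    NB_Rop hN (res_symm Aᶜ (rho_symm hN sp)) hpAc
  have h2R : 0 ≤ 2 * R := by linarith
  have hRc : R ≤ c * e := by
    have := mul_le_mul_of_nonneg_right hc he0
    linarith
  -- the block `T11`
  have b11 : NB (T11 A β) (13 * c ^ 4 * e) := by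
    have h1 : T11 A F = (-lam) • T11 A β + (y1 / 2) • Yo (T11 A β) +
        ((y1 / 2) • T11 A (Rop (rho (T11 A β))) + (1 / 2 : ℝ) • T11 A (Rop (rho (Tp A β)))) := by
      rw [hFe, ellO, GapY_c11, GapY_add11, GapY_add11, GapY_smul11, GapY_smul11, GapY_smul11,
        GapY_add11, Yo_T11 hN A hβ]
      module
    refine GapY_block hN hc hn0 hn1 ?_ hnn s11 ?_ hlam hlam' hy1 he0 hb h1 (hFe'.T11 hN he0) ?_
      (hbβ.T11 hN hb) hbe
    · have : 0 ≤ c ^ 2 * n1 := by positivity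
      linarith
    · exact GapY_qadd (GapY_qsmul (blocks_sym A r11).1 _) (GapY_qsmul (blocks_sym A rp).1 _)
    · have h2 : NB ((y1 / 2) • T11 A (Rop (rho (T11 A β)))) (c * R) := by
        refine GapY_smul_le hN (m := c / 2) h2R ?_ (n11.T11 hN h2R) ?_
        · rw [abs_div, abs_of_pos (by norm_num : (0 : ℝ) < 2)]
          linarith
        · apply le_of_eq
          ring
      have h3 : NB ((1 / 2 : ℝ) • T11 A (Rop (rho (Tp A β)))) R := by
        refine GapY_smul_le hN (m := 1 / 2) h2R ?_ (np.T11 hN h2R) (by linarith)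
        rw [abs_of_pos (by norm_num)]
      refine (h2.add h3).mono hN ?_
      have h4 : c * R ≤ c * e := mul_le_mul_of_nonneg_left hRe hc0.le
      linarith
  -- the block `T22`
  have b22 : NB (T22 A β) (13 * c ^ 4 * e) := by
    have h1 : T22 A F = (-lam) • T22 A β + (y2 / 2) • Yo (T22 A β) +
        ((y2 / 2) • T22 A (Rop (rho (T22 A β))) + (1 / 2 : ℝ) • T22 A (Rop (rho (Tp A β)))) := by
      rw [hFe, ellO, GapY_c22, GapY_add22, GapY_add22, GapY_smul22, GapY_smul22, GapY_smul22,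
        GapY_add22, Yo_T22 hN A hβ]
      module
    refine GapY_block hN hc hn0 hn1 ?_ hnn s22 ?_ hlam hlam' hy2 he0 hb h1 (hFe'.T22 hN he0) ?_
      (hbβ.T22 hN hb) hbe
    · have : 0 ≤ c ^ 2 * n1 := by positivity
      linarith
    · exact GapY_qadd (GapY_qsmul (blocks_sym A r22).2.1 _) (GapY_qsmul (blocks_sym A rp).2.1 _)
    · have h2 : NB ((y2 / 2) • T22 A (Rop (rho (T22 A β)))) (c * R) := by
        refine GapY_smul_le hN (m := c / 2) h2R ?_ (n22.T22 hN h2R) ?_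
        · rw [abs_div, abs_of_pos (by norm_num : (0 : ℝ) < 2)]
          linarith
        · apply le_of_eq
          ring
      have h3 : NB ((1 / 2 : ℝ) • T22 A (Rop (rho (Tp A β)))) R := by
        refine GapY_smul_le hN (m := 1 / 2) h2R ?_ (np.T22 hN h2R) (by linarith)
        rw [abs_of_pos (by norm_num)]
      refine (h2.add h3).mono hN ?_
      have h4 : c * R ≤ c * e := mul_le_mul_of_nonneg_left hRe hc0.le
      linarith
  -- the blocks `T12` and `Tp`
  obtain ⟨u12, hu12⟩ : ∃ X, X = T12 A (Yo (Tp A β)) := ⟨_, rfl⟩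
  obtain ⟨up, hup⟩ : ∃ X, X = Tp A (Yo (Tp A β)) := ⟨_, rfl⟩
  obtain ⟨V, hV⟩ : ∃ X, X = Yo (T12 A β) := ⟨_, rfl⟩
  have su12 : QSym u12 := hu12 ▸ (blocks_sym A (Yo_sym _)).2.2.1
  have sup : QSym up := hup ▸ (blocks_sym A (Yo_sym _)).2.2.2
  have sV : QSym V := hV ▸ Yo_sym _
  obtain ⟨q, hq⟩ : ∃ q, q = x1 / 2 - y1 + (x2 / 2 - y2) := ⟨_, rfl⟩
  have hxx1 := abs_le.1 hx1
  have hxx2 := abs_le.1 hx2
  have hyy1 := abs_le.1 hy1
  have hyy2 := abs_le.1 hy2
  have hq3 : |q| ≤ 3 * c := by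
    rw [hq, abs_le]
    constructor <;> linarith [hxx1.1, hxx1.2, hxx2.1, hxx2.2, hyy1.1, hyy1.2, hyy2.1, hyy2.2]
  have hq2 : |q / 2| ≤ 3 / 2 * c := by
    rw [abs_div, abs_of_pos (by norm_num : (0 : ℝ) < 2)]
    linarith
  have hx12 : |x1 * x2 / 2| ≤ c ^ 2 / 2 := by
    rw [abs_div, abs_of_pos (by norm_num : (0 : ℝ) < 2), abs_mul]
    have := mul_le_mul hx1 hx2 (abs_nonneg _) hc0.le
    rw [← pow_two] at this
    linarith
  have e12 : T12 A F = (-lam) • T12 A β + (1 / 2 : ℝ) • u12 := by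
    rw [hFe, ellO, GapY_c12, GapY_add12, GapY_smul12, GapY_smul12, hu12]
  obtain ⟨Q, hQ⟩ : ∃ X, X = (x1 ^ 2 / 2) • Tp A (Rop (rho (T11 A β))) +
      (x2 ^ 2 / 2) • Tp A (Rop (rho (T22 A β))) +
      (-(x1 / 2 - y1)) • Tp A (Rop (res Aᶜ (rho (Tp A β)))) +
      (-(x2 / 2 - y2)) • Tp A (Rop (res A (rho (Tp A β)))) := ⟨_, rfl⟩
  have ep : Tp A F = (-mu) • Tp A β + (x1 * x2 / 2) • V + (-(q / 2)) • up + Q := by
    have h1 : ∀ X1 X2 X3 X4 X5 X6 X7 : GapY_E N, ∀ k1 k2 k3 k4 k5 k6 k7 : ℝ,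
        Tp A (k1 • X1 + k2 • X2 + k3 • X3 + k4 • X4 - k5 • X5 - k6 • X6 - k7 • X7) =
          k1 • Tp A X1 + k2 • Tp A X2 + k3 • Tp A X3 + k4 • Tp A X4 + (-k5) • Tp A X5 +
            (-k6) • Tp A X6 + (-k7) • Tp A X7 := by
      intro X1 X2 X3 X4 X5 X6 X7 k1 k2 k3 k4 k5 k6 k7
      have h2 : k1 • X1 + k2 • X2 + k3 • X3 + k4 • X4 - k5 • X5 - k6 • X6 - k7 • X7 =
          k1 • X1 + k2 • X2 + k3 • X3 + k4 • X4 + (-k5) • X5 + (-k6) • X6 + (-k7) • X7 := by
        module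
      rw [h2]
      simp only [GapY_addp, GapY_smulp]
    rw [hFe, ellO, GapY_cp, h1, Yo_T12 hN A hβ, hQ, hV, hup, hq]
    module
  have sQ : QSym Q := by
    rw [hQ]
    exact GapY_qadd (GapY_qadd (GapY_qadd (GapY_qsmul (blocks_sym A r11).2.2.2 _)
      (GapY_qsmul (blocks_sym A r22).2.2.2 _)) (GapY_qsmul (blocks_sym A rpB).2.2.2 _))
      (GapY_qsmul (blocks_sym A rpA).2.2.2 _)
  have nQ : NB Q (8 * c ^ 2 * e) := by
    have hsq : ∀ x : ℝ, |x| ≤ c → |x ^ 2 / 2| ≤ c ^ 2 / 2 := by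
      intro x hx
      rw [abs_div, abs_of_pos (by norm_num : (0 : ℝ) < 2), abs_pow]
      have := pow_le_pow_left₀ (abs_nonneg x) hx 2
      linarith
    have hqq : ∀ x y : ℝ, |x| ≤ c → |y| ≤ c → |(-(x / 2 - y))| ≤ 3 / 2 * c := by
      intro x y hx hy
      have h1 := abs_le.1 hx
      have h2 := abs_le.1 hy
      rw [abs_le]
      constructor <;> linarith [h1.1, h1.2, h2.1, h2.2]
    have h1 := GapY_smul_le hN (m := c ^ 2 / 2) (s := c ^ 2 * R) h2R (hsq x1 hx1)
      (n11.Tp (A := A) hN h2R) (le_of_eq (by ring))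
    have h2 := GapY_smul_le hN (m := c ^ 2 / 2) (s := c ^ 2 * R) h2R (hsq x2 hx2)
      (n22.Tp (A := A) hN h2R) (le_of_eq (by ring))
    have h3 := GapY_smul_le hN (m := 3 / 2 * c) (s := 3 * c * R) h2R (hqq x1 y1 hx1 hy1)
      (npB.Tp (A := A) hN h2R) (le_of_eq (by ring))
    have h4 := GapY_smul_le hN (m := 3 / 2 * c) (s := 3 * c * R) h2R (hqq x2 y2 hx2 hy2)
      (npA.Tp (A := A) hN h2R) (le_of_eq (by ring))
    have h5 := ((h1.add h2).add h3).add h4
    rw [← hQ] at h5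
    refine h5.mono hN ?_
    have h6 : c ^ 2 * R ≤ c ^ 2 * e := mul_le_mul_of_nonneg_left hRe (by positivity)
    have h7 : c * R ≤ c ^ 2 * e := by
      calc c * R ≤ c * e := mul_le_mul_of_nonneg_left hRe hc0.le
        _ = c ^ 1 * e := by rw [pow_one]
        _ ≤ c ^ 2 * e := hce 1 2 (by norm_num)
    linarith
  have nFp : NB (Tp A F) e := hFe'.Tp hN he0
  have hFs : QSym F := by
    have h1 : QSym (Tp A F) := by
      rw [ep]
      exact GapY_qadd (GapY_qadd (GapY_qadd (GapY_qsmul sp _) (GapY_qsmul sV _))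
        (GapY_qsmul sup _)) sQ
    have h0 : QSym (ellO A x1 x2 y1 y2 lam mu β) := by
      have hsub : ∀ {X Y : GapY_E N}, QSym X → QSym Y → QSym (X - Y) := by
        intro X Y hX hY x y
        rw [LinearMap.sub_apply, LinearMap.sub_apply, map_sub, LinearMap.sub_apply, map_sub, hX, hY]
      have y11 := Yo_sym (T11 A β)
      have y22 := Yo_sym (T22 A β)
      have y12 := Yo_sym (T12 A β)
      have yp := Yo_sym (Tp A β)
      unfold ellO
      refine GapY_qadd (GapY_qadd (GapY_qadd ?_ ?_) ?_) ?_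
      · exact (blocks_sym A (GapY_qadd (GapY_qadd (GapY_qsmul hβ _)
          (GapY_qsmul (GapY_qadd r11 y11) _)) (GapY_qsmul rp _))).1
      · exact (blocks_sym A (GapY_qadd (GapY_qadd (GapY_qsmul hβ _)
          (GapY_qsmul (GapY_qadd r22 y22) _)) (GapY_qsmul rp _))).2.1
      · exact (blocks_sym A (GapY_qadd (GapY_qsmul hβ _) (GapY_qsmul yp _))).2.2.1
      · exact (blocks_sym A (hsub (hsub (hsub (GapY_qadd (GapY_qadd (GapY_qadd (GapY_qsmul hβ _)
          (GapY_qsmul r11 _)) (GapY_qsmul r22 _)) (GapY_qsmul y12 _)) (GapY_qsmul rpB _))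
          (GapY_qsmul rpA _)) (GapY_qsmul yp _))).2.2.2
    rw [hFe]
    exact h0
  have sFp : QSym (Tp A F) := (blocks_sym A hFs).2.2.2
  have sF12 : QSym (T12 A F) := (blocks_sym A hFs).2.2.1
  have nF12 : NB (T12 A F) e := hFe'.T12 hN he0 hFs
  have n12 : NB (T12 A β) b := hbβ.T12 hN hb hβ
  have npb : NB (Tp A β) b := hbβ.Tp hN hb
  -- `Yo` of the `p` component
  have eY : Yo (Tp A F) = (-mu) • Yo (Tp A β) + (x1 * x2 / 2) • Yo V + (-(q / 2)) • Yo up +
      Yo Q := by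
    rw [ep, Yo_add hN (GapY_qadd (GapY_qadd (GapY_qsmul sp _) (GapY_qsmul sV _))
      (GapY_qsmul sup _)) sQ, Yo_add hN (GapY_qadd (GapY_qsmul sp _) (GapY_qsmul sV _))
      (GapY_qsmul sup _), Yo_add hN (GapY_qsmul sp _) (GapY_qsmul sV _), Yo_smul hN _ sp,
      Yo_smul hN _ sV, Yo_smul hN _ sup]
  have nYQ : NB (Yo Q) (24 * c ^ 2 * e) :=
    (NB_Yo hN sQ (by positivity) nQ).mono hN (le_of_eq (by ring))
  have nYF : NB (Yo (Tp A F)) (3 * e) := NB_Yo hN sFp he0 nFp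
  have hmi : 1 / c ≤ mu := by
    rw [div_le_iff₀ hc0]
    rw [div_le_iff₀ hmu] at hmu'
    linarith
  have hli : 1 / c ≤ lam := by
    rw [div_le_iff₀ hc0]
    rw [div_le_iff₀ hlam] at hlam'
    linarith
  -- bound of `u12`
  have bu12 : NB u12 (56 * c ^ 3 * e) := by
    have h1 : (mu + q / 2 * n1) • u12 = (x1 * x2 / 2 * (2 * n1 ^ 2)) • T12 A β +
        T12 A (Yo Q) + (-1 : ℝ) • T12 A (Yo (Tp A F)) := by
      rw [eY]
      simp only [GapY_add12, GapY_smul12]
      rw [hV, Yo_1212 hN A hβ, hup, Yo_12p hN A hβ, ← hu12, GapY_two, ← hn1]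
      module
    have h2 : NB ((x1 * x2 / 2 * (2 * n1 ^ 2)) • T12 A β) (c ^ 2 * e) := by
      refine GapY_smul_le hN (m := c ^ 2 * n1) hb ?_ n12 ?_
      · rw [abs_mul, abs_of_nonneg (by positivity : (0 : ℝ) ≤ 2 * n1 ^ 2)]
        calc |x1 * x2 / 2| * (2 * n1 ^ 2) ≤ c ^ 2 / 2 * (2 * n1 ^ 2) :=
              mul_le_mul_of_nonneg_right hx12 (by positivity)
          _ = c ^ 2 * (n1 * n1) := by ring
          _ ≤ c ^ 2 * n1 := by
              refine mul_le_mul_of_nonneg_left ?_ (by positivity)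
              exact mul_le_of_le_one_left hn0.le hnn
      · calc c ^ 2 * n1 * b = c ^ 2 * (b * n1) := by ring
          _ ≤ c ^ 2 * e := mul_le_mul_of_nonneg_left hbe (by positivity)
    have h3 : NB (T12 A (Yo Q)) (24 * c ^ 2 * e) := nYQ.T12 hN (by positivity) (Yo_sym _)
    have h4 : NB ((-1 : ℝ) • T12 A (Yo (Tp A F))) (3 * e) :=
      GapY_smul_le hN (m := 1) (by positivity) (by norm_num)
        (nYF.T12 hN (by positivity) (Yo_sym _)) (by linarith)
    have h5 := (h2.add h3).add h4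
    rw [← h1] at h5
    have hk : 1 / (2 * c) ≤ mu + q / 2 * n1 := by
      have h8 : -(1 / (2 * c)) ≤ q / 2 * n1 := by
        have h9 : -(3 / 2 * c) * n1 ≤ q / 2 * n1 :=
          mul_le_mul_of_nonneg_right (by linarith [(abs_le.1 hq2).1]) hn0.le
        refine le_trans ?_ h9
        rw [neg_mul, neg_le_neg_iff, le_div_iff₀ (by positivity)]
        calc 3 / 2 * c * n1 * (2 * c) = 3 * c ^ 2 * n1 := by ring
          _ ≤ 1 := h3c
      have h10 : 1 / c = 1 / (2 * c) + 1 / (2 * c) := by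
        field_simp
        norm_num
      linarith
    refine (GapY_div hN (by positivity) (by positivity) hk h5).mono hN ?_
    have h6 : e ≤ c ^ 2 * e := by
      have := hce 0 2 (by norm_num)
      rwa [pow_zero, one_mul] at this
    calc 2 * c * (c ^ 2 * e + 24 * c ^ 2 * e + 3 * e) ≤ 2 * c * (28 * (c ^ 2 * e)) := by
          refine mul_le_mul_of_nonneg_left ?_ (by positivity)
          linarith
      _ = 56 * c ^ 3 * e := by ring
  -- bound of `V`
  have bV : NB V (87 * c ^ 4 * e) := by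
    have h1 : lam • V = (1 / 2 : ℝ) • Yo u12 + (-1 : ℝ) • Yo (T12 A F) := by
      rw [e12, Yo_add hN (GapY_qsmul s12 _) (GapY_qsmul su12 _), Yo_smul hN _ s12,
        Yo_smul hN _ su12, ← hV]
      module
    have h2 : NB ((1 / 2 : ℝ) • Yo u12) (84 * c ^ 3 * e) := by
      refine GapY_smul_le hN (m := 1 / 2) (by positivity) ?_
        (NB_Yo hN su12 (by positivity) bu12) (le_of_eq (by ring))
      rw [abs_of_pos (by norm_num)]
    have h3 : NB ((-1 : ℝ) • Yo (T12 A F)) (3 * e) :=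
      GapY_smul_le hN (m := 1) (by positivity) (by norm_num) (NB_Yo hN sF12 he0 nF12)
        (by linarith)
    have h4 := h2.add h3
    rw [← h1] at h4
    refine (GapY_div hN hc0 (by positivity) hli h4).mono hN ?_
    have h6 : e ≤ c ^ 3 * e := by
      have := hce 0 3 (by norm_num)
      rwa [pow_zero, one_mul] at this
    calc c * (84 * c ^ 3 * e + 3 * e) ≤ c * (87 * (c ^ 3 * e)) := by
          refine mul_le_mul_of_nonneg_left ?_ hc0.le
          linarith
      _ = 87 * c ^ 4 * e := by ring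
  -- bound of `up`
  have bup : NB up (30 * c ^ 3 * e) := by
    have h1 : mu • up = (x1 * x2 / 2 * n1) • V + (-(q / 2 * n1 ^ 2)) • Tp A β +
        Tp A (Yo Q) + (-1 : ℝ) • Tp A (Yo (Tp A F)) := by
      rw [eY]
      simp only [GapY_addp, GapY_smulp]
      have h2 : Tp A (Yo V) = n1 • V := by
        rw [hV, Yo_pp12 hN A hβ, ← hn1]
      have h3 : Tp A (Yo up) = (n1 ^ 2) • Tp A β := by
        rw [hup, gamma hN A hβ, hn1, GapY_one]
      rw [h2, h3, ← hup]
      module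
    have nV3 : NB V (3 * b) := hV ▸ NB_Yo hN s12 hb n12
    have h2 : NB ((x1 * x2 / 2 * n1) • V) (3 / 2 * c ^ 2 * e) := by
      refine GapY_smul_le hN (m := c ^ 2 / 2 * n1) (by positivity) ?_ nV3 ?_
      · rw [abs_mul, abs_of_pos hn0]
        exact mul_le_mul_of_nonneg_right hx12 hn0.le
      · calc c ^ 2 / 2 * n1 * (3 * b) = 3 / 2 * c ^ 2 * (b * n1) := by ring
          _ ≤ 3 / 2 * c ^ 2 * e := mul_le_mul_of_nonneg_left hbe (by positivity)
    have h3 : NB ((-(q / 2 * n1 ^ 2)) • Tp A β) (3 / 2 * c * e) := by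
      refine GapY_smul_le hN (m := 3 / 2 * c * n1) hb ?_ npb ?_
      · rw [abs_neg, abs_mul, abs_of_nonneg (by positivity : (0 : ℝ) ≤ n1 ^ 2)]
        refine mul_le_mul hq2 ?_ (by positivity) (by positivity)
        rw [pow_two]
        exact mul_le_of_le_one_left hn0.le hnn
      · calc 3 / 2 * c * n1 * b = 3 / 2 * c * (b * n1) := by ring
          _ ≤ 3 / 2 * c * e := mul_le_mul_of_nonneg_left hbe (by positivity)
    have h4 : NB (Tp A (Yo Q)) (24 * c ^ 2 * e) := nYQ.Tp hN (by positivity)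
    have h5 : NB ((-1 : ℝ) • Tp A (Yo (Tp A F))) (3 * e) :=
      GapY_smul_le hN (m := 1) (by positivity) (by norm_num) (nYF.Tp hN (by positivity))
        (by linarith)
    have h6 := ((h2.add h3).add h4).add h5
    rw [← h1] at h6
    refine (GapY_div hN hc0 (by positivity) hmi h6).mono hN ?_
    have h7 : e ≤ c ^ 2 * e := by
      have := hce 0 2 (by norm_num)
      rwa [pow_zero, one_mul] at this
    have h8 : c * e ≤ c ^ 2 * e := by
      have := hce 1 2 (by norm_num)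
      rwa [pow_one] at this
    calc c * (3 / 2 * c ^ 2 * e + 3 / 2 * c * e + 24 * c ^ 2 * e + 3 * e) ≤
          c * (30 * (c ^ 2 * e)) := by
          refine mul_le_mul_of_nonneg_left ?_ hc0.le
          linarith
      _ = 30 * c ^ 3 * e := by ring
  -- bound of `T12 β`
  have b12 : NB (T12 A β) (29 * c ^ 4 * e) := by
    have h1 : lam • T12 A β = (1 / 2 : ℝ) • u12 + (-1 : ℝ) • T12 A F := by
      rw [e12]
      module
    have h2 : NB ((1 / 2 : ℝ) • u12) (28 * c ^ 3 * e) := by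
      refine GapY_smul_le hN (m := 1 / 2) (by positivity) ?_ bu12 (le_of_eq (by ring))
      rw [abs_of_pos (by norm_num)]
    have h3 : NB ((-1 : ℝ) • T12 A F) e :=
      GapY_smul_le hN (m := 1) he0 (by norm_num) nF12 (by linarith)
    have h4 := h2.add h3
    rw [← h1] at h4
    refine (GapY_div hN hc0 (by positivity) hli h4).mono hN ?_
    have h6 : e ≤ c ^ 3 * e := by
      have := hce 0 3 (by norm_num)
      rwa [pow_zero, one_mul] at this
    calc c * (28 * c ^ 3 * e + e) ≤ c * (29 * (c ^ 3 * e)) := by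
          refine mul_le_mul_of_nonneg_left ?_ hc0.le
          linarith
      _ = 29 * c ^ 4 * e := by ring
  -- bound of `Tp β`
  have bp : NB (Tp A β) (98 * c ^ 7 * e) := by
    have h1 : mu • Tp A β = (x1 * x2 / 2) • V + (-(q / 2)) • up + Q + (-1 : ℝ) • Tp A F := by
      rw [ep]
      module
    have h2 : NB ((x1 * x2 / 2) • V) (87 / 2 * c ^ 6 * e) :=
      GapY_smul_le hN (m := c ^ 2 / 2) (by positivity) hx12 bV (le_of_eq (by ring))
    have h3 : NB ((-(q / 2)) • up) (45 * c ^ 4 * e) := by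
      refine GapY_smul_le hN (m := 3 / 2 * c) (by positivity) ?_ bup (le_of_eq (by ring))
      rw [abs_neg]
      exact hq2
    have h4 : NB ((-1 : ℝ) • Tp A F) e :=
      GapY_smul_le hN (m := 1) he0 (by norm_num) nFp (by linarith)
    have h5 := ((h2.add h3).add nQ).add h4
    rw [← h1] at h5
    refine (GapY_div hN hc0 (by positivity) hmi h5).mono hN ?_
    have h6 : e ≤ c ^ 6 * e := by
      have := hce 0 6 (by norm_num)
      rwa [pow_zero, one_mul] at this
    have h7 := hce 4 6 (by norm_num)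
    have h8 := hce 2 6 (by norm_num)
    calc c * (87 / 2 * c ^ 6 * e + 45 * c ^ 4 * e + 8 * c ^ 2 * e + e) ≤
          c * (98 * (c ^ 6 * e)) := by
          refine mul_le_mul_of_nonneg_left ?_ hc0.le
          linarith
      _ = 98 * c ^ 7 * e := by ring
  -- the sum
  have hsum := ((b11.add b22).add b12).add bp
  rw [← blocks_sum A hcp'] at hsum
  refine hsum.mono hN ?_
  have h47 := hce 4 7 (by norm_num)
  have h1 : b * n1 ≤ b * (3 / N) := mul_le_mul_of_nonneg_left hnN hb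
  have h2 : c ^ 7 * e ≤ c ^ 7 * (s + R + b * (3 / N)) := by
    refine mul_le_mul_of_nonneg_left ?_ (by positivity)
    rw [he]
    linarith
  have h3 : 0 ≤ c ^ 7 * (s + R) := by positivity
  have h4 : 0 ≤ c ^ 7 * (b / N) := by positivity
  have h5 : 500 * c ^ 7 / N * b = 500 * (c ^ 7 * (b / N)) := by ring
  have h6 : c ^ 7 * (s + R + b * (3 / N)) = c ^ 7 * (s + R) + 3 * (c ^ 7 * (b / N)) := by ring
  rw [h5]
  linarith

end Pool.Agent.EinU
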