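import Pool.Agent.EinU.SoTH2

/-!
# The base metric

`T = BW A u' v' t'` has `tn T a b c d = w' a b (δ_ac δ_bd - δ_ad δ_bc)`; `TH2_BW` gives
`TH2 T (BW A u v t) z z = ∑ i, ∑ k, z i k ^ 2 * ∑ j with j ≠ i, j ≠ k, w i j * w' k j`.  For `i, k ∈ A` there are `m₁ - 2`
such `j ∈ A` (weight `u u'`) and `N - m₁` others (weight `t t' = 1`); for `i ∈ A`, `k ∉ A`: `(m₁ - 1) u + (m₂ - 1) v'`,
and for `i ∉ A`, `k ∈ A`: `(m₂ - 1) v + (m₁ - 1) u'`.
-/

namespace Pool.Agent.EinU

open Matrix Pool.Agent.EStab Pool.Agent.EinS Pool.Agent.SmIso LieAlgebra.Orthogonal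

variable {N : ℕ}

/-- Kronecker delta -/
private def SoBB_d (a b : Fin N) : ℝ := if a = b then 1 else 0

private theorem SoBB_ite (P Q : Prop) [Decidable P] [Decidable Q] :
    (if P ∧ Q then (1 : ℝ) else 0) = (if P then 1 else 0) * (if Q then 1 else 0) := by
  by_cases hP : P <;> by_cases hQ : Q <;> simp [hP, hQ]

private theorem SoBB_tn (A : Finset (Fin N)) (u v t : ℝ) (a b c d : Fin N) :
    tn (BW A u v t) a b c d =
      bw A u v t c d * (SoBB_d a c * SoBB_d b d - SoBB_d b c * SoBB_d a d) := by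
  show bw A u v t c d * (Matrix.single a b (1 : ℝ) - Matrix.single b a 1 : Matrix (Fin N) (Fin N) ℝ) c d = _
  rw [Matrix.sub_apply, Matrix.single_apply, Matrix.single_apply, SoBB_ite, SoBB_ite]
  rfl

private theorem SoBB_sum1 (f : Fin N → ℝ) (k : Fin N) : ∑ c, f c * SoBB_d k c = f k := by
  unfold SoBB_d
  simp

private theorem SoBB_sum2 (f : Fin N → ℝ) (k : Fin N) : ∑ c, f c * SoBB_d c k = f k := by
  unfold SoBB_d
  simp

private theorem SoBB_self (k : Fin N) : SoBB_d k k = 1 := by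
  unfold SoBB_d
  simp

private theorem SoBB_diag (x : so (Fin N) ℝ) (i : Fin N) : x.1 i i = 0 := by
  have h := so_skew x i i
  linarith

private theorem SoBB_first (w w' : Fin N → Fin N → ℝ) (z : Fin N → Fin N → ℝ) (i k : Fin N) :
    ∑ c, z i k * z i c * (∑ j, w i j * (w' c j * (SoBB_d k c * SoBB_d j j - SoBB_d j c * SoBB_d k j)))
      = z i k ^ 2 * (∑ j, w i j * w' k j - w i k * w' k k) := by
  have h1 : ∀ c, ∑ j, w i j * (w' c j * (SoBB_d k c * SoBB_d j j - SoBB_d j c * SoBB_d k j)) =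
      (∑ j, w i j * w' c j - w i k * w' c k) * SoBB_d k c := by
    intro c
    have h2 : ∀ j, w i j * (w' c j * (SoBB_d k c * SoBB_d j j - SoBB_d j c * SoBB_d k j)) =
        (w i j * w' c j) * SoBB_d k c - (w i j * w' c j * SoBB_d j c) * SoBB_d k j := by
      intro j
      rw [SoBB_self]
      ring
    simp only [h2, Finset.sum_sub_distrib, SoBB_sum1]
    rw [← Finset.sum_mul]
    ring
  simp only [h1]
  have h3 : ∀ c, z i k * z i c * ((∑ j, w i j * w' c j - w i k * w' c k) * SoBB_d k c) =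
      (z i k * z i c * (∑ j, w i j * w' c j - w i k * w' c k)) * SoBB_d k c := fun c => by ring
  simp only [h3, SoBB_sum1]
  ring

private theorem SoBB_second (w w' : Fin N → Fin N → ℝ) (z : Fin N → Fin N → ℝ)
    (hz : ∀ i, z i i = 0) :
    ∑ i, ∑ j, ∑ k, ∑ c, w i j * (z i c * z j k * (w' c j * (SoBB_d i c * SoBB_d k j -
      SoBB_d k c * SoBB_d i j))) = - ∑ i, ∑ k, z i k ^ 2 * (w i i * w' k i) := by
  have h1 : ∀ i j k, ∑ c, w i j * (z i c * z j k * (w' c j * (SoBB_d i c * SoBB_d k j -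
      SoBB_d k c * SoBB_d i j))) = - (w i j * (z i k * z j k * w' k j)) * SoBB_d i j := by
    intro i j k
    have h2 : ∀ c, w i j * (z i c * z j k * (w' c j * (SoBB_d i c * SoBB_d k j -
        SoBB_d k c * SoBB_d i j))) = (w i j * z i c * z j k * w' c j * SoBB_d k j) * SoBB_d i c -
        (w i j * z i c * z j k * w' c j * SoBB_d i j) * SoBB_d k c := fun c => by ring
    simp only [h2, Finset.sum_sub_distrib, SoBB_sum1, hz]
    ring
  simp only [h1]
  rw [← Finset.sum_neg_distrib]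
  refine Finset.sum_congr rfl fun i _ => ?_
  rw [Finset.sum_comm, ← Finset.sum_neg_distrib]
  refine Finset.sum_congr rfl fun k _ => ?_
  rw [SoBB_sum1]
  ring

private theorem SoBB_count (A : Finset (Fin N)) (f g : ℝ) :
    ∑ j, (if j ∈ A then f else g) = A.card * f + ((N : ℝ) - A.card) * g := by
  rw [Finset.sum_ite, Finset.sum_const, Finset.sum_const, nsmul_eq_mul, nsmul_eq_mul]
  have h1 : (Finset.univ.filter fun j => j ∈ A) = A := by
    ext j
    simp
  have h2 : (Finset.univ.filter fun j => j ∉ A) = Aᶜ := by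
    ext j
    simp
  rw [h1, h2, Finset.card_compl, Fintype.card_fin, Nat.cast_sub]
  have := Finset.card_le_univ A
  rwa [Fintype.card_fin] at this

private theorem SoBB_TH2 (hN : 3 ≤ N) (A : Finset (Fin N)) (u v u' v' : ℝ) (z : so (Fin N) ℝ) :
    TH2 (BW A u' v' 1) (BW A u v 1) z z = ∑ i, ∑ k, z.1 i k ^ 2 *
      (∑ j, bw A u v 1 i j * bw A u' v' 1 k j - bw A u v 1 i k * bw A u' v' 1 k k -
        bw A u v 1 i i * bw A u' v' 1 k i) := by
  rw [TH2_BW hN A u v 1 (BW_sym A u' v' 1) z]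
  simp only [SoBB_tn]
  simp only [SoBB_first (bw A u v 1) (bw A u' v' 1) z.1 _ _]
  rw [SoBB_second (bw A u v 1) (bw A u' v' 1) z.1 (SoBB_diag z)]
  rw [← sub_eq_add_neg, ← Finset.sum_sub_distrib]
  refine Finset.sum_congr rfl fun i _ => ?_
  rw [← Finset.sum_sub_distrib]
  refine Finset.sum_congr rfl fun k _ => ?_
  ring

private theorem SoBB_S (A : Finset (Fin N)) (u v u' v' : ℝ) (i k : Fin N) :
    ∑ j, bw A u v 1 i j * bw A u' v' 1 k j = if i ∈ A then
      (if k ∈ A then A.card * (u * u') + ((N : ℝ) - A.card) else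
        A.card * u + ((N : ℝ) - A.card) * v') else
      (if k ∈ A then A.card * u' + ((N : ℝ) - A.card) * v else
        A.card + ((N : ℝ) - A.card) * (v * v')) := by
  have key : ∀ j, bw A u v 1 i j * bw A u' v' 1 k j = if j ∈ A then
      (if i ∈ A then u else 1) * (if k ∈ A then u' else 1) else
      (if i ∈ A then 1 else v) * (if k ∈ A then 1 else v') := by
    intro j
    unfold bw
    by_cases hi : i ∈ A <;> by_cases hk : k ∈ A <;> by_cases hj : j ∈ A <;> simp [hi, hk, hj]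
  simp only [key]
  rw [SoBB_count]
  by_cases hi : i ∈ A <;> by_cases hk : k ∈ A <;> simp [hi, hk]

private theorem SoBB_Q (A : Finset (Fin N)) (u v t : ℝ) (z : so (Fin N) ℝ) :
    Qf (so (Fin N) ℝ) (BW A u v t z) z =
      ∑ i, ∑ k, ((N : ℝ) - 2) * (bw A u v t i k * z.1 i k ^ 2) := by
  rw [Qf_so, Finset.mul_sum]
  refine Finset.sum_congr rfl fun i _ => ?_
  rw [Finset.mul_sum]
  refine Finset.sum_congr rfl fun k _ => ?_
  rw [BW_apply]
  ring

private theorem SoBB_symm (z : so (Fin N) ℝ) (f : Fin N → Fin N → ℝ) :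
    ∑ i, ∑ k, z.1 i k ^ 2 * f i k = ∑ i, ∑ k, z.1 i k ^ 2 * ((f i k + f k i) / 2) := by
  have h1 : ∑ i, ∑ k, z.1 i k ^ 2 * f i k = ∑ i, ∑ k, z.1 i k ^ 2 * f k i := by
    rw [Finset.sum_comm]
    refine Finset.sum_congr rfl fun k _ => ?_
    refine Finset.sum_congr rfl fun i _ => ?_
    rw [so_skew z i k]
    ring
  have h2 : ∑ i, ∑ k, z.1 i k ^ 2 * ((f i k + f k i) / 2) =
      (∑ i, ∑ k, z.1 i k ^ 2 * f i k + ∑ i, ∑ k, z.1 i k ^ 2 * f k i) / 2 := by
    rw [← Finset.sum_add_distrib, Finset.sum_div]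
    refine Finset.sum_congr rfl fun i _ => ?_
    rw [← Finset.sum_add_distrib, Finset.sum_div]
    refine Finset.sum_congr rfl fun k _ => ?_
    ring
  rw [h2, ← h1]
  ring

theorem TH2_BW_BW (hN : 3 ≤ N) (A : Finset (Fin N)) (u v u' v' : ℝ) (z : so (Fin N) ℝ) :
    TH2 (BW A u' v' 1) (BW A u v 1) z z =
      (1 + ((A.card : ℝ) - 2) / ((N : ℝ) - 2) * (u * u' - 1)) *
          Qf (so (Fin N) ℝ) (BW A 1 0 0 z) z +
      (1 + ((N : ℝ) - A.card - 2) / ((N : ℝ) - 2) * (v * v' - 1)) *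
          Qf (so (Fin N) ℝ) (BW A 0 1 0 z) z +
      (((A.card : ℝ) - 1) / (2 * ((N : ℝ) - 2)) * (u + u') +
        ((N : ℝ) - A.card - 1) / (2 * ((N : ℝ) - 2)) * (v + v')) *
          Qf (so (Fin N) ℝ) (BW A 0 0 1 z) z := by
  have hN3 : (3 : ℝ) ≤ N := by exact_mod_cast hN
  have hN2 : ((N : ℝ) - 2) ≠ 0 := by
    intro h
    linarith
  rw [SoBB_TH2 hN, SoBB_symm z]
  simp only [SoBB_Q, Finset.mul_sum]
  rw [← Finset.sum_add_distrib, ← Finset.sum_add_distrib]
  refine Finset.sum_congr rfl fun i _ => ?_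
  rw [← Finset.sum_add_distrib, ← Finset.sum_add_distrib]
  refine Finset.sum_congr rfl fun k _ => ?_
  rw [SoBB_S, SoBB_S]
  unfold bw
  by_cases hi : i ∈ A <;> by_cases hk : k ∈ A <;> simp only [hi, hk, if_true, if_false]
  · field_simp
    ring
  · field_simp
    ring
  · field_simp
    ring
  · field_simp
    ring

theorem uts_so (hN : 3 ≤ N) (A : Finset (Fin N)) {x1 x2 y1 y2 : ℝ} (h1 : x1 * y1 = 1)
    (h2 : x2 * y2 = 1) (z : so (Fin N) ℝ) :
    TH2 (BW A x1 x2 1) (BW A y1 y2 1) z z = Qf (so (Fin N) ℝ) z z -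
      omN A x1 x2 y1 y2 * Qf (so (Fin N) ℝ) (BW A 0 0 1 z) z := by
  have e1 : y1 * x1 - 1 = 0 := by rw [mul_comm, h1, sub_self]
  have e2 : y2 * x2 - 1 = 0 := by rw [mul_comm, h2, sub_self]
  have hq : Qf (so (Fin N) ℝ) z z = Qf (so (Fin N) ℝ) (BW A 1 0 0 z) z +
      Qf (so (Fin N) ℝ) (BW A 0 1 0 z) z + Qf (so (Fin N) ℝ) (BW A 0 0 1 z) z := by
    have h3 : Qf (so (Fin N) ℝ) z z = Qf (so (Fin N) ℝ) (BW A 1 1 1 z) z := by rw [BW_one]
    rw [h3]
    simp only [SoBB_Q]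
    rw [← Finset.sum_add_distrib, ← Finset.sum_add_distrib]
    refine Finset.sum_congr rfl fun i _ => ?_
    rw [← Finset.sum_add_distrib, ← Finset.sum_add_distrib]
    refine Finset.sum_congr rfl fun k _ => ?_
    unfold bw
    by_cases hi : i ∈ A <;> by_cases hk : k ∈ A <;> simp only [hi, hk, if_true, if_false] <;> ring
  rw [TH2_BW_BW hN, e1, e2, hq]
  unfold omN
  ring

end Pool.Agent.EinU
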