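import Pool.Agent.EinU.DefsSo

/-!
# Block weights
-/

namespace Pool.Agent.EinU

open Matrix Pool.Agent.EStab Pool.Agent.EinS Pool.Agent.SmIso LieAlgebra.Orthogonal

variable {N : ℕ} (A : Finset (Fin N))

theorem BW_BW (u v t u' v' t' : ℝ) (x : so (Fin N) ℝ) :
    BW A u v t (BW A u' v' t' x) = BW A (u * u') (v * v') (t * t') x := by
  apply Subtype.ext
  ext a b
  rw [BW_apply, BW_apply, BW_apply]
  unfold bw
  split_ifs <;> ring

theorem BW_one (x : so (Fin N) ℝ) : BW A 1 1 1 x = x := by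
  apply Subtype.ext
  ext a b
  rw [BW_apply]
  unfold bw
  split_ifs <;> ring

theorem BW_zero (x : so (Fin N) ℝ) : BW A 0 0 0 x = 0 := by
  apply Subtype.ext
  ext a b
  rw [BW_apply]
  show _ = (0 : ℝ)
  unfold bw
  split_ifs <;> ring

theorem BW_add (u v t u' v' t' : ℝ) (x : so (Fin N) ℝ) :
    BW A u v t x + BW A u' v' t' x = BW A (u + u') (v + v') (t + t') x := by
  apply Subtype.ext
  ext a b
  rw [BW_apply]
  show (BW A u v t x).1 a b + (BW A u' v' t' x).1 a b = _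
  rw [BW_apply, BW_apply]
  unfold bw
  split_ifs <;> ring

theorem BW_smul (c u v t : ℝ) (x : so (Fin N) ℝ) :
    c • BW A u v t x = BW A (c * u) (c * v) (c * t) x := by
  apply Subtype.ext
  ext a b
  rw [BW_apply]
  show c * (BW A u v t x).1 a b = _
  rw [BW_apply]
  unfold bw
  split_ifs <;> ring

theorem BW_sym (u v t : ℝ) : QSym (BW A u v t) := by
  intro x y
  rw [Qf_so, Qf_so]
  congr 1
  refine Finset.sum_congr rfl fun a _ => Finset.sum_congr rfl fun b _ => ?_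
  rw [BW_apply, BW_apply]
  ring

private theorem SoBW_pos (hN : 3 ≤ N) : 0 ≤ (N : ℝ) - 2 := by
  have : (3 : ℝ) ≤ N := by exact_mod_cast hN
  linarith

/-- Bounds of the form of `BW`. -/
theorem Qf_BW_le (hN : 3 ≤ N) {u v t c : ℝ} (hu : u ≤ c) (hv : v ≤ c) (ht : t ≤ c)
    (x : so (Fin N) ℝ) :
    Qf (so (Fin N) ℝ) (BW A u v t x) x ≤ c * Qf (so (Fin N) ℝ) x x := by
  rw [Qf_so, Qf_so, mul_left_comm]
  refine mul_le_mul_of_nonneg_left ?_ (SoBW_pos hN)
  rw [Finset.mul_sum]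
  refine Finset.sum_le_sum fun a _ => ?_
  rw [Finset.mul_sum]
  refine Finset.sum_le_sum fun b _ => ?_
  rw [BW_apply, mul_assoc]
  refine mul_le_mul_of_nonneg_right ?_ (mul_self_nonneg _)
  unfold bw
  split_ifs <;> assumption

theorem Qf_BW_ge (hN : 3 ≤ N) {u v t c : ℝ} (hu : c ≤ u) (hv : c ≤ v) (ht : c ≤ t)
    (x : so (Fin N) ℝ) :
    c * Qf (so (Fin N) ℝ) x x ≤ Qf (so (Fin N) ℝ) (BW A u v t x) x := by
  rw [Qf_so, Qf_so, mul_left_comm]
  refine mul_le_mul_of_nonneg_left ?_ (SoBW_pos hN)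
  rw [Finset.mul_sum]
  refine Finset.sum_le_sum fun a _ => ?_
  rw [Finset.mul_sum]
  refine Finset.sum_le_sum fun b _ => ?_
  rw [BW_apply, mul_assoc]
  refine mul_le_mul_of_nonneg_right ?_ (mul_self_nonneg _)
  unfold bw
  split_ifs <;> assumption

/-- the signs -/
private noncomputable def SoBW_s (a : Fin N) : ℝ := if a ∈ A then 1 else -1

private theorem SoBW_ss (a : Fin N) : SoBW_s A a * SoBW_s A a = 1 := by
  unfold SoBW_s
  split_ifs <;> ring

private noncomputable def SoBW_f : so (Fin N) ℝ →ₗ[ℝ] so (Fin N) ℝ :=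
  LinearMap.id - (2 : ℝ) • BW A 0 0 1

private theorem SoBW_f_apply (x : so (Fin N) ℝ) : SoBW_f A x = x - (2 : ℝ) • BW A 0 0 1 x := rfl

private theorem SoBW_f_entry (x : so (Fin N) ℝ) (a b : Fin N) :
    (SoBW_f A x).1 a b = SoBW_s A a * SoBW_s A b * x.1 a b := by
  rw [SoBW_f_apply]
  show x.1 a b - 2 * (BW A 0 0 1 x).1 a b = _
  rw [BW_apply]
  unfold bw SoBW_s
  split_ifs <;> ring

private theorem SoBW_f_f (x : so (Fin N) ℝ) : SoBW_f A (SoBW_f A x) = x := by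
  apply Subtype.ext
  ext a b
  rw [SoBW_f_entry, SoBW_f_entry]
  have h1 := SoBW_ss A a
  have h2 := SoBW_ss A b
  calc SoBW_s A a * SoBW_s A b * (SoBW_s A a * SoBW_s A b * x.1 a b)
      = (SoBW_s A a * SoBW_s A a) * (SoBW_s A b * SoBW_s A b) * x.1 a b := by ring
    _ = x.1 a b := by rw [h1, h2]; ring

private theorem SoBW_bracket (x y : so (Fin N) ℝ) : (⁅x, y⁆ : so (Fin N) ℝ).1 =
    x.1 * y.1 - y.1 * x.1 := rfl

private theorem SoBW_f_mul (x y : so (Fin N) ℝ) (a b : Fin N) :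
    ((SoBW_f A x).1 * (SoBW_f A y).1) a b = SoBW_s A a * SoBW_s A b * (x.1 * y.1) a b := by
  rw [Matrix.mul_apply, Matrix.mul_apply, Finset.mul_sum]
  refine Finset.sum_congr rfl fun j _ => ?_
  rw [SoBW_f_entry, SoBW_f_entry]
  calc SoBW_s A a * SoBW_s A j * x.1 a j * (SoBW_s A j * SoBW_s A b * y.1 j b)
      = (SoBW_s A j * SoBW_s A j) * (SoBW_s A a * SoBW_s A b * (x.1 a j * y.1 j b)) := by ring
    _ = _ := by rw [SoBW_ss]; ring

private theorem SoBW_f_lie (x y : so (Fin N) ℝ) : SoBW_f A ⁅x, y⁆ = ⁅SoBW_f A x, SoBW_f A y⁆ := by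
  apply Subtype.ext
  ext a b
  rw [SoBW_f_entry, SoBW_bracket, SoBW_bracket, Matrix.sub_apply, Matrix.sub_apply, SoBW_f_mul,
    SoBW_f_mul]
  ring

/-- The reflection `x ↦ D x D`, `D = diag(±1)`. -/
theorem exists_refl : ∃ σ : so (Fin N) ℝ ≃ₗ⁅ℝ⁆ so (Fin N) ℝ,
    ∀ x, σ x = x - (2 : ℝ) • BW A 0 0 1 x := by
  refine ⟨{ toLieHom := { toLinearMap := SoBW_f A, map_lie' := fun {x y} => SoBW_f_lie A x y }
            invFun := SoBW_f A
            left_inv := SoBW_f_f A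
            right_inv := SoBW_f_f A }, fun x => ?_⟩
  exact SoBW_f_apply A x

/-- Conjugation by a block diagonal orthogonal matrix commutes with `BW`. -/
theorem BW_conj {Q : Matrix (Fin N) (Fin N) ℝ}
    (hd : ∀ a b, ¬(a ∈ A ↔ b ∈ A) → Q a b = 0) (u v t : ℝ) {x x' : so (Fin N) ℝ}
    (hx : x'.1 = Q * x.1 * Qᵀ) : (BW A u v t x').1 = Q * (BW A u v t x).1 * Qᵀ := by
  ext a b
  rw [BW_apply, hx, Matrix.mul_apply, Matrix.mul_apply, Finset.mul_sum]
  refine Finset.sum_congr rfl fun j _ => ?_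
  rw [Matrix.transpose_apply, Matrix.mul_apply, Matrix.mul_apply, Finset.sum_mul, Finset.sum_mul,
    Finset.mul_sum]
  refine Finset.sum_congr rfl fun i _ => ?_
  rw [BW_apply]
  by_cases hai : a ∈ A ↔ i ∈ A
  · by_cases hbj : b ∈ A ↔ j ∈ A
    · have e : bw A u v t a b = bw A u v t i j := by
        unfold bw
        by_cases h1 : i ∈ A <;> by_cases h2 : j ∈ A <;> simp [hai, hbj, h1, h2]
      rw [e]
      ring
    · rw [hd b j hbj]
      ring
  · rw [hd a i hai]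
    ring

end Pool.Agent.EinU
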