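import Pool.Agent.EinU.SoOp

/-!
# Bounds of quadratic forms

* `NB.T12`: `Qf (T12 β z) z = (1/2) (Qf (β (z₁ + z₂)) (z₁ + z₂) - Qf (β (z₁ - z₂)) (z₁ - z₂))`, `z₁ = BW A 1 0 0 z`,
  `z₂ = BW A 0 1 0 z` (orthogonal).
* `MB_rho`: for a vector `v` let `F_{vj} = ∑ a, v a • Fm a j`; `∑ j, Qf (T F_{vj}) F_{vj} = (2 n)² v ⬝ (rho T) v` and
  `∑ j, Qf F_{vj} F_{vj} = 2 n (N - 1) v ⬝ v`; `N - 1 ≤ 2 n` for `N ≥ 3` (cf. `SoGap_rho` in `SmIso/SoGap.lean`).
* `NB_Rop`: `Qf (Rop u z) z = 2 n tr (u z zᵀ) = 2 n ∑ (columns of z) z_j ⬝ u z_j` (`tn_Rop`, `apply_tn`).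
-/

set_option linter.all false

namespace Pool.Agent.EinU

open Matrix Pool.Agent.EStab Pool.Agent.EinS Pool.Agent.SmIso LieAlgebra.Orthogonal

variable {N : ℕ}

private theorem SoNB_F_apply (a b i j : Fin N) : (Fm a b).1 i j =
    (if a = i ∧ b = j then 1 else 0) - (if b = i ∧ a = j then 1 else 0) := by
  show (Matrix.single a b (1 : ℝ) - Matrix.single b a 1 : Matrix (Fin N) (Fin N) ℝ) i j = _
  rw [Matrix.sub_apply, Matrix.single_apply, Matrix.single_apply]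

private theorem SoNB_Qf_F (Z : so (Fin N) ℝ) (c d : Fin N) :
    Qf (so (Fin N) ℝ) Z (Fm c d) = (2 * ((N : ℝ) - 2)) * Z.1 c d := by
  rw [Qf_so]
  have h1 : ∑ i, ∑ j, Z.1 i j * (Fm c d).1 i j = 2 * Z.1 c d := by
    simp only [SoNB_F_apply, mul_sub, Finset.sum_sub_distrib, mul_ite, mul_one, mul_zero,
      ite_and]
    have h2 : ∀ (p q : Fin N), ∑ i, ∑ j, (if p = i then (if q = j then Z.1 i j else 0) else 0) =
        Z.1 p q := by
      intro p q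
      rw [Finset.sum_eq_single p]
      · simp
      · intro i _ hi
        simp [Ne.symm hi]
      · intro h
        exact absurd (Finset.mem_univ p) h
    rw [h2, h2, so_skew Z d c]
    ring
  rw [h1]
  ring

/-- the entry `c d` as a linear map -/
private def SoNB_ent (c d : Fin N) : so (Fin N) ℝ →ₗ[ℝ] ℝ where
  toFun x := x.1 c d
  map_add' _ _ := rfl
  map_smul' _ _ := rfl

/-- the vectors `F_{vj}` -/
private noncomputable def SoNB_F (v : Fin N → ℝ) (j : Fin N) : so (Fin N) ℝ := ∑ a, v a • Fm a j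

private theorem SoNB_entT (T : so (Fin N) ℝ →ₗ[ℝ] so (Fin N) ℝ) (v : Fin N → ℝ) (j c d : Fin N) :
    (T (SoNB_F v j)).1 c d = ∑ a, v a * tn T a j c d := by
  have h : (T (SoNB_F v j)).1 c d = SoNB_ent c d (T (SoNB_F v j)) := rfl
  rw [h, SoNB_F, map_sum, map_sum]
  refine Finset.sum_congr rfl fun a _ => ?_
  rw [map_smul, map_smul]
  rfl

private theorem SoNB_QF (T : so (Fin N) ℝ →ₗ[ℝ] so (Fin N) ℝ) (v : Fin N → ℝ) (j : Fin N) :
    Qf (so (Fin N) ℝ) (T (SoNB_F v j)) (SoNB_F v j) =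
      (2 * ((N : ℝ) - 2)) * ∑ a, ∑ c, v a * v c * tn T a j c j := by
  have h1 : Qf (so (Fin N) ℝ) (T (SoNB_F v j)) (SoNB_F v j) =
      ∑ c, v c * Qf (so (Fin N) ℝ) (T (SoNB_F v j)) (Fm c j) := by
    conv_lhs => rw [show SoNB_F v j = ∑ c, v c • Fm c j from rfl]
    rw [map_sum]
    refine Finset.sum_congr rfl fun c _ => ?_
    rw [map_smul, smul_eq_mul]
    rfl
  rw [h1, Finset.sum_comm, Finset.mul_sum]
  refine Finset.sum_congr rfl fun c _ => ?_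
  rw [SoNB_Qf_F, SoNB_entT, Finset.mul_sum, Finset.mul_sum, Finset.mul_sum]
  refine Finset.sum_congr rfl fun a _ => ?_
  ring

private theorem SoNB_sumF (T : so (Fin N) ℝ →ₗ[ℝ] so (Fin N) ℝ) (v : Fin N → ℝ) :
    ∑ j, Qf (so (Fin N) ℝ) (T (SoNB_F v j)) (SoNB_F v j) =
      (2 * ((N : ℝ) - 2)) * ∑ a, ∑ c, v a * v c * ∑ j, tn T a j c j := by
  simp only [SoNB_QF, ← Finset.mul_sum]
  congr 1
  rw [Finset.sum_comm]
  refine Finset.sum_congr rfl fun a _ => ?_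
  rw [Finset.sum_comm]
  refine Finset.sum_congr rfl fun c _ => ?_
  rw [Finset.mul_sum]

private theorem SoNB_id (a c : Fin N) :
    ∑ j, tn (LinearMap.id : so (Fin N) ℝ →ₗ[ℝ] so (Fin N) ℝ) a j c j =
      if a = c then (N : ℝ) - 1 else 0 := by
  have h1 : ∀ j, tn (LinearMap.id : so (Fin N) ℝ →ₗ[ℝ] so (Fin N) ℝ) a j c j =
      (if a = c then (1 : ℝ) else 0) - (if j = c then (if a = j then 1 else 0) else 0) := by
    intro j
    show (Fm a j).1 c j = _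
    rw [SoNB_F_apply]
    simp [ite_and]
  simp only [h1, Finset.sum_sub_distrib, Finset.sum_ite_eq', Finset.mem_univ, if_true,
    Finset.sum_const, Finset.card_univ, Fintype.card_fin, nsmul_eq_mul]
  split_ifs <;> simp

private theorem SoNB_BB (A : Finset (Fin N)) (u v t : ℝ) (z : so (Fin N) ℝ) :
    Qf (so (Fin N) ℝ) (BW A u v t z) (BW A u v t z) =
      Qf (so (Fin N) ℝ) (BW A (u * u) (v * v) (t * t) z) z := by
  rw [← BW_sym A u v t, BW_BW]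

theorem NB.mono {T : so (Fin N) ℝ →ₗ[ℝ] so (Fin N) ℝ} {s t : ℝ} (hN : 3 ≤ N) (h : NB T s)
    (hst : s ≤ t) : NB T t := by
  intro z
  exact (h z).trans (mul_le_mul_of_nonneg_right hst (Qf_nonneg (so_compact hN) z))

theorem NB.add {T U : so (Fin N) ℝ →ₗ[ℝ] so (Fin N) ℝ} {s t : ℝ} (h : NB T s) (h' : NB U t) :
    NB (T + U) (s + t) := by
  intro z
  rw [LinearMap.add_apply, map_add, LinearMap.add_apply, add_mul]
  exact (abs_add_le _ _).trans (add_le_add (h z) (h' z))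

theorem NB.smul {T : so (Fin N) ℝ →ₗ[ℝ] so (Fin N) ℝ} {s : ℝ} (h : NB T s) (c : ℝ) :
    NB (c • T) (|c| * s) := by
  intro z
  rw [LinearMap.smul_apply, map_smul, LinearMap.smul_apply, smul_eq_mul, abs_mul, mul_assoc]
  exact mul_le_mul_of_nonneg_left (h z) (abs_nonneg c)

private theorem SoNB_cut {A : Finset (Fin N)} {T : so (Fin N) ℝ →ₗ[ℝ] so (Fin N) ℝ} {s : ℝ}
    (hN : 3 ≤ N) (hs : 0 ≤ s) (h : NB T s) (u v t : ℝ) (hu : u * u ≤ 1) (hv : v * v ≤ 1)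
    (ht : t * t ≤ 1) : NB (BW A u v t ∘ₗ T ∘ₗ BW A u v t) s := by
  intro z
  have e : Qf (so (Fin N) ℝ) ((BW A u v t ∘ₗ T ∘ₗ BW A u v t) z) z =
      Qf (so (Fin N) ℝ) (T (BW A u v t z)) (BW A u v t z) := by
    show Qf (so (Fin N) ℝ) (BW A u v t (T (BW A u v t z))) z = _
    rw [BW_sym A u v t]
  rw [e]
  refine (h _).trans (mul_le_mul_of_nonneg_left ?_ hs)
  rw [SoNB_BB]
  have := Qf_BW_le A hN hu hv ht z
  rwa [one_mul] at this

theorem NB.T11 {A : Finset (Fin N)} {T : so (Fin N) ℝ →ₗ[ℝ] so (Fin N) ℝ} {s : ℝ} (hN : 3 ≤ N)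
    (hs : 0 ≤ s) (h : NB T s) : NB (EinU.T11 A T) s := by
  exact SoNB_cut hN hs h 1 0 0 (by norm_num) (by norm_num) (by norm_num)

theorem NB.T22 {A : Finset (Fin N)} {T : so (Fin N) ℝ →ₗ[ℝ] so (Fin N) ℝ} {s : ℝ} (hN : 3 ≤ N)
    (hs : 0 ≤ s) (h : NB T s) : NB (EinU.T22 A T) s := by
  exact SoNB_cut hN hs h 0 1 0 (by norm_num) (by norm_num) (by norm_num)

theorem NB.Tp {A : Finset (Fin N)} {T : so (Fin N) ℝ →ₗ[ℝ] so (Fin N) ℝ} {s : ℝ} (hN : 3 ≤ N)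
    (hs : 0 ≤ s) (h : NB T s) : NB (EinU.Tp A T) s := by
  exact SoNB_cut hN hs h 0 0 1 (by norm_num) (by norm_num) (by norm_num)

theorem NB.T12 {A : Finset (Fin N)} {T : so (Fin N) ℝ →ₗ[ℝ] so (Fin N) ℝ} {s : ℝ} (hN : 3 ≤ N)
    (hs : 0 ≤ s) (hT : QSym T) (h : NB T s) : NB (EinU.T12 A T) s := by
  intro z
  set z1 := BW A 1 0 0 z with hz1
  set z2 := BW A 0 1 0 z with hz2
  have e : Qf (so (Fin N) ℝ) (EinU.T12 A T z) z =
      Qf (so (Fin N) ℝ) (T z2) z1 + Qf (so (Fin N) ℝ) (T z1) z2 := by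
    show Qf (so (Fin N) ℝ) (BW A 1 0 0 (T z2) + BW A 0 1 0 (T z1)) z = _
    rw [map_add, LinearMap.add_apply, BW_sym A 1 0 0, BW_sym A 0 1 0]
  have e1 : Qf (so (Fin N) ℝ) (T (z1 + z2)) (z1 + z2) =
      Qf (so (Fin N) ℝ) (T z1) z1 + Qf (so (Fin N) ℝ) (T z2) z2 +
        (Qf (so (Fin N) ℝ) (T z2) z1 + Qf (so (Fin N) ℝ) (T z1) z2) := by
    simp only [map_add, LinearMap.add_apply]
    ring
  have e2 : Qf (so (Fin N) ℝ) (T (z1 - z2)) (z1 - z2) =
      Qf (so (Fin N) ℝ) (T z1) z1 + Qf (so (Fin N) ℝ) (T z2) z2 -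
        (Qf (so (Fin N) ℝ) (T z2) z1 + Qf (so (Fin N) ℝ) (T z1) z2) := by
    simp only [map_sub, LinearMap.sub_apply]
    ring
  have e3 : Qf (so (Fin N) ℝ) (z1 + z2) (z1 + z2) + Qf (so (Fin N) ℝ) (z1 - z2) (z1 - z2) =
      2 * (Qf (so (Fin N) ℝ) z1 z1 + Qf (so (Fin N) ℝ) z2 z2) := by
    simp only [map_sub, LinearMap.sub_apply, map_add, LinearMap.add_apply]
    ring
  have e4 : Qf (so (Fin N) ℝ) z1 z1 + Qf (so (Fin N) ℝ) z2 z2 ≤ Qf (so (Fin N) ℝ) z z := by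
    rw [hz1, hz2, SoNB_BB, SoNB_BB, ← LinearMap.add_apply, ← map_add, BW_add]
    refine (Qf_BW_le A hN (c := 1) ?_ ?_ ?_ z).trans (le_of_eq (one_mul _))
    · norm_num
    · norm_num
    · norm_num
  have h1 := h (z1 + z2)
  have h2 := h (z1 - z2)
  rw [e]
  have e5 : Qf (so (Fin N) ℝ) (T z2) z1 + Qf (so (Fin N) ℝ) (T z1) z2 =
      (1 / 2) * (Qf (so (Fin N) ℝ) (T (z1 + z2)) (z1 + z2) -
        Qf (so (Fin N) ℝ) (T (z1 - z2)) (z1 - z2)) := by
    rw [e1, e2]; ring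
  rw [e5, abs_mul, abs_of_pos (by norm_num : (0 : ℝ) < 1 / 2)]
  have h3 := abs_sub (Qf (so (Fin N) ℝ) (T (z1 + z2)) (z1 + z2))
    (Qf (so (Fin N) ℝ) (T (z1 - z2)) (z1 - z2))
  have h4 : s * (Qf (so (Fin N) ℝ) z1 z1 + Qf (so (Fin N) ℝ) z2 z2) ≤
      s * Qf (so (Fin N) ℝ) z z := mul_le_mul_of_nonneg_left e4 hs
  have h5 : s * Qf (so (Fin N) ℝ) (z1 + z2) (z1 + z2) +
      s * Qf (so (Fin N) ℝ) (z1 - z2) (z1 - z2) =
      2 * (s * (Qf (so (Fin N) ℝ) z1 z1 + Qf (so (Fin N) ℝ) z2 z2)) := by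
    rw [← mul_add, e3]; ring
  linarith

theorem MB_rho (hN : 3 ≤ N) {T : so (Fin N) ℝ →ₗ[ℝ] so (Fin N) ℝ} (hT : QSym T) {s : ℝ}
    (hs : 0 ≤ s) (h : NB T s) : MB (rho T) s := by
  intro v
  have hN3 : (3 : ℝ) ≤ N := by exact_mod_cast hN
  obtain ⟨n, hn⟩ : ∃ n : ℝ, n = (N : ℝ) - 2 := ⟨_, rfl⟩
  have hn1 : 1 ≤ n := by linarith
  have e1 : v ⬝ᵥ (rho T *ᵥ v) = 1 / (2 * n) * ∑ a, ∑ c, v a * v c * ∑ j, tn T a j c j := by
    simp only [dotProduct, mulVec, rho, of_apply, Finset.mul_sum, ← hn]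
    refine Finset.sum_congr rfl fun a _ => Finset.sum_congr rfl fun c _ => ?_
    rw [Finset.sum_mul, Finset.mul_sum]
    refine Finset.sum_congr rfl fun j _ => ?_
    ring
  have e2 := SoNB_sumF T v
  have e3 := SoNB_sumF (LinearMap.id : so (Fin N) ℝ →ₗ[ℝ] so (Fin N) ℝ) v
  rw [← hn] at e2 e3
  have e4 : ∑ a, ∑ c, v a * v c *
      ∑ j, tn (LinearMap.id : so (Fin N) ℝ →ₗ[ℝ] so (Fin N) ℝ) a j c j = (n + 1) * (v ⬝ᵥ v) := by
    simp only [SoNB_id, mul_ite, mul_zero, Finset.sum_ite_eq, Finset.mem_univ, if_true,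
      dotProduct, Finset.mul_sum]
    refine Finset.sum_congr rfl fun a _ => ?_
    rw [hn]; ring
  rw [e4] at e3
  have h1 : |∑ j, Qf (so (Fin N) ℝ) (T (SoNB_F v j)) (SoNB_F v j)| ≤
      s * (2 * n * ((n + 1) * (v ⬝ᵥ v))) := by
    rw [← e3, Finset.mul_sum]
    refine (Finset.abs_sum_le_sum_abs _ _).trans (Finset.sum_le_sum fun j _ => ?_)
    exact h _
  rw [e2, abs_mul, abs_of_pos (by linarith : (0 : ℝ) < 2 * n)] at h1
  have hv : 0 ≤ v ⬝ᵥ v := by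
    simp only [dotProduct]
    exact Finset.sum_nonneg fun i _ => mul_self_nonneg _
  rw [e1, abs_mul, abs_of_pos (by positivity)]
  set X := |∑ a, ∑ c, v a * v c * ∑ j, tn T a j c j| with hX
  have h2 : X ≤ s * ((n + 1) * (v ⬝ᵥ v)) := by
    have h3 : (2 * n) * X ≤ (2 * n) * (s * ((n + 1) * (v ⬝ᵥ v))) := by
      refine h1.trans (le_of_eq ?_); ring
    exact le_of_mul_le_mul_left h3 (by linarith)
  have h4 : s * ((n + 1) * (v ⬝ᵥ v)) ≤ (2 * n) * (s * (v ⬝ᵥ v)) := by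
    have h5 : 0 ≤ s * (v ⬝ᵥ v) := mul_nonneg hs hv
    nlinarith
  rw [div_mul_eq_mul_div, one_mul, div_le_iff₀ (by linarith)]
  linarith

theorem NB_Rop (hN : 3 ≤ N) {u : Matrix (Fin N) (Fin N) ℝ} (hu : u.IsSymm) {s : ℝ}
    (h : MB u s) : NB (Rop u) (2 * s) := by
  intro z
  have hN3 : (3 : ℝ) ≤ N := by exact_mod_cast hN
  obtain ⟨n, hn⟩ : ∃ n : ℝ, n = (N : ℝ) - 2 := ⟨_, rfl⟩
  have hn1 : 1 ≤ n := by linarith
  have e1 : ∀ c d, (Rop u z).1 c d = ∑ a, u c a * z.1 a d + ∑ b, z.1 c b * u b d := by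
    intro c d
    rw [apply_tn]
    simp only [tn_Rop hu]
    have k1 : ∑ a, ∑ b, z.1 a b * (u c a * (if b = d then 1 else 0) -
        u c b * (if a = d then 1 else 0) + u b d * (if a = c then 1 else 0) -
        u a d * (if b = c then 1 else 0)) =
        ∑ a, z.1 a d * u c a - ∑ b, z.1 d b * u c b + ∑ b, z.1 c b * u b d -
          ∑ a, z.1 a c * u a d := by
      simp only [mul_sub, mul_add, Finset.sum_sub_distrib, Finset.sum_add_distrib, mul_ite,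
        mul_one, mul_zero, Finset.sum_ite_eq', Finset.mem_univ, if_true]
      have k2 : ∑ x, ∑ x_1, (if x = d then z.1 x x_1 * u c x_1 else 0) =
          ∑ b, z.1 d b * u c b := by
        rw [Finset.sum_comm]
        refine Finset.sum_congr rfl fun b _ => ?_
        simp
      have k3 : ∑ x, ∑ x_1, (if x = c then z.1 x x_1 * u x_1 d else 0) =
          ∑ b, z.1 c b * u b d := by
        rw [Finset.sum_comm]
        refine Finset.sum_congr rfl fun b _ => ?_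
        simp
      rw [k2, k3]
    rw [k1]
    have k4 : ∑ b, z.1 d b * u c b = - ∑ a, u c a * z.1 a d := by
      rw [← Finset.sum_neg_distrib]
      refine Finset.sum_congr rfl fun b _ => ?_
      rw [so_skew z d b]; ring
    have k5 : ∑ a, z.1 a c * u a d = - ∑ b, z.1 c b * u b d := by
      rw [← Finset.sum_neg_distrib]
      refine Finset.sum_congr rfl fun b _ => ?_
      rw [so_skew z b c]; ring
    have k6 : ∑ a, z.1 a d * u c a = ∑ a, u c a * z.1 a d :=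
      Finset.sum_congr rfl fun a _ => mul_comm _ _
    rw [k4, k5, k6]
    ring
  have e2 : ∑ c, ∑ d, (Rop u z).1 c d * z.1 c d =
      2 * ∑ j, (fun i => z.1 i j) ⬝ᵥ (u *ᵥ (fun i => z.1 i j)) := by
    have k1 : ∑ c, ∑ d, (∑ a, u c a * z.1 a d) * z.1 c d =
        ∑ j, (fun i => z.1 i j) ⬝ᵥ (u *ᵥ (fun i => z.1 i j)) := by
      rw [Finset.sum_comm]
      refine Finset.sum_congr rfl fun d _ => ?_
      simp only [dotProduct, mulVec]
      refine Finset.sum_congr rfl fun c _ => ?_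
      ring
    have k2 : ∑ c, ∑ d, (∑ b, z.1 c b * u b d) * z.1 c d =
        ∑ j, (fun i => z.1 i j) ⬝ᵥ (u *ᵥ (fun i => z.1 i j)) := by
      refine Finset.sum_congr rfl fun c _ => ?_
      simp only [dotProduct, mulVec]
      refine Finset.sum_congr rfl fun d _ => ?_
      rw [Finset.sum_mul, Finset.mul_sum]
      refine Finset.sum_congr rfl fun b _ => ?_
      have hub : u b d = u d b := by
        have := congrFun (congrFun hu d) b
        rw [Matrix.transpose_apply] at this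
        exact this
      rw [so_skew z c b, so_skew z c d, hub]
      ring
    simp only [e1, add_mul, Finset.sum_add_distrib]
    rw [k1, k2]
    ring
  have e3 : ∑ j, (fun i => z.1 i j) ⬝ᵥ (fun i => z.1 i j) = ∑ a, ∑ b, z.1 a b * z.1 a b := by
    rw [Finset.sum_comm]
    rfl
  rw [Qf_so, Qf_so, e2, ← e3, ← hn, abs_mul, abs_mul, abs_of_pos (by linarith : (0 : ℝ) < n),
    abs_of_pos (by norm_num : (0 : ℝ) < 2)]
  have h1 : |∑ j, (fun i => z.1 i j) ⬝ᵥ (u *ᵥ (fun i => z.1 i j))| ≤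
      s * ∑ j, (fun i => z.1 i j) ⬝ᵥ (fun i => z.1 i j) := by
    rw [Finset.mul_sum]
    refine (Finset.abs_sum_le_sum_abs _ _).trans (Finset.sum_le_sum fun j _ => ?_)
    exact h _
  have h2 := mul_le_mul_of_nonneg_left h1 (by linarith : (0 : ℝ) ≤ 2 * n)
  linarith

end Pool.Agent.EinU
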