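import Pool.Agent.EinU.SoBW

/-!
# Operators and their tensors

* `opT`: `exists_op`.  `Yo`: for a symmetric `T` the tensor in the definition satisfies `TSym` (`tn_sym`).
* `TH_eq`: `TH_so`, `Qf_so`, `apply_tn`: `Qf (T z) z = (n/2) ∑ z a b * z c d * tn T a b c d`.
-/

namespace Pool.Agent.EinU

open Matrix Pool.Agent.EStab Pool.Agent.EinS Pool.Agent.SmIso LieAlgebra.Orthogonal

variable {N : ℕ}

theorem opT_sym (t : Fin N → Fin N → Fin N → Fin N → ℝ) : QSym (opT t) := by
  unfold opT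
  split_ifs with h
  · exact (exists_op h).choose_spec.1
  · intro x y
    rw [LinearMap.zero_apply, LinearMap.zero_apply, Qf_so, Qf_so]
    congr 1
    refine Finset.sum_congr rfl fun a _ => Finset.sum_congr rfl fun b _ => ?_
    show (0 : ℝ) * _ = _ * (0 : ℝ)
    ring

theorem tn_opT {t : Fin N → Fin N → Fin N → Fin N → ℝ} (ht : TSym t) : tn (opT t) = t := by
  unfold opT
  rw [dif_pos ht]
  exact (exists_op ht).choose_spec.2

theorem tn_inj {T U : so (Fin N) ℝ →ₗ[ℝ] so (Fin N) ℝ} (h : ∀ a b c d, tn T a b c d = tn U a b c d) :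
    T = U := by
  apply LinearMap.ext
  intro x
  apply Subtype.ext
  ext c d
  rw [apply_tn, apply_tn]
  simp only [h]

private theorem SoOp_Yo_sym (hN : 3 ≤ N) {T : so (Fin N) ℝ →ₗ[ℝ] so (Fin N) ℝ} (hT : QSym T) :
    TSym fun a b c d => 1 / ((N : ℝ) - 2) * (tn T a c d b - tn T a d c b) := by
  obtain ⟨s1, s2, s3⟩ := tn_sym hN hT
  have e1 : ∀ a b c d, tn T b c d a = tn T a d c b := by
    intro a b c d
    rw [s3 d a b c, s1 a d b c, s2 a d c b]
    ring
  refine ⟨?_, ?_, ?_⟩
  · intro a b c d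
    show 1 / ((N : ℝ) - 2) * (tn T b c d a - tn T b d c a) =
      -(1 / ((N : ℝ) - 2) * (tn T a c d b - tn T a d c b))
    rw [e1 a b c d, e1 a b d c]
    ring
  · intro a b c d
    show 1 / ((N : ℝ) - 2) * (tn T a d c b - tn T a c d b) =
      -(1 / ((N : ℝ) - 2) * (tn T a c d b - tn T a d c b))
    ring
  · intro a b c d
    show 1 / ((N : ℝ) - 2) * (tn T c a b d - tn T c b a d) =
      1 / ((N : ℝ) - 2) * (tn T a c d b - tn T a d c b)
    have e2 : tn T c a b d = tn T a c d b := by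
      rw [s1 a c b d, s2 a c d b]
      ring
    have e3 : tn T c b a d = tn T a d c b := s3 a d c b
    rw [e2, e3]

theorem tn_Yo (hN : 3 ≤ N) {T : so (Fin N) ℝ →ₗ[ℝ] so (Fin N) ℝ} (hT : QSym T) (a b c d : Fin N) :
    tn (Yo T) a b c d = 1 / ((N : ℝ) - 2) * (tn T a c d b - tn T a d c b) := by
  unfold Yo
  rw [tn_opT (SoOp_Yo_sym hN hT)]

private theorem SoOp_Rop_sym {u : Matrix (Fin N) (Fin N) ℝ} (hu : u.IsSymm) :
    TSym fun a b c d => u c a * (if b = d then 1 else 0) - u c b * (if a = d then 1 else 0) +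
      u b d * (if a = c then 1 else 0) - u a d * (if b = c then 1 else 0) := by
  have hs : ∀ i j, u i j = u j i := fun i j => hu.apply j i
  refine ⟨?_, ?_, ?_⟩
  · intro a b c d
    ring
  · intro a b c d
    rw [hs d a, hs d b, hs b c, hs a c]
    ring
  · intro a b c d
    rw [hs a c, hs a d, hs d b]
    simp only [eq_comm (a := d) (b := b), eq_comm (a := c) (b := b),
      eq_comm (a := c) (b := a), eq_comm (a := d) (b := a)]
    ring

theorem tn_Rop {u : Matrix (Fin N) (Fin N) ℝ} (hu : u.IsSymm) (a b c d : Fin N) :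
    tn (Rop u) a b c d = u c a * (if b = d then 1 else 0) - u c b * (if a = d then 1 else 0) +
      u b d * (if a = c then 1 else 0) - u a d * (if b = c then 1 else 0) := by
  unfold Rop
  rw [tn_opT (SoOp_Rop_sym hu)]

theorem rho_symm (hN : 3 ≤ N) {T : so (Fin N) ℝ →ₗ[ℝ] so (Fin N) ℝ} (hT : QSym T) :
    (rho T).IsSymm := by
  obtain ⟨s1, s2, s3⟩ := tn_sym hN hT
  ext a c
  rw [Matrix.transpose_apply]
  unfold rho
  rw [of_apply, of_apply]
  congr 1
  exact Finset.sum_congr rfl fun j _ => s3 a j c j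

theorem res_symm (A : Finset (Fin N)) {u : Matrix (Fin N) (Fin N) ℝ} (hu : u.IsSymm) :
    (res A u).IsSymm := by
  ext a c
  rw [Matrix.transpose_apply]
  unfold res
  rw [of_apply, of_apply, hu.apply a c]
  by_cases ha : a ∈ A <;> by_cases hc : c ∈ A <;> simp [ha, hc]

/-- The form of `Θ T`. -/
theorem TH_eq (hN : 3 ≤ N) {T : so (Fin N) ℝ →ₗ[ℝ] so (Fin N) ℝ} (hT : QSym T)
    (z : so (Fin N) ℝ) : TH T z z = Qf (so (Fin N) ℝ) ((Rop (rho T) + Yo T) z) z := by
  have hN3 : (3 : ℝ) ≤ N := by exact_mod_cast hN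
  have hn : ((N : ℝ) - 2) ≠ 0 := by
    intro h
    linarith
  have hρ := rho_symm hN hT
  have hs : ∀ i j, rho T i j = rho T j i := fun i j => hρ.apply j i
  have hρ' : ∀ a c, ∑ j, tn T a j c j = 2 * ((N : ℝ) - 2) * rho T c a := by
    intro a c
    rw [hs c a]
    unfold rho
    rw [of_apply]
    field_simp
  rw [TH_so hN hT, Qf_so]
  have h1 : ∀ c d, ((Rop (rho T) + Yo T) z).1 c d = (1 / 2) * ∑ a, ∑ b, z.1 a b *
      ((rho T c a * (if b = d then 1 else 0) - rho T c b * (if a = d then 1 else 0) +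
      rho T b d * (if a = c then 1 else 0) - rho T a d * (if b = c then 1 else 0)) +
      1 / ((N : ℝ) - 2) * (tn T a c d b - tn T a d c b)) := by
    intro c d
    have : ((Rop (rho T) + Yo T) z).1 c d = (Rop (rho T) z).1 c d + (Yo T z).1 c d := rfl
    rw [this, apply_tn, apply_tn, ← mul_add, ← Finset.sum_add_distrib]
    congr 1
    refine Finset.sum_congr rfl fun a _ => ?_
    rw [← Finset.sum_add_distrib]
    refine Finset.sum_congr rfl fun b _ => ?_
    rw [tn_Rop hρ, tn_Yo hN hT]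
    ring
  obtain ⟨S, hS⟩ : ∃ S : ℝ, S = ∑ a, ∑ b, ∑ c, z.1 a b * z.1 c b * rho T c a := ⟨_, rfl⟩
  -- evaluation of the contraction over a Kronecker delta
  have hk : ∀ (c d : Fin N), ∑ a, ∑ b, z.1 a b *
      ((rho T c a * (if b = d then 1 else 0) - rho T c b * (if a = d then 1 else 0) +
      rho T b d * (if a = c then 1 else 0) - rho T a d * (if b = c then 1 else 0)) +
      1 / ((N : ℝ) - 2) * (tn T a c d b - tn T a d c b)) =
      2 * (∑ a, z.1 a d * rho T c a) + 2 * (∑ b, z.1 c b * rho T b d) +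
        1 / ((N : ℝ) - 2) * ∑ a, ∑ b, z.1 a b * (tn T a c d b - tn T a d c b) := by
    intro c d
    have e1 : ∑ a, ∑ b, z.1 a b * (rho T c a * (if b = d then (1 : ℝ) else 0)) =
        ∑ a, z.1 a d * rho T c a := by
      refine Finset.sum_congr rfl fun a _ => ?_
      simp
    have e2 : ∑ a, ∑ b, z.1 a b * (rho T c b * (if a = d then (1 : ℝ) else 0)) =
        -∑ a, z.1 a d * rho T c a := by
      rw [Finset.sum_comm, ← Finset.sum_neg_distrib]
      refine Finset.sum_congr rfl fun b _ => ?_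
      simp only [mul_ite, mul_one, mul_zero, Finset.sum_ite_eq', Finset.mem_univ, if_true]
      rw [so_skew z d b]
      ring
    have e3 : ∑ a, ∑ b, z.1 a b * (rho T b d * (if a = c then (1 : ℝ) else 0)) =
        ∑ b, z.1 c b * rho T b d := by
      rw [Finset.sum_comm]
      refine Finset.sum_congr rfl fun b _ => ?_
      simp
    have e4 : ∑ a, ∑ b, z.1 a b * (rho T a d * (if b = c then (1 : ℝ) else 0)) =
        -∑ b, z.1 c b * rho T b d := by
      rw [← Finset.sum_neg_distrib]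
      refine Finset.sum_congr rfl fun a _ => ?_
      simp only [mul_ite, mul_one, mul_zero, Finset.sum_ite_eq', Finset.mem_univ, if_true]
      rw [so_skew z a c]
      ring
    calc _ = ∑ a, ∑ b, z.1 a b * (rho T c a * (if b = d then (1 : ℝ) else 0))
          - ∑ a, ∑ b, z.1 a b * (rho T c b * (if a = d then (1 : ℝ) else 0))
          + ∑ a, ∑ b, z.1 a b * (rho T b d * (if a = c then (1 : ℝ) else 0))
          - ∑ a, ∑ b, z.1 a b * (rho T a d * (if b = c then (1 : ℝ) else 0))
          + 1 / ((N : ℝ) - 2) * ∑ a, ∑ b, z.1 a b * (tn T a c d b - tn T a d c b) := by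
            simp only [Finset.mul_sum, ← Finset.sum_sub_distrib, ← Finset.sum_add_distrib]
            refine Finset.sum_congr rfl fun a _ => Finset.sum_congr rfl fun b _ => ?_
            ring
      _ = _ := by
            rw [e1, e2, e3, e4]
            ring
  simp only [h1, hk]
  have f1 : ∑ c, ∑ d, (∑ a, z.1 a d * rho T c a) * z.1 c d = S := by
    rw [hS]
    have : ∀ c d, (∑ a, z.1 a d * rho T c a) * z.1 c d =
        ∑ a, z.1 a d * z.1 c d * rho T c a := by
      intro c d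
      rw [Finset.sum_mul]
      exact Finset.sum_congr rfl fun a _ => by ring
    simp only [this]
    calc ∑ c, ∑ d, ∑ a, z.1 a d * z.1 c d * rho T c a
        = ∑ c, ∑ a, ∑ d, z.1 a d * z.1 c d * rho T c a :=
          Finset.sum_congr rfl fun c _ => Finset.sum_comm
      _ = ∑ a, ∑ c, ∑ d, z.1 a d * z.1 c d * rho T c a := Finset.sum_comm
      _ = ∑ a, ∑ d, ∑ c, z.1 a d * z.1 c d * rho T c a :=
          Finset.sum_congr rfl fun a _ => Finset.sum_comm
  have f2 : ∑ c, ∑ d, (∑ b, z.1 c b * rho T b d) * z.1 c d = S := by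
    rw [hS]
    have : ∀ c d, (∑ b, z.1 c b * rho T b d) * z.1 c d =
        ∑ b, z.1 d c * z.1 b c * rho T b d := by
      intro c d
      rw [Finset.sum_mul]
      refine Finset.sum_congr rfl fun b _ => ?_
      rw [so_skew z c b, so_skew z c d]
      ring
    simp only [this]
    rw [Finset.sum_comm]
  have f3 : ∑ c, ∑ d, (∑ a, ∑ b, z.1 a b * (tn T a c d b - tn T a d c b)) * z.1 c d =
      ∑ a, ∑ b, ∑ c, ∑ d, z.1 a b * z.1 c d * (tn T a c d b - tn T a d c b) := by
    have : ∀ c d, (∑ a, ∑ b, z.1 a b * (tn T a c d b - tn T a d c b)) * z.1 c d =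
        ∑ a, ∑ b, z.1 a b * z.1 c d * (tn T a c d b - tn T a d c b) := by
      intro c d
      rw [Finset.sum_mul]
      refine Finset.sum_congr rfl fun a _ => ?_
      rw [Finset.sum_mul]
      refine Finset.sum_congr rfl fun b _ => ?_
      ring
    simp only [this]
    calc ∑ c, ∑ d, ∑ a, ∑ b, z.1 a b * z.1 c d * (tn T a c d b - tn T a d c b)
        = ∑ c, ∑ a, ∑ d, ∑ b, z.1 a b * z.1 c d * (tn T a c d b - tn T a d c b) :=
          Finset.sum_congr rfl fun c _ => Finset.sum_comm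
      _ = ∑ a, ∑ c, ∑ d, ∑ b, z.1 a b * z.1 c d * (tn T a c d b - tn T a d c b) :=
          Finset.sum_comm
      _ = ∑ a, ∑ c, ∑ b, ∑ d, z.1 a b * z.1 c d * (tn T a c d b - tn T a d c b) :=
          Finset.sum_congr rfl fun a _ => Finset.sum_congr rfl fun c _ => Finset.sum_comm
      _ = ∑ a, ∑ b, ∑ c, ∑ d, z.1 a b * z.1 c d * (tn T a c d b - tn T a d c b) :=
          Finset.sum_congr rfl fun a _ => Finset.sum_comm
  have g1 : ∑ a, ∑ b, ∑ c, z.1 a b * z.1 c b * (∑ j, tn T a j c j) = 2 * ((N : ℝ) - 2) * S := by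
    rw [hS, Finset.mul_sum]
    refine Finset.sum_congr rfl fun a _ => ?_
    rw [Finset.mul_sum]
    refine Finset.sum_congr rfl fun b _ => ?_
    rw [Finset.mul_sum]
    refine Finset.sum_congr rfl fun c _ => ?_
    rw [hρ']
    ring
  have g2 : ∑ c, ∑ d, 1 / 2 * (2 * (∑ a, z.1 a d * rho T c a) + 2 * (∑ b, z.1 c b * rho T b d) +
        1 / ((N : ℝ) - 2) * ∑ a, ∑ b, z.1 a b * (tn T a c d b - tn T a d c b)) * z.1 c d =
      ∑ c, ∑ d, (∑ a, z.1 a d * rho T c a) * z.1 c d +
      ∑ c, ∑ d, (∑ b, z.1 c b * rho T b d) * z.1 c d +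
      1 / (2 * ((N : ℝ) - 2)) *
        ∑ c, ∑ d, (∑ a, ∑ b, z.1 a b * (tn T a c d b - tn T a d c b)) * z.1 c d := by
    rw [Finset.mul_sum, ← Finset.sum_add_distrib, ← Finset.sum_add_distrib]
    refine Finset.sum_congr rfl fun c _ => ?_
    rw [Finset.mul_sum, ← Finset.sum_add_distrib, ← Finset.sum_add_distrib]
    refine Finset.sum_congr rfl fun d _ => ?_
    field_simp
  rw [g1, g2, f1, f2, f3]
  field_simp
  ring

end Pool.Agent.EinU
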