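import Pool.Agent.EinU.SoTH2

/-!
# The form `TH2 (BW A u v 1) β`

By `TH2_comm` and `TH2_BW` it is
`∑ z i k z i c ∑ j w i j t k j c j + ∑ w i j z i c z j k t i k c j`, `t = tn β`, `w = bw A u v 1`; `t a b c d = 0` if an odd
number of the indices is in `A` (`β` symmetric, `CP A β`).  On the other side `Qf (T z) z = (n/2) ∑ z a b z c d tn T a b c d`
(`Qf_so`, `apply_tn`), and the tensors of `Rop`, `Yo`, `rho`, and of the blocks (`tn (T11 A β) a b c d = t a b c d` if all
indices are in `A`, else `0`, ...) are explicit.  Compare coefficients according to the positions of the indices: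
* `i, k, c ∈ A` (first sum): `∑ j ∈ A` gives `u rho (T11 β)`, `∑ j ∉ A` gives `rho (Tp β)`; similarly for `∉ A`;
* `k, c ∈ A`, `i ∉ A`: `∑ j ∈ A` (weight 1) gives `rho (T11 β)`, `∑ j ∉ A` (weight `v`) gives `v • res A (rho (Tp β))`;
  similarly for `k, c ∉ A`, `i ∈ A`;
* second sum: all indices in `A`: `u Yo (T11 β)`; `i, c ∈ A`, `j, k ∉ A`: `T12 (Yo (Tp β))`; `i, j ∈ A`, `k, c ∉ A` (weight
  `u`) and `i, j ∉ A`, `k, c ∈ A` (weight `v`): these two are equal (symmetry of `t`), together `((u+v)/2) Yo (Tp β)`;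
  `i, k ∈ A`, `j, c ∉ A`: `Yo (T12 β)` on `p`.
(Numerically checked.)
-/

namespace Pool.Agent.EinU

open Matrix Pool.Agent.EStab Pool.Agent.EinS Pool.Agent.SmIso LieAlgebra.Orthogonal

variable {N : ℕ}

private theorem SoRep1_F (a b i j : Fin N) : (Fm a b).1 i j =
    (if a = i ∧ b = j then 1 else 0) - (if b = i ∧ a = j then 1 else 0) := by
  show (Matrix.single a b (1 : ℝ) - Matrix.single b a 1 : Matrix (Fin N) (Fin N) ℝ) i j = _
  rw [Matrix.sub_apply, Matrix.single_apply, Matrix.single_apply]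

private theorem SoRep1_BWF (A : Finset (Fin N)) (u v t : ℝ) (a b : Fin N) :
    BW A u v t (Fm a b) = bw A u v t a b • Fm a b := by
  apply Subtype.ext
  ext i j
  rw [BW_apply]
  show bw A u v t i j * (Fm a b).1 i j = bw A u v t a b * (Fm a b).1 i j
  rw [SoRep1_F]
  by_cases h1 : a = i ∧ b = j
  · rw [h1.1, h1.2]
  · by_cases h2 : b = i ∧ a = j
    · rw [h2.1, h2.2, bw_symm A u v t i j]
    · rw [if_neg h1, if_neg h2]
      ring

private theorem SoRep1_tn (A : Finset (Fin N)) (u v t u' v' t' : ℝ)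
    (T : so (Fin N) ℝ →ₗ[ℝ] so (Fin N) ℝ) (a b c d : Fin N) :
    tn (BW A u v t ∘ₗ T ∘ₗ BW A u' v' t') a b c d =
      bw A u v t c d * (bw A u' v' t' a b * tn T a b c d) := by
  unfold tn
  show (BW A u v t (T (BW A u' v' t' (Fm a b)))).1 c d = _
  rw [BW_apply, SoRep1_BWF, map_smul]
  rfl

private theorem SoRep1_add (T U : so (Fin N) ℝ →ₗ[ℝ] so (Fin N) ℝ) (a b c d : Fin N) :
    tn (T + U) a b c d = tn T a b c d + tn U a b c d := rfl

private theorem SoRep1_smul (r : ℝ) (T : so (Fin N) ℝ →ₗ[ℝ] so (Fin N) ℝ) (a b c d : Fin N) :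
    tn (r • T) a b c d = r * tn T a b c d := rfl

private theorem SoRep1_sym {A : Finset (Fin N)} (u v t u' v' t' : ℝ)
    {T : so (Fin N) ℝ →ₗ[ℝ] so (Fin N) ℝ} (hT : QSym T) (x y : so (Fin N) ℝ) :
    Qf (so (Fin N) ℝ) ((BW A u v t ∘ₗ T ∘ₗ BW A u' v' t') x) y =
      Qf (so (Fin N) ℝ) x ((BW A u' v' t' ∘ₗ T ∘ₗ BW A u v t) y) := by
  show Qf (so (Fin N) ℝ) (BW A u v t (T (BW A u' v' t' x))) y =
    Qf (so (Fin N) ℝ) x (BW A u' v' t' (T (BW A u v t y)))
  rw [BW_sym A u v t, hT, BW_sym A u' v' t']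

private theorem SoRep1_sym11 {A : Finset (Fin N)} {T : so (Fin N) ℝ →ₗ[ℝ] so (Fin N) ℝ}
    (hT : QSym T) : QSym (T11 A T) := SoRep1_sym 1 0 0 1 0 0 hT

private theorem SoRep1_sym22 {A : Finset (Fin N)} {T : so (Fin N) ℝ →ₗ[ℝ] so (Fin N) ℝ}
    (hT : QSym T) : QSym (T22 A T) := SoRep1_sym 0 1 0 0 1 0 hT

private theorem SoRep1_symp {A : Finset (Fin N)} {T : so (Fin N) ℝ →ₗ[ℝ] so (Fin N) ℝ}
    (hT : QSym T) : QSym (Tp A T) := SoRep1_sym 0 0 1 0 0 1 hT

private theorem SoRep1_sym12 {A : Finset (Fin N)} {T : so (Fin N) ℝ →ₗ[ℝ] so (Fin N) ℝ}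
    (hT : QSym T) : QSym (T12 A T) := by
  intro x y
  unfold T12
  rw [LinearMap.add_apply, LinearMap.add_apply, map_add, LinearMap.add_apply, map_add,
    SoRep1_sym 1 0 0 0 1 0 hT, SoRep1_sym 0 1 0 1 0 0 hT]
  ring

/-- the sums over four indices -/
private noncomputable def SoRep1_S (z : so (Fin N) ℝ)
    (f : Fin N → Fin N → Fin N → Fin N → ℝ) : ℝ :=
  ∑ a, ∑ b, ∑ c, ∑ d, z.1 a b * z.1 c d * f a b c d

private theorem SoRep1_S_add (z : so (Fin N) ℝ) (f g : Fin N → Fin N → Fin N → Fin N → ℝ) :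
    SoRep1_S z (fun a b c d => f a b c d + g a b c d) = SoRep1_S z f + SoRep1_S z g := by
  unfold SoRep1_S
  simp only [mul_add, Finset.sum_add_distrib]

private theorem SoRep1_S_mul (z : so (Fin N) ℝ) (r : ℝ)
    (f : Fin N → Fin N → Fin N → Fin N → ℝ) :
    SoRep1_S z (fun a b c d => r * f a b c d) = r * SoRep1_S z f := by
  unfold SoRep1_S
  simp only [Finset.mul_sum]
  refine Finset.sum_congr rfl fun a _ => Finset.sum_congr rfl fun b _ =>
    Finset.sum_congr rfl fun c _ => Finset.sum_congr rfl fun d _ => ?_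
  ring

private theorem SoRep1_S_congr (z : so (Fin N) ℝ) {f g : Fin N → Fin N → Fin N → Fin N → ℝ}
    (h : ∀ a b c d, f a b c d = g a b c d) : SoRep1_S z f = SoRep1_S z g := by
  unfold SoRep1_S
  refine Finset.sum_congr rfl fun a _ => Finset.sum_congr rfl fun b _ =>
    Finset.sum_congr rfl fun c _ => Finset.sum_congr rfl fun d _ => ?_
  rw [h]

private theorem SoRep1_Qf (T : so (Fin N) ℝ →ₗ[ℝ] so (Fin N) ℝ) (z : so (Fin N) ℝ) :
    Qf (so (Fin N) ℝ) (T z) z = ((N : ℝ) - 2) / 2 * SoRep1_S z (tn T) := by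
  rw [Qf_so]
  have : ∀ c d, (T z).1 c d * z.1 c d =
      (1 / 2) * ∑ a, ∑ b, z.1 a b * z.1 c d * tn T a b c d := by
    intro c d
    rw [apply_tn, mul_assoc, Finset.sum_mul]
    congr 1
    refine Finset.sum_congr rfl fun a _ => ?_
    rw [Finset.sum_mul]
    refine Finset.sum_congr rfl fun b _ => ?_
    ring
  simp only [this, ← Finset.mul_sum]
  unfold SoRep1_S
  have e : ∑ c, ∑ d, ∑ a, ∑ b, z.1 a b * z.1 c d * tn T a b c d =
      ∑ a, ∑ b, ∑ c, ∑ d, z.1 a b * z.1 c d * tn T a b c d := by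
    calc ∑ c, ∑ d, ∑ a, ∑ b, z.1 a b * z.1 c d * tn T a b c d
        = ∑ c, ∑ a, ∑ d, ∑ b, z.1 a b * z.1 c d * tn T a b c d :=
          Finset.sum_congr rfl fun c _ => Finset.sum_comm
      _ = ∑ a, ∑ c, ∑ d, ∑ b, z.1 a b * z.1 c d * tn T a b c d := Finset.sum_comm
      _ = ∑ a, ∑ c, ∑ b, ∑ d, z.1 a b * z.1 c d * tn T a b c d :=
          Finset.sum_congr rfl fun a _ => Finset.sum_congr rfl fun c _ => Finset.sum_comm
      _ = ∑ a, ∑ b, ∑ c, ∑ d, z.1 a b * z.1 c d * tn T a b c d :=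
          Finset.sum_congr rfl fun a _ => Finset.sum_comm
  rw [e]
  ring

/-- the part of `Rop` -/
private theorem SoRep1_R (z : so (Fin N) ℝ) (B w : Fin N → Fin N → ℝ)
    (hB : ∀ a b, B a b = B b a) (hw : ∀ a b, w a b = w b a) :
    SoRep1_S z (fun a b c d => B a b * B c d * (w c a * (if b = d then 1 else 0) -
      w c b * (if a = d then 1 else 0) + w b d * (if a = c then 1 else 0) -
      w a d * (if b = c then 1 else 0))) =
    4 * ∑ i, ∑ k, ∑ c, z.1 i k * z.1 i c * (B i k * B i c * w k c) := by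
  obtain ⟨S, hS⟩ : ∃ S : ℝ, S = ∑ i, ∑ k, ∑ c, z.1 i k * z.1 i c * (B i k * B i c * w k c) :=
    ⟨_, rfl⟩
  rw [← hS]
  have e1 : SoRep1_S z (fun a b c d => B a b * B c d * w c a * (if b = d then 1 else 0)) = S := by
    unfold SoRep1_S
    rw [hS, Finset.sum_comm]
    refine Finset.sum_congr rfl fun b _ => Finset.sum_congr rfl fun a _ =>
      Finset.sum_congr rfl fun c _ => ?_
    simp only [mul_ite, mul_one, mul_zero, Finset.sum_ite_eq, Finset.mem_univ, if_true]
    rw [so_skew z a b, so_skew z c b, hB a b, hB c b, hw c a]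
    ring
  have e2 : SoRep1_S z (fun a b c d => B a b * B c d * w c b * (if a = d then 1 else 0)) = -S := by
    unfold SoRep1_S
    rw [hS, ← Finset.sum_neg_distrib]
    refine Finset.sum_congr rfl fun a _ => ?_
    rw [← Finset.sum_neg_distrib]
    refine Finset.sum_congr rfl fun b _ => ?_
    rw [← Finset.sum_neg_distrib]
    refine Finset.sum_congr rfl fun c _ => ?_
    simp only [mul_ite, mul_one, mul_zero, Finset.sum_ite_eq, Finset.mem_univ, if_true]
    rw [so_skew z c a, hB c a, hw c b]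
    ring
  have e3 : SoRep1_S z (fun a b c d => B a b * B c d * w b d * (if a = c then 1 else 0)) = S := by
    unfold SoRep1_S
    rw [hS]
    refine Finset.sum_congr rfl fun a _ => Finset.sum_congr rfl fun b _ => ?_
    rw [Finset.sum_comm]
    refine Finset.sum_congr rfl fun d _ => ?_
    simp only [mul_ite, mul_one, mul_zero, Finset.sum_ite_eq, Finset.mem_univ, if_true]
  have e4 : SoRep1_S z (fun a b c d => B a b * B c d * w a d * (if b = c then 1 else 0)) = -S := by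
    unfold SoRep1_S
    rw [hS, Finset.sum_comm, ← Finset.sum_neg_distrib]
    refine Finset.sum_congr rfl fun b _ => ?_
    rw [← Finset.sum_neg_distrib]
    refine Finset.sum_congr rfl fun a _ => ?_
    rw [← Finset.sum_neg_distrib, Finset.sum_comm]
    refine Finset.sum_congr rfl fun d _ => ?_
    simp only [mul_ite, mul_one, mul_zero, Finset.sum_ite_eq, Finset.mem_univ, if_true]
    rw [so_skew z a b, hB a b]
    ring
  have e5 : ∀ a b c d : Fin N, B a b * B c d * (w c a * (if b = d then 1 else 0) -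
      w c b * (if a = d then 1 else 0) + w b d * (if a = c then 1 else 0) -
      w a d * (if b = c then 1 else 0)) =
      (B a b * B c d * w c a * (if b = d then 1 else 0) +
      (-1) * (B a b * B c d * w c b * (if a = d then 1 else 0))) +
      (B a b * B c d * w b d * (if a = c then 1 else 0) +
      (-1) * (B a b * B c d * w a d * (if b = c then 1 else 0))) := by
    intro a b c d
    ring
  rw [SoRep1_S_congr z e5, SoRep1_S_add, SoRep1_S_add, SoRep1_S_add, SoRep1_S_mul, SoRep1_S_mul,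
    e1, e2, e3, e4]
  ring

/-- the part of `Yo` -/
private theorem SoRep1_Y (z : so (Fin N) ℝ) (g : Fin N → Fin N → Fin N → Fin N → ℝ) :
    SoRep1_S z (fun a b c d => g a b c d - g a b d c) = 2 * SoRep1_S z g := by
  have e1 : SoRep1_S z (fun a b c d => g a b d c) = - SoRep1_S z g := by
    unfold SoRep1_S
    rw [← Finset.sum_neg_distrib]
    refine Finset.sum_congr rfl fun a _ => ?_
    rw [← Finset.sum_neg_distrib]
    refine Finset.sum_congr rfl fun b _ => ?_
    rw [Finset.sum_comm, ← Finset.sum_neg_distrib]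
    refine Finset.sum_congr rfl fun c _ => ?_
    rw [← Finset.sum_neg_distrib]
    refine Finset.sum_congr rfl fun d _ => ?_
    rw [so_skew z d c]
    ring
  have e2 : ∀ a b c d, g a b c d - g a b d c = g a b c d + (-1) * g a b d c := by
    intro a b c d
    ring
  rw [SoRep1_S_congr z e2, SoRep1_S_add, SoRep1_S_mul, e1]
  ring

/-- the symmetry of the sums -/
private theorem SoRep1_anti (z : so (Fin N) ℝ) {f : Fin N → Fin N → Fin N → Fin N → ℝ}
    (h : ∀ a b c d, f b a d c = - f a b c d) : SoRep1_S z f = 0 := by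
  have e1 : SoRep1_S z (fun a b c d => f b a d c) = SoRep1_S z f := by
    unfold SoRep1_S
    rw [Finset.sum_comm]
    refine Finset.sum_congr rfl fun a _ => Finset.sum_congr rfl fun b _ => ?_
    rw [Finset.sum_comm]
    refine Finset.sum_congr rfl fun c _ => Finset.sum_congr rfl fun d _ => ?_
    rw [so_skew z b a, so_skew z d c]
    ring
  have e2 : ∀ a b c d, f b a d c = (-1) * f a b c d := by
    intro a b c d
    rw [h]
    ring
  rw [SoRep1_S_congr z e2, SoRep1_S_mul] at e1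
  linarith

theorem TH2_rep (hN : 3 ≤ N) (A : Finset (Fin N)) (u v : ℝ)
    {β : so (Fin N) ℝ →ₗ[ℝ] so (Fin N) ℝ} (hβ : QSym β) (hc : CP A β) (z : so (Fin N) ℝ) :
    TH2 (BW A u v 1) β z z = Qf (so (Fin N) ℝ) (THo A u v β z) z := by
  have hN3 : (3 : ℝ) ≤ N := by exact_mod_cast hN
  have hn : ((N : ℝ) - 2) ≠ 0 := by
    intro h
    linarith
  have hts : TSym (tn β) := tn_sym hN hβ
  -- the vanishing
  have hv : ∀ a b c d, bw A 0 0 1 a b * tn β a b c d = bw A 0 0 1 c d * tn β a b c d := by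
    intro a b c d
    have h1 := hc (Fm a b)
    rw [SoRep1_BWF, map_smul] at h1
    have h2 := congrFun (congrFun (congrArg Subtype.val h1) c) d
    rw [BW_apply] at h2
    exact h2
  rw [TH2_comm hN (BW_sym A u v 1) hβ, TH2_BW hN A u v 1 hβ, SoRep1_Qf]
  -- the tensor of the operator
  have e11 : ∀ a b c d, tn (T11 A β) a b c d =
      bw A 1 0 0 c d * (bw A 1 0 0 a b * tn β a b c d) := SoRep1_tn A 1 0 0 1 0 0 β
  have e22 : ∀ a b c d, tn (T22 A β) a b c d =
      bw A 0 1 0 c d * (bw A 0 1 0 a b * tn β a b c d) := SoRep1_tn A 0 1 0 0 1 0 β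
  have ep : ∀ a b c d, tn (Tp A β) a b c d =
      bw A 0 0 1 c d * (bw A 0 0 1 a b * tn β a b c d) := SoRep1_tn A 0 0 1 0 0 1 β
  have e12 : ∀ a b c d, tn (T12 A β) a b c d =
      bw A 1 0 0 c d * (bw A 0 1 0 a b * tn β a b c d) +
      bw A 0 1 0 c d * (bw A 1 0 0 a b * tn β a b c d) := by
    intro a b c d
    unfold T12
    rw [SoRep1_add, SoRep1_tn, SoRep1_tn]
  have hr11 : ∀ a b, rho (T11 A β) a b = rho (T11 A β) b a := fun a b =>
    (rho_symm hN (SoRep1_sym11 hβ)).apply b a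
  have hr22 : ∀ a b, rho (T22 A β) a b = rho (T22 A β) b a := fun a b =>
    (rho_symm hN (SoRep1_sym22 hβ)).apply b a
  have hrp : ∀ a b, rho (Tp A β) a b = rho (Tp A β) b a := fun a b =>
    (rho_symm hN (SoRep1_symp hβ)).apply b a
  have s11 := rho_symm hN (SoRep1_sym11 (A := A) hβ)
  have s22 := rho_symm hN (SoRep1_sym22 (A := A) hβ)
  have sp := rho_symm hN (SoRep1_symp (A := A) hβ)
  obtain ⟨g, hg⟩ : ∃ g : Fin N → Fin N → Fin N → Fin N → ℝ, ∀ a b c d, g a b c d =
      bw A 1 0 0 c d * bw A 1 0 0 a b * (u * tn (T11 A β) a c d b) +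
      bw A 0 1 0 c d * bw A 0 1 0 a b * (v * tn (T22 A β) a c d b) +
      (bw A 1 0 0 c d * bw A 0 1 0 a b + bw A 0 1 0 c d * bw A 1 0 0 a b) *
        tn (Tp A β) a c d b +
      bw A 0 0 1 c d * bw A 0 0 1 a b * (tn (T12 A β) a c d b +
        (u + v) / 2 * tn (Tp A β) a c d b) := ⟨_, fun _ _ _ _ => rfl⟩
  have hT : ∀ a b c d, tn (THo A u v β) a b c d =
      ((bw A 1 0 0 a b * bw A 1 0 0 c d *
        ((u * rho (T11 A β) c a + rho (Tp A β) c a) * (if b = d then 1 else 0) -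
        (u * rho (T11 A β) c b + rho (Tp A β) c b) * (if a = d then 1 else 0) +
        (u * rho (T11 A β) b d + rho (Tp A β) b d) * (if a = c then 1 else 0) -
        (u * rho (T11 A β) a d + rho (Tp A β) a d) * (if b = c then 1 else 0)) +
      bw A 0 1 0 a b * bw A 0 1 0 c d *
        ((v * rho (T22 A β) c a + rho (Tp A β) c a) * (if b = d then 1 else 0) -
        (v * rho (T22 A β) c b + rho (Tp A β) c b) * (if a = d then 1 else 0) +
        (v * rho (T22 A β) b d + rho (Tp A β) b d) * (if a = c then 1 else 0) -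
        (v * rho (T22 A β) a d + rho (Tp A β) a d) * (if b = c then 1 else 0))) +
      bw A 0 0 1 a b * bw A 0 0 1 c d *
        ((rho (T11 A β) c a + rho (T22 A β) c a + u * res Aᶜ (rho (Tp A β)) c a +
          v * res A (rho (Tp A β)) c a) * (if b = d then 1 else 0) -
        (rho (T11 A β) c b + rho (T22 A β) c b + u * res Aᶜ (rho (Tp A β)) c b +
          v * res A (rho (Tp A β)) c b) * (if a = d then 1 else 0) +
        (rho (T11 A β) b d + rho (T22 A β) b d + u * res Aᶜ (rho (Tp A β)) b d +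
          v * res A (rho (Tp A β)) b d) * (if a = c then 1 else 0) -
        (rho (T11 A β) a d + rho (T22 A β) a d + u * res Aᶜ (rho (Tp A β)) a d +
          v * res A (rho (Tp A β)) a d) * (if b = c then 1 else 0))) +
      1 / ((N : ℝ) - 2) * (g a b c d - g a b d c) := by
    intro a b c d
    have q1 : ∀ T : so (Fin N) ℝ →ₗ[ℝ] so (Fin N) ℝ, tn (T11 A T) a b c d =
      bw A 1 0 0 c d * (bw A 1 0 0 a b * tn T a b c d) :=
      fun T => SoRep1_tn A 1 0 0 1 0 0 T a b c d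
    have q2 : ∀ T : so (Fin N) ℝ →ₗ[ℝ] so (Fin N) ℝ, tn (T22 A T) a b c d =
      bw A 0 1 0 c d * (bw A 0 1 0 a b * tn T a b c d) :=
      fun T => SoRep1_tn A 0 1 0 0 1 0 T a b c d
    have q3 : ∀ T : so (Fin N) ℝ →ₗ[ℝ] so (Fin N) ℝ, tn (Tp A T) a b c d =
      bw A 0 0 1 c d * (bw A 0 0 1 a b * tn T a b c d) :=
      fun T => SoRep1_tn A 0 0 1 0 0 1 T a b c d
    have q4 : ∀ T : so (Fin N) ℝ →ₗ[ℝ] so (Fin N) ℝ, tn (T12 A T) a b c d =
      bw A 1 0 0 c d * (bw A 0 1 0 a b * tn T a b c d) +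
      bw A 0 1 0 c d * (bw A 1 0 0 a b * tn T a b c d) := by
      intro T
      unfold T12
      rw [SoRep1_add, SoRep1_tn, SoRep1_tn]
    rw [hg, hg]
    unfold THo
    rw [SoRep1_add, SoRep1_add, SoRep1_add, q1, q2, q3, q4]
    simp only [SoRep1_add, SoRep1_smul]
    rw [tn_Rop s11, tn_Rop s22, tn_Rop sp, tn_Rop (res_symm A sp), tn_Rop (res_symm Aᶜ sp),
      tn_Yo hN (SoRep1_sym11 hβ), tn_Yo hN (SoRep1_sym22 hβ), tn_Yo hN (SoRep1_sym12 hβ),
      tn_Yo hN (SoRep1_symp hβ)]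
    rw [bw_symm A 1 0 0 d c, bw_symm A 0 1 0 d c, bw_symm A 0 0 1 d c]
    ring
  rw [SoRep1_S_congr z hT, SoRep1_S_add, SoRep1_S_add, SoRep1_S_add, SoRep1_S_mul, SoRep1_Y]
  rw [SoRep1_R z (bw A 1 0 0) (fun a c => u * rho (T11 A β) a c + rho (Tp A β) a c)
    (bw_symm A 1 0 0) (fun a c => by rw [hr11 a c, hrp a c])]
  rw [SoRep1_R z (bw A 0 1 0) (fun a c => v * rho (T22 A β) a c + rho (Tp A β) a c)
    (bw_symm A 0 1 0) (fun a c => by rw [hr22 a c, hrp a c])]
  rw [SoRep1_R z (bw A 0 0 1) (fun a c => rho (T11 A β) a c + rho (T22 A β) a c +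
    u * res Aᶜ (rho (Tp A β)) a c + v * res A (rho (Tp A β)) a c)
    (bw_symm A 0 0 1) (fun a c => by
      rw [hr11 a c, hr22 a c, (res_symm A sp).apply c a, (res_symm Aᶜ sp).apply c a])]
  -- first sum
  have f1 : ∑ i, ∑ k, ∑ c, z.1 i k * z.1 i c * (∑ j, bw A u v 1 i j * tn β k j c j) =
      ((N : ℝ) - 2) / 2 * (4 * ∑ i, ∑ k, ∑ c, z.1 i k * z.1 i c * (bw A 1 0 0 i k *
        bw A 1 0 0 i c * (u * rho (T11 A β) k c + rho (Tp A β) k c)) +
      4 * ∑ i, ∑ k, ∑ c, z.1 i k * z.1 i c * (bw A 0 1 0 i k *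
        bw A 0 1 0 i c * (v * rho (T22 A β) k c + rho (Tp A β) k c)) +
      4 * ∑ i, ∑ k, ∑ c, z.1 i k * z.1 i c * (bw A 0 0 1 i k *
        bw A 0 0 1 i c * (rho (T11 A β) k c + rho (T22 A β) k c +
        u * res Aᶜ (rho (Tp A β)) k c + v * res A (rho (Tp A β)) k c))) := by
    simp only [Finset.mul_sum, ← Finset.sum_add_distrib]
    refine Finset.sum_congr rfl fun i _ => Finset.sum_congr rfl fun k _ =>
      Finset.sum_congr rfl fun c _ => ?_
    have h11 : rho (T11 A β) k c = 1 / (2 * ((N : ℝ) - 2)) * ∑ j, bw A 1 0 0 c j *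
        (bw A 1 0 0 k j * tn β k j c j) := by
      unfold rho
      rw [of_apply]
      simp only [e11]
    have h22 : rho (T22 A β) k c = 1 / (2 * ((N : ℝ) - 2)) * ∑ j, bw A 0 1 0 c j *
        (bw A 0 1 0 k j * tn β k j c j) := by
      unfold rho
      rw [of_apply]
      simp only [e22]
    have hpp : rho (Tp A β) k c = 1 / (2 * ((N : ℝ) - 2)) * ∑ j, bw A 0 0 1 c j *
        (bw A 0 0 1 k j * tn β k j c j) := by
      unfold rho
      rw [of_apply]
      simp only [ep]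
    have hres : ∀ B : Finset (Fin N), res B (rho (Tp A β)) k c =
        (if k ∈ B ∧ c ∈ B then 1 else 0) * rho (Tp A β) k c := by
      intro B
      unfold res
      rw [of_apply]
      split_ifs <;> simp
    rw [hres, hres, h11, h22, hpp]
    obtain ⟨X1, hX1⟩ : ∃ X : ℝ, X = ∑ j, bw A 1 0 0 c j * (bw A 1 0 0 k j * tn β k j c j) :=
      ⟨_, rfl⟩
    obtain ⟨X2, hX2⟩ : ∃ X : ℝ, X = ∑ j, bw A 0 1 0 c j * (bw A 0 1 0 k j * tn β k j c j) :=
      ⟨_, rfl⟩
    obtain ⟨X3, hX3⟩ : ∃ X : ℝ, X = ∑ j, bw A 0 0 1 c j * (bw A 0 0 1 k j * tn β k j c j) :=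
      ⟨_, rfl⟩
    rw [← hX1, ← hX2, ← hX3]
    have hsum : ∑ j, bw A u v 1 i j * tn β k j c j =
        bw A 1 0 0 i k * bw A 1 0 0 i c * (u * X1 + X3) +
        bw A 0 1 0 i k * bw A 0 1 0 i c * (v * X2 + X3) +
        bw A 0 0 1 i k * bw A 0 0 1 i c * (X1 + X2 +
          u * ((if k ∈ Aᶜ ∧ c ∈ Aᶜ then 1 else 0) * X3) +
          v * ((if k ∈ A ∧ c ∈ A then 1 else 0) * X3)) := by
      rw [hX1, hX2, hX3]
      simp only [Finset.mul_sum, ← Finset.sum_add_distrib]
      refine Finset.sum_congr rfl fun j _ => ?_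
      have h := hv k j c j
      unfold bw at h ⊢
      by_cases hi : i ∈ A <;> by_cases hk : k ∈ A <;> by_cases hc' : c ∈ A <;>
        by_cases hj : j ∈ A <;> simp [hi, hk, hc', hj] at h ⊢ <;> simp [h]
    rw [← Finset.mul_sum, hsum]
    field_simp
    ring
  -- second sum
  have f2 : ∑ i, ∑ j, ∑ k, ∑ c, bw A u v 1 i j * (z.1 i c * z.1 j k * tn β i k c j) =
      SoRep1_S z (fun a b c d => bw A u v 1 a d * tn β a c d b) := by
    unfold SoRep1_S
    refine Finset.sum_congr rfl fun a _ => ?_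
    calc ∑ d, ∑ c, ∑ b, bw A u v 1 a d * (z.1 a b * z.1 d c * tn β a c b d)
        = ∑ d, ∑ b, ∑ c, bw A u v 1 a d * (z.1 a b * z.1 d c * tn β a c b d) :=
          Finset.sum_congr rfl fun d _ => Finset.sum_comm
      _ = ∑ b, ∑ d, ∑ c, bw A u v 1 a d * (z.1 a b * z.1 d c * tn β a c b d) :=
          Finset.sum_comm
      _ = ∑ b, ∑ c, ∑ d, bw A u v 1 a d * (z.1 a b * z.1 d c * tn β a c b d) :=
          Finset.sum_congr rfl fun b _ => Finset.sum_comm
      _ = _ := by
          refine Finset.sum_congr rfl fun b _ => Finset.sum_congr rfl fun c _ =>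
            Finset.sum_congr rfl fun d _ => ?_
          rw [so_skew z d c, hts.s2 a c d b]
          ring
  have f3 : SoRep1_S z (fun a b c d => bw A u v 1 a d * tn β a c d b + (-1) * g a b c d) = 0 := by
    apply SoRep1_anti
    intro a b c d
    have ht : tn β b d c a = tn β a c d b := by
      rw [← hts.s3, hts.s1 a c b d, hts.s2 a c d b]
      ring
    have h := hv a c d b
    rw [hg, hg, e11, e11, e22, e22, ep, ep, e12, e12, ht]
    generalize tn β a c d b = t at h ⊢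
    unfold bw at h ⊢
    by_cases ha : a ∈ A <;> by_cases hb : b ∈ A <;> by_cases hc' : c ∈ A <;>
      by_cases hd : d ∈ A <;> simp [ha, hb, hc', hd] at h ⊢ <;> (try subst h) <;> (try ring)
  rw [SoRep1_S_add, SoRep1_S_mul] at f3
  rw [f1, f2]
  have f4 : SoRep1_S z (fun a b c d => bw A u v 1 a d * tn β a c d b) = SoRep1_S z g := by
    have : SoRep1_S z (fun a b c d => g a b c d) = SoRep1_S z g := rfl
    rw [this] at f3
    linarith
  rw [f4]
  have : SoRep1_S z (fun a b c d => g a b c d) = SoRep1_S z g := rfl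
  rw [this]
  field_simp

end Pool.Agent.EinU
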