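import Pool.Agent.EinU.SoY
import Pool.Agent.EinU.SoNB

/-!
# The contracted equations

All are identities of finite sums (`tn_Rop`, `tn_Yo`, tensors of the blocks); `n = N - 2`, `rho T i j = (1/(2n)) ∑ k, tn T i k j k`.
For `i, j ∈ A`:
* `rho (T11 (Rop u)) i j = (1/(2n)) ((m₁ - 2) u i j + trA A u δ_ij)` (`u` symmetric);
* `rho (Tp (Rop u)) i j = (1/(2n)) (m₂ u i j + trA Aᶜ u δ_ij)`, if `u` vanishes between `A` and `Aᶜ`;
* `rho (Yo T) i j = -(1/n) rho T i j`; `rho (Tp (Yo (Tp β))) i j = -(1/n) rho (Tp β) i j`; `rho (Yo (T12 β)) = 0`,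
  `rho (T12 ..) = 0` (`tn T a b c c = 0`);
* `rho (T11 β)` vanishes outside `A × A`, `rho (T22 β)` outside `Aᶜ × Aᶜ`, `rho (Tp β)` between `A` and `Aᶜ`.
`trA A (rho (Tp β)) = trA Aᶜ (rho (Tp β))`: both are `(1/(2n)) ∑ i ∈ A, ∑ k ∉ A, tn β i k i k`.
(Numerically checked.)
-/

namespace Pool.Agent.EinU

open Matrix Pool.Agent.EStab Pool.Agent.EinS Pool.Agent.SmIso LieAlgebra.Orthogonal

/-- The contracted equations. -/
structure RSys {N : ℕ} (A : Finset (Fin N)) (x1 x2 y1 y2 lam mu s : ℝ)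
    (r1 r2 a G1 G2 H : Matrix (Fin N) (Fin N) ℝ) : Prop where
  sr1 : r1.IsSymm
  sr2 : r2.IsSymm
  sa : a.IsSymm
  sG1 : G1.IsSymm
  sG2 : G2.IsSymm
  sH : H.IsSymm
  r1A : ∀ i j, ¬(i ∈ A ∧ j ∈ A) → r1 i j = 0
  r2A : ∀ i j, ¬(i ∉ A ∧ j ∉ A) → r2 i j = 0
  aA : ∀ i j, ¬(i ∈ A ↔ j ∈ A) → a i j = 0
  tr : trA A a = trA Aᶜ a
  e1 : ∀ i ∈ A, ∀ j ∈ A, G1 i j = -lam * r1 i j +
    y1 / (4 * ((N : ℝ) - 2)) * (((A.card : ℝ) - 4) * r1 i j + trA A r1 * (if i = j then 1 else 0)) +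
    1 / (4 * ((N : ℝ) - 2)) * (((A.card : ℝ) - 2) * a i j + trA A a * (if i = j then 1 else 0))
  e2 : ∀ i, i ∉ A → ∀ j, j ∉ A → G2 i j = -lam * r2 i j +
    y2 / (4 * ((N : ℝ) - 2)) *
      (((N : ℝ) - A.card - 4) * r2 i j + trA Aᶜ r2 * (if i = j then 1 else 0)) +
    1 / (4 * ((N : ℝ) - 2)) *
      (((N : ℝ) - A.card - 2) * a i j + trA Aᶜ a * (if i = j then 1 else 0))
  e3 : ∀ i ∈ A, ∀ j ∈ A, H i j = -mu * a i j +
    1 / (4 * ((N : ℝ) - 2)) * (((N : ℝ) - A.card) * x1 ^ 2 * r1 i j +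
      x2 ^ 2 * trA Aᶜ r2 * (if i = j then 1 else 0)) -
    (x1 / 2 - y1) / (2 * ((N : ℝ) - 2)) * trA Aᶜ a * (if i = j then 1 else 0) -
    (x2 / 2 - y2) / (2 * ((N : ℝ) - 2)) * ((N : ℝ) - A.card) * a i j +
    (x1 / 2 - y1 + (x2 / 2 - y2)) / (2 * ((N : ℝ) - 2)) * a i j
  e4 : ∀ i, i ∉ A → ∀ j, j ∉ A → H i j = -mu * a i j +
    1 / (4 * ((N : ℝ) - 2)) * ((A.card : ℝ) * x2 ^ 2 * r2 i j +
      x1 ^ 2 * trA A r1 * (if i = j then 1 else 0)) -
    (x2 / 2 - y2) / (2 * ((N : ℝ) - 2)) * trA A a * (if i = j then 1 else 0) -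
    (x1 / 2 - y1) / (2 * ((N : ℝ) - 2)) * (A.card : ℝ) * a i j +
    (x1 / 2 - y1 + (x2 / 2 - y2)) / (2 * ((N : ℝ) - 2)) * a i j
  bG1 : MB G1 s
  bG2 : MB G2 s
  bH : MB H s

variable {N : ℕ}

private theorem SoRho_Fm (a b i j : Fin N) : (Fm a b).1 i j =
    (if a = i ∧ b = j then 1 else 0) - (if b = i ∧ a = j then 1 else 0) := by
  show (Matrix.single a b (1 : ℝ) - Matrix.single b a 1 : Matrix (Fin N) (Fin N) ℝ) i j = _
  rw [Matrix.sub_apply, Matrix.single_apply, Matrix.single_apply]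

private theorem SoRho_BW_Fm (A : Finset (Fin N)) (u v t : ℝ) (a b : Fin N) :
    BW A u v t (Fm a b) = bw A u v t a b • Fm a b := by
  apply Subtype.ext
  ext i j
  rw [BW_apply]
  show bw A u v t i j * (Fm a b).1 i j = bw A u v t a b * (Fm a b).1 i j
  rw [SoRho_Fm]
  by_cases h1 : a = i ∧ b = j
  · obtain ⟨rfl, rfl⟩ := h1
    rfl
  · by_cases h2 : b = i ∧ a = j
    · obtain ⟨rfl, rfl⟩ := h2
      rw [bw_symm]
    · rw [if_neg h1, if_neg h2]
      ring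

private theorem SoRho_tnBW (A : Finset (Fin N)) (u v t u' v' t' : ℝ)
    (β : so (Fin N) ℝ →ₗ[ℝ] so (Fin N) ℝ) (a b c d : Fin N) :
    tn (BW A u v t ∘ₗ β ∘ₗ BW A u' v' t') a b c d =
      bw A u v t c d * bw A u' v' t' a b * tn β a b c d := by
  show (BW A u v t (β (BW A u' v' t' (Fm a b)))).1 c d = _
  rw [BW_apply, SoRho_BW_Fm, map_smul]
  show bw A u v t c d * (bw A u' v' t' a b * (β (Fm a b)).1 c d) = _
  unfold tn
  ring

private theorem SoRho_tn_add (S T : so (Fin N) ℝ →ₗ[ℝ] so (Fin N) ℝ) (a b c d : Fin N) :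
    tn (S + T) a b c d = tn S a b c d + tn T a b c d := rfl

private theorem SoRho_tn_sub (S T : so (Fin N) ℝ →ₗ[ℝ] so (Fin N) ℝ) (a b c d : Fin N) :
    tn (S - T) a b c d = tn S a b c d - tn T a b c d := rfl

private theorem SoRho_tn_smul (r : ℝ) (T : so (Fin N) ℝ →ₗ[ℝ] so (Fin N) ℝ) (a b c d : Fin N) :
    tn (r • T) a b c d = r * tn T a b c d := rfl

private theorem SoRho_tn11 (A : Finset (Fin N)) (β : so (Fin N) ℝ →ₗ[ℝ] so (Fin N) ℝ)
    (a b c d : Fin N) :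
    tn (T11 A β) a b c d = bw A 1 0 0 c d * bw A 1 0 0 a b * tn β a b c d :=
  SoRho_tnBW A 1 0 0 1 0 0 β a b c d

private theorem SoRho_tn22 (A : Finset (Fin N)) (β : so (Fin N) ℝ →ₗ[ℝ] so (Fin N) ℝ)
    (a b c d : Fin N) :
    tn (T22 A β) a b c d = bw A 0 1 0 c d * bw A 0 1 0 a b * tn β a b c d :=
  SoRho_tnBW A 0 1 0 0 1 0 β a b c d

private theorem SoRho_tnp (A : Finset (Fin N)) (β : so (Fin N) ℝ →ₗ[ℝ] so (Fin N) ℝ)
    (a b c d : Fin N) :
    tn (Tp A β) a b c d = bw A 0 0 1 c d * bw A 0 0 1 a b * tn β a b c d :=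
  SoRho_tnBW A 0 0 1 0 0 1 β a b c d

private theorem SoRho_tn12 (A : Finset (Fin N)) (β : so (Fin N) ℝ →ₗ[ℝ] so (Fin N) ℝ)
    (a b c d : Fin N) :
    tn (T12 A β) a b c d = bw A 1 0 0 c d * bw A 0 1 0 a b * tn β a b c d +
      bw A 0 1 0 c d * bw A 1 0 0 a b * tn β a b c d := by
  unfold T12
  rw [SoRho_tn_add, SoRho_tnBW, SoRho_tnBW]

private theorem SoRho_rho (T : so (Fin N) ℝ →ₗ[ℝ] so (Fin N) ℝ) (i j : Fin N) :
    rho T i j = 1 / (2 * ((N : ℝ) - 2)) * ∑ k, tn T i k j k := rfl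

/-- bw values -/
private theorem SoRho_bw_mm (A : Finset (Fin N)) (u v t : ℝ) {a b : Fin N} (ha : a ∈ A)
    (hb : b ∈ A) : bw A u v t a b = u := by simp [bw, ha, hb]

private theorem SoRho_bw_nn (A : Finset (Fin N)) (u v t : ℝ) {a b : Fin N} (ha : a ∉ A)
    (hb : b ∉ A) : bw A u v t a b = v := by simp [bw, ha, hb]

private theorem SoRho_bw_mn (A : Finset (Fin N)) (u v t : ℝ) {a b : Fin N} (ha : a ∈ A)
    (hb : b ∉ A) : bw A u v t a b = t := by simp [bw, ha, hb]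

private theorem SoRho_bw_nm (A : Finset (Fin N)) (u v t : ℝ) {a b : Fin N} (ha : a ∉ A)
    (hb : b ∈ A) : bw A u v t a b = t := by simp [bw, ha, hb]

private theorem SoRho_QSym_add {S T : so (Fin N) ℝ →ₗ[ℝ] so (Fin N) ℝ} (hS : QSym S)
    (hT : QSym T) : QSym (S + T) := by
  intro x y
  have h1 := hS x y
  have h2 := hT x y
  rw [LinearMap.add_apply, LinearMap.add_apply]
  rw [Qf_so] at h1 h2 ⊢
  rw [Qf_so] at h1 h2 ⊢
  have e1 : ∑ a, ∑ b, (S x + T x).1 a b * y.1 a b =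
      ∑ a, ∑ b, (S x).1 a b * y.1 a b + ∑ a, ∑ b, (T x).1 a b * y.1 a b := by
    rw [← Finset.sum_add_distrib]
    refine Finset.sum_congr rfl fun a _ => ?_
    rw [← Finset.sum_add_distrib]
    refine Finset.sum_congr rfl fun b _ => ?_
    exact add_mul _ _ _
  have e2 : ∑ a, ∑ b, x.1 a b * (S y + T y).1 a b =
      ∑ a, ∑ b, x.1 a b * (S y).1 a b + ∑ a, ∑ b, x.1 a b * (T y).1 a b := by
    rw [← Finset.sum_add_distrib]
    refine Finset.sum_congr rfl fun a _ => ?_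
    rw [← Finset.sum_add_distrib]
    refine Finset.sum_congr rfl fun b _ => ?_
    exact mul_add _ _ _
  rw [e1, e2, mul_add, mul_add, h1, h2]

private theorem SoRho_QSym_smul {T : so (Fin N) ℝ →ₗ[ℝ] so (Fin N) ℝ} (r : ℝ)
    (hT : QSym T) : QSym (r • T) := by
  intro x y
  have h2 := hT x y
  rw [LinearMap.smul_apply, LinearMap.smul_apply]
  rw [Qf_so] at h2 ⊢
  rw [Qf_so] at h2 ⊢
  have e1 : ∑ a, ∑ b, (r • T x).1 a b * y.1 a b = r * ∑ a, ∑ b, (T x).1 a b * y.1 a b := by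
    rw [Finset.mul_sum]
    refine Finset.sum_congr rfl fun a _ => ?_
    rw [Finset.mul_sum]
    refine Finset.sum_congr rfl fun b _ => ?_
    exact mul_assoc _ _ _
  have e2 : ∑ a, ∑ b, x.1 a b * (r • T y).1 a b = r * ∑ a, ∑ b, x.1 a b * (T y).1 a b := by
    rw [Finset.mul_sum]
    refine Finset.sum_congr rfl fun a _ => ?_
    rw [Finset.mul_sum]
    refine Finset.sum_congr rfl fun b _ => ?_
    exact mul_left_comm _ _ _
  rw [e1, e2, mul_left_comm, h2, mul_left_comm]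

private theorem SoRho_QSym_sub {S T : so (Fin N) ℝ →ₗ[ℝ] so (Fin N) ℝ} (hS : QSym S)
    (hT : QSym T) : QSym (S - T) := by
  have h : S - T = S + (-1 : ℝ) • T := by
    rw [neg_one_smul, sub_eq_add_neg]
  rw [h]
  exact SoRho_QSym_add hS (SoRho_QSym_smul _ hT)

/-- The sum for the diagonal blocks. -/
private theorem SoRho_core1 (hn : (N : ℝ) - 2 ≠ 0) (B : Finset (Fin N))
    {r a : Matrix (Fin N) (Fin N) ℝ} (hr : r.IsSymm) (ha : a.IsSymm) (lam y : ℝ)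
    {i j : Fin N} (hi : i ∈ B) (hj : j ∈ B) (t X : Fin N → ℝ)
    (ht : r i j = 1 / (2 * ((N : ℝ) - 2)) * ∑ k ∈ B, t k)
    (hX : ∀ k ∈ B, X k = -lam * t k +
      y / 2 * ((r j i * 1 - r j k * (if i = k then 1 else 0) + r k k * (if i = j then 1 else 0) -
        r i k * (if k = j then 1 else 0)) + 1 / ((N : ℝ) - 2) * (0 - t k)) +
      1 / 2 * (a j i * 1 - a j k * (if i = k then 1 else 0) + a k k * (if i = j then 1 else 0) -
        a i k * (if k = j then 1 else 0))) :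
    1 / (2 * ((N : ℝ) - 2)) * ∑ k ∈ B, X k = -lam * r i j +
      y / (4 * ((N : ℝ) - 2)) * (((B.card : ℝ) - 4) * r i j + trA B r * (if i = j then 1 else 0)) +
      1 / (4 * ((N : ℝ) - 2)) *
        (((B.card : ℝ) - 2) * a i j + trA B a * (if i = j then 1 else 0)) := by
  rw [Finset.sum_congr rfl hX]
  have hr' : r j i = r i j := hr.apply i j
  have ha' : a j i = a i j := ha.apply i j
  have s1 : ∀ u : Matrix (Fin N) (Fin N) ℝ, ∑ k ∈ B, u j k * (if i = k then (1 : ℝ) else 0) =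
      u j i := by
    intro u
    simp only [mul_ite, mul_one, mul_zero, Finset.sum_ite_eq, hi, if_true]
  have s2 : ∀ u : Matrix (Fin N) (Fin N) ℝ, ∑ k ∈ B, u i k * (if k = j then (1 : ℝ) else 0) =
      u i j := by
    intro u
    simp only [mul_ite, mul_one, mul_zero, Finset.sum_ite_eq', hj, if_true]
  have s3 : ∀ u : Matrix (Fin N) (Fin N) ℝ, ∑ k ∈ B, u k k * (if i = j then (1 : ℝ) else 0) =
      trA B u * (if i = j then 1 else 0) := by
    intro u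
    unfold trA
    rw [Finset.sum_mul]
  have s4 : ∀ c : ℝ, ∑ _k ∈ B, c = B.card * c := by
    intro c
    rw [Finset.sum_const, nsmul_eq_mul]
  obtain ⟨T, hT⟩ : ∃ T : ℝ, T = ∑ k ∈ B, t k := ⟨_, rfl⟩
  have hT' : T = 2 * ((N : ℝ) - 2) * r i j := by
    rw [ht, ← hT]
    field_simp
  simp only [Finset.sum_add_distrib, Finset.sum_sub_distrib, ← Finset.mul_sum, s1, s2, s3, s4,
    ← hT, hr', ha', Finset.sum_const_zero]
  rw [hT']
  field_simp
  ring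

/-- The sum for the mixed block. -/
private theorem SoRho_core2 (hn : (N : ℝ) - 2 ≠ 0) (B : Finset (Fin N))
    {r r2 a : Matrix (Fin N) (Fin N) ℝ} (hr : r.IsSymm) (ha : a.IsSymm) (mu x1 x2 w1 w2 : ℝ)
    {i j : Fin N} (t X : Fin N → ℝ)
    (ht : a i j = 1 / (2 * ((N : ℝ) - 2)) * ∑ k ∈ B, t k)
    (hX : ∀ k ∈ B, X k = -mu * t k + x1 ^ 2 / 2 * r j i +
      x2 ^ 2 / 2 * (r2 k k * (if i = j then 1 else 0)) -
      w1 * (a k k * (if i = j then 1 else 0)) - w2 * a j i -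
      (w1 + w2) / 2 * (1 / ((N : ℝ) - 2) * (0 - t k))) :
    1 / (2 * ((N : ℝ) - 2)) * ∑ k ∈ B, X k = -mu * a i j +
      1 / (4 * ((N : ℝ) - 2)) * ((B.card : ℝ) * x1 ^ 2 * r i j +
        x2 ^ 2 * trA B r2 * (if i = j then 1 else 0)) -
      w1 / (2 * ((N : ℝ) - 2)) * trA B a * (if i = j then 1 else 0) -
      w2 / (2 * ((N : ℝ) - 2)) * (B.card : ℝ) * a i j +
      (w1 + w2) / (2 * ((N : ℝ) - 2)) * a i j := by
  rw [Finset.sum_congr rfl hX]
  have hr' : r j i = r i j := hr.apply i j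
  have ha' : a j i = a i j := ha.apply i j
  have s3 : ∀ u : Matrix (Fin N) (Fin N) ℝ, ∑ k ∈ B, u k k * (if i = j then (1 : ℝ) else 0) =
      trA B u * (if i = j then 1 else 0) := by
    intro u
    unfold trA
    rw [Finset.sum_mul]
  have s4 : ∀ c : ℝ, ∑ _k ∈ B, c = B.card * c := by
    intro c
    rw [Finset.sum_const, nsmul_eq_mul]
  obtain ⟨T, hT⟩ : ∃ T : ℝ, T = ∑ k ∈ B, t k := ⟨_, rfl⟩
  have hT' : T = 2 * ((N : ℝ) - 2) * a i j := by
    rw [ht, ← hT]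
    field_simp
  simp only [Finset.sum_add_distrib, Finset.sum_sub_distrib, ← Finset.mul_sum, s3, s4,
    ← hT, hr', ha', Finset.sum_const_zero]
  rw [hT']
  field_simp
  ring

/-- Reduction of a full sum to a block. -/
private theorem SoRho_sum_block (B : Finset (Fin N)) (f g : Fin N → ℝ)
    (h1 : ∀ k ∈ B, f k = g k) (h2 : ∀ k, k ∉ B → f k = 0) : ∑ k, f k = ∑ k ∈ B, g k := by
  rw [← Finset.sum_subset (Finset.subset_univ B) (fun k _ hk => h2 k hk)]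
  exact Finset.sum_congr rfl h1

/-- `F = ellO ..`, `r1 = rho (T11 β)`, `r2 = rho (T22 β)`, `a = rho (Tp β)`, `G1 = rho (T11 F)`, ... -/
theorem rsys_ellO (hN : 3 ≤ N) (A : Finset (Fin N)) (x1 x2 y1 y2 lam mu : ℝ)
    {β : so (Fin N) ℝ →ₗ[ℝ] so (Fin N) ℝ} (hβ : QSym β) (hc : CP A β) {s : ℝ} (hs : 0 ≤ s)
    (h : NB (ellO A x1 x2 y1 y2 lam mu β) s) :
    RSys A x1 x2 y1 y2 lam mu s (rho (T11 A β)) (rho (T22 A β)) (rho (Tp A β))
      (rho (T11 A (ellO A x1 x2 y1 y2 lam mu β))) (rho (T22 A (ellO A x1 x2 y1 y2 lam mu β)))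
      (rho (Tp A (ellO A x1 x2 y1 y2 lam mu β))) := by
  have hN3 : (3 : ℝ) ≤ N := by exact_mod_cast hN
  have hn : (N : ℝ) - 2 ≠ 0 := by
    intro h0
    linarith
  obtain ⟨q1, q2, q12, qp⟩ := blocks_sym A hβ
  have sr1 := rho_symm hN q1
  have sr2 := rho_symm hN q2
  have sa := rho_symm hN qp
  have hR : ∀ u : Matrix (Fin N) (Fin N) ℝ, QSym (Rop u) := fun u => opT_sym _
  have qF : QSym (ellO A x1 x2 y1 y2 lam mu β) := by
    unfold ellO
    refine SoRho_QSym_add (SoRho_QSym_add (SoRho_QSym_add ?_ ?_) ?_) ?_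
    · refine (blocks_sym A ?_).1
      exact SoRho_QSym_add (SoRho_QSym_add (SoRho_QSym_smul _ hβ)
        (SoRho_QSym_smul _ (SoRho_QSym_add (hR _) (Yo_sym _)))) (SoRho_QSym_smul _ (hR _))
    · refine (blocks_sym A ?_).2.1
      exact SoRho_QSym_add (SoRho_QSym_add (SoRho_QSym_smul _ hβ)
        (SoRho_QSym_smul _ (SoRho_QSym_add (hR _) (Yo_sym _)))) (SoRho_QSym_smul _ (hR _))
    · refine (blocks_sym A ?_).2.2.1
      exact SoRho_QSym_add (SoRho_QSym_smul _ hβ) (SoRho_QSym_smul _ (Yo_sym _))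
    · refine (blocks_sym A ?_).2.2.2
      exact SoRho_QSym_sub (SoRho_QSym_sub (SoRho_QSym_sub (SoRho_QSym_add (SoRho_QSym_add
        (SoRho_QSym_add (SoRho_QSym_smul _ hβ) (SoRho_QSym_smul _ (hR _)))
        (SoRho_QSym_smul _ (hR _))) (SoRho_QSym_smul _ (Yo_sym _))) (SoRho_QSym_smul _ (hR _)))
        (SoRho_QSym_smul _ (hR _))) (SoRho_QSym_smul _ (Yo_sym _))
  obtain ⟨p1, p2, p12, pp⟩ := blocks_sym A qF
  obtain ⟨s1, s2, s3⟩ := tn_sym hN hβ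
  -- values of the three matrices
  have hr1 : ∀ i ∈ A, ∀ j ∈ A, rho (T11 A β) i j =
      1 / (2 * ((N : ℝ) - 2)) * ∑ k ∈ A, tn β i k j k := by
    intro i hi j hj
    rw [SoRho_rho]
    congr 1
    refine SoRho_sum_block A _ _ (fun k hk => ?_) (fun k hk => ?_)
    · rw [SoRho_tn11, SoRho_bw_mm A _ _ _ hj hk, SoRho_bw_mm A _ _ _ hi hk]
      ring
    · rw [SoRho_tn11, SoRho_bw_mn A _ _ _ hj hk]
      ring
  have hr2 : ∀ i, i ∉ A → ∀ j, j ∉ A → rho (T22 A β) i j =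
      1 / (2 * ((N : ℝ) - 2)) * ∑ k ∈ Aᶜ, tn β i k j k := by
    intro i hi j hj
    rw [SoRho_rho]
    congr 1
    refine SoRho_sum_block Aᶜ _ _ (fun k hk => ?_) (fun k hk => ?_)
    · rw [Finset.mem_compl] at hk
      rw [SoRho_tn22, SoRho_bw_nn A _ _ _ hj hk, SoRho_bw_nn A _ _ _ hi hk]
      ring
    · rw [Finset.mem_compl, not_not] at hk
      rw [SoRho_tn22, SoRho_bw_nm A _ _ _ hj hk]
      ring
  have ha1 : ∀ i ∈ A, ∀ j ∈ A, rho (Tp A β) i j =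
      1 / (2 * ((N : ℝ) - 2)) * ∑ k ∈ Aᶜ, tn β i k j k := by
    intro i hi j hj
    rw [SoRho_rho]
    congr 1
    refine SoRho_sum_block Aᶜ _ _ (fun k hk => ?_) (fun k hk => ?_)
    · rw [Finset.mem_compl] at hk
      rw [SoRho_tnp, SoRho_bw_mn A _ _ _ hj hk, SoRho_bw_mn A _ _ _ hi hk]
      ring
    · rw [Finset.mem_compl, not_not] at hk
      rw [SoRho_tnp, SoRho_bw_mm A _ _ _ hj hk]
      ring
  have ha2 : ∀ i, i ∉ A → ∀ j, j ∉ A → rho (Tp A β) i j =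
      1 / (2 * ((N : ℝ) - 2)) * ∑ k ∈ A, tn β i k j k := by
    intro i hi j hj
    rw [SoRho_rho]
    congr 1
    refine SoRho_sum_block A _ _ (fun k hk => ?_) (fun k hk => ?_)
    · rw [SoRho_tnp, SoRho_bw_nm A _ _ _ hj hk, SoRho_bw_nm A _ _ _ hi hk]
      ring
    · rw [SoRho_tnp, SoRho_bw_nn A _ _ _ hj hk]
      ring
  have hr1A : ∀ i j, ¬(i ∈ A ∧ j ∈ A) → rho (T11 A β) i j = 0 := by
    intro i j hij
    rw [SoRho_rho, Finset.sum_eq_zero, mul_zero]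
    intro k _
    rw [SoRho_tn11]
    by_cases hi : i ∈ A
    · have hj : j ∉ A := fun hj => hij ⟨hi, hj⟩
      have : bw A 1 0 0 j k = 0 := by simp [bw, hj]
      rw [this]
      ring
    · have : bw A 1 0 0 i k = 0 := by simp [bw, hi]
      rw [this]
      ring
  have hr2A : ∀ i j, ¬(i ∉ A ∧ j ∉ A) → rho (T22 A β) i j = 0 := by
    intro i j hij
    rw [SoRho_rho, Finset.sum_eq_zero, mul_zero]
    intro k _
    rw [SoRho_tn22]
    by_cases hi : i ∈ A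
    · have : bw A 0 1 0 i k = 0 := by simp [bw, hi]
      rw [this]
      ring
    · have hj : j ∈ A := by
        by_contra hj
        exact hij ⟨hi, hj⟩
      have : bw A 0 1 0 j k = 0 := by simp [bw, hj]
      rw [this]
      ring
  have haA : ∀ i j, ¬(i ∈ A ↔ j ∈ A) → rho (Tp A β) i j = 0 := by
    intro i j hij
    rw [SoRho_rho, Finset.sum_eq_zero, mul_zero]
    intro k _
    rw [SoRho_tnp]
    by_cases hi : i ∈ A <;> by_cases hj : j ∈ A
    · exact absurd (iff_of_true hi hj) hij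
    · by_cases hk : k ∈ A <;> simp [bw, hi, hj, hk]
    · by_cases hk : k ∈ A <;> simp [bw, hi, hj, hk]
    · exact absurd (iff_of_false hi hj) hij
  have hcard : ((Aᶜ.card : ℕ) : ℝ) = (N : ℝ) - A.card := by
    rw [Finset.card_compl, Fintype.card_fin, Nat.cast_sub]
    have := Finset.card_le_univ A
    rwa [Fintype.card_fin] at this
  -- the tensor of `ellO`
  have hz : ∀ i j k, tn β i j k k = 0 := by
    intro i j k
    have := s2 i j k k
    linarith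
  refine ⟨sr1, sr2, sa, rho_symm hN p1, rho_symm hN p2, rho_symm hN pp, hr1A, hr2A, haA, ?_, ?_, ?_,
    ?_, ?_, MB_rho hN p1 hs (NB.T11 hN hs h), MB_rho hN p2 hs (NB.T22 hN hs h),
    MB_rho hN pp hs (NB.Tp hN hs h)⟩
  · -- traces
    unfold trA
    rw [Finset.sum_congr rfl (fun i hi => ha1 i hi i hi),
      Finset.sum_congr rfl (fun i hi => ha2 i (Finset.mem_compl.mp hi) i (Finset.mem_compl.mp hi)),
      ← Finset.mul_sum, ← Finset.mul_sum, Finset.sum_comm]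
    congr 1
    refine Finset.sum_congr rfl fun k _ => Finset.sum_congr rfl fun i _ => ?_
    rw [s1 k i i k, s2 k i k i]
    ring
  · intro i hi j hj
    have e : rho (T11 A (ellO A x1 x2 y1 y2 lam mu β)) i j = 1 / (2 * ((N : ℝ) - 2)) *
        ∑ k ∈ A, tn (ellO A x1 x2 y1 y2 lam mu β) i k j k := by
      rw [SoRho_rho]
      congr 1
      refine SoRho_sum_block A _ _ (fun k hk => ?_) (fun k hk => ?_)
      · rw [SoRho_tn11, SoRho_bw_mm A _ _ _ hj hk, SoRho_bw_mm A _ _ _ hi hk]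
        ring
      · rw [SoRho_tn11, SoRho_bw_mn A _ _ _ hj hk]
        ring
    rw [e]
    refine SoRho_core1 hn A sr1 sa lam y1 hi hj (fun k => tn β i k j k) _ (hr1 i hi j hj) ?_
    intro k hk
    unfold ellO
    rw [SoRho_tn_add, SoRho_tn_add, SoRho_tn_add, SoRho_tn11, SoRho_tn22, SoRho_tn12, SoRho_tnp,
      SoRho_bw_mm A _ _ _ hj hk, SoRho_bw_mm A _ _ _ hi hk, SoRho_bw_mm A _ _ _ hj hk,
      SoRho_bw_mm A _ _ _ hi hk, SoRho_bw_mm A _ _ _ hj hk, SoRho_bw_mm A _ _ _ hi hk]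
    simp only [SoRho_tn_add, SoRho_tn_smul, tn_Rop sr1, tn_Rop sa, tn_Yo hN q1, SoRho_tn11,
      SoRho_bw_mm A 1 0 0 hi hk, SoRho_bw_mm A 1 0 0 hj hk, SoRho_bw_mm A 1 0 0 hk hk,
      SoRho_bw_mm A 1 0 0 hi hj, SoRho_bw_mm A 1 0 0 hk hj, hz, if_true]
    ring
  · intro i hi j hj
    have e : rho (T22 A (ellO A x1 x2 y1 y2 lam mu β)) i j = 1 / (2 * ((N : ℝ) - 2)) *
        ∑ k ∈ Aᶜ, tn (ellO A x1 x2 y1 y2 lam mu β) i k j k := by
      rw [SoRho_rho]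
      congr 1
      refine SoRho_sum_block Aᶜ _ _ (fun k hk => ?_) (fun k hk => ?_)
      · rw [Finset.mem_compl] at hk
        rw [SoRho_tn22, SoRho_bw_nn A _ _ _ hj hk, SoRho_bw_nn A _ _ _ hi hk]
        ring
      · rw [Finset.mem_compl, not_not] at hk
        rw [SoRho_tn22, SoRho_bw_nm A _ _ _ hj hk]
        ring
    rw [e, ← hcard]
    refine SoRho_core1 hn Aᶜ sr2 sa lam y2 (Finset.mem_compl.mpr hi) (Finset.mem_compl.mpr hj)
      (fun k => tn β i k j k) _ (hr2 i hi j hj) ?_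
    intro k hk
    rw [Finset.mem_compl] at hk
    unfold ellO
    rw [SoRho_tn_add, SoRho_tn_add, SoRho_tn_add, SoRho_tn11, SoRho_tn22, SoRho_tn12, SoRho_tnp,
      SoRho_bw_nn A _ _ _ hj hk, SoRho_bw_nn A _ _ _ hi hk, SoRho_bw_nn A _ _ _ hj hk,
      SoRho_bw_nn A _ _ _ hi hk, SoRho_bw_nn A _ _ _ hj hk, SoRho_bw_nn A _ _ _ hi hk]
    simp only [SoRho_tn_add, SoRho_tn_smul, tn_Rop sr2, tn_Rop sa, tn_Yo hN q2, SoRho_tn22,
      SoRho_bw_nn A 0 1 0 hi hk, SoRho_bw_nn A 0 1 0 hj hk, SoRho_bw_nn A 0 1 0 hk hk,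
      SoRho_bw_nn A 0 1 0 hi hj, SoRho_bw_nn A 0 1 0 hk hj, hz, if_true]
    ring
  · intro i hi j hj
    have e : rho (Tp A (ellO A x1 x2 y1 y2 lam mu β)) i j = 1 / (2 * ((N : ℝ) - 2)) *
        ∑ k ∈ Aᶜ, tn (ellO A x1 x2 y1 y2 lam mu β) i k j k := by
      rw [SoRho_rho]
      congr 1
      refine SoRho_sum_block Aᶜ _ _ (fun k hk => ?_) (fun k hk => ?_)
      · rw [Finset.mem_compl] at hk
        rw [SoRho_tnp, SoRho_bw_mn A _ _ _ hj hk, SoRho_bw_mn A _ _ _ hi hk]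
        ring
      · rw [Finset.mem_compl, not_not] at hk
        rw [SoRho_tnp, SoRho_bw_mm A _ _ _ hj hk]
        ring
    rw [e, ← hcard]
    refine SoRho_core2 hn Aᶜ (r := rho (T11 A β)) (r2 := rho (T22 A β)) sr1 sa mu x1 x2
      (x1 / 2 - y1) (x2 / 2 - y2) (fun k => tn β i k j k) _ (ha1 i hi j hj) ?_
    intro k hk
    rw [Finset.mem_compl] at hk
    have hik : i ≠ k := fun h => hk (h ▸ hi)
    have hkj : k ≠ j := fun h => hk (h ▸ hj)
    have z1 : rho (T11 A β) k k = 0 := hr1A k k (fun h => hk h.1)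
    have z2 : rho (T22 A β) j i = 0 := hr2A j i (fun h => h.1 hj)
    have z3 : res Aᶜ (rho (Tp A β)) j i = 0 := by simp [res, hj]
    have z4 : res Aᶜ (rho (Tp A β)) k k = rho (Tp A β) k k := by simp [res, hk]
    have z5 : res A (rho (Tp A β)) j i = rho (Tp A β) j i := by simp [res, hi, hj]
    have z6 : res A (rho (Tp A β)) k k = 0 := by simp [res, hk]
    unfold ellO
    rw [SoRho_tn_add, SoRho_tn_add, SoRho_tn_add, SoRho_tn11, SoRho_tn22, SoRho_tn12, SoRho_tnp,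
      SoRho_bw_mn A _ _ _ hj hk, SoRho_bw_mn A _ _ _ hi hk, SoRho_bw_mn A _ _ _ hj hk,
      SoRho_bw_mn A _ _ _ hi hk, SoRho_bw_mn A _ _ _ hj hk, SoRho_bw_mn A _ _ _ hi hk]
    simp only [SoRho_tn_add, SoRho_tn_sub, SoRho_tn_smul, tn_Rop sr1, tn_Rop sr2,
      tn_Rop (res_symm Aᶜ sa), tn_Rop (res_symm A sa), tn_Yo hN q12, tn_Yo hN qp, SoRho_tn12,
      SoRho_tnp, SoRho_bw_mn A 0 0 1 hi hk, SoRho_bw_mn A 0 0 1 hj hk,
      SoRho_bw_mn A 1 0 0 hi hk, SoRho_bw_mn A 1 0 0 hj hk,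
      SoRho_bw_mn A 0 1 0 hi hk, SoRho_bw_mn A 0 1 0 hj hk,
      hz, if_true, if_neg hik, if_neg hkj, z1, z2, z3, z4, z5, z6]
    ring
  · intro i hi j hj
    have e : rho (Tp A (ellO A x1 x2 y1 y2 lam mu β)) i j = 1 / (2 * ((N : ℝ) - 2)) *
        ∑ k ∈ A, tn (ellO A x1 x2 y1 y2 lam mu β) i k j k := by
      rw [SoRho_rho]
      congr 1
      refine SoRho_sum_block A _ _ (fun k hk => ?_) (fun k hk => ?_)
      · rw [SoRho_tnp, SoRho_bw_nm A _ _ _ hj hk, SoRho_bw_nm A _ _ _ hi hk]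
        ring
      · rw [SoRho_tnp, SoRho_bw_nn A _ _ _ hj hk]
        ring
    rw [e]
    have key := SoRho_core2 hn A (r := rho (T22 A β)) (r2 := rho (T11 A β)) sr2 sa mu x2 x1
      (x2 / 2 - y2) (x1 / 2 - y1) (fun k => tn β i k j k)
      (fun k => tn (ellO A x1 x2 y1 y2 lam mu β) i k j k) (ha2 i hi j hj) ?_
    · rw [key]
      ring
    intro k hk
    have hik : i ≠ k := fun h => hi (h ▸ hk)
    have hkj : k ≠ j := fun h => hj (h ▸ hk)
    have z1 : rho (T22 A β) k k = 0 := hr2A k k (fun h => h.1 hk)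
    have z2 : rho (T11 A β) j i = 0 := hr1A j i (fun h => hj h.1)
    have z3 : res Aᶜ (rho (Tp A β)) j i = rho (Tp A β) j i := by simp [res, hi, hj]
    have z4 : res Aᶜ (rho (Tp A β)) k k = 0 := by simp [res, hk]
    have z5 : res A (rho (Tp A β)) j i = 0 := by simp [res, hj]
    have z6 : res A (rho (Tp A β)) k k = rho (Tp A β) k k := by simp [res, hk]
    show tn (ellO A x1 x2 y1 y2 lam mu β) i k j k = _
    unfold ellO
    rw [SoRho_tn_add, SoRho_tn_add, SoRho_tn_add, SoRho_tn11, SoRho_tn22, SoRho_tn12, SoRho_tnp,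
      SoRho_bw_nm A _ _ _ hj hk, SoRho_bw_nm A _ _ _ hi hk, SoRho_bw_nm A _ _ _ hj hk,
      SoRho_bw_nm A _ _ _ hi hk, SoRho_bw_nm A _ _ _ hj hk, SoRho_bw_nm A _ _ _ hi hk]
    simp only [SoRho_tn_add, SoRho_tn_sub, SoRho_tn_smul, tn_Rop sr1, tn_Rop sr2,
      tn_Rop (res_symm Aᶜ sa), tn_Rop (res_symm A sa), tn_Yo hN q12, tn_Yo hN qp, SoRho_tn12,
      SoRho_tnp, SoRho_bw_nm A 0 0 1 hi hk, SoRho_bw_nm A 0 0 1 hj hk,
      SoRho_bw_nm A 1 0 0 hi hk, SoRho_bw_nm A 1 0 0 hj hk,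
      SoRho_bw_nm A 0 1 0 hi hk, SoRho_bw_nm A 0 1 0 hj hk,
      hz, if_true, if_neg hik, if_neg hkj, z1, z2, z3, z4, z5, z6]
    ring

end Pool.Agent.EinU
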