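import Pool.Agent.EinU.FrmA
import Pool.Agent.EinU.SoOp

/-!
# The form `TH2` on `so(N)`

* `TH2_comm`: in a frame of `⊤` (`exists_frame`, `TH2_frame`, `UU_comm`).
* `TH2_BW`: `trace M = (1/2) ∑ i, ∑ j, (M (Fm i j)) i j` (`SoT_trace` in `SmIso/SoT.lean`, private: copy it), so
  `TH2 T (BW A u v t) z z = - (1/2) ∑ i j, w i j * ⁅z, T ⁅z, Fm i j⁆⁆ i j`, `w = bw A u v t`;
  `⁅z, Fm i j⁆ = ∑ k, (z k i • Fm k j + z k j • Fm i k)`, `⁅x, Z⁆ i j = ∑ c, (x i c * Z c j + x j c * Z i c)`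
  for skew `x`; so `TH2 = - (1/2) ∑ w i j (x i c z k i t k j c j + x i c z k j t i k c j + x j c z k i t k j i c
  + x j c z k j t i k i c)` and by `i ↔ j` the first and the last, and the two middle terms, are equal.  (Numerically checked.)
-/

namespace Pool.Agent.EinU

open Matrix Pool.Agent.EStab Pool.Agent.EinS Pool.Agent.SmIso LieAlgebra.Orthogonal

variable {N : ℕ}

theorem TH2_comm (hN : 3 ≤ N) {T U : so (Fin N) ℝ →ₗ[ℝ] so (Fin N) ℝ} (hT : QSym T) (hU : QSym U)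
    (z : so (Fin N) ℝ) : TH2 T U z z = TH2 U T z z := by
  obtain ⟨n, e, he⟩ := exists_frame (so_compact hN) (⊤ : Submodule ℝ (so (Fin N) ℝ))
  have hs : ∀ {V : so (Fin N) ℝ →ₗ[ℝ] so (Fin N) ℝ}, QSym V → (mo e V).IsSymm := by
    intro V hV
    ext x y
    change Qf (so (Fin N) ℝ) (V (e x)) (e y) = Qf (so (Fin N) ℝ) (V (e y)) (e x)
    rw [hV, Qf_symm]
  rw [TH2_frame he hT hU, TH2_frame he hU hT, UU_comm (CF_sym e) (hs hT) (hs hU)]

/-- the projection onto the skew-symmetric matrices -/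
private noncomputable def SoTH2_p : Matrix (Fin N) (Fin N) ℝ →ₗ[ℝ] so (Fin N) ℝ where
  toFun X := ⟨(1 / 2 : ℝ) • (X - Xᵀ), by
    rw [mem_so, Matrix.transpose_smul, Matrix.transpose_sub, Matrix.transpose_transpose,
      ← smul_neg, neg_sub]⟩
  map_add' X Y := by
    apply Subtype.ext
    show (1 / 2 : ℝ) • (X + Y - (X + Y)ᵀ) = (1 / 2 : ℝ) • (X - Xᵀ) + (1 / 2 : ℝ) • (Y - Yᵀ)
    rw [Matrix.transpose_add, ← smul_add]
    congr 1
    abel
  map_smul' c X := by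
    apply Subtype.ext
    show (1 / 2 : ℝ) • (c • X - (c • X)ᵀ) = c • ((1 / 2 : ℝ) • (X - Xᵀ))
    rw [Matrix.transpose_smul, ← smul_sub, smul_comm]

private theorem SoTH2_p_single (i j : Fin N) :
    SoTH2_p (Matrix.single i j (1 : ℝ)) = (1 / 2 : ℝ) • Fm i j := by
  apply Subtype.ext
  show (1 / 2 : ℝ) • (Matrix.single i j (1 : ℝ) - (Matrix.single i j (1 : ℝ))ᵀ) =
    (1 / 2 : ℝ) • (Matrix.single i j (1 : ℝ) - Matrix.single j i 1)
  rw [Matrix.transpose_single]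

private theorem SoTH2_p_id (x : so (Fin N) ℝ) : SoTH2_p x.1 = x := by
  apply Subtype.ext
  show (1 / 2 : ℝ) • (x.1 - x.1ᵀ) = x.1
  have h := (mem_so (Fin N) ℝ x.1).1 x.2
  rw [h, sub_neg_eq_add, ← two_smul ℝ x.1, smul_smul]
  norm_num

private theorem SoTH2_trace (M : so (Fin N) ℝ →ₗ[ℝ] so (Fin N) ℝ) :
    LinearMap.trace ℝ _ M = (1 / 2) * ∑ i, ∑ j, (M (Fm i j)).1 i j := by
  let ι : so (Fin N) ℝ →ₗ[ℝ] Matrix (Fin N) (Fin N) ℝ :=
    { toFun := fun x => x.1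
      map_add' := fun _ _ => rfl
      map_smul' := fun _ _ => rfl }
  have h1 : M = (M ∘ₗ SoTH2_p) ∘ₗ ι := by
    ext x : 1
    show M x = M (SoTH2_p x.1)
    rw [SoTH2_p_id]
  have h2 : LinearMap.trace ℝ _ M = LinearMap.trace ℝ _ (ι ∘ₗ (M ∘ₗ SoTH2_p)) := by
    conv_lhs => rw [h1]
    exact LinearMap.trace_comp_comm' ι (M ∘ₗ SoTH2_p)
  rw [h2, LinearMap.trace_eq_matrix_trace ℝ (Matrix.stdBasis ℝ (Fin N) (Fin N))]
  unfold Matrix.trace
  rw [Fintype.sum_prod_type, Finset.mul_sum]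
  refine Finset.sum_congr rfl fun i _ => ?_
  rw [Finset.mul_sum]
  refine Finset.sum_congr rfl fun j _ => ?_
  rw [Matrix.diag_apply, LinearMap.toMatrix_apply, Matrix.stdBasis_eq_single]
  have h3 : ∀ X : Matrix (Fin N) (Fin N) ℝ,
      (Matrix.stdBasis ℝ (Fin N) (Fin N)).repr X (i, j) = X i j := by
    intro X
    simp [Matrix.stdBasis]
  rw [h3]
  show (M (SoTH2_p (Matrix.single i j (1 : ℝ)))).1 i j = _
  rw [SoTH2_p_single, map_smul]
  rfl

private theorem SoTH2_F_apply (a b i j : Fin N) : (Fm a b).1 i j =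
    (if a = i ∧ b = j then 1 else 0) - (if b = i ∧ a = j then 1 else 0) := by
  show (Matrix.single a b (1 : ℝ) - Matrix.single b a 1 : Matrix (Fin N) (Fin N) ℝ) i j = _
  rw [Matrix.sub_apply, Matrix.single_apply, Matrix.single_apply]

private theorem SoTH2_bracket (x y : so (Fin N) ℝ) : (⁅x, y⁆ : so (Fin N) ℝ).1 =
    x.1 * y.1 - y.1 * x.1 := rfl

private theorem SoTH2_lr (A B : Matrix (Fin N) (Fin N) ℝ) (a b i j : Fin N) :
    (A * (Matrix.single a b (1 : ℝ) * B)) i j = A i a * B b j := by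
  rw [Matrix.mul_apply, Finset.sum_eq_single a]
  · rw [Matrix.single_mul_apply_same, one_mul]
  · intro k _ hk
    rw [Matrix.single_mul_apply_of_ne _ _ _ _ _ hk, mul_zero]
  · intro h
    exact absurd (Finset.mem_univ a) h

/-- the entries of `⁅z, Fm i j⁆` -/
private theorem SoTH2_brF (z : so (Fin N) ℝ) (i j a b : Fin N) :
    (⁅z, Fm i j⁆ : so (Fin N) ℝ).1 a b =
      z.1 a i * (if j = b then 1 else 0) - z.1 a j * (if i = b then 1 else 0)
      - (if i = a then 1 else 0) * z.1 j b + (if j = a then 1 else 0) * z.1 i b := by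
  rw [SoTH2_bracket]
  show (z.1 * (Matrix.single i j (1 : ℝ) - Matrix.single j i 1) -
    (Matrix.single i j (1 : ℝ) - Matrix.single j i 1) * z.1 : Matrix (Fin N) (Fin N) ℝ) a b = _
  have e : z.1 * (Matrix.single i j (1 : ℝ) - Matrix.single j i 1) -
    (Matrix.single i j (1 : ℝ) - Matrix.single j i 1) * z.1 =
    (z.1 * (Matrix.single i j (1 : ℝ) * 1) - z.1 * (Matrix.single j i (1 : ℝ) * 1)) -
    (1 * (Matrix.single i j (1 : ℝ) * z.1) - 1 * (Matrix.single j i (1 : ℝ) * z.1)) := by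
    noncomm_ring
  rw [e]
  simp only [Matrix.sub_apply, SoTH2_lr, Matrix.one_apply]
  simp only [eq_comm (a := a) (b := i), eq_comm (a := a) (b := j)]
  ring

/-- the components of `T ⁅z, Fm i j⁆` -/
private theorem SoTH2_T (hN : 3 ≤ N) {T : so (Fin N) ℝ →ₗ[ℝ] so (Fin N) ℝ} (hT : QSym T)
    (z : so (Fin N) ℝ) (i j c d : Fin N) : (T ⁅z, Fm i j⁆).1 c d =
      ∑ k, z.1 k i * tn T k j c d + ∑ k, z.1 k j * tn T i k c d := by
  obtain ⟨s1, s2, s3⟩ := tn_sym hN hT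
  rw [apply_tn]
  simp only [SoTH2_brF, add_mul, sub_mul, Finset.sum_add_distrib, Finset.sum_sub_distrib,
    mul_ite, mul_one, mul_zero, ite_mul, one_mul, zero_mul, Finset.sum_ite_eq, Finset.mem_univ,
    if_true]
  have h2 : ∀ (p q : Fin N), ∑ a, ∑ b, (if p = a then z.1 q b * tn T a b c d else 0) =
      ∑ b, z.1 q b * tn T p b c d := by
    intro p q
    rw [Finset.sum_eq_single p]
    · simp
    · intro a _ ha
      simp [Ne.symm ha]
    · intro h
      exact absurd (Finset.mem_univ p) h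
  rw [h2, h2]
  have h3 : ∑ a, z.1 a j * tn T a i c d = - ∑ k, z.1 k j * tn T i k c d := by
    rw [← Finset.sum_neg_distrib]
    refine Finset.sum_congr rfl fun k _ => ?_
    rw [s1 i k c d]
    ring
  have h4 : ∑ b, z.1 j b * tn T i b c d = - ∑ k, z.1 k j * tn T i k c d := by
    rw [← Finset.sum_neg_distrib]
    refine Finset.sum_congr rfl fun k _ => ?_
    rw [so_skew z j k]
    ring
  have h5 : ∑ b, z.1 i b * tn T j b c d = ∑ k, z.1 k i * tn T k j c d := by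
    refine Finset.sum_congr rfl fun k _ => ?_
    rw [so_skew z i k, s1 k j c d]
    ring
  rw [h3, h4, h5]
  ring

private theorem SoTH2_BWF (A : Finset (Fin N)) (u v t : ℝ) (i j : Fin N) :
    BW A u v t (Fm i j) = bw A u v t i j • Fm i j := by
  apply Subtype.ext
  ext a b
  rw [BW_apply]
  show _ = bw A u v t i j * (Fm i j).1 a b
  rw [SoTH2_F_apply, mul_sub, mul_sub]
  congr 1
  · by_cases h : i = a ∧ j = b
    · rw [h.1, h.2]
    · rw [if_neg h, mul_zero, mul_zero]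
  · by_cases h : j = a ∧ i = b
    · rw [← h.1, ← h.2, bw_symm]
    · rw [if_neg h, mul_zero, mul_zero]

/-- the entries of a bracket -/
private theorem SoTH2_br (x Z : so (Fin N) ℝ) (i j : Fin N) :
    (⁅x, Z⁆ : so (Fin N) ℝ).1 i j = ∑ c, (x.1 i c * Z.1 c j + x.1 j c * Z.1 i c) := by
  rw [SoTH2_bracket, Matrix.sub_apply, Matrix.mul_apply, Matrix.mul_apply,
    ← Finset.sum_sub_distrib]
  refine Finset.sum_congr rfl fun c _ => ?_
  rw [so_skew x c j]
  ring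

theorem TH2_BW (hN : 3 ≤ N) (A : Finset (Fin N)) (u v t : ℝ)
    {T : so (Fin N) ℝ →ₗ[ℝ] so (Fin N) ℝ} (hT : QSym T) (z : so (Fin N) ℝ) :
    TH2 T (BW A u v t) z z =
      ∑ i, ∑ k, ∑ c, z.1 i k * z.1 i c * (∑ j, bw A u v t i j * tn T k j c j) +
      ∑ i, ∑ j, ∑ k, ∑ c, bw A u v t i j * (z.1 i c * z.1 j k * tn T i k c j) := by
  obtain ⟨s1, s2, s3⟩ := tn_sym hN hT
  unfold TH2
  rw [SoTH2_trace]
  have h1 : ∀ i j, (((LieAlgebra.ad ℝ (so (Fin N) ℝ)) z ∘ₗ T ∘ₗ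
      (LieAlgebra.ad ℝ (so (Fin N) ℝ)) z ∘ₗ BW A u v t) (Fm i j)).1 i j =
      bw A u v t i j * (⁅z, T ⁅z, Fm i j⁆⁆ : so (Fin N) ℝ).1 i j := by
    intro i j
    show (⁅z, T ⁅z, BW A u v t (Fm i j)⁆⁆ : so (Fin N) ℝ).1 i j = _
    rw [SoTH2_BWF, lie_smul, map_smul, lie_smul]
    rfl
  have h2 : ∀ i j, (⁅z, T ⁅z, Fm i j⁆⁆ : so (Fin N) ℝ).1 i j =
      - ∑ k, ∑ c, (z.1 i k * z.1 i c * tn T k j c j + z.1 i c * z.1 j k * tn T i k c j +
        z.1 j c * z.1 i k * tn T j k c i + z.1 j k * z.1 j c * tn T k i c i) := by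
    intro i j
    rw [SoTH2_br, Finset.sum_comm, ← Finset.sum_neg_distrib]
    refine Finset.sum_congr rfl fun c _ => ?_
    rw [SoTH2_T hN hT, SoTH2_T hN hT, mul_add, mul_add, Finset.mul_sum, Finset.mul_sum,
      Finset.mul_sum, Finset.mul_sum, ← Finset.sum_add_distrib, ← Finset.sum_add_distrib,
      ← Finset.sum_add_distrib, ← Finset.sum_neg_distrib]
    refine Finset.sum_congr rfl fun k _ => ?_
    have e1 : tn T k j i c = tn T j k c i := by rw [s1 j k i c, s2 j k c i, neg_neg]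
    have e2 : tn T i k i c = tn T k i c i := by rw [s1 k i i c, s2 k i c i, neg_neg]
    rw [so_skew z k i, so_skew z k j, e1, e2]
    ring
  have h3 : ∑ i, ∑ j, bw A u v t i j * (∑ k, ∑ c, (z.1 i k * z.1 i c * tn T k j c j +
      z.1 i c * z.1 j k * tn T i k c j + z.1 j c * z.1 i k * tn T j k c i +
      z.1 j k * z.1 j c * tn T k i c i)) =
      2 * (∑ i, ∑ j, bw A u v t i j * (∑ k, ∑ c, z.1 i k * z.1 i c * tn T k j c j) +
        ∑ i, ∑ j, bw A u v t i j * (∑ k, ∑ c, z.1 i c * z.1 j k * tn T i k c j)) := by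
    have e3 : ∑ i, ∑ j, bw A u v t i j * (∑ k, ∑ c, z.1 j c * z.1 i k * tn T j k c i) =
        ∑ i, ∑ j, bw A u v t i j * (∑ k, ∑ c, z.1 i c * z.1 j k * tn T i k c j) := by
      rw [Finset.sum_comm]
      refine Finset.sum_congr rfl fun i _ => Finset.sum_congr rfl fun j _ => ?_
      rw [bw_symm]
    have e4 : ∑ i, ∑ j, bw A u v t i j * (∑ k, ∑ c, z.1 j k * z.1 j c * tn T k i c i) =
        ∑ i, ∑ j, bw A u v t i j * (∑ k, ∑ c, z.1 i k * z.1 i c * tn T k j c j) := by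
      rw [Finset.sum_comm]
      refine Finset.sum_congr rfl fun i _ => Finset.sum_congr rfl fun j _ => ?_
      rw [bw_symm]
    simp only [Finset.sum_add_distrib, mul_add] at e3 e4 ⊢
    rw [e3, e4]
    ring
  have h4 : ∑ i, ∑ k, ∑ c, z.1 i k * z.1 i c * (∑ j, bw A u v t i j * tn T k j c j) =
      ∑ i, ∑ j, bw A u v t i j * (∑ k, ∑ c, z.1 i k * z.1 i c * tn T k j c j) := by
    refine Finset.sum_congr rfl fun i _ => ?_
    simp only [Finset.mul_sum]
    calc ∑ k, ∑ c, ∑ j, z.1 i k * z.1 i c * (bw A u v t i j * tn T k j c j)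
        = ∑ k, ∑ j, ∑ c, z.1 i k * z.1 i c * (bw A u v t i j * tn T k j c j) :=
          Finset.sum_congr rfl fun k _ => Finset.sum_comm
      _ = ∑ j, ∑ k, ∑ c, z.1 i k * z.1 i c * (bw A u v t i j * tn T k j c j) := Finset.sum_comm
      _ = _ := by
          refine Finset.sum_congr rfl fun j _ => Finset.sum_congr rfl fun k _ =>
            Finset.sum_congr rfl fun c _ => ?_
          ring
  have h5 : ∑ i, ∑ j, ∑ k, ∑ c, bw A u v t i j * (z.1 i c * z.1 j k * tn T i k c j) =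
      ∑ i, ∑ j, bw A u v t i j * (∑ k, ∑ c, z.1 i c * z.1 j k * tn T i k c j) := by
    simp only [Finset.mul_sum]
  rw [h4, h5]
  simp only [h1, h2, mul_neg, Finset.sum_neg_distrib]
  rw [h3]
  ring

end Pool.Agent.EinU
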