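import Pool.Agent.EinU.SoOp

/-!
# The identities of the operator `Yo`

All are identities of tensors (`tn_inj`, `tn_Yo`, `tn_sym`): with `y a b c d = (1/n)(t a c d b - t a d c b)`:
`(1/n)(y a c d b - y a d c b) = (1/n²)(2 t a b c d + t a d b c - t a c b d) = (1/n) y a b c d + (2/n²) t a b c d`.
Tensors of the blocks: `tn (T11 A β) a b c d = t a b c d` if `a b c d ∈ A`, else `0`; `T22`: all `∉ A`; `T12`: `a b ∈ A` and
`c d ∉ A` or conversely; `Tp`: exactly one of `a, b` and exactly one of `c, d` in `A`.  If `β` satisfies `CP` (and is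
symmetric) these are all the components.  (Numerically checked.)
* `gamma`: on `p` (`a ∈ A`, `b ∉ A`, `c ∈ A`, `d ∉ A`): `tn (Tp (Yo (Tp β))) a b c d = -(1/n) t a d c b`.
* `Yo_12p`: the `T12` component of `Yo Yo = (1/n) Yo + 2/n²` for `Tp β`, and so on.
-/

set_option linter.all false

namespace Pool.Agent.EinU

open Matrix Pool.Agent.EStab Pool.Agent.EinS Pool.Agent.SmIso LieAlgebra.Orthogonal

variable {N : ℕ}

private theorem SoY_perm {t : Fin N → Fin N → Fin N → Fin N → ℝ} (h : TSym t) (a b c d : Fin N) :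
    t a b d c = -t a b c d ∧
    t b a c d = -t a b c d ∧
    t b a d c = t a b c d ∧
    t c d a b = t a b c d ∧
    t c d b a = -t a b c d ∧
    t d c a b = -t a b c d ∧
    t d c b a = t a b c d ∧
    t a c b d = -t a c d b ∧
    t b d a c = -t a c d b ∧
    t b d c a = t a c d b ∧
    t c a b d = t a c d b ∧
    t c a d b = -t a c d b ∧
    t d b a c = t a c d b ∧
    t d b c a = -t a c d b ∧
    t a d c b = -t a d b c ∧
    t b c a d = t a d b c ∧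
    t b c d a = -t a d b c ∧
    t c b a d = -t a d b c ∧
    t c b d a = t a d b c ∧
    t d a b c = -t a d b c ∧
    t d a c b = t a d b c := by
  have s1 := h.s1
  have s2 := h.s2
  have s3 := h.s3
  have r1 : ∀ a b c d, t b a d c = t a b c d := by
    intro a b c d
    rw [s1, s2]
    ring
  have r2 : ∀ a b c d, t c d b a = -t a b c d := by
    intro a b c d
    rw [s2, s3]
  have r3 : ∀ a b c d, t d c a b = -t a b c d := by
    intro a b c d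
    rw [s1, s3]
  have r4 : ∀ a b c d, t d c b a = t a b c d := by
    intro a b c d
    rw [s1, s2, s3]
    ring
  refine ⟨s2 a b c d, s1 a b c d, r1 a b c d, s3 a b c d, r2 a b c d, r3 a b c d, r4 a b c d,
    s2 a c d b, r3 a c d b, r4 a c d b, r1 a c d b, s1 a c d b, s3 a c d b, r2 a c d b,
    s2 a d b c, s3 a d b c, r2 a d b c, r3 a d b c, r4 a d b c, s1 a d b c, r1 a d b c⟩

private theorem SoY_tn_add (β γ : so (Fin N) ℝ →ₗ[ℝ] so (Fin N) ℝ) (a b c d : Fin N) :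
    tn (β + γ) a b c d = tn β a b c d + tn γ a b c d := rfl

private theorem SoY_tn_smul (r : ℝ) (β : so (Fin N) ℝ →ₗ[ℝ] so (Fin N) ℝ) (a b c d : Fin N) :
    tn (r • β) a b c d = r * tn β a b c d := rfl

private theorem SoY_Fm (a b i j : Fin N) : (Fm a b).1 i j =
    (if a = i ∧ b = j then 1 else 0) - (if b = i ∧ a = j then 1 else 0) := by
  show (Matrix.single a b (1 : ℝ) - Matrix.single b a 1 : Matrix (Fin N) (Fin N) ℝ) i j = _
  rw [Matrix.sub_apply, Matrix.single_apply, Matrix.single_apply]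

private theorem SoY_BW_Fm (A : Finset (Fin N)) (u v t : ℝ) (a b : Fin N) :
    BW A u v t (Fm a b) = bw A u v t a b • Fm a b := by
  apply Subtype.ext
  ext i j
  rw [BW_apply]
  show _ = bw A u v t a b * (Fm a b).1 i j
  rw [SoY_Fm]
  by_cases h1 : a = i ∧ b = j
  · obtain ⟨rfl, rfl⟩ := h1
    rfl
  · by_cases h2 : b = i ∧ a = j
    · obtain ⟨rfl, rfl⟩ := h2
      rw [bw_symm]
    · rw [if_neg h1, if_neg h2]
      ring

private theorem SoY_tn_BW (A : Finset (Fin N)) (u v t u' v' t' : ℝ)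
    (β : so (Fin N) ℝ →ₗ[ℝ] so (Fin N) ℝ) (a b c d : Fin N) :
    tn (BW A u v t ∘ₗ β ∘ₗ BW A u' v' t') a b c d =
      bw A u v t c d * (bw A u' v' t' a b * tn β a b c d) := by
  show (BW A u v t (β (BW A u' v' t' (Fm a b)))).1 c d = _
  rw [BW_apply, SoY_BW_Fm, map_smul]
  rfl

private theorem SoY_11 (A : Finset (Fin N)) (β : so (Fin N) ℝ →ₗ[ℝ] so (Fin N) ℝ)
    (a b c d : Fin N) : tn (T11 A β) a b c d =
      bw A 1 0 0 c d * (bw A 1 0 0 a b * tn β a b c d) := SoY_tn_BW A _ _ _ _ _ _ β a b c d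

private theorem SoY_22 (A : Finset (Fin N)) (β : so (Fin N) ℝ →ₗ[ℝ] so (Fin N) ℝ)
    (a b c d : Fin N) : tn (T22 A β) a b c d =
      bw A 0 1 0 c d * (bw A 0 1 0 a b * tn β a b c d) := SoY_tn_BW A _ _ _ _ _ _ β a b c d

private theorem SoY_p (A : Finset (Fin N)) (β : so (Fin N) ℝ →ₗ[ℝ] so (Fin N) ℝ)
    (a b c d : Fin N) : tn (Tp A β) a b c d =
      bw A 0 0 1 c d * (bw A 0 0 1 a b * tn β a b c d) := SoY_tn_BW A _ _ _ _ _ _ β a b c d

private theorem SoY_12 (A : Finset (Fin N)) (β : so (Fin N) ℝ →ₗ[ℝ] so (Fin N) ℝ)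
    (a b c d : Fin N) : tn (T12 A β) a b c d =
      bw A 1 0 0 c d * (bw A 0 1 0 a b * tn β a b c d) +
        bw A 0 1 0 c d * (bw A 1 0 0 a b * tn β a b c d) := by
  unfold T12
  rw [SoY_tn_add, SoY_tn_BW, SoY_tn_BW]

private theorem SoY_QBW (A : Finset (Fin N)) {β : so (Fin N) ℝ →ₗ[ℝ] so (Fin N) ℝ}
    (hβ : QSym β) (u v t u' v' t' : ℝ) (x y : so (Fin N) ℝ) :
    Qf (so (Fin N) ℝ) ((BW A u v t ∘ₗ β ∘ₗ BW A u' v' t') x) y =
      Qf (so (Fin N) ℝ) x ((BW A u' v' t' ∘ₗ β ∘ₗ BW A u v t) y) := by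
  show Qf (so (Fin N) ℝ) (BW A u v t (β (BW A u' v' t' x))) y =
    Qf (so (Fin N) ℝ) x (BW A u' v' t' (β (BW A u v t y)))
  rw [BW_sym A u v t, hβ, BW_sym A u' v' t']

theorem Yo_sym (β : so (Fin N) ℝ →ₗ[ℝ] so (Fin N) ℝ) : QSym (Yo β) := by
  exact opT_sym _

theorem blocks_sym (A : Finset (Fin N)) {β : so (Fin N) ℝ →ₗ[ℝ] so (Fin N) ℝ} (hβ : QSym β) :
    QSym (T11 A β) ∧ QSym (T22 A β) ∧ QSym (T12 A β) ∧ QSym (Tp A β) := by
  refine ⟨fun x y => SoY_QBW A hβ _ _ _ _ _ _ x y, fun x y => SoY_QBW A hβ _ _ _ _ _ _ x y, ?_,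
    fun x y => SoY_QBW A hβ _ _ _ _ _ _ x y⟩
  intro x y
  unfold T12
  rw [LinearMap.add_apply, LinearMap.add_apply, map_add, LinearMap.add_apply, map_add,
    SoY_QBW A hβ, SoY_QBW A hβ, add_comm]

theorem Yo_Yo (hN : 3 ≤ N) {β : so (Fin N) ℝ →ₗ[ℝ] so (Fin N) ℝ} (hβ : QSym β) :
    Yo (Yo β) = (1 / ((N : ℝ) - 2)) • Yo β + (2 / ((N : ℝ) - 2) ^ 2) • β := by
  apply tn_inj
  intro a b c d
  obtain ⟨e1, e2, e3, e4, e5, e6, e7, e8, e9, e10, e11, e12, e13, e14, e15, e16, e17, e18, e19,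
    e20, e21⟩ := SoY_perm (tn_sym hN hβ) a b c d
  simp only [SoY_tn_add, SoY_tn_smul, tn_Yo hN (Yo_sym β), tn_Yo hN hβ, e1, e2, e3, e4, e5, e6, e7, e8, e9, e10, e11, e12, e13,
    e14, e15, e16, e17, e18, e19, e20, e21]
  generalize ((N : ℝ) - 2) = n
  ring

theorem Yo_add (hN : 3 ≤ N) {β γ : so (Fin N) ℝ →ₗ[ℝ] so (Fin N) ℝ} (hβ : QSym β)
    (hγ : QSym γ) : Yo (β + γ) = Yo β + Yo γ := by
  have hs : QSym (β + γ) := by
    intro x y
    rw [LinearMap.add_apply, LinearMap.add_apply, map_add, LinearMap.add_apply, map_add, hβ, hγ]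
  apply tn_inj
  intro a b c d
  rw [tn_Yo hN hs, SoY_tn_add, SoY_tn_add, SoY_tn_add, tn_Yo hN hβ, tn_Yo hN hγ]
  ring

theorem Yo_smul (hN : 3 ≤ N) (c : ℝ) {β : so (Fin N) ℝ →ₗ[ℝ] so (Fin N) ℝ} (hβ : QSym β) :
    Yo (c • β) = c • Yo β := by
  have hs : QSym (c • β) := by
    intro x y
    rw [LinearMap.smul_apply, LinearMap.smul_apply, map_smul, LinearMap.smul_apply, map_smul, hβ]
  apply tn_inj
  intro a b i j
  rw [tn_Yo hN hs, SoY_tn_smul, SoY_tn_smul, SoY_tn_smul, tn_Yo hN hβ]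
  ring

/-- A symmetric endomorphism which satisfies `CP` is the sum of its blocks. -/
theorem blocks_sum (A : Finset (Fin N)) {β : so (Fin N) ℝ →ₗ[ℝ] so (Fin N) ℝ} (hc : CP A β) :
    β = T11 A β + T22 A β + T12 A β + Tp A β := by
  apply tn_inj
  intro a b c d
  have h1 : bw A 0 0 1 a b * tn β a b c d = bw A 0 0 1 c d * tn β a b c d := by
    have h2 := hc (Fm a b)
    rw [SoY_BW_Fm, map_smul] at h2
    have h3 := congrArg (fun z : so (Fin N) ℝ => z.1 c d) h2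
    exact h3
  simp only [SoY_tn_add, SoY_11, SoY_22, SoY_12, SoY_p]
  by_cases ha : a ∈ A <;> by_cases hb : b ∈ A <;> by_cases hc : c ∈ A <;> by_cases hd : d ∈ A <;>
    simp only [bw, ha, hb, hc, hd, if_true, if_false] at h1 ⊢ <;> linarith

theorem Yo_T11 (hN : 3 ≤ N) (A : Finset (Fin N)) {β : so (Fin N) ℝ →ₗ[ℝ] so (Fin N) ℝ}
    (hβ : QSym β) : T11 A (Yo (T11 A β)) = Yo (T11 A β) := by
  obtain ⟨h11, h22, h12, hp⟩ := blocks_sym A hβ
  apply tn_inj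
  intro a b c d
  obtain ⟨e1, e2, e3, e4, e5, e6, e7, e8, e9, e10, e11, e12, e13, e14, e15, e16, e17, e18, e19,
    e20, e21⟩ := SoY_perm (tn_sym hN hβ) a b c d
  simp only [SoY_tn_add, SoY_tn_smul, SoY_11, SoY_22, SoY_12, SoY_p, tn_Yo hN h11,
    e1, e2, e3, e4, e5, e6, e7, e8, e9, e10, e11, e12, e13,
    e14, e15, e16, e17, e18, e19, e20, e21]
  generalize ((N : ℝ) - 2) = n
  by_cases ha : a ∈ A <;> by_cases hb : b ∈ A <;> by_cases hc : c ∈ A <;> by_cases hd : d ∈ A <;>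
    simp only [bw, ha, hb, hc, hd, if_true, if_false] <;> ring

theorem Yo_T22 (hN : 3 ≤ N) (A : Finset (Fin N)) {β : so (Fin N) ℝ →ₗ[ℝ] so (Fin N) ℝ}
    (hβ : QSym β) : T22 A (Yo (T22 A β)) = Yo (T22 A β) := by
  obtain ⟨h11, h22, h12, hp⟩ := blocks_sym A hβ
  apply tn_inj
  intro a b c d
  obtain ⟨e1, e2, e3, e4, e5, e6, e7, e8, e9, e10, e11, e12, e13, e14, e15, e16, e17, e18, e19,
    e20, e21⟩ := SoY_perm (tn_sym hN hβ) a b c d
  simp only [SoY_tn_add, SoY_tn_smul, SoY_11, SoY_22, SoY_12, SoY_p, tn_Yo hN h22,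
    e1, e2, e3, e4, e5, e6, e7, e8, e9, e10, e11, e12, e13,
    e14, e15, e16, e17, e18, e19, e20, e21]
  generalize ((N : ℝ) - 2) = n
  by_cases ha : a ∈ A <;> by_cases hb : b ∈ A <;> by_cases hc : c ∈ A <;> by_cases hd : d ∈ A <;>
    simp only [bw, ha, hb, hc, hd, if_true, if_false] <;> ring

theorem Yo_T12 (hN : 3 ≤ N) (A : Finset (Fin N)) {β : so (Fin N) ℝ →ₗ[ℝ] so (Fin N) ℝ}
    (hβ : QSym β) : Tp A (Yo (T12 A β)) = Yo (T12 A β) := by
  obtain ⟨h11, h22, h12, hp⟩ := blocks_sym A hβ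
  apply tn_inj
  intro a b c d
  obtain ⟨e1, e2, e3, e4, e5, e6, e7, e8, e9, e10, e11, e12, e13, e14, e15, e16, e17, e18, e19,
    e20, e21⟩ := SoY_perm (tn_sym hN hβ) a b c d
  simp only [SoY_tn_add, SoY_tn_smul, SoY_11, SoY_22, SoY_12, SoY_p, tn_Yo hN h12,
    e1, e2, e3, e4, e5, e6, e7, e8, e9, e10, e11, e12, e13,
    e14, e15, e16, e17, e18, e19, e20, e21]
  generalize ((N : ℝ) - 2) = n
  by_cases ha : a ∈ A <;> by_cases hb : b ∈ A <;> by_cases hc : c ∈ A <;> by_cases hd : d ∈ A <;>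
    simp only [bw, ha, hb, hc, hd, if_true, if_false] <;> ring

theorem Yo_Tp (hN : 3 ≤ N) (A : Finset (Fin N)) {β : so (Fin N) ℝ →ₗ[ℝ] so (Fin N) ℝ}
    (hβ : QSym β) : T12 A (Yo (Tp A β)) + Tp A (Yo (Tp A β)) = Yo (Tp A β) := by
  obtain ⟨h11, h22, h12, hp⟩ := blocks_sym A hβ
  apply tn_inj
  intro a b c d
  obtain ⟨e1, e2, e3, e4, e5, e6, e7, e8, e9, e10, e11, e12, e13, e14, e15, e16, e17, e18, e19,
    e20, e21⟩ := SoY_perm (tn_sym hN hβ) a b c d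
  simp only [SoY_tn_add, SoY_tn_smul, SoY_11, SoY_22, SoY_12, SoY_p, tn_Yo hN hp,
    e1, e2, e3, e4, e5, e6, e7, e8, e9, e10, e11, e12, e13,
    e14, e15, e16, e17, e18, e19, e20, e21]
  generalize ((N : ℝ) - 2) = n
  by_cases ha : a ∈ A <;> by_cases hb : b ∈ A <;> by_cases hc : c ∈ A <;> by_cases hd : d ∈ A <;>
    simp only [bw, ha, hb, hc, hd, if_true, if_false] <;> ring

theorem gamma (hN : 3 ≤ N) (A : Finset (Fin N)) {β : so (Fin N) ℝ →ₗ[ℝ] so (Fin N) ℝ}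
    (hβ : QSym β) :
    Tp A (Yo (Tp A (Yo (Tp A β)))) = (1 / ((N : ℝ) - 2) ^ 2) • Tp A β := by
  obtain ⟨h11, h22, h12, hp⟩ := blocks_sym A hβ
  have h1 := (blocks_sym A (Yo_sym (Tp A β))).2.2.2
  apply tn_inj
  intro a b c d
  obtain ⟨e1, e2, e3, e4, e5, e6, e7, e8, e9, e10, e11, e12, e13, e14, e15, e16, e17, e18, e19,
    e20, e21⟩ := SoY_perm (tn_sym hN hβ) a b c d
  simp only [SoY_tn_add, SoY_tn_smul, SoY_11, SoY_22, SoY_12, SoY_p, tn_Yo hN hp, tn_Yo hN h1,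
    e1, e2, e3, e4, e5, e6, e7, e8, e9, e10, e11, e12, e13,
    e14, e15, e16, e17, e18, e19, e20, e21]
  generalize ((N : ℝ) - 2) = n
  by_cases ha : a ∈ A <;> by_cases hb : b ∈ A <;> by_cases hc : c ∈ A <;> by_cases hd : d ∈ A <;>
    simp only [bw, ha, hb, hc, hd, if_true, if_false] <;> ring

theorem Yo_12p (hN : 3 ≤ N) (A : Finset (Fin N)) {β : so (Fin N) ℝ →ₗ[ℝ] so (Fin N) ℝ}
    (hβ : QSym β) :
    T12 A (Yo (Tp A (Yo (Tp A β)))) = (1 / ((N : ℝ) - 2)) • T12 A (Yo (Tp A β)) := by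
  obtain ⟨h11, h22, h12, hp⟩ := blocks_sym A hβ
  have h1 := (blocks_sym A (Yo_sym (Tp A β))).2.2.2
  apply tn_inj
  intro a b c d
  obtain ⟨e1, e2, e3, e4, e5, e6, e7, e8, e9, e10, e11, e12, e13, e14, e15, e16, e17, e18, e19,
    e20, e21⟩ := SoY_perm (tn_sym hN hβ) a b c d
  simp only [SoY_tn_add, SoY_tn_smul, SoY_11, SoY_22, SoY_12, SoY_p, tn_Yo hN hp, tn_Yo hN h1,
    e1, e2, e3, e4, e5, e6, e7, e8, e9, e10, e11, e12, e13,
    e14, e15, e16, e17, e18, e19, e20, e21]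
  generalize ((N : ℝ) - 2) = n
  by_cases ha : a ∈ A <;> by_cases hb : b ∈ A <;> by_cases hc : c ∈ A <;> by_cases hd : d ∈ A <;>
    simp only [bw, ha, hb, hc, hd, if_true, if_false] <;> ring

theorem Yo_p12 (hN : 3 ≤ N) (A : Finset (Fin N)) {β : so (Fin N) ℝ →ₗ[ℝ] so (Fin N) ℝ}
    (hβ : QSym β) :
    Tp A (Yo (T12 A (Yo (Tp A β)))) =
      (1 / ((N : ℝ) - 2)) • Tp A (Yo (Tp A β)) + (1 / ((N : ℝ) - 2) ^ 2) • Tp A β := by
  obtain ⟨h11, h22, h12, hp⟩ := blocks_sym A hβ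
  have h1 := (blocks_sym A (Yo_sym (Tp A β))).2.2.1
  apply tn_inj
  intro a b c d
  obtain ⟨e1, e2, e3, e4, e5, e6, e7, e8, e9, e10, e11, e12, e13, e14, e15, e16, e17, e18, e19,
    e20, e21⟩ := SoY_perm (tn_sym hN hβ) a b c d
  simp only [SoY_tn_add, SoY_tn_smul, SoY_11, SoY_22, SoY_12, SoY_p, tn_Yo hN hp, tn_Yo hN h1,
    e1, e2, e3, e4, e5, e6, e7, e8, e9, e10, e11, e12, e13,
    e14, e15, e16, e17, e18, e19, e20, e21]
  generalize ((N : ℝ) - 2) = n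
  by_cases ha : a ∈ A <;> by_cases hb : b ∈ A <;> by_cases hc : c ∈ A <;> by_cases hd : d ∈ A <;>
    simp only [bw, ha, hb, hc, hd, if_true, if_false] <;> ring

theorem Yo_1212 (hN : 3 ≤ N) (A : Finset (Fin N)) {β : so (Fin N) ℝ →ₗ[ℝ] so (Fin N) ℝ}
    (hβ : QSym β) :
    T12 A (Yo (Yo (T12 A β))) = (2 / ((N : ℝ) - 2) ^ 2) • T12 A β := by
  obtain ⟨h11, h22, h12, hp⟩ := blocks_sym A hβ
  have h1 := Yo_sym (T12 A β)
  apply tn_inj
  intro a b c d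
  obtain ⟨e1, e2, e3, e4, e5, e6, e7, e8, e9, e10, e11, e12, e13, e14, e15, e16, e17, e18, e19,
    e20, e21⟩ := SoY_perm (tn_sym hN hβ) a b c d
  simp only [SoY_tn_add, SoY_tn_smul, SoY_11, SoY_22, SoY_12, SoY_p, tn_Yo hN h12, tn_Yo hN h1,
    e1, e2, e3, e4, e5, e6, e7, e8, e9, e10, e11, e12, e13,
    e14, e15, e16, e17, e18, e19, e20, e21]
  generalize ((N : ℝ) - 2) = n
  by_cases ha : a ∈ A <;> by_cases hb : b ∈ A <;> by_cases hc : c ∈ A <;> by_cases hd : d ∈ A <;>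
    simp only [bw, ha, hb, hc, hd, if_true, if_false] <;> ring

theorem Yo_pp12 (hN : 3 ≤ N) (A : Finset (Fin N)) {β : so (Fin N) ℝ →ₗ[ℝ] so (Fin N) ℝ}
    (hβ : QSym β) :
    Tp A (Yo (Yo (T12 A β))) = (1 / ((N : ℝ) - 2)) • Yo (T12 A β) := by
  obtain ⟨h11, h22, h12, hp⟩ := blocks_sym A hβ
  have h1 := Yo_sym (T12 A β)
  apply tn_inj
  intro a b c d
  obtain ⟨e1, e2, e3, e4, e5, e6, e7, e8, e9, e10, e11, e12, e13, e14, e15, e16, e17, e18, e19,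
    e20, e21⟩ := SoY_perm (tn_sym hN hβ) a b c d
  simp only [SoY_tn_add, SoY_tn_smul, SoY_11, SoY_22, SoY_12, SoY_p, tn_Yo hN h12, tn_Yo hN h1,
    e1, e2, e3, e4, e5, e6, e7, e8, e9, e10, e11, e12, e13,
    e14, e15, e16, e17, e18, e19, e20, e21]
  generalize ((N : ℝ) - 2) = n
  by_cases ha : a ∈ A <;> by_cases hb : b ∈ A <;> by_cases hc : c ∈ A <;> by_cases hd : d ∈ A <;>
    simp only [bw, ha, hb, hc, hd, if_true, if_false] <;> ring

end Pool.Agent.EinU
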